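import Pool.Agent.Lib.MP_12adaf_ntNS.N0

/-!
# Semilinear actions on fields of rational functions
-/

namespace Pool.Agent.Lib.MP_12adaf_nt.NS

universe u

section N5aux

variable {E G σ : Type u} [Field E] [Group G] [MulSemiringAction G E] [Fintype σ]

/-- The semilinear ring endomorphism of the polynomial ring attached to `g`. -/
private noncomputable def n5hom (A : G → Matrix σ σ E) (g : G) :
    MvPolynomial σ E →+* MvPolynomial σ E :=
  MvPolynomial.eval₂Hom (MvPolynomial.C.comp (MulSemiringAction.toRingHom G E g))
    (fun s => ∑ t, MvPolynomial.C (A g t s) * MvPolynomial.X t)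

private theorem n5hom_C (A : G → Matrix σ σ E) (g : G) (a : E) :
    n5hom A g (MvPolynomial.C a) = MvPolynomial.C (g • a) := by
  simp [n5hom]

private theorem n5hom_X (A : G → Matrix σ σ E) (g : G) (s : σ) :
    n5hom A g (MvPolynomial.X s) = ∑ t, MvPolynomial.C (A g t s) * MvPolynomial.X t := by
  simp [n5hom]

private theorem n5hom_one [DecidableEq σ] (A : G → Matrix σ σ E) (h1 : A 1 = 1) :
    n5hom A 1 = RingHom.id _ := by
  apply MvPolynomial.ringHom_ext
  · intro a
    rw [n5hom_C, one_smul, RingHom.id_apply]
  · intro s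
    rw [n5hom_X, h1, RingHom.id_apply]
    simp [Matrix.one_apply, Finset.sum_ite_eq', apply_ite]

private theorem n5hom_mul (A : G → Matrix σ σ E)
    (hmul : ∀ g h, A (g * h) = A g * (A h).map fun a => g • a) (g h : G) :
    n5hom A (g * h) = (n5hom A g).comp (n5hom A h) := by
  apply MvPolynomial.ringHom_ext
  · intro a
    rw [RingHom.comp_apply, n5hom_C, n5hom_C, n5hom_C, mul_smul]
  · intro s
    rw [RingHom.comp_apply, n5hom_X, n5hom_X, map_sum, hmul]
    simp only [map_mul, n5hom_C, n5hom_X, Matrix.mul_apply, Matrix.map_apply, map_sum,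
      Finset.sum_mul, Finset.mul_sum]
    rw [Finset.sum_comm]
    refine Finset.sum_congr rfl fun t _ => Finset.sum_congr rfl fun r _ => ?_
    ring

private noncomputable def n5equiv [DecidableEq σ] (A : G → Matrix σ σ E) (h1 : A 1 = 1)
    (hmul : ∀ g h, A (g * h) = A g * (A h).map fun a => g • a) (g : G) :
    MvPolynomial σ E ≃+* MvPolynomial σ E :=
  RingEquiv.ofRingHom (n5hom A g) (n5hom A g⁻¹)
    (by rw [← n5hom_mul A hmul, mul_inv_cancel, n5hom_one A h1])
    (by rw [← n5hom_mul A hmul, inv_mul_cancel, n5hom_one A h1])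

private theorem n5equiv_apply [DecidableEq σ] (A : G → Matrix σ σ E) (h1 : A 1 = 1)
    (hmul : ∀ g h, A (g * h) = A g * (A h).map fun a => g • a) (g : G) (p : MvPolynomial σ E) :
    n5equiv A h1 hmul g p = n5hom A g p := rfl

private noncomputable def n5aut [DecidableEq σ] (A : G → Matrix σ σ E) (h1 : A 1 = 1)
    (hmul : ∀ g h, A (g * h) = A g * (A h).map fun a => g • a) :
    G →* RingAut (MvPolynomial σ E) where
  toFun g := n5equiv A h1 hmul g
  map_one' := by
    ext1 p
    rw [n5equiv_apply, n5hom_one A h1]
    rfl
  map_mul' g h := by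
    ext1 p
    rw [n5equiv_apply, n5hom_mul A hmul]
    rfl

end N5aux

/-- **Existence of semilinear actions.**  `E'` is the fraction field of `MvPolynomial σ E`
(`IsFractionRing.mulSemiringAction` extends the action). -/
theorem exists_matrix_ext {E G σ : Type u} [Field E] [Group G] [MulSemiringAction G E]
    [Fintype σ] [DecidableEq σ] (A : G → Matrix σ σ E) (h1 : A 1 = 1)
    (hmul : ∀ g h, A (g * h) = A g * (A h).map fun a => g • a) :
    ∃ (E' : Type u) (_ : Field E') (_ : Algebra E E') (_ : MulSemiringAction G E') (X : σ → E'),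
      AlgebraicIndependent E X ∧ IntermediateField.adjoin E (Set.range X) = ⊤ ∧
      (∀ (g : G) (a : E), g • algebraMap E E' a = algebraMap E E' (g • a)) ∧
      ∀ (g : G) (s : σ), g • X s = ∑ t, algebraMap E E' (A g t s) * X t := by
  let P := MvPolynomial σ E
  let L := FractionRing P
  let F : G →* RingAut L :=
    (IsFractionRing.ringEquivOfRingEquivHom P L).comp (n5aut A h1 hmul)
  have hF : ∀ (g : G) (p : P), F g (algebraMap P L p) = algebraMap P L (n5hom A g p) := by
    intro g p
    exact IsFractionRing.ringEquivOfRingEquiv_algebraMap _ _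
  let act : MulSemiringAction G L := MulSemiringAction.compHom L F
  have hact : ∀ (g : G) (x : L), g • x = F g x := fun g x => rfl
  have hC : ∀ a : E, algebraMap E L a = algebraMap P L (MvPolynomial.C a) := by
    intro a
    rw [IsScalarTower.algebraMap_apply E P L]
    rfl
  refine ⟨L, inferInstance, inferInstance, act, fun s => algebraMap P L (MvPolynomial.X s),
    ?_, ?_, ?_, ?_⟩
  · have h := MvPolynomial.algebraicIndependent_X (R := E) (σ := σ)
    exact h.map' (f := IsScalarTower.toAlgHom E P L) (IsFractionRing.injective P L)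
  · rw [eq_top_iff]
    rintro x -
    obtain ⟨p, q, hq, rfl⟩ := IsFractionRing.div_surjective (A := P) x
    have key : ∀ p : P, algebraMap P L p ∈ IntermediateField.adjoin E
        (Set.range fun s : σ => algebraMap P L (MvPolynomial.X s)) := by
      intro p
      induction p using MvPolynomial.induction_on with
      | C a =>
        rw [← hC]
        exact IntermediateField.algebraMap_mem _ a
      | add p q hp hq =>
        rw [map_add]
        exact add_mem hp hq
      | mul_X p s hp =>
        rw [map_mul]
        exact mul_mem hp (IntermediateField.subset_adjoin _ _ ⟨s, rfl⟩)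
    exact div_mem (key p) (key q)
  · intro g a
    rw [hact, hC, hC, hF, n5hom_C]
  · intro g s
    rw [hact, hF, n5hom_X, map_sum]
    refine Finset.sum_congr rfl fun t _ => ?_
    rw [map_mul, hC]

end Pool.Agent.Lib.MP_12adaf_nt.NS
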