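import Pool.Agent.Lib.MP_12adaf_ntNS.N1
import Pool.Agent.Lib.MP_12adaf_nt.CM.GVe

/-!
# Alternating groups are good
-/

namespace Pool.Agent.Lib.MP_12adaf_nt.NS

universe u

/-- The permutation representation by matrices: `(permRep n π) j i = 1` iff `j = π i`. -/
private def n8Rep (n : ℕ) : Equiv.Perm (Fin n) →* Matrix (Fin n) (Fin n) ℚ where
  toFun π := Matrix.of fun j i => if j = π i then 1 else 0
  map_one' := by
    ext j i
    simp [Matrix.one_apply]
  map_mul' π σ := by
    ext j i
    simp only [Matrix.mul_apply, Matrix.of_apply, Equiv.Perm.coe_mul, Function.comp_apply]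
    rw [Finset.sum_eq_single (σ i)]
    · simp
    · intro b _ hb
      rw [if_neg hb, mul_zero]
    · intro h
      exact absurd (Finset.mem_univ _) h

private theorem n8Rep_apply {n : ℕ} (π : Equiv.Perm (Fin n)) (j i : Fin n) :
    n8Rep n π j i = if j = π i then 1 else 0 := rfl

private theorem n8Rep_injective (n : ℕ) : Function.Injective (n8Rep n) := by
  intro π σ h
  ext i
  have h1 := congrFun (congrFun h (π i)) i
  rw [n8Rep_apply, n8Rep_apply, if_pos rfl] at h1
  by_contra hne
  rw [if_neg] at h1
  · exact one_ne_zero h1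
  · intro h2
    exact hne (congrArg Fin.val h2)

private theorem n8_gv {n : ℕ} (hn : 2 ≤ n) (S : Subgroup (Equiv.Perm (Fin n)))
    (hS : S = alternatingGroup (Fin n)) : GV.{u} S (n8Rep n) := by
  intro K M E G B _ _ _ _ _ _ _ _ _ _ _ _ _ _ _ _ _ x κ hact hx hgen hgx h1 h2
  classical
  cases nonempty_fintype G
  cases nonempty_fintype B
  subst hS
  refine gversion (K := K) (M := M) (E := E) (G := G) (B := B) hn (x := x) (κ := κ) hact hx hgen
    ?_ h1 ?_
  · intro g b i
    rw [hgx g b i]
    rw [Finset.sum_eq_single (κ g b i)]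
    · rw [n8Rep_apply, if_pos rfl, Rat.cast_one, one_mul]
    · intro j _ hj
      rw [n8Rep_apply, if_neg hj, Rat.cast_zero, zero_mul]
    · intro h
      exact absurd (Finset.mem_univ _) h
  · intro τ
    exact h2 (fun b => (τ b : Equiv.Perm (Fin n))) fun b => (τ b).2

/-- **Alternating groups are good.**  `W = Perm (Fin n)`, `j` the inclusion composed with `e`,
`ρ π` the permutation matrix with entries `(ρ π) j i = if j = π i then 1 else 0`; `GV` is the
theorem `gversion` in `Pool/Agent/Lib/MP_12adaf_nt/CM/GVe.lean`; automorphisms: N1. -/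
theorem isGood_alternating {n : ℕ} (hn : 5 ≤ n) (hn6 : n ≠ 6) {S : Type u} [Group S]
    (e : S ≃* alternatingGroup (Fin n)) : IsGood S := by
  have hsimp : IsSimpleGroup (alternatingGroup (Fin n)) :=
    alternatingGroup.isSimpleGroup (by rw [Nat.card_eq_fintype_card, Fintype.card_fin]; exact hn)
  refine ⟨?_, ?_, ?_⟩
  · haveI := hsimp
    haveI : Nontrivial S := e.toEquiv.nontrivial
    exact IsSimpleGroup.isSimpleGroup_of_surjective e.symm.toMonoidHom e.symm.surjective
  · by_contra hcon
    push Not at hcon
    have hcomm : ∀ a b : alternatingGroup (Fin n), a * b = b * a := by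
      intro a b
      apply e.symm.injective
      rw [map_mul, map_mul, hcon]
    have h1 : ∀ a : alternatingGroup (Fin n), (a : Equiv.Perm (Fin n)) = 1 := fun a =>
      centralizer_alternating (by omega) (a : Equiv.Perm (Fin n)) fun b => by
        have := congrArg Subtype.val (hcomm a b)
        exact this
    haveI := hsimp
    obtain ⟨a, ha⟩ := exists_ne (1 : alternatingGroup (Fin n))
    exact ha (Subtype.ext (h1 a))
  · refine ⟨Equiv.Perm (Fin n), inferInstance, inferInstance,
      (alternatingGroup (Fin n)).subtype.comp e.toMonoidHom, n, n8Rep n, ?_, n8Rep_injective n,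
      ?_, ?_, ?_⟩
    · exact (Subgroup.subtype_injective _).comp e.injective
    · intro φ
      obtain ⟨π, hπ⟩ := aut_alternating hn hn6 ((e.symm.trans φ).trans e)
      refine ⟨π, fun s => ?_⟩
      have h1 := hπ (e s)
      simpa using h1
    · intro w hw
      refine centralizer_alternating (by omega) w fun a => ?_
      have h1 := hw (e.symm a)
      simpa using h1
    · refine n8_gv (by omega) _ ?_
      rw [MonoidHom.range_comp, MonoidHom.range_eq_top.mpr e.surjective,
        ← MonoidHom.range_eq_map, Subgroup.range_subtype]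

end Pool.Agent.Lib.MP_12adaf_nt.NS
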