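import Pool.Agent.Lib.MP_12adaf_ntNS.N7d
import Pool.Agent.Lib.MP_12adaf_ntNS.N8

/-!
# Stable rationality of fields of invariants: alternating composition factors
-/

namespace Pool.Agent.Lib.MP_12adaf_nt.NS

universe u

/-- The group `S` is isomorphic to an alternating group `Aₙ`, `n ≥ 5`, `n ≠ 6`. -/
def IsAlternating (S : Type u) [Group S] : Prop :=
  ∃ n : ℕ, 5 ≤ n ∧ n ≠ 6 ∧ Nonempty (S ≃* alternatingGroup (Fin n))

theorem IsAlternating.of_equiv (S T : Type u) [Group S] [Group T] (e : S ≃* T)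
    (h : IsAlternating S) : IsAlternating T := by
  obtain ⟨n, h1, h2, ⟨f⟩⟩ := h
  exact ⟨n, h1, h2, ⟨e.symm.trans f⟩⟩

theorem IsAlternating.isGood (S : Type u) [Group S] (h : IsAlternating S) : IsGood S := by
  obtain ⟨n, h1, h2, ⟨f⟩⟩ := h
  exact isGood_alternating h1 h2 f

theorem goal_alternating {K M G : Type u} [Field K] [Field M] [CharZero M] [Algebra K M]
    [Group G] [Finite G] [MulSemiringAction G M] [SMulCommClass G K M]
    [Algebra.IsInvariant K M G] (h : HasFactors IsAlternating (kerSub M G)) : Goal K M G :=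
  goal_of_factors IsAlternating.of_equiv IsAlternating.isGood _ K M G rfl h

end Pool.Agent.Lib.MP_12adaf_nt.NS
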