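import Pool.Agent.Lib.MP_12adaf_ntNS.P0

/-!
# The rotation subgroup of the Weyl group of type `E₆` is simple
-/

namespace Pool.Agent.Lib.MP_12adaf_nt.E6

open scoped Pointwise commutatorElement

private lemma P1_cz {i j : Fin 36} : cc i j = 0 ↔ Pk.c i j = 1 := by
  have h := Pk.c_eq i j
  omega

private lemma P1_cs {i j : Fin 36} :
    cc i j * cc i j = 1 ↔ Pk.disB (Nat.beq (Pk.c i j) 0) (Nat.beq (Pk.c i j) 2) = true := by
  have h := Pk.c_eq i j
  rw [mul_self_eq_one_iff]
  constructor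
  · rintro (h1 | h1)
    · have h2 : Pk.c i j = 2 := by omega
      rw [h2]
      rfl
    · have h2 : Pk.c i j = 0 := by omega
      rw [h2]
      rfl
  · intro h1
    rcases Pk.disB_spec h1 with h2 | h2
    · have h3 := Pk.of_beq h2
      omega
    · have h3 := Pk.of_beq h2
      omega

private lemma P1_g0 {a b : Fin 27} : gg a b = 0 ↔ Pk.g a b = 0 := by
  have h := Pk.g_eq a b
  omega

private lemma P1_g1 {a b : Fin 27} : gg a b = 1 ↔ Pk.g a b = 1 := by
  have h := Pk.g_eq a b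
  omega

/-- the check of `P1_orth` -/
private noncomputable def P1_orthC : Bool :=
  Pk.allB (fun i => Pk.allB (fun k =>
    Pk.impB (Pk.disB (Nat.beq (Pk.c i k) 0) (Nat.beq (Pk.c i k) 2)) (Pk.anyB (fun l =>
      Pk.conB (Nat.beq (Pk.c i l) 1) (Nat.beq (Pk.c k l) 1)) 36)) 36) 36

private theorem P1_orthC_true : P1_orthC = true := by decide +kernel

private theorem P1_orth : ∀ i k : Fin 36, cc i k * cc i k = 1 →
    ∃ l : Fin 36, cc i l = 0 ∧ cc k l = 0 := by
  intro i k h
  obtain ⟨l, hl, h1⟩ := Pk.anyB_spec (Pk.impB_spec (Pk.allB_spec (Pk.allB_spec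
    P1_orthC_true i i.2) k k.2) (P1_cs.1 h))
  obtain ⟨h2, h3⟩ := Pk.conB_spec h1
  exact ⟨⟨l, hl⟩, P1_cz.2 (Pk.of_beq h2), P1_cz.2 (Pk.of_beq h3)⟩

/-- the check of `P1_nonorth` -/
private noncomputable def P1_nonorthC : Bool :=
  Pk.allB (fun i => Pk.allB (fun j => Pk.impB (Nat.beq (Pk.c i j) 1) (Pk.anyB (fun k =>
    Pk.conB (Pk.disB (Nat.beq (Pk.c i k) 0) (Nat.beq (Pk.c i k) 2))
      (Pk.disB (Nat.beq (Pk.c k j) 0) (Nat.beq (Pk.c k j) 2))) 36)) 36) 36

private theorem P1_nonorthC_true : P1_nonorthC = true := by decide +kernel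

private theorem P1_nonorth : ∀ i j : Fin 36, cc i j = 0 →
    ∃ k : Fin 36, cc i k * cc i k = 1 ∧ cc k j * cc k j = 1 := by
  intro i j h
  obtain ⟨k, hk, h1⟩ := Pk.anyB_spec (Pk.impB_spec (Pk.allB_spec (Pk.allB_spec
    P1_nonorthC_true i i.2) j j.2) (Pk.beq_of (P1_cz.1 h)))
  obtain ⟨h2, h3⟩ := Pk.conB_spec h1
  exact ⟨⟨k, hk⟩, P1_cs.2 h2, P1_cs.2 h3⟩

/-- the check of `P1_ri` -/
private noncomputable def P1_riC : Bool :=
  Pk.allB (fun i => Pk.allB (fun k =>
    Pk.impB (Pk.disB (Nat.beq (Pk.c i k) 0) (Nat.beq (Pk.c i k) 2))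
      (Nat.beq (Pk.r i k) (Pk.r k i))) 36) 36

private theorem P1_riC_true : P1_riC = true := by decide +kernel

private theorem P1_ri : ∀ i k : Fin 36, cc i k * cc i k = 1 → ri i k = ri k i := by
  intro i k h
  refine Fin.ext ?_
  rw [Pk.r_eq, Pk.r_eq]
  exact Pk.of_beq (Pk.impB_spec (Pk.allB_spec (Pk.allB_spec P1_riC_true i i.2) k k.2)
    (P1_cs.1 h))

/-- the check of `P1_mid` -/
private noncomputable def P1_midC : Bool :=
  Pk.allB (fun a => Pk.allB (fun d => Pk.anyB (fun c =>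
    Pk.conB (Nat.beq (Pk.g a c) 1) (Nat.beq (Pk.g c d) 1)) 27) 27) 27

private theorem P1_midC_true : P1_midC = true := by decide +kernel

private theorem P1_mid : ∀ a d : Fin 27, ∃ c : Fin 27, gg a c = 1 ∧ gg c d = 1 := by
  intro a d
  obtain ⟨c, hc, h1⟩ := Pk.anyB_spec (Pk.allB_spec (Pk.allB_spec P1_midC_true a a.2) d d.2)
  obtain ⟨h2, h3⟩ := Pk.conB_spec h1
  exact ⟨⟨c, hc⟩, P1_g1.2 (Pk.of_beq h2), P1_g1.2 (Pk.of_beq h3)⟩

/-- the check of `P1_move` -/
private noncomputable def P1_moveC : Bool :=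
  Pk.allB (fun a => Pk.allB (fun b => Pk.impB (Nat.beq (Pk.g a b) 0) (Pk.anyB (fun i =>
    Pk.conB (Nat.beq (Pk.s i a) a) (Nat.beq (Pk.g b (Pk.s i b)) 1)) 36)) 27) 27

private theorem P1_moveC_true : P1_moveC = true := by decide +kernel

private theorem P1_move : ∀ a b : Fin 27, gg a b = 0 →
    ∃ i : Fin 36, sT i a = a ∧ gg b (sT i b) = 1 := by
  intro a b h
  obtain ⟨i, hi, h1⟩ := Pk.anyB_spec (Pk.impB_spec (Pk.allB_spec (Pk.allB_spec
    P1_moveC_true a a.2) b b.2) (Pk.beq_of (P1_g0.1 h)))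
  obtain ⟨h2, h3⟩ := Pk.conB_spec h1
  have h4 : ∀ c : Fin 27, Pk.s i c = (sT ⟨i, hi⟩ c : ℕ) := fun c => (Pk.s_eq ⟨i, hi⟩ c).symm
  rw [h4] at h2 h3
  exact ⟨⟨i, hi⟩, Fin.ext (Pk.of_beq h2), P1_g1.2 (Pk.of_beq h3)⟩

/-- the check of `P1_fix` -/
private noncomputable def P1_fixC : Bool :=
  Pk.allB (fun a => Pk.allB (fun b => Pk.impB (Nat.beq (Pk.g a b) 0) (Pk.anyB (fun i =>
    Pk.conB (Nat.beq (Pk.s i a) a) (Nat.beq (Pk.s i b) b)) 36)) 27) 27

private theorem P1_fixC_true : P1_fixC = true := by decide +kernel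

private theorem P1_fix : ∀ a b : Fin 27, gg a b = 0 →
    ∃ i : Fin 36, sT i a = a ∧ sT i b = b := by
  intro a b h
  obtain ⟨i, hi, h1⟩ := Pk.anyB_spec (Pk.impB_spec (Pk.allB_spec (Pk.allB_spec
    P1_fixC_true a a.2) b b.2) (Pk.beq_of (P1_g0.1 h)))
  obtain ⟨h2, h3⟩ := Pk.conB_spec h1
  have h4 : ∀ c : Fin 27, Pk.s i c = (sT ⟨i, hi⟩ c : ℕ) := fun c => (Pk.s_eq ⟨i, hi⟩ c).symm
  rw [h4] at h2 h3
  exact ⟨⟨i, hi⟩, Fin.ext (Pk.of_beq h2), Fin.ext (Pk.of_beq h3)⟩

private theorem P1_nc : ∃ i j k l : Fin 36, sT i (sT j (sT k (sT l 0))) ≠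
    sT k (sT l (sT i (sT j 0))) := ⟨0, 1, 0, 4, by decide +kernel⟩

private lemma P1_mem (i j : Fin 36) : sW i * sW j ∈ WP := by
  rw [mem_WP, eZ_mul, eZ_sW, eZ_sW]
  norm_num

private lemma P1_comm {i l : Fin 36} (h : cc i l = 0) : sW i * sW l = sW l * sW i := by
  have h1 := sW_conj i l
  rw [ri_of_cc i l h] at h1
  calc sW i * sW l = sW i * sW l * (sW i * sW i) := by rw [sW_mul_self, mul_one]
    _ = (sW i * sW l * sW i) * sW i := by group
    _ = sW l * sW i := by rw [h1]

private lemma P1_cube {i k : Fin 36} (h : cc i k * cc i k = 1) :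
    (sW i * sW k) * (sW i * sW k) * (sW i * sW k) = 1 := by
  have h1 := sW_conj i k
  have h2 := sW_conj k i
  rw [P1_ri i k h, ← h2] at h1
  calc (sW i * sW k) * (sW i * sW k) * (sW i * sW k)
      = (sW i * sW k * sW i) * (sW k * sW i * sW k) := by group
    _ = (sW k * sW i * sW k) * (sW k * sW i * sW k) := by rw [h1]
    _ = sW k * sW i * (sW k * sW k) * sW i * sW k := by group
    _ = sW k * (sW i * sW i) * sW k := by rw [sW_mul_self]; group
    _ = sW k * sW k := by rw [sW_mul_self]; group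
    _ = 1 := sW_mul_self k

private lemma P1_inC {i k : Fin 36} (h : cc i k * cc i k = 1) :
    sW i * sW k ∈ (commutator WP).map WP.subtype := by
  obtain ⟨l, hil, hkl⟩ := P1_orth i k h
  have hl1 := P1_comm hil
  have hl2 := P1_comm hkl
  let u : WP := ⟨sW i * sW l, P1_mem i l⟩
  let c : WP := ⟨sW i * sW k, P1_mem i k⟩
  refine ⟨⁅u, c⁆, Subgroup.commutator_mem_commutator (Subgroup.mem_top _) (Subgroup.mem_top _), ?_⟩
  change (sW i * sW l) * (sW i * sW k) * (sW i * sW l)⁻¹ * (sW i * sW k)⁻¹ = sW i * sW k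
  have h3 := P1_cube h
  have h4 : (sW i * sW l) * (sW i * sW k) * (sW i * sW l)⁻¹ = (sW i * sW k)⁻¹ := by
    rw [mul_inv_rev, mul_inv_rev, sW_inv, sW_inv, sW_inv]
    calc (sW i * sW l) * (sW i * sW k) * (sW l * sW i)
        = sW i * (sW l * sW i) * (sW k * sW l) * sW i := by group
      _ = sW i * (sW i * sW l) * (sW l * sW k) * sW i := by rw [← hl1, hl2]
      _ = (sW i * sW i) * (sW l * sW l) * sW k * sW i := by group
      _ = sW k * sW i := by rw [sW_mul_self, sW_mul_self]; group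
  rw [h4, inv_mul_eq_iff_eq_mul, inv_eq_iff_mul_eq_one]
  rw [← mul_assoc]
  exact h3

/-- The rotation group is perfect: for orthogonal or non-orthogonal roots... it is generated by the
products `c = sW i * sW j` with `cc i j ≠ 0`, `i ≠ j` (for orthogonal `i`, `j` there is `k`
non-orthogonal to both, kernel-checked), there is `k` orthogonal to `i` and `j` (kernel-checked), and
with `u = sW i * sW k` one has `u * c * u⁻¹ = c⁻¹`, `c * c * c = 1`, so the commutator
`u * c * u⁻¹ * c⁻¹ = c⁻¹ * c⁻¹ = c`. -/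
theorem commutator_WP : commutator WP = ⊤ := by
  have h1 : WP ≤ (commutator WP).map WP.subtype := by
    rw [← closure_orth, Subgroup.closure_le]
    rintro w ⟨i, j, hij, rfl⟩
    rw [closure_orth]
    obtain ⟨k, h1, h2⟩ := P1_nonorth i j hij
    have h3 : sW i * sW j = (sW i * sW k) * (sW k * sW j) := by
      calc sW i * sW j = sW i * 1 * sW j := by rw [mul_one]
        _ = sW i * (sW k * sW k) * sW j := by rw [sW_mul_self]
        _ = _ := by group
    rw [h3]
    exact mul_mem (P1_inC h1) (P1_inC h2)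
  rw [eq_top_iff]
  intro w _
  obtain ⟨v, hv, hvw⟩ := h1 w.2
  have h2 : v = w := Subtype.ext hvw
  rw [← h2]
  exact hv

private lemma P1_block {B : Set (Fin 27)} (hB : MulAction.IsBlock WP B) {a b : Fin 27}
    (ha : a ∈ B) (hb : b ∈ B) (hab : gg a b = 1) : B = Set.univ := by
  have key : ∀ {a b : Fin 27}, a ∈ B → b ∈ B → gg a b = 1 → ∀ c, gg a c = 1 → c ∈ B := by
    intro a b ha hb hab c hac
    obtain ⟨u, hu, huc⟩ := TT_orbit hab hac
    let v : WP := ⟨u, hu.1⟩
    have h1 : v • a = a := hu.2.1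
    have h2 : v • B = B := hB.smul_eq_of_mem ha (by rw [h1]; exact ha)
    rw [← h2]
    exact ⟨b, hb, huc⟩
  rw [Set.eq_univ_iff_forall]
  intro d
  obtain ⟨c, hac, hcd⟩ := P1_mid a d
  have hc : c ∈ B := key ha hb hab c hac
  exact key hc ha (by rw [gg_comm]; exact hac) d hcd

/-- The action of the rotation group on the 27 weights is primitive: it is transitive, the orbits
of `TT a` on the other weights have 2, 2, 2, 2, 2, 16 elements and those of the stabilizer 10 and 16,
so the number of elements of a block, which divides 27, is one of 1, 11, 17, 27.  (Or directly: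
a block `B` containing `a` and some `b` with `gg a b = 1` contains all such `b` by `TT_orbit`, then by
moving the base point everything; a block containing `a` and some `b` with `gg a b = 0` contains
some `b'` with `gg a b' = 0` not collinear with `b`, and `gg b b' = 1`.) -/
theorem isPreprimitive_WP : MulAction.IsPreprimitive WP (Fin 27) := by
  have : MulAction.IsPretransitive WP (Fin 27) := by
    constructor
    intro a b
    obtain ⟨w, hw, h⟩ := WP_transitive a b
    exact ⟨⟨w, hw⟩, h⟩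
  apply MulAction.IsPreprimitive.of_isTrivialBlock_base (0 : Fin 27)
  intro B h0 hB
  by_cases hs : B.Subsingleton
  · exact Or.inl hs
  right
  rw [Set.not_subsingleton_iff] at hs
  obtain ⟨a, ha, b, hb, hne⟩ := hs
  rcases gg_cases a b with ⟨h, _⟩ | ⟨h, _⟩ | ⟨_, h⟩
  · obtain ⟨i, hi1, hi2⟩ := P1_move a b h
    obtain ⟨j, hj1, hj2⟩ := P1_fix a b h
    let v : WP := ⟨sW i * sW j, P1_mem i j⟩
    have h1 : v • a = a := by
      change (sW i * sW j) • a = a
      rw [mul_smul, sW_smul, sW_smul, hj1, hi1]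
    have h2 : v • b = sT i b := by
      change (sW i * sW j) • b = _
      rw [mul_smul, sW_smul, sW_smul, hj2]
    have h3 : v • B = B := hB.smul_eq_of_mem ha (by rw [h1]; exact ha)
    have h4 : sT i b ∈ B := by
      rw [← h3]
      exact ⟨b, hb, h2⟩
    exact P1_block hB hb h4 hi2
  · exact P1_block hB ha hb h
  · exact absurd h hne

private lemma P1_noncomm : ∃ a b : WP, a * b ≠ b * a := by
  obtain ⟨i, j, k, l, h⟩ := P1_nc
  refine ⟨⟨sW i * sW j, P1_mem i j⟩, ⟨sW k * sW l, P1_mem k l⟩, fun h1 => h ?_⟩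
  have h2 := congrArg (fun w : WP => (w : W) • (0 : Fin 27)) h1
  exact h2

private noncomputable def P1_iwa : MulAction.IwasawaStructure WP (Fin 27) where
  T a := (TT a).subgroupOf WP
  is_comm a := ⟨⟨fun u v => by
    apply Subtype.ext
    apply Subtype.ext
    exact TT_comm (Subgroup.mem_subgroupOf.mp u.2) (Subgroup.mem_subgroupOf.mp v.2)⟩⟩
  is_conj g a := by
    ext u
    rw [Subgroup.mem_pointwise_smul_iff_inv_smul_mem, Subgroup.mem_subgroupOf,
      Subgroup.mem_subgroupOf]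
    have h1 : (((MulAut.conj g)⁻¹ • u : WP) : W) = (g : W)⁻¹ * (u : W) * (g : W) := by
      rw [← map_inv, MulAut.smul_def, MulAut.conj_apply]
      simp
    rw [h1]
    constructor
    · intro h
      have h2 := TT_conj ((g : W)⁻¹) h
      rw [inv_inv] at h2
      have h3 : (g : W)⁻¹ • (g • a) = a := inv_smul_smul (g : W) a
      rw [h3] at h2
      exact h2
    · intro h
      have h2 := TT_conj (g : W) h
      have h3 : (g : W) * ((g : W)⁻¹ * (u : W) * (g : W)) * (g : W)⁻¹ = u := by group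
      rw [h3] at h2
      exact h2
  is_generator := by
    rw [eq_top_iff]
    intro w _
    have h1 : WP ≤ (⨆ a, (TT a).subgroupOf WP).map WP.subtype := by
      rw [← closure_orth, Subgroup.closure_le]
      rintro v ⟨i, j, hij, rfl⟩
      obtain ⟨a, ha⟩ := exists_mem_TT hij
      rw [closure_orth]
      refine ⟨⟨sW i * sW j, P1_mem i j⟩, ?_, rfl⟩
      exact Subgroup.mem_iSup_of_mem a (Subgroup.mem_subgroupOf.mpr ha)
    obtain ⟨v, hv, hvw⟩ := h1 w.2
    have h2 : v = w := Subtype.ext hvw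
    rw [← h2]
    exact hv

/-- **Simplicity**, by Iwasawa's criterion (`MulAction.IwasawaStructure.isSimpleGroup`), with the
subgroups `TT a` of the rotation group, which are commutative, conjugate and generate
(`closure_orth`, `exists_mem_TT`). -/
theorem isSimpleGroup_WP : IsSimpleGroup WP := by
  have : MulAction.IsPreprimitive WP (Fin 27) := isPreprimitive_WP
  have : Nontrivial WP := by
    obtain ⟨a, b, h⟩ := P1_noncomm
    exact ⟨a * b, b * a, h⟩
  have hf : FaithfulSMul WP (Fin 27) := ⟨fun {u v} h => Subtype.ext (W_ext h)⟩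
  exact P1_iwa.isSimpleGroup commutator_WP hf

theorem noncomm_WP : ∃ a b : WP, a * b ≠ b * a := P1_noncomm

end Pool.Agent.Lib.MP_12adaf_nt.E6
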