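import Pool.Agent.Lib.MP_12adaf_ntNS.P2

/-!
# Automorphisms of the rotation group of type `E₆`
-/

namespace Pool.Agent.Lib.MP_12adaf_nt.E6

private theorem gg_ca_inj : ∀ a b : Fin 27, (∀ j : Fin 6, gg (ca j) a = gg (ca j) b) → a = b := by
  decide +kernel

private lemma perm_chain (π : Equiv.Perm (Fin 27)) (h : ∀ a b, gg (π a) (π b) = gg a b) (n : ℕ)
    (hn : n ≤ 6) : ∃ u : W, ∀ j : Fin 6, (j : ℕ) < n → u • π (ca j) = ca j := by
  induction n with
  | zero => exact ⟨1, fun j hj => absurd hj (Nat.not_lt_zero _)⟩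
  | succ n ih =>
    obtain ⟨u, hfix⟩ := ih (by omega)
    have key : ∀ j : Fin 6, j < ⟨n, by omega⟩ →
        gg (ca j) (u • π (ca ⟨n, by omega⟩)) = gg (ca j) (ca ⟨n, by omega⟩) := by
      intro j hj
      have h1 := gg_smul u (π (ca j)) (π (ca ⟨n, by omega⟩))
      rw [hfix j hj] at h1
      rw [h1, h]
    obtain ⟨v, _, hv1, hv2⟩ := chain_step ⟨n, by omega⟩ _ key
    refine ⟨v * u, fun j hj => ?_⟩
    rw [mul_smul]
    rcases Nat.lt_succ_iff_lt_or_eq.mp hj with h' | h'
    · rw [hfix j h']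
      exact hv2 j h'
    · have h2 : j = ⟨n, by omega⟩ := Fin.ext h'
      rw [h2]
      exact hv1

/-- A permutation of the 27 weights which preserves `gg` is in the Weyl group: the inner products
of the weights are determined by `gg`, six of the weights are a basis, so it is induced by a linear
map (the definition of `W` in E02.lean asks for a matrix; `ca`, `ci`, `ci_ca` in E09.lean). -/
theorem mem_W_of_gg (π : Equiv.Perm (Fin 27)) (h : ∀ a b, gg (π a) (π b) = gg a b) : π ∈ W := by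
  obtain ⟨u, hu⟩ := perm_chain π h 6 le_rfl
  have h1 : ∀ a, u • π a = a := by
    intro a
    refine gg_ca_inj _ _ fun j => ?_
    have h2 := gg_smul u (π (ca j)) (π a)
    rw [hu j j.isLt, h] at h2
    exact h2
  have h3 : π = ((u⁻¹ : W) : Equiv.Perm (Fin 27)) := by
    refine Equiv.ext fun a => ?_
    have h4 : u⁻¹ • u • π a = u⁻¹ • a := by rw [h1]
    rw [inv_smul_smul] at h4
    exact h4
  rw [h3]
  exact (u⁻¹ : W).2

open Pk in
/-- the check of `three_of_gg` -/
private noncomputable def tgC : Bool :=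
  allB (fun a => allB (fun b => impB (Nat.beq (g a b) 1)
    (anyB (fun c => conB (Nat.beq (g a c) 1) (conB (impB (Nat.beq c b) false)
      (anyB (fun d => conB (Nat.beq (g a d) 1) (conB (impB (Nat.beq d b) false)
        (impB (Nat.beq c d) false))) 27))) 27)) 27) 27

private theorem tgC_true : tgC = true := by decide +kernel

open Pk in
private theorem three_of_gg : ∀ a b : Fin 27, gg a b = 1 →
    ∃ c d, gg a c = 1 ∧ gg a d = 1 ∧ c ≠ b ∧ d ≠ b ∧ c ≠ d := by
  intro a b hg
  obtain ⟨c, hc, h⟩ := anyB_spec (impB_spec (allB_spec (allB_spec tgC_true a a.2) b b.2)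
    (g_one hg))
  obtain ⟨h1, h⟩ := conB_spec h
  obtain ⟨h2, h⟩ := conB_spec h
  obtain ⟨d, hd, h⟩ := anyB_spec h
  obtain ⟨h3, h⟩ := conB_spec h
  obtain ⟨h4, h5⟩ := conB_spec h
  refine ⟨⟨c, hc⟩, ⟨d, hd⟩, ?_, ?_, fun h6 => not_of h2 (beq_of (congrArg Fin.val h6)),
    fun h6 => not_of h4 (beq_of (congrArg Fin.val h6)),
    fun h6 => not_of h5 (beq_of (congrArg Fin.val h6))⟩
  · rw [g_eq, of_beq h1]; rfl
  · rw [g_eq, of_beq h3]; rfl

private lemma TT_le_WP (a : Fin 27) : TT a ≤ WP := fun _ hu => hu.1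

/-- The image of `TT a` is some `TT b`. -/
private lemma exists_image (φ : WP ≃* WP) (a : Fin 27) :
    ∃ b : Fin 27, ∀ s : WP, (s : W) ∈ TT a ↔ ((φ s : WP) : W) ∈ TT b := by
  have hmem : ∀ x : W, x ∈ (((TT a).subgroupOf WP).map φ.toMonoidHom).map WP.subtype ↔
      ∃ s : WP, (s : W) ∈ TT a ∧ ((φ s : WP) : W) = x := by
    intro x
    constructor
    · rintro ⟨y, ⟨s, hs, rfl⟩, rfl⟩
      exact ⟨s, Subgroup.mem_subgroupOf.mp hs, rfl⟩
    · rintro ⟨s, hs, rfl⟩
      exact ⟨φ s, ⟨s, Subgroup.mem_subgroupOf.mpr hs, rfl⟩, rfl⟩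
  set V := (((TT a).subgroupOf WP).map φ.toMonoidHom).map WP.subtype with hVdef
  have hV : V ≤ WP := by
    intro x hx
    obtain ⟨s, _, rfl⟩ := (hmem x).mp hx
    exact (φ s).2
  have hcomm : ∀ u ∈ V, ∀ v ∈ V, u * v = v * u := by
    intro u hu v hv
    obtain ⟨s, hs, rfl⟩ := (hmem u).mp hu
    obtain ⟨t, ht, rfl⟩ := (hmem v).mp hv
    have h1 : s * t = t * s := Subtype.ext (TT_comm hs ht)
    have h2 : φ s * φ t = φ t * φ s := by rw [← map_mul, h1, map_mul]
    exact congrArg Subtype.val h2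
  have hsq : ∀ u ∈ V, u * u = 1 := by
    intro u hu
    obtain ⟨s, hs, rfl⟩ := (hmem u).mp hu
    have h1 : s * s = 1 := Subtype.ext (TT_sq hs)
    have h2 : φ s * φ s = 1 := by rw [← map_mul, h1, map_one]
    exact congrArg Subtype.val h2
  have hcard : Nat.card V = 16 := by
    rw [hVdef, Subgroup.card_map_of_injective WP.subtype_injective,
      Subgroup.card_map_of_injective φ.injective, ← card_TT a]
    exact Nat.card_congr (Subgroup.subgroupOfEquivOfLe (TT_le_WP a)).toEquiv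
  -- a fixed weight
  have hp : IsPGroup 2 V := IsPGroup.of_card (n := 4) (by rw [hcard]; norm_num)
  have hfix : (MulAction.fixedPoints V (Fin 27)).Nonempty := by
    refine hp.nonempty_fixed_point_of_prime_not_dvd_card (Fin 27) ?_
    rw [Nat.card_eq_fintype_card, Fintype.card_fin]
    norm_num
  obtain ⟨b, hb⟩ := hfix
  have hVb : V = TT b := eq_TT hV hcomm hsq hcard fun u hu => hb ⟨u, hu⟩
  refine ⟨b, fun s => ?_⟩
  rw [← hVb, hmem]
  constructor
  · intro hs
    exact ⟨s, hs, rfl⟩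
  · rintro ⟨t, ht, hts⟩
    have h1 : t = s := φ.injective (Subtype.ext hts)
    rw [← h1]
    exact ht

/-- **Automorphisms of the rotation group.**
Proof.  Let `φ` be an automorphism and `a` a weight.  `V = φ (TT a)` is an elementary abelian group
of order 16 (`card_TT`, `TT_comm`, `TT_sq`), acting on the 27 weights, so it fixes one of them, `b`
(`IsPGroup.card_modEq_card_fixedPoints`), and `V = TT b` (`eq_TT`); `b = π a` is unique by
`eq_of_fix_TT`.  For `g` in `WP`: `TT (π (g • a)) = φ (TT (g • a)) = φ (g TT a g⁻¹) =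
φ g TT (π a) (φ g)⁻¹ = TT (φ g • π a)`, so `π (g • a) = φ g • π a`.  `π` is bijective (apply the
same to `φ⁻¹`, or injective as `TT (π a) = TT (π a')` implies `TT a = TT a'`).  `gg a b = 1` iff the
orbit of `b` under `TT a` has 16 elements (`TT_orbit`; the orbits of the collinear weights have at most
2 elements), and `π` maps the orbits of `TT a` onto those of `TT (π a)`; so `π` preserves `gg` and is
in `W` (`mem_W_of_gg`), and `φ g = π g π⁻¹`. -/
theorem aut_WP (φ : WP ≃* WP) : ∃ w : W, ∀ s : WP, ((φ s : WP) : W) = w * (s : W) * w⁻¹ := by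
  choose p hp using exists_image φ
  -- equivariance
  have hequiv : ∀ (g : WP) (a : Fin 27), ((φ g : WP) : W) • p a = p ((g : W) • a) := by
    intro g a
    refine eq_of_fix_TT fun u hu => ?_
    obtain ⟨s, hs⟩ : ∃ s : WP, ((φ s : WP) : W) = u :=
      ⟨φ.symm ⟨u, TT_le_WP _ hu⟩, by rw [MulEquiv.apply_symm_apply]⟩
    have h1 : (s : W) ∈ TT ((g : W) • a) := (hp _ s).mpr (by rw [hs]; exact hu)
    have h2 : (g : W)⁻¹ * (s : W) * ((g : W)⁻¹)⁻¹ ∈ TT ((g : W)⁻¹ • (g : W) • a) := TT_conj _ h1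
    rw [inv_smul_smul, inv_inv] at h2
    have h3 : ((φ (g⁻¹ * s * g) : WP) : W) ∈ TT (p a) := (hp a (g⁻¹ * s * g)).mp h2
    have h4 : ((φ (g⁻¹ * s * g) : WP) : W) • p a = p a := h3.2.1
    have h5 : ((φ (g⁻¹ * s * g) : WP) : W) =
        ((φ g : WP) : W)⁻¹ * u * ((φ g : WP) : W) := by
      rw [map_mul, map_mul, map_inv, ← hs]
      rfl
    rw [h5, mul_smul, mul_smul, inv_smul_eq_iff] at h4
    exact h4
  have hinj : Function.Injective p := by
    intro a a' h
    refine (eq_of_fix_TT fun u hu => ?_ : a' = a).symm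
    have h1 : ((φ ⟨u, TT_le_WP _ hu⟩ : WP) : W) ∈ TT (p a) := (hp a ⟨u, TT_le_WP _ hu⟩).mp hu
    rw [h] at h1
    exact ((hp a' ⟨u, TT_le_WP _ hu⟩).mpr h1).2.1
  have hgg : ∀ a b, gg (p a) (p b) = gg a b := by
    intro a b
    rcases gg_cases a b with ⟨h, hab⟩ | ⟨h, hab⟩ | ⟨h, rfl⟩
    · rcases gg_cases (p a) (p b) with ⟨h', _⟩ | ⟨h', _⟩ | ⟨_, h'⟩
      · rw [h, h']
      · exfalso
        obtain ⟨c, d, hc, hd, hcb, hdb, hcd⟩ := three_of_gg _ _ h'
        have key : ∀ c, gg (p a) c = 1 → c ≠ p b → ∃ e, IsTri a b e ∧ c = p e := by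
          intro c hc hcb
          obtain ⟨u, hu, huc⟩ := TT_orbit h' hc
          obtain ⟨s, hs⟩ : ∃ s : WP, ((φ s : WP) : W) = u :=
            ⟨φ.symm ⟨u, TT_le_WP _ hu⟩, by rw [MulEquiv.apply_symm_apply]⟩
          have h1 : (s : W) ∈ TT a := (hp _ s).mpr (by rw [hs]; exact hu)
          have h2 : c = p ((s : W) • b) := by rw [← hequiv, hs, huc]
          rcases h1.2.2 b h with h3 | h3
          · rw [h3] at h2
            exact absurd h2 hcb
          · exact ⟨_, h3, h2⟩
        obtain ⟨e, he, hce⟩ := key c hc hcb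
        obtain ⟨f, hf, hdf⟩ := key d hd hdb
        exact hcd (by rw [hce, hdf, he.unique hf])
      · exact absurd (hinj h') hab
    · rcases gg_cases (p a) (p b) with ⟨h', _⟩ | ⟨h', _⟩ | ⟨_, h'⟩
      · exfalso
        obtain ⟨c, d, hc, hd, hcb, hdb, hcd⟩ := three_of_gg _ _ h
        have key : ∀ c, gg a c = 1 → c ≠ b → IsTri (p a) (p b) (p c) := by
          intro c hc hcb
          obtain ⟨u, hu, huc⟩ := TT_orbit h hc
          have h1 : ((φ ⟨u, TT_le_WP _ hu⟩ : WP) : W) ∈ TT (p a) :=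
            (hp a ⟨u, TT_le_WP _ hu⟩).mp hu
          have h2 : ((φ ⟨u, TT_le_WP _ hu⟩ : WP) : W) • p b = p c := by
            rw [hequiv]
            exact congrArg p huc
          rcases h1.2.2 (p b) h' with h3 | h3
          · rw [h2] at h3
            exact absurd (hinj h3) hcb
          · rw [h2] at h3
            exact h3
        exact hcd (hinj ((key c hc hcb).unique (key d hd hdb)))
      · rw [h, h']
      · exact absurd (hinj h') hab
    · rw [gg_self, gg_self]
  have hbij : Function.Bijective p := Finite.injective_iff_bijective.mp hinj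
  have hW : Equiv.ofBijective p hbij ∈ W := mem_W_of_gg _ hgg
  refine ⟨⟨_, hW⟩, fun s => ?_⟩
  rw [eq_mul_inv_iff_mul_eq]
  refine W_ext fun a => ?_
  rw [mul_smul, mul_smul]
  exact hequiv s a

/-- The centralizer is trivial: `w` commutes with `TT a`, so `TT (w • a) = TT a` and `w • a = a` for
all `a`. -/
theorem centralizer_WP (w : W) (h : ∀ s : WP, w * (s : W) = (s : W) * w) : w = 1 := by
  refine W_ext fun a => ?_
  rw [one_smul]
  refine eq_of_fix_TT fun u hu => ?_
  have h1 : w * u = u * w := h ⟨u, TT_le_WP _ hu⟩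
  rw [← mul_smul, ← h1, mul_smul, (show u • a = a from hu.2.1)]

end Pool.Agent.Lib.MP_12adaf_nt.E6
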