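import Pool.Agent.Lib.MP_12adaf_ntNS.N0
import Pool.Agent.Lib.MP_12adaf_ntNS.P1
import Pool.Agent.Lib.MP_12adaf_ntNS.P3
import Pool.Agent.Lib.MP_12adaf_ntE6.E12

/-!
# The rotation group of type `E₆` is good
-/

namespace Pool.Agent.Lib.MP_12adaf_nt.NS

open E6

universe u

/-- The rotation subgroup of the Weyl group of type `E₆`, as a group of matrices: it is isomorphic
to the simple group `PSp₄(3)` of order 25920. -/
def rotE6 : Subgroup (Matrix.GeneralLinearGroup (Fin 6) ℚ) :=
  Subgroup.closure {A | (A : Matrix (Fin 6) (Fin 6) ℚ) ∈ weylE6 ∧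
    (A : Matrix (Fin 6) (Fin 6) ℚ).det = 1}

private noncomputable def rotM (w : E6.W) : Matrix (Fin 6) (Fin 6) ℚ :=
  (exists_mem_of_W w⁻¹).choose

private lemma rotM_mem (w : E6.W) : rotM w ∈ weylE6 := (exists_mem_of_W w⁻¹).choose_spec.1

private lemma rotM_nc (w : E6.W) (a : Fin 27) :
    Matrix.vecMul (nc a) (rotM w) = nc (w⁻¹ • a) := (exists_mem_of_W w⁻¹).choose_spec.2.1 a

private lemma rotM_det (w : E6.W) : (rotM w).det = (eZ w : ℚ) := by
  rw [← eZ_inv w]
  exact (exists_mem_of_W w⁻¹).choose_spec.2.2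

private noncomputable def rotHom : E6.W →* Matrix (Fin 6) (Fin 6) ℚ where
  toFun := rotM
  map_one' := by
    refine mat_ext fun a => ?_
    rw [rotM_nc, inv_one, one_smul, Matrix.vecMul_one]
  map_mul' := by
    intro u v
    refine mat_ext fun a => ?_
    rw [rotM_nc, ← Matrix.vecMul_vecMul, rotM_nc, rotM_nc, mul_inv_rev, mul_smul]

private noncomputable def rotUnits : E6.WP →* Matrix.GeneralLinearGroup (Fin 6) ℚ :=
  (MonoidHom.toHomUnits rotHom).comp E6.WP.subtype

private lemma rotUnits_coe (w : E6.WP) :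
    ((rotUnits w : Matrix.GeneralLinearGroup (Fin 6) ℚ) : Matrix (Fin 6) (Fin 6) ℚ) =
      rotM (w : E6.W) := rfl

private lemma rotUnits_injective : Function.Injective rotUnits := by
  rw [injective_iff_map_eq_one]
  intro w hw
  have h1 : rotM (w : E6.W) = 1 := by
    rw [← rotUnits_coe, hw]
    rfl
  have h2 : (w : E6.W)⁻¹ = 1 := by
    refine W_ext fun a => nc_injective ?_
    rw [← rotM_nc, h1, Matrix.vecMul_one, one_smul]
  apply Subtype.ext
  exact inv_eq_one.mp h2

private lemma rotUnits_range : rotUnits.range = rotE6 := by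
  apply le_antisymm
  · rintro _ ⟨w, rfl⟩
    apply Subgroup.subset_closure
    refine ⟨?_, ?_⟩
    · rw [rotUnits_coe]
      exact rotM_mem _
    · rw [rotUnits_coe, rotM_det, mem_WP.mp w.2]
      norm_num
  · unfold rotE6
    rw [Subgroup.closure_le]
    rintro A ⟨hA, hdet⟩
    obtain ⟨w, hw, hwd⟩ := exists_W_of_mem hA
    have hw1 : eZ w = 1 := by
      rw [hdet] at hwd
      exact_mod_cast hwd.symm
    refine ⟨⟨w⁻¹, mem_WP.mpr (by rw [eZ_inv, hw1])⟩, ?_⟩
    apply Units.ext
    rw [rotUnits_coe]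
    refine mat_ext fun a => ?_
    rw [rotM_nc, hw]
    simp

/-- The matrix group is the permutation group: `nc` is injective, see E11.lean
(`exists_W_of_mem`, `exists_mem_of_W`); a matrix `A` acts on row vectors, so `w` corresponds to the
matrix with `vecMul (nc a) A = nc (w⁻¹ • a)`. -/
theorem nonempty_rotE6_equiv : Nonempty (rotE6 ≃* E6.WP) := by
  have e1 : E6.WP ≃* rotUnits.range := MonoidHom.ofInjective rotUnits_injective
  have e2 : rotUnits.range ≃* rotE6 := MulEquiv.subgroupCongr rotUnits_range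
  exact ⟨(e1.trans e2).symm⟩

private noncomputable def rhoHom : E6.W →* Matrix (Fin 6) (Fin 6) ℚ where
  toFun := fun w => (exists_mat w).choose.transpose
  map_one' := by
    rw [← Matrix.transpose_one]
    congr 1
    refine mat_unique _ _ fun k j => ?_
    rw [(exists_mat 1).choose_spec, one_smul]
    simp [Matrix.one_apply]
  map_mul' := by
    intro u v
    rw [← Matrix.transpose_mul]
    congr 1
    refine mat_unique _ _ fun k j => ?_
    rw [(exists_mat (u * v)).choose_spec,
      mat_mul u v _ _ (exists_mat u).choose_spec (exists_mat v).choose_spec]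

private lemma rhoHom_spec (w : E6.W) (a : Fin 27) (j : Fin 6) :
    ∑ l, (wt a l : ℚ) * rhoHom w j l = (wt (w • a) j : ℚ) :=
  (exists_mat w).choose_spec a j

/-- The `G`-version for the group `W`, from `gversion6` (E10.lean): `ρ w` is the transpose of the
matrix `A` with `∑ l, wt a l * A l j = wt (w • a) j` (`exists_mat`; unique, `ρ` is multiplicative), so
that `g • lf (x b) a = lf (x (g • b)) (κ g b • a)`. -/
theorem exists_rho : ∃ ρ : W →* Matrix (Fin 6) (Fin 6) ℚ, Function.Injective ρ ∧
    ∀ S : Subgroup W, S = E6.WP → GV.{u} S ρ := by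
  refine ⟨rhoHom, ?_, ?_⟩
  · rw [injective_iff_map_eq_one]
    intro w hw
    refine W_ext fun a => wt_inj _ _ fun j => ?_
    have h1 := rhoHom_spec w a j
    rw [hw] at h1
    have h2 : (wt a j : ℚ) = wt (w • a) j := by
      rw [← h1]
      simp [Matrix.one_apply]
    rw [one_smul]
    exact_mod_cast h2.symm
  · rintro S rfl
    intro K M E G B _ _ _ _ _ _ _ _ _ _ _ _ _ _ _ _ _ x κ hact hx hgen hgx h1 h2
    classical
    have : Fintype G := Fintype.ofFinite G
    have : Fintype B := Fintype.ofFinite B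
    refine gversion6 (κ := κ) hact hx hgen ?_ (fun g hg b => ?_) ?_
    · intro g b a
      have hq : ∀ r : ℤ, g • (r : E) = (r : E) := fun r =>
        map_intCast (MulSemiringAction.toRingHom G E g) r
      simp only [lf]
      rw [Finset.smul_sum]
      simp_rw [smul_mul', hq, hgx, Finset.mul_sum]
      rw [Finset.sum_comm]
      refine Finset.sum_congr rfl fun j _ => ?_
      have h3 : ((∑ l, (wt a l : ℚ) * rhoHom (κ g b) j l : ℚ) : E) =
          ((wt (κ g b • a) j : ℚ) : E) := by rw [rhoHom_spec]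
      push_cast at h3
      rw [← h3, Finset.sum_mul]
      refine Finset.sum_congr rfl fun l _ => ?_
      ring
    · exact ⟨(h1 g hg b).1, mem_WP.mp (h1 g hg b).2⟩
    · intro τ hτ
      exact h2 τ fun b => mem_WP.mpr (hτ b)

/-- **The rotation group of type `E₆` is good.** -/
theorem isGood_rotE6 {S : Type u} [Group S] (e : S ≃* E6.WP) : IsGood S := by
  obtain ⟨ρ, hρ, hGV⟩ := exists_rho.{u}
  have hsimple : IsSimpleGroup E6.WP := isSimpleGroup_WP
  let j : S →* E6.W := E6.WP.subtype.comp e.toMonoidHom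
  have hj : ∀ s, j s = ((e s : E6.WP) : E6.W) := fun s => rfl
  refine ⟨?_, ?_, E6.W, inferInstance, inferInstance, j, 6, ρ, ?_, hρ, ?_, ?_, ?_⟩
  · have : Nontrivial S := e.toEquiv.nontrivial
    exact IsSimpleGroup.isSimpleGroup_of_surjective e.symm.toMonoidHom e.symm.surjective
  · obtain ⟨a, b, hab⟩ := noncomm_WP
    refine ⟨e.symm a, e.symm b, fun h => hab ?_⟩
    rw [← map_mul, ← map_mul] at h
    exact e.symm.injective h
  · exact Subtype.val_injective.comp e.injective
  · intro φ
    obtain ⟨w, hw⟩ := aut_WP ((e.symm.trans φ).trans e)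
    refine ⟨w, fun s => ?_⟩
    have h1 := hw (e s)
    simp only [MulEquiv.trans_apply, MulEquiv.symm_apply_apply] at h1
    rw [hj, hj]
    exact h1
  · intro w hw
    refine centralizer_WP w fun s => ?_
    have h1 := hw (e.symm s)
    rw [hj, MulEquiv.apply_symm_apply] at h1
    exact h1
  · apply hGV
    apply le_antisymm
    · rintro _ ⟨s, rfl⟩
      exact (e s).2
    · intro w hw
      exact ⟨e.symm ⟨w, hw⟩, by rw [hj, MulEquiv.apply_symm_apply]⟩

end Pool.Agent.Lib.MP_12adaf_nt.NS
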