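import Mathlib

/-!
# Galois algebras, and polynomial data which define them
-/

namespace Pool.Agent.Lib.MP_12adaf_nt.NS

open Polynomial

/-- The commutative ring `A` is a Galois algebra with group `G` over the field `K` (Chase,
Harrison, Rosenberg): the group `G` acts on `A ≠ 0` by automorphisms of `K`-algebras, every
invariant element of `A` lies in `K`, and there are elements `x i`, `y i` of `A` such that
`∑ i, x i * g (y i)` is `1` for `g = 1` and `0` for the other elements `g` of `G`. -/
structure IsGaloisAlgebra (K A G : Type*) [Field K] [CommRing A] [Algebra K A] [Group G]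
    [MulSemiringAction G A] : Prop where
  nontrivial : Nontrivial A
  smul_algebraMap : ∀ (g : G) (c : K), g • algebraMap K A c = algebraMap K A c
  invariant : ∀ a : A, (∀ g : G, g • a = a) → ∃ c : K, algebraMap K A c = a
  dual : ∃ (n : ℕ) (x y : Fin n → A), ∑ i, x i * y i = 1 ∧
    ∀ g : G, g ≠ 1 → ∑ i, x i * g • y i = 0

/-- Polynomial data over the ring `R` which define a `G`-algebra `R[X] / (P)` and an equivariant
homomorphism from the field `M` to it: the element `g` of `G` acts by `X ↦ q g`, and `m : M` is
mapped to the class of `r m`. -/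
structure GData (K M R G : Type*) [Field K] [Field M] [Algebra K M] [CommRing R] [Algebra K R]
    [Group G] [MulSemiringAction G M] where
  P : R[X]
  q : G → R[X]
  r : M →ₗ[K] R[X]
  monic : P.Monic
  natDegree_P : P.natDegree = Nat.card G
  comp_q : ∀ g, P ∣ P.comp (q g)
  q_one : P ∣ q 1 - X
  q_mul : ∀ g h, P ∣ q (g * h) - (q h).comp (q g)
  q_unit : ∀ g, g ≠ 1 → ∃ s, P ∣ (q g - X) * s - 1
  r_one : P ∣ r 1 - 1
  r_mul : ∀ m m', P ∣ r (m * m') - r m * r m'
  r_smul : ∀ g m, P ∣ r (g • m) - (r m).comp (q g)

/-- Base change of the polynomial data. -/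
noncomputable def GData.map {K M R R' G : Type*} [Field K] [Field M] [Algebra K M] [CommRing R]
    [Algebra K R] [CommRing R'] [Nontrivial R'] [Algebra K R'] [Group G] [MulSemiringAction G M]
    (D : GData K M R G) (f : R →ₐ[K] R') : GData K M R' G where
  P := D.P.map f.toRingHom
  q g := (D.q g).map f.toRingHom
  r := (Polynomial.mapAlgHom f).toLinearMap ∘ₗ D.r
  monic := D.monic.map _
  natDegree_P := by rw [D.monic.natDegree_map, D.natDegree_P]
  comp_q g := by
    rw [← Polynomial.map_comp]
    exact Polynomial.map_dvd _ (D.comp_q g)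
  q_one := by
    have h := Polynomial.map_dvd f.toRingHom D.q_one
    rwa [Polynomial.map_sub, Polynomial.map_X] at h
  q_mul g h := by
    have h := Polynomial.map_dvd f.toRingHom (D.q_mul g h)
    rwa [Polynomial.map_sub, Polynomial.map_comp] at h
  q_unit g hg := by
    obtain ⟨s, hs⟩ := D.q_unit g hg
    have h := Polynomial.map_dvd f.toRingHom hs
    refine ⟨s.map f.toRingHom, ?_⟩
    rwa [Polynomial.map_sub, Polynomial.map_mul, Polynomial.map_sub, Polynomial.map_X,
      Polynomial.map_one] at h
  r_one := by
    have h := Polynomial.map_dvd f.toRingHom D.r_one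
    rwa [Polynomial.map_sub, Polynomial.map_one] at h
  r_mul m m' := by
    have h := Polynomial.map_dvd f.toRingHom (D.r_mul m m')
    rwa [Polynomial.map_sub, Polynomial.map_mul] at h
  r_smul g m := by
    have h := Polynomial.map_dvd f.toRingHom (D.r_smul g m)
    rwa [Polynomial.map_sub, Polynomial.map_comp] at h

/-- The element `z` of the `R`-algebra `A` with an action of `G` and a map `φ` from `M` is a root
of the data. -/
def GData.IsRoot {K M R G A : Type*} [Field K] [Field M] [Algebra K M] [CommRing R] [Algebra K R]
    [Group G] [MulSemiringAction G M] (D : GData K M R G) [CommRing A] [Algebra R A]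
    [MulSemiringAction G A] (φ : M → A) (z : A) : Prop :=
  aeval z D.P = 0 ∧ (∀ g, aeval z (D.q g) = g • z) ∧ ∀ m, aeval z (D.r m) = φ m

/-- The specialization at a point where `h` does not vanish. -/
noncomputable def spec {K L : Type*} [Field K] [Field L] [Algebra K L] {n : ℕ}
    {h : MvPolynomial (Fin n) K} (t : Fin n → L) (ht : MvPolynomial.aeval t h ≠ 0) :
    Localization.Away h →ₐ[K] L :=
  IsLocalization.liftAlgHom (M := Submonoid.powers h) (f := MvPolynomial.aeval t)
    (fun y => by
      obtain ⟨y, n, rfl⟩ := y
      change IsUnit (MvPolynomial.aeval t (h ^ n))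
      rw [map_pow]
      exact (isUnit_iff_ne_zero.mpr ht).pow n)

lemma spec_algebraMap {K L : Type*} [Field K] [Field L] [Algebra K L] {n : ℕ}
    {h : MvPolynomial (Fin n) K} (t : Fin n → L) (ht : MvPolynomial.aeval t h ≠ 0)
    (p : MvPolynomial (Fin n) K) :
    spec t ht (algebraMap _ (Localization.Away h) p) = MvPolynomial.aeval t p := by
  simp [spec]

end Pool.Agent.Lib.MP_12adaf_nt.NS
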