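import Pool.Agent.Lib.MP_12adaf_ntNS.C0

/-!
# Galois algebras: base change, and algebras defined by polynomial data
-/

namespace Pool.Agent.Lib.MP_12adaf_nt.NS

open Polynomial
open scoped TensorProduct

universe u

/-- The trace formula: `a = ∑ i, x i * tr (y i * a)`. -/
private lemma c1_trace {B G : Type u} [CommRing B] [Group G] [Fintype G] [MulSemiringAction G B]
    {n : ℕ} (x y : Fin n → B) (h1 : ∑ i, x i * y i = 1)
    (h2 : ∀ g : G, g ≠ 1 → ∑ i, x i * g • y i = 0) (a : B) :
    ∑ i, x i * ∑ g : G, g • (y i * a) = a := by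
  classical
  have h3 : ∀ g : G, ∑ i, x i * g • (y i * a) = if g = 1 then a else 0 := by
    intro g
    have h4 : ∑ i, x i * g • (y i * a) = (∑ i, x i * g • y i) * g • a := by
      rw [Finset.sum_mul]
      refine Finset.sum_congr rfl fun i _ => ?_
      rw [smul_mul', mul_assoc]
    rw [h4]
    split_ifs with hg
    · subst hg
      simp only [one_smul]
      rw [h1, one_mul]
    · rw [h2 g hg, zero_mul]
  calc ∑ i, x i * ∑ g : G, g • (y i * a) = ∑ i, ∑ g : G, x i * g • (y i * a) := by
        refine Finset.sum_congr rfl fun i _ => ?_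
        rw [Finset.mul_sum]
    _ = ∑ g : G, ∑ i, x i * g • (y i * a) := Finset.sum_comm
    _ = ∑ g : G, (if g = 1 then a else 0) := Finset.sum_congr rfl fun g _ => h3 g
    _ = a := by simp

/-- The trace is invariant. -/
private lemma c1_inv {B G : Type u} [CommRing B] [Group G] [Fintype G] [MulSemiringAction G B]
    (a : B) (h : G) : h • (∑ g : G, g • a) = ∑ g : G, g • a := by
  rw [Finset.smul_sum]
  simp_rw [smul_smul]
  exact Fintype.sum_equiv (Equiv.mulLeft h) _ _ fun g => rfl

/-- **Equivariant homomorphisms of Galois algebras.**  An equivariant homomorphism from a Galois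
algebra over `k` to a Galois algebra over an extension `L` of `k` becomes an isomorphism after base
change.
Proof.  Let `tr a = ∑ g, g • a`, which is in `k` for `a : A`, in `L` for `a : A'`, and let
`x i`, `y i` be the elements of `A` given by `hA.dual`.  Then `a = ∑ i, tr (y i * a) * x i` for
`a : A`, and `a = ∑ i, tr (f (y i) * a) * f (x i)` for `a : A'`; so the map `L ⊗ A → A'` is
surjective.  If `w = ∑ j, c j ⊗ a j` is in the kernel, then
`w = ∑ j, c j ⊗ ∑ i, x i * tr (y i * a j) = ∑ i, d i ⊗ x i` with `d i = ∑ j, c j * tr (y i * a j)`,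
whose image in `A'` is `∑ g, g • (f (y i) * ∑ j, c j * f (a j)) = 0`, so `d i = 0`. -/
theorem exists_tensor_equiv {k L A A' G : Type u} [Field k] [Field L] [Algebra k L] [CommRing A]
    [Algebra k A] [CommRing A'] [Algebra L A'] [Algebra k A'] [IsScalarTower k L A'] [Group G]
    [Finite G] [MulSemiringAction G A] [MulSemiringAction G A'] (hA : IsGaloisAlgebra k A G)
    (hA' : IsGaloisAlgebra L A' G) (f : A →ₐ[k] A') (hf : ∀ (g : G) (a : A), f (g • a) = g • f a) :
    ∃ e : L ⊗[k] A ≃ₐ[L] A', ∀ a, e (1 ⊗ₜ a) = f a := by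
  classical
  have : Fintype G := Fintype.ofFinite G
  have : Nontrivial A' := hA'.nontrivial
  obtain ⟨n, x, y, h1, h2⟩ := hA.dual
  have h1' : ∑ i, f (x i) * f (y i) = 1 := by
    rw [← map_one f, ← h1, map_sum]
    exact Finset.sum_congr rfl fun i _ => (map_mul f _ _).symm
  have h2' : ∀ g : G, g ≠ 1 → ∑ i, f (x i) * g • f (y i) = 0 := by
    intro g hg
    rw [← map_zero f, ← h2 g hg, map_sum]
    refine Finset.sum_congr rfl fun i _ => ?_
    rw [map_mul, hf]
  let Φ : L ⊗[k] A →ₐ[L] A' :=
    Algebra.TensorProduct.lift (Algebra.ofId L A') f (fun _ _ => Commute.all _ _)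
  have hΦ : ∀ (c : L) (a : A), Φ (c ⊗ₜ a) = algebraMap L A' c * f a := by
    intro c a
    simp [Φ, Algebra.TensorProduct.lift_tmul, Algebra.ofId_apply]
  -- surjectivity
  have hsurj : Function.Surjective Φ := by
    intro a
    have h3 := c1_trace (G := G) (fun i => f (x i)) (fun i => f (y i)) h1' h2' a
    choose l hl using fun i => hA'.invariant _ (c1_inv (G := G) (f (y i) * a))
    refine ⟨∑ i, l i ⊗ₜ x i, ?_⟩
    rw [map_sum]
    refine Eq.trans ?_ h3
    refine Finset.sum_congr rfl fun i _ => ?_
    rw [hΦ, hl, mul_comm]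
  -- the coefficients
  have hcoef : ∀ w : L ⊗[k] A, ∃ d : Fin n → L, w = ∑ i, d i ⊗ₜ x i ∧
      ∀ i, algebraMap L A' (d i) = ∑ g : G, g • (f (y i) * Φ w) := by
    intro w
    induction w using TensorProduct.induction_on with
    | zero =>
      refine ⟨fun _ => 0, ?_, ?_⟩
      · simp
      · intro i
        simp
    | tmul c a =>
      choose t ht using fun i => hA.invariant _ (c1_inv (G := G) (y i * a))
      refine ⟨fun i => t i • c, ?_, ?_⟩
      · have h3 := c1_trace (G := G) x y h1 h2 a
        have h4 : a = ∑ i, t i • x i := by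
          conv_lhs => rw [← h3]
          refine Finset.sum_congr rfl fun i _ => ?_
          rw [← ht i, Algebra.smul_def, mul_comm]
        conv_lhs => rw [h4]
        rw [TensorProduct.tmul_sum]
        refine Finset.sum_congr rfl fun i _ => ?_
        rw [TensorProduct.smul_tmul]
      · intro i
        have h5 : algebraMap L A' (t i • c) = algebraMap L A' c * f (algebraMap k A (t i)) := by
          rw [Algebra.smul_def, map_mul, f.commutes, IsScalarTower.algebraMap_apply k L A',
            mul_comm]
        rw [h5, ht i, map_sum, Finset.mul_sum]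
        refine Finset.sum_congr rfl fun g _ => ?_
        rw [hf, map_mul, hΦ, smul_mul', smul_mul', smul_mul', hA'.smul_algebraMap]
        ring
    | add w w' hw hw' =>
      obtain ⟨d, hd, hd2⟩ := hw
      obtain ⟨d', hd', hd2'⟩ := hw'
      refine ⟨fun i => d i + d' i, ?_, ?_⟩
      · rw [hd, hd', ← Finset.sum_add_distrib]
        exact Finset.sum_congr rfl fun i _ => (TensorProduct.add_tmul _ _ _).symm
      · intro i
        rw [map_add, hd2 i, hd2' i, ← Finset.sum_add_distrib]
        refine Finset.sum_congr rfl fun g _ => ?_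
        rw [map_add, mul_add, smul_add]
  have hinj : Function.Injective Φ := by
    rw [injective_iff_map_eq_zero]
    intro w hw
    obtain ⟨d, hd, hd2⟩ := hcoef w
    rw [hd]
    refine Finset.sum_eq_zero fun i _ => ?_
    have h6 : d i = 0 := by
      have h7 := hd2 i
      rw [hw] at h7
      simp only [mul_zero, smul_zero, Finset.sum_const_zero] at h7
      exact (map_eq_zero_iff _ (algebraMap L A').injective).mp h7
    rw [h6, TensorProduct.zero_tmul]
  have hbij : Function.Bijective Φ := ⟨hinj, hsurj⟩
  refine ⟨AlgEquiv.ofBijective Φ hbij, fun a => ?_⟩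
  have h8 : Φ (1 ⊗ₜ a) = f a := by rw [hΦ, map_one, one_mul]
  exact h8

end Pool.Agent.Lib.MP_12adaf_nt.NS
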