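import Pool.Agent.Lib.MP_12adaf_ntNS.C0

/-!
# The Galois algebra defined by polynomial data
-/

namespace Pool.Agent.Lib.MP_12adaf_nt.NS

open Polynomial

universe u

section C2aux

variable {K M L G : Type*} [Field K] [Field M] [Algebra K M] [Field L]
    [Algebra K L] [Group G] [MulSemiringAction G M] (D : GData K M L G)

/-- a polynomial of small degree with many roots whose differences are units is zero -/
private lemma c2_eq_zero {A ι : Type*} [CommRing A] [Nontrivial A] [Fintype ι] (v : ι → A)
    (hv : ∀ i j, i ≠ j → IsUnit (v i - v j)) (F : A[X]) (hF : F.degree < Fintype.card ι)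
    (h0 : ∀ i, F.eval (v i) = 0) : F = 0 := by
  by_contra hne
  have hdvd : (∏ i, (X - C (v i))) ∣ F := by
    apply Finset.prod_dvd_of_coprime
    · intro i _ j _ hij
      exact isCoprime_X_sub_C_of_isUnit_sub (hv i j hij)
    · intro i _
      rw [dvd_iff_isRoot]
      exact h0 i
  have hmon : (∏ i, (X - C (v i))).Monic := monic_prod_X_sub_C _ _
  refine hmon.not_dvd_of_degree_lt hne ?_ hdvd
  rw [degree_eq_natDegree hmon.ne_zero, natDegree_finsetProd_X_sub_C_eq_card]
  simpa using hF

/-- the action of an element -/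
private noncomputable def c2s (g : G) : AdjoinRoot D.P →ₐ[L] AdjoinRoot D.P :=
  AdjoinRoot.liftAlgHom D.P (Algebra.ofId L _) (AdjoinRoot.mk D.P (D.q g)) (by
    have h := AdjoinRoot.mk_eq_zero.mpr (D.comp_q g)
    rw [← AdjoinRoot.aeval_eq, aeval_comp, AdjoinRoot.aeval_eq] at h
    exact h)

private lemma c2s_mk (g : G) (p : L[X]) :
    c2s D g (AdjoinRoot.mk D.P p) = AdjoinRoot.mk D.P (p.comp (D.q g)) := by
  rw [← AdjoinRoot.aeval_eq (p.comp (D.q g)), aeval_comp, AdjoinRoot.aeval_eq, c2s,
    AdjoinRoot.liftAlgHom_mk]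
  rfl

private lemma c2s_root (g : G) :
    c2s D g (AdjoinRoot.root D.P) = AdjoinRoot.mk D.P (D.q g) := by
  rw [← AdjoinRoot.mk_X, c2s_mk, X_comp]

private lemma c2s_one (a : AdjoinRoot D.P) : c2s D 1 a = a := by
  have h : c2s D 1 = AlgHom.id L _ := by
    apply AdjoinRoot.algHom_ext
    rw [c2s_root, AlgHom.id_apply, ← AdjoinRoot.mk_X, AdjoinRoot.mk_eq_mk]
    exact D.q_one
  rw [h, AlgHom.id_apply]

private lemma c2s_mul (g h : G) (a : AdjoinRoot D.P) : c2s D (g * h) a = c2s D g (c2s D h a) := by
  have e : c2s D (g * h) = (c2s D g).comp (c2s D h) := by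
    apply AdjoinRoot.algHom_ext
    rw [AlgHom.comp_apply, c2s_root, c2s_root, c2s_mk, AdjoinRoot.mk_eq_mk]
    exact D.q_mul g h
  rw [e, AlgHom.comp_apply]

/-- the action -/
@[instance_reducible] private noncomputable def c2act : MulSemiringAction G (AdjoinRoot D.P) where
  smul g a := c2s D g a
  one_smul a := c2s_one D a
  mul_smul g h a := c2s_mul D g h a
  smul_zero g := map_zero (c2s D g)
  smul_add g := map_add (c2s D g)
  smul_one g := map_one (c2s D g)
  smul_mul g := map_mul (c2s D g)

/-- the map from the field -/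
private noncomputable def c2psi : M →+* AdjoinRoot D.P where
  toFun m := AdjoinRoot.mk D.P (D.r m)
  map_one' := by
    rw [← map_one (AdjoinRoot.mk D.P), AdjoinRoot.mk_eq_mk]
    exact D.r_one
  map_mul' m m' := by
    rw [← map_mul, AdjoinRoot.mk_eq_mk]
    exact D.r_mul m m'
  map_zero' := by rw [map_zero, map_zero]
  map_add' m m' := by rw [map_add, map_add]

private lemma c2psi_apply (m : M) : c2psi D m = AdjoinRoot.mk D.P (D.r m) := rfl

private lemma c2_unit_one (g : G) (hg : g ≠ 1) :
    IsUnit (c2s D g (AdjoinRoot.root D.P) - AdjoinRoot.root D.P) := by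
  obtain ⟨s, hs⟩ := D.q_unit g hg
  have h := AdjoinRoot.mk_eq_mk.mpr hs
  rw [map_mul, map_sub, AdjoinRoot.mk_X, map_one, ← c2s_root] at h
  exact IsUnit.of_mul_eq_one _ h

private lemma c2_unit (g h : G) (hgh : g ≠ h) :
    IsUnit (c2s D g (AdjoinRoot.root D.P) - c2s D h (AdjoinRoot.root D.P)) := by
  have h1 : h⁻¹ * g ≠ 1 := by
    intro e
    exact hgh (inv_mul_eq_one.mp e).symm
  have h2 := (c2_unit_one D _ h1).map (c2s D h)
  rwa [map_sub, ← c2s_mul, mul_inv_cancel_left] at h2

private lemma c2_nontrivial [Finite G] : Nontrivial (AdjoinRoot D.P) := by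
  apply AdjoinRoot.nontrivial
  intro h
  have h1 := natDegree_eq_of_degree_eq_some h
  rw [D.natDegree_P] at h1
  exact Nat.card_pos.ne' h1

end C2aux

/-- **The Galois algebra defined by polynomial data.**  `A = AdjoinRoot D.P`; `g` acts by the
homomorphism `root ↦ mk (D.q g)` (`AdjoinRoot.liftAlgHom`), `ψ m = mk (D.r m)`.
It is a Galois algebra: `g • root - root` is a unit for `g ≠ 1` (`q_unit`), hence `g • root - h • root`
is a unit for `g ≠ h`.  `dual`: the polynomial `Q = ∏ h ≠ 1, (Y - h • root)` in `A[Y]` has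
`Q (g • root) = 0` for `g ≠ 1` and `Q (root)` is a unit `u`; take `x i = u⁻¹ * Q.coeff i`,
`y i = root ^ i`.  `invariant`: let `a = mk p`, `p.degree < Nat.card G`, be invariant; the polynomial
`p - a` in `A[Y]` of degree `< Nat.card G` vanishes at all `g • root`, so it is zero (a polynomial
with roots whose differences are units is divisible by the product of the linear factors), so
`a = p.coeff 0` is in `L`. -/
theorem GData.exists_algebra {K M L G : Type u} [Field K] [Field M] [Algebra K M] [Field L]
    [Algebra K L] [Group G] [Finite G] [MulSemiringAction G M] (D : GData K M L G) :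
    ∃ (A : Type u) (_ : CommRing A) (_ : Algebra L A) (_ : MulSemiringAction G A) (ψ : M →+* A),
      IsGaloisAlgebra L A G ∧
      (∀ a : K, ψ (algebraMap K M a) = algebraMap L A (algebraMap K L a)) ∧
      (∀ (g : G) (m : M), ψ (g • m) = g • ψ m) ∧
      ∀ (A' : Type u) [CommRing A'] [Algebra L A'] [MulSemiringAction G A'] (φ : M → A') (z : A'),
        (∀ (g : G) (c : L), g • algebraMap L A' c = algebraMap L A' c) → D.IsRoot φ z →
        ∃ f : A →ₐ[L] A', (∀ (g : G) (a : A), f (g • a) = g • f a) ∧ ∀ m, f (ψ m) = φ m := by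
  classical
  have hfin : Fintype G := Fintype.ofFinite G
  have hnt : Nontrivial (AdjoinRoot D.P) := c2_nontrivial D
  refine ⟨AdjoinRoot D.P, inferInstance, inferInstance, c2act D, c2psi D, ?_, ?_, ?_, ?_⟩
  · let _ : MulSemiringAction G (AdjoinRoot D.P) := c2act D
    have hsm : ∀ (g : G) (a : AdjoinRoot D.P), g • a = c2s D g a := fun g a => rfl
    refine ⟨hnt, fun g c => ?_, fun a ha => ?_, ?_⟩
    · rw [hsm]
      exact (c2s D g).commutes c
    · obtain ⟨p0, rfl⟩ := AdjoinRoot.mk_surjective a
      set p := p0 %ₘ D.P with hp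
      have hpp : AdjoinRoot.mk D.P p0 = AdjoinRoot.mk D.P p := by
        rw [AdjoinRoot.mk_eq_mk]
        refine ⟨p0 /ₘ D.P, ?_⟩
        have := modByMonic_add_div p0 D.P
        rw [hp]
        linear_combination -this
      rw [hpp] at ha ⊢
      have hdeg : p.degree < Fintype.card G := by
        have h1 := degree_modByMonic_lt p0 D.monic
        rw [degree_eq_natDegree D.monic.ne_zero, D.natDegree_P, Nat.card_eq_fintype_card] at h1
        exact h1
      have hF := c2_eq_zero (fun g : G => c2s D g (AdjoinRoot.root D.P)) (fun i j hij =>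
        c2_unit D i j hij) (p.map (algebraMap L (AdjoinRoot D.P)) - C (AdjoinRoot.mk D.P p)) (by
          refine lt_of_le_of_lt (degree_sub_le _ _) (max_lt ?_ ?_)
          · exact lt_of_le_of_lt (degree_map_le) hdeg
          · refine lt_of_le_of_lt degree_C_le ?_
            exact_mod_cast Fintype.card_pos) (by
          intro g
          rw [eval_sub, eval_C, eval_map_algebraMap]
          have h1 := ha g
          rw [hsm] at h1
          have h2 : aeval (c2s D g (AdjoinRoot.root D.P)) p = c2s D g (AdjoinRoot.mk D.P p) := by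
            rw [← AdjoinRoot.aeval_eq p, aeval_algHom_apply]
          rw [h2, h1, sub_self])
      refine ⟨p.coeff 0, ?_⟩
      have h3 := congrArg (fun F => coeff F 0) hF
      simp only [coeff_sub, coeff_map, coeff_C_zero, coeff_zero] at h3
      exact sub_eq_zero.mp h3
    · set ρ := AdjoinRoot.root D.P with hρ
      set Q : (AdjoinRoot D.P)[X] := ∏ h ∈ Finset.univ.erase (1 : G), (X - C (c2s D h ρ)) with hQ
      have hQ1 : IsUnit (Q.eval ρ) := by
        rw [hQ, eval_prod]
        apply Finset.prod_induction _ IsUnit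
        · intro a b ha hb
          exact ha.mul hb
        · exact isUnit_one
        · intro h hh
          have h1 := (c2_unit_one D h (Finset.ne_of_mem_erase hh)).neg
          rw [neg_sub] at h1
          rw [eval_sub, eval_X, eval_C]
          exact h1
      have hQ0 : ∀ g : G, g ≠ 1 → Q.eval (c2s D g ρ) = 0 := by
        intro g hg
        rw [hQ, eval_prod]
        apply Finset.prod_eq_zero (Finset.mem_erase.mpr ⟨hg, Finset.mem_univ g⟩)
        rw [eval_sub, eval_X, eval_C, sub_self]
      obtain ⟨u, hu⟩ := hQ1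
      refine ⟨Q.natDegree + 1, fun i => (↑u⁻¹ : AdjoinRoot D.P) * Q.coeff i, fun i => ρ ^ (i : ℕ),
        ?_, ?_⟩
      · have h1 : ∑ i : Fin (Q.natDegree + 1), (↑u⁻¹ : AdjoinRoot D.P) * Q.coeff i * ρ ^ (i : ℕ)
            = (↑u⁻¹ : AdjoinRoot D.P) * Q.eval ρ := by
          rw [eval_eq_sum_range, Finset.mul_sum, Finset.sum_range]
          exact Finset.sum_congr rfl fun i _ => mul_assoc _ _ _
        rw [h1, ← hu, Units.inv_mul]
      · intro g hg
        have h1 : ∑ i : Fin (Q.natDegree + 1), (↑u⁻¹ : AdjoinRoot D.P) * Q.coeff i *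
            g • (ρ ^ (i : ℕ)) = (↑u⁻¹ : AdjoinRoot D.P) * Q.eval (c2s D g ρ) := by
          rw [eval_eq_sum_range, Finset.mul_sum, Finset.sum_range]
          refine Finset.sum_congr rfl fun i _ => ?_
          rw [hsm, map_pow, mul_assoc]
        rw [h1, hQ0 g hg, mul_zero]
  · intro a
    rw [c2psi_apply, Algebra.algebraMap_eq_smul_one, map_smul, ← algebraMap_smul L a (D.r 1),
      smul_eq_C_mul, map_mul, ← c2psi_apply, map_one, mul_one]
    rfl
  · intro g m
    change _ = c2s D g _
    rw [c2psi_apply, c2psi_apply, c2s_mk, AdjoinRoot.mk_eq_mk]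
    exact D.r_smul g m
  · intro A' _ _ _ φ z hz hroot
    obtain ⟨h1, h2, h3⟩ := hroot
    refine ⟨AdjoinRoot.liftAlgHom D.P (Algebra.ofId L _) z h1, ?_, ?_⟩
    · intro g a
      obtain ⟨p, rfl⟩ := AdjoinRoot.mk_surjective a
      change AdjoinRoot.liftAlgHom D.P (Algebra.ofId L _) z h1 (c2s D g _) = _
      rw [c2s_mk, AdjoinRoot.liftAlgHom_mk, AdjoinRoot.liftAlgHom_mk]
      change aeval z (p.comp (D.q g)) = g • aeval z p
      rw [aeval_comp, h2]
      induction p using Polynomial.induction_on' with
      | add p q hp hq => rw [map_add, map_add, hp, hq, smul_add]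
      | monomial n c => simp [aeval_monomial, smul_mul', hz]
    · intro m
      rw [c2psi_apply, AdjoinRoot.liftAlgHom_mk]
      exact h3 m

end Pool.Agent.Lib.MP_12adaf_nt.NS
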