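import Pool.Agent.Lib.MP_12adaf_ntNS.N7c

/-!
# Parameters of fields of invariants
-/

namespace Pool.Agent.Lib.MP_12adaf_nt.NS

universe u

/-- Transport of the variables. -/
private lemma c3_transport {K F E : Type*} [Field K] [Field F] [Field E] [Algebra K F]
    [Algebra F E] [Algebra K E] [IsScalarTower K F E] {m n : ℕ} {y : Fin m → E}
    (hy : AlgebraicIndependent F y)
    (φ : FractionRing (MvPolynomial (Fin m) F) ≃ₐ[K] FractionRing (MvPolynomial (Fin n) K)) :
    ∃ t : Fin n → E, (∀ i, t i ∈ IntermediateField.adjoin F (Set.range y)) ∧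
      AlgebraicIndependent K t ∧
      ∀ z ∈ IntermediateField.adjoin F (Set.range y),
        z ∈ IntermediateField.adjoin K (Set.range t) := by
  let e : FractionRing (MvPolynomial (Fin m) F) ≃ₐ[K]
      IntermediateField.adjoin F (Set.range y) := hy.aevalEquivField.restrictScalars K
  let ψ : FractionRing (MvPolynomial (Fin n) K) →ₐ[K] E :=
    ((IntermediateField.adjoin F (Set.range y)).val.restrictScalars K).comp
      (φ.symm.trans e).toAlgHom
  let X : Fin n → FractionRing (MvPolynomial (Fin n) K) := fun i =>
    algebraMap (MvPolynomial (Fin n) K) _ (MvPolynomial.X i)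
  have hX : AlgebraicIndependent K X := by
    have h := (MvPolynomial.algebraicIndependent_X (Fin n) K).map'
      (f := IsScalarTower.toAlgHom K (MvPolynomial (Fin n) K)
        (FractionRing (MvPolynomial (Fin n) K)))
      (IsFractionRing.injective (MvPolynomial (Fin n) K) _)
    exact h
  have hgen : ∀ w : FractionRing (MvPolynomial (Fin n) K),
      w ∈ IntermediateField.adjoin K (Set.range X) := by
    have key : ∀ p : MvPolynomial (Fin n) K,
        algebraMap (MvPolynomial (Fin n) K) (FractionRing (MvPolynomial (Fin n) K)) p ∈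
          IntermediateField.adjoin K (Set.range X) := by
      intro p
      induction p using MvPolynomial.induction_on with
      | C a =>
        rw [← MvPolynomial.algebraMap_eq,
          ← IsScalarTower.algebraMap_apply K (MvPolynomial (Fin n) K)]
        exact IntermediateField.algebraMap_mem _ a
      | add p q hp hq => rw [map_add]; exact add_mem hp hq
      | mul_X p s hp =>
        rw [map_mul]
        exact mul_mem hp (IntermediateField.subset_adjoin _ _ ⟨s, rfl⟩)
    intro w
    obtain ⟨p, q, -, rfl⟩ := IsFractionRing.div_surjective (MvPolynomial (Fin n) K) w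
    exact div_mem (key p) (key q)
  refine ⟨fun i => ψ (X i), fun i => ?_, hX.map' ψ.injective, fun z hz => ?_⟩
  · exact ((φ.symm.trans e) (X i)).2
  · let w : FractionRing (MvPolynomial (Fin n) K) := (φ.symm.trans e).symm ⟨z, hz⟩
    have hw : ψ w = z := by
      change (((φ.symm.trans e) ((φ.symm.trans e).symm ⟨z, hz⟩) :
        IntermediateField.adjoin F (Set.range y)) : E) = z
      rw [AlgEquiv.apply_symm_apply]
    have h1 : ψ w ∈ (IntermediateField.adjoin K (Set.range X)).map ψ := ⟨w, hgen w, rfl⟩
    rw [hw, IntermediateField.adjoin_map, ← Set.range_comp] at h1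
    exact h1

/-- The regular extension, with the action. -/
private lemma c3_regular {K M G : Type u} [Field K] [Field M] [Algebra K M]
    [Group G] [Finite G] [MulSemiringAction G M] :
    ∃ (E : Type u) (_ : Field E) (_ : Algebra M E) (_ : Algebra K E) (_ : MulSemiringAction G E)
      (X : G → E), SemExt K M G E G X ∧ ∀ g s : G, g • X s = X (g * s) := by
  classical
  cases nonempty_fintype G
  obtain ⟨E, _, _, _, X, hX1, hX2, hact, hX⟩ := exists_matrix_ext (E := M) (G := G) (σ := G)
    (fun g => Matrix.of fun t s => if t = g * s then 1 else 0) (by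
      ext t s
      simp [Matrix.one_apply]) (fun g h => by
      ext t s
      simp only [Matrix.of_apply, Matrix.mul_apply, Matrix.map_apply, apply_ite, smul_one,
        smul_zero, mul_one, mul_zero]
      rw [Finset.sum_ite_eq' Finset.univ (h * s)]
      simp [mul_assoc])
  have hX' : ∀ g s : G, g • X s = X (g * s) := by
    intro g s
    rw [hX]
    simp
  let algK : Algebra K E := ((algebraMap M E).comp (algebraMap K M)).toAlgebra
  refine ⟨E, _, _, algK, _, X, ⟨IsScalarTower.of_algebraMap_eq fun _ => rfl, hact, hX1, hX2,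
    fun g s => ?_, fun g hg => ?_⟩, hX'⟩
  · rw [hX']
    exact Submodule.subset_span ⟨_, rfl⟩
  · have h1 := hg (X 1)
    rw [hX', mul_one] at h1
    exact hX1.injective h1

/-- **Parameters.**  If the fields of invariants are stably rational, there is a field
`E = M (x_g, y_i)` with `g x_h = x_{g h}`, `g y_i = y_i` and with a purely transcendental field of
invariants over `K`. -/
theorem exists_param {K M G : Type u} [Field K] [Field M] [CharZero M] [Algebra K M] [Group G]
    [Finite G] [MulSemiringAction G M] [SMulCommClass G K M] [Algebra.IsInvariant K M G]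
    (h : Goal K M G) :
    ∃ (E : Type u) (_ : Field E) (_ : Algebra M E) (_ : Algebra K E) (_ : IsScalarTower K M E)
      (_ : MulSemiringAction G E) (m n : ℕ) (x : G → E) (y : Fin m → E) (t : Fin n → E),
      AlgebraicIndependent M (Sum.elim x y) ∧
      IntermediateField.adjoin M (Set.range (Sum.elim x y)) = ⊤ ∧
      (∀ (g : G) (a : M), g • algebraMap M E a = algebraMap M E (g • a)) ∧
      (∀ g h : G, g • x h = x (g * h)) ∧ (∀ (g : G) (i : Fin m), g • y i = y i) ∧
      (∀ (g : G) (i : Fin n), g • t i = t i) ∧ AlgebraicIndependent K t ∧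
      ∀ z : E, (∀ g : G, g • z = z) → z ∈ IntermediateField.adjoin K (Set.range t) := by
  classical
  cases nonempty_fintype G
  obtain ⟨E1, _, _, _, _, X, hS, hX⟩ := c3_regular (K := K) (M := M) (G := G)
  have htow := hS.tower
  let F : IntermediateField K E1 := fixF K G hS.smul_K
  obtain ⟨m, n, ⟨φ⟩⟩ := h E1 G X hS F (fun z => mem_fixF)
  obtain ⟨E, _, _, _, Y, hY1, hY2, hact, hY⟩ := exists_matrix_ext (E := E1) (G := G)
    (σ := ULift.{u} (Fin m)) (fun _ => 1) rfl (fun g h => by
      rw [one_mul]
      ext t s
      simp [Matrix.one_apply, apply_ite])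
  have hY' : ∀ (g : G) (s : ULift.{u} (Fin m)), g • Y s = Y s := by
    intro g s
    rw [hY]
    simp [Matrix.one_apply]
  let algM : Algebra M E := ((algebraMap E1 E).comp (algebraMap M E1)).toAlgebra
  let algK : Algebra K E := ((algebraMap E1 E).comp (algebraMap K E1)).toAlgebra
  have tow1 : IsScalarTower M E1 E := IsScalarTower.of_algebraMap_eq fun _ => rfl
  have tow2 : IsScalarTower K E1 E := IsScalarTower.of_algebraMap_eq fun _ => rfl
  have tow3 : IsScalarTower K M E := IsScalarTower.of_algebraMap_eq fun a => by
    rw [IsScalarTower.algebraMap_apply K E1 E, IsScalarTower.algebraMap_apply K M E1,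
      ← IsScalarTower.algebraMap_apply M E1 E]
  have hT : SemExt K M G E (ULift.{u} (Fin m) ⊕ G) (Sum.elim Y (algebraMap E1 E ∘ X)) :=
    SemExt.tower' hS.act hact hS.ind hY1 hS.gen hY2 hS.lin
      (fun g i => by rw [hY']; exact Submodule.subset_span ⟨i, rfl⟩)
      (fun g hg => hS.faith g fun z => by
        have h1 := hg (algebraMap E1 E z)
        rw [hact] at h1
        exact (algebraMap E1 E).injective h1)
  let y : Fin m → E := fun i => Y (ULift.up i)
  let x : G → E := fun g => algebraMap E1 E (X g)
  have hy : AlgebraicIndependent E1 y := hY1.comp ULift.up (fun a b hab => by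
    simpa using hab)
  have hrange : Set.range y = Set.range Y := by
    ext z
    constructor
    · rintro ⟨i, rfl⟩
      exact ⟨ULift.up i, rfl⟩
    · rintro ⟨i, rfl⟩
      exact ⟨i.down, rfl⟩
  have hcomp : Sum.elim x y = Sum.elim Y (algebraMap E1 E ∘ X) ∘
      (Sum.elim Sum.inr (fun i => Sum.inl (ULift.up i))) := by
    funext s
    rcases s with g | i <;> rfl
  have hF1 : SMulCommClass G F E1 := ⟨fun g f e => by
    change g • ((f : E1) * e) = (f : E1) * g • e
    rw [smul_mul', (mem_fixF.1 f.2) g]⟩
  have hF2 : Algebra.IsInvariant F E1 G := ⟨fun b hb => ⟨⟨b, mem_fixF.2 hb⟩, rfl⟩⟩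
  have hchar : CharZero E1 := charZero_of_injective_algebraMap (algebraMap M E1).injective
  have hyF : AlgebraicIndependent F y := hy.restrictScalars (algebraMap F E1).injective
  obtain ⟨t, ht1, ht2, ht3⟩ := c3_transport (K := K) hyF φ
  have hyg : ∀ (g : G) (i : Fin m), g • y i = y i := fun g i => hY' g _
  have hfix : ∀ z ∈ IntermediateField.adjoin F (Set.range y), ∀ g : G, g • z = z := by
    intro z hz g
    induction hz using IntermediateField.adjoin_induction with
    | mem z hz => obtain ⟨i, rfl⟩ := hz; exact hyg g i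
    | algebraMap a =>
      rw [IsScalarTower.algebraMap_apply F E1 E, hact]
      exact congrArg _ (mem_fixF.1 a.2 g)
    | add a b _ _ ha hb => rw [smul_add, ha, hb]
    | inv a _ ha =>
      have : g • a⁻¹ = (g • a)⁻¹ := map_inv₀ (MulSemiringAction.toRingHom G E g) a
      rw [this, ha]
    | mul a b _ _ ha hb => rw [smul_mul', ha, hb]
  refine ⟨E, _, algM, algK, tow3, _, m, n, x, y, t, ?_, ?_, hT.act, fun g h => ?_, hyg,
    fun g i => hfix _ (ht1 i) g, ht2, fun z hz => ht3 z ?_⟩
  · rw [hcomp]
    refine hT.ind.comp _ ?_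
    rintro (a | a) (b | b) hab
    · simpa using hab
    · simp at hab
    · simp at hab
    · simpa using hab
  · have h1 : Set.range (Sum.elim x y) = Set.range (Sum.elim Y (algebraMap E1 E ∘ X)) := by
      ext z
      constructor
      · rintro ⟨s, rfl⟩
        rw [hcomp]
        exact ⟨_, rfl⟩
      · rintro ⟨s | s, rfl⟩
        · exact ⟨Sum.inr s.down, rfl⟩
        · exact ⟨Sum.inl s, rfl⟩
    rw [h1]
    exact hT.gen
  · change g • algebraMap E1 E (X h) = algebraMap E1 E (X (g * h))
    rw [hact, hX]
  · refine fixed_mem_adjoin (K := F) (M := E1) hact hyg ?_ hz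
    rw [hrange, hY2]
    trivial

end Pool.Agent.Lib.MP_12adaf_nt.NS
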