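import Pool.Agent.Lib.MP_12adaf_ntNS.C0

/-!
# Polynomial data from the field of invariants
-/

namespace Pool.Agent.Lib.MP_12adaf_nt.NS

open Polynomial

universe u

/-- A product of different linear factors divides a polynomial vanishing at the nodes. -/
private lemma c4a_prod_dvd {E G : Type u} [Field E] [Fintype G] {x : G → E}
    (hx : Function.Injective x) {f : E[X]} (hf : ∀ h, f.eval (x h) = 0) :
    ∏ g : G, (X - C (x g)) ∣ f := by
  apply Finset.prod_dvd_of_coprime
  · intro a _ b _ hab
    exact pairwise_coprime_X_sub_C hx hab
  · intro g _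
    rw [dvd_iff_isRoot]
    exact hf g

/-- A product of linear factors is coprime to a polynomial without zeros at the nodes. -/
private lemma c4a_coprime {E G : Type u} [Field E] [Fintype G] {x : G → E}
    {f : E[X]} (hf : ∀ h, f.eval (x h) ≠ 0) :
    IsCoprime (∏ g : G, (X - C (x g))) f := by
  apply IsCoprime.prod_left
  intro g _
  rw [(irreducible_X_sub_C (x g)).coprime_iff_not_dvd, dvd_iff_isRoot]
  exact hf g

/-- The interpolating polynomial of an equivariant function has invariant coefficients. -/
private lemma c4a_interp {E G : Type u} [Field E] [Group G] [Fintype G] [DecidableEq G]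
    [MulSemiringAction G E] {x : G → E} (hx : Function.Injective x)
    (hgx : ∀ g h : G, g • x h = x (g * h)) {w : G → E} (hw : ∀ g h : G, g • w h = w (g * h))
    (g : G) (n : ℕ) :
    g • (Lagrange.interpolate Finset.univ x w).coeff n =
      (Lagrange.interpolate Finset.univ x w).coeff n := by
  have hinj : Set.InjOn x (↑(Finset.univ : Finset G)) := hx.injOn
  have key : (Lagrange.interpolate Finset.univ x w).map (MulSemiringAction.toRingHom G E g) =
      Lagrange.interpolate Finset.univ x w := by
    apply Polynomial.eq_of_degrees_lt_of_eval_index_eq Finset.univ hinj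
    · rw [Polynomial.degree_map]
      exact Lagrange.degree_interpolate_lt w hinj
    · exact Lagrange.degree_interpolate_lt w hinj
    · intro h _
      rw [Lagrange.eval_interpolate_at_node w hinj (Finset.mem_univ h)]
      have e1 : x h = MulSemiringAction.toRingHom G E g (x (g⁻¹ * h)) := by
        rw [MulSemiringAction.toRingHom_apply, hgx, mul_inv_cancel_left]
      rw [e1, eval_map_apply, Lagrange.eval_interpolate_at_node w hinj (Finset.mem_univ _),
        MulSemiringAction.toRingHom_apply, hw, mul_inv_cancel_left]
  have h2 := congrArg (fun p => p.coeff n) key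
  simpa only [coeff_map, MulSemiringAction.toRingHom_apply] using h2

/-- A polynomial with invariant coefficients comes from the field of invariants. -/
private lemma c4a_lift {K E G : Type u} [Field K] [Field E] [Algebra K E] [Group G]
    [MulSemiringAction G E] (F : IntermediateField K E) (hF : ∀ z, z ∈ F ↔ ∀ g : G, g • z = z)
    {p : E[X]} (hp : ∀ (g : G) n, g • p.coeff n = p.coeff n) :
    ∃ q : F[X], q.map (algebraMap F E) = p := by
  have h : p ∈ Polynomial.lifts (algebraMap F E) := by
    rw [Polynomial.lifts_iff_coeff_lifts]
    intro n
    exact ⟨⟨p.coeff n, (hF _).2 fun g => hp g n⟩, rfl⟩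
  obtain ⟨q, hq⟩ := (Polynomial.mem_lifts p).1 h
  exact ⟨q, hq⟩

/-- **Lagrange interpolation.**  `F` is the field of invariants of `G` in `E`, and the elements
`x g` of `E` are pairwise different and permuted by `g • x h = x (g * h)`.
Proof: over `E` take `P = ∏ g, (X - C (x g))`, `q g` the polynomial of degree `< Nat.card G` with
`q g (x h) = x (h * g)` for all `h` (`Lagrange.interpolate`), `r m` the one with `r m (x h) = h • m`
(in `E`).  The action of `u : G` on the coefficients maps each of them to itself (it permutes
the nodes compatibly with the values), so the coefficients are in `F`; the divisibilities are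
checked over `E` (`Polynomial.map_dvd_map'`), where `P ∣ f` iff `f` vanishes at all the `x h`.
For `q_unit`: `q g - X` has the value `x (h * g) - x h ≠ 0` at `x h`, so it is coprime to `P`. -/
theorem exists_gdata_field {K M E G : Type u} [Field K] [Field M] [Algebra K M] [Field E]
    [Algebra M E] [Algebra K E] [IsScalarTower K M E] [Group G] [Finite G]
    [MulSemiringAction G M] [MulSemiringAction G E] [SMulCommClass G K M]
    (hact : ∀ (g : G) (a : M), g • algebraMap M E a = algebraMap M E (g • a))
    {x : G → E} (hx : Function.Injective x) (hgx : ∀ g h : G, g • x h = x (g * h))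
    (F : IntermediateField K E) (hF : ∀ z, z ∈ F ↔ ∀ g : G, g • z = z) :
    ∃ D : GData K M F G, aeval (x 1) D.P = 0 ∧ (∀ g, aeval (x 1) (D.q g) = x g) ∧
      ∀ m, aeval (x 1) (D.r m) = algebraMap M E m := by
  classical
  haveI := Fintype.ofFinite G
  have hinj : Set.InjOn x (↑(Finset.univ : Finset G)) := hx.injOn
  -- the polynomial `P`
  have hP0 : ∀ (g : G) n, g • (∏ h : G, (X - C (x h))).coeff n =
      (∏ h : G, (X - C (x h))).coeff n := by
    intro g n
    have key : (∏ h : G, (X - C (x h))).map (MulSemiringAction.toRingHom G E g) =
        ∏ h : G, (X - C (x h)) := by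
      rw [Polynomial.map_prod]
      refine Fintype.prod_equiv (Equiv.mulLeft g) _ _ fun h => ?_
      rw [Polynomial.map_sub, map_X, map_C, MulSemiringAction.toRingHom_apply, hgx]
      rfl
    have h2 := congrArg (fun p => p.coeff n) key
    simpa [coeff_map] using h2
  obtain ⟨P, hP⟩ := c4a_lift F hF hP0
  -- the polynomials `q g`
  have hq0 : ∀ g : G, ∃ q : F[X], q.map (algebraMap F E) =
      Lagrange.interpolate Finset.univ x (fun h => x (h * g)) := by
    intro g
    refine c4a_lift F hF fun u n => c4a_interp hx hgx (fun a b => ?_) u n
    rw [hgx, mul_assoc]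
  choose q hq using hq0
  -- the polynomials `r m`
  have hr0 : ∀ m : M, ∃ r : F[X], r.map (algebraMap F E) =
      Lagrange.interpolate Finset.univ x (fun h => h • algebraMap M E m) := by
    intro m
    refine c4a_lift F hF fun u n => c4a_interp hx hgx (fun a b => ?_) u n
    rw [smul_smul]
  choose r hr using hr0
  have hmapinj : Function.Injective (Polynomial.map (algebraMap F E)) :=
    Polynomial.map_injective _ (algebraMap F E).injective
  -- values
  have haev : ∀ (f : F[X]) (z : E), aeval z f = (f.map (algebraMap F E)).eval z := by
    intro f z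
    rw [eval_map_algebraMap]
  have vP : ∀ h, aeval (x h) P = 0 := by
    intro h
    rw [haev, hP, eval_prod]
    exact Finset.prod_eq_zero (Finset.mem_univ h) (by simp)
  have vq : ∀ g h, aeval (x h) (q g) = x (h * g) := by
    intro g h
    rw [haev, hq, Lagrange.eval_interpolate_at_node _ hinj (Finset.mem_univ _)]
  have vr : ∀ m h, aeval (x h) (r m) = h • algebraMap M E m := by
    intro m h
    rw [haev, hr, Lagrange.eval_interpolate_at_node _ hinj (Finset.mem_univ _)]
  -- divisibility
  have hdvd : ∀ f : F[X], (∀ h, aeval (x h) f = 0) → P ∣ f := by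
    intro f hf
    rw [← Polynomial.map_dvd_map' (algebraMap F E), hP]
    exact c4a_prod_dvd hx fun h => by rw [← haev]; exact hf h
  have hr_add : ∀ m m', r (m + m') = r m + r m' := by
    intro m m'
    apply hmapinj
    rw [Polynomial.map_add, hr, hr, hr, ← map_add]
    congr 1
    funext h
    rw [Pi.add_apply, map_add, smul_add]
  have hr_smul : ∀ (c : K) m, r (c • m) = c • r m := by
    intro c m
    apply hmapinj
    have e1 : (c • r m).map (algebraMap F E) = (algebraMap K E c) • (r m).map (algebraMap F E) := by
      ext n
      rw [coeff_map, coeff_smul, coeff_smul, coeff_map, Algebra.smul_def, map_mul,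
        ← IsScalarTower.algebraMap_apply K F E, smul_eq_mul]
    rw [e1, hr, hr, ← map_smul]
    congr 1
    funext h
    rw [Pi.smul_apply, hact, hact, smul_comm, Algebra.smul_def c (h • m), map_mul,
      ← IsScalarTower.algebraMap_apply K M E, smul_eq_mul]
  refine ⟨{ P := P, q := q, r := { toFun := r, map_add' := hr_add, map_smul' := hr_smul },
            monic := ?_, natDegree_P := ?_, comp_q := ?_, q_one := ?_, q_mul := ?_,
            q_unit := ?_, r_one := ?_, r_mul := ?_, r_smul := ?_ }, ?_, ?_, ?_⟩
  · apply Polynomial.monic_of_injective (algebraMap F E).injective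
    rw [hP]
    exact monic_prod_of_monic _ _ fun g _ => monic_X_sub_C _
  · rw [← Polynomial.natDegree_map (algebraMap F E), hP, natDegree_prod_of_monic _ _
      fun g _ => monic_X_sub_C _]
    simp
  · intro g
    apply hdvd
    intro h
    rw [aeval_comp, vq, vP]
  · apply hdvd
    intro h
    rw [map_sub, aeval_X, vq, mul_one, sub_self]
  · intro g h
    apply hdvd
    intro a
    rw [map_sub, aeval_comp, vq, vq, vq, mul_assoc, sub_self]
  · intro g hg
    have hc : IsCoprime P (q g - X) := by
      rw [← Polynomial.isCoprime_map (algebraMap F E), hP]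
      apply c4a_coprime
      intro h
      rw [← haev, map_sub, aeval_X, vq]
      intro h0
      apply hg
      have := hx (sub_eq_zero.1 h0)
      simpa using this
    obtain ⟨a, b, hab⟩ := hc
    refine ⟨b, -a, ?_⟩
    linear_combination hab
  · apply hdvd
    intro h
    change aeval (x h) (r 1 - 1) = 0
    rw [map_sub, vr, map_one, map_one, smul_one, sub_self]
  · intro m m'
    apply hdvd
    intro h
    change aeval (x h) (r (m * m') - r m * r m') = 0
    rw [map_sub, map_mul, vr, vr, vr, map_mul, smul_mul', sub_self]
  · intro g m
    apply hdvd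
    intro h
    change aeval (x h) (r (g • m) - (r m).comp (q g)) = 0
    rw [map_sub, aeval_comp, vq, vr, vr, ← hact, smul_smul, sub_self]
  · exact vP 1
  · intro g
    change aeval (x 1) (q g) = x g
    rw [vq, one_mul]
  · intro m
    change aeval (x 1) (r m) = algebraMap M E m
    rw [vr, one_smul]

end Pool.Agent.Lib.MP_12adaf_nt.NS
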