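import Pool.Agent.Lib.MP_12adaf_ntNS.C0

/-!
# Polynomial data: denominators
-/

namespace Pool.Agent.Lib.MP_12adaf_nt.NS

open Polynomial

universe u

section C4baux

variable {K F : Type u} [Field K] [Field F] [Algebra K F] {n : ℕ}
  [Algebra (MvPolynomial (Fin n) K) F] [IsScalarTower K (MvPolynomial (Fin n) K) F]
  [IsFractionRing (MvPolynomial (Fin n) K) F]

/-- The embedding of the localization in the field of fractions. -/
private noncomputable def c4bθ (h : MvPolynomial (Fin n) K) (hh : h ≠ 0) :
    Localization.Away h →ₐ[K] F :=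
  IsLocalization.liftAlgHom (M := Submonoid.powers h)
    (f := IsScalarTower.toAlgHom K (MvPolynomial (Fin n) K) F)
    (fun y => by
      obtain ⟨y, m, rfl⟩ := y
      change IsUnit (algebraMap (MvPolynomial (Fin n) K) F (h ^ m))
      rw [map_pow]
      refine (isUnit_iff_ne_zero.mpr ?_).pow m
      intro h0
      exact hh ((map_eq_zero_iff _ (IsFractionRing.injective (MvPolynomial (Fin n) K) F)).mp h0))

private theorem c4bθ_algebraMap (h : MvPolynomial (Fin n) K) (hh : h ≠ 0)
    (p : MvPolynomial (Fin n) K) :
    (c4bθ h hh : Localization.Away h →ₐ[K] F) (algebraMap _ (Localization.Away h) p)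
      = algebraMap (MvPolynomial (Fin n) K) F p := by
  simp [c4bθ]

private theorem c4bθ_injective (h : MvPolynomial (Fin n) K) (hh : h ≠ 0) :
    Function.Injective (c4bθ h hh : Localization.Away h →ₐ[K] F) := by
  rw [injective_iff_map_eq_zero]
  intro x hx
  obtain ⟨⟨a, s⟩, hs⟩ := IsLocalization.surj (Submonoid.powers h) x
  have h1 := congrArg (c4bθ h hh : Localization.Away h →ₐ[K] F) hs
  rw [map_mul, hx, zero_mul] at h1
  simp only at h1
  rw [c4bθ_algebraMap] at h1
  have h2 : a = 0 :=
    (map_eq_zero_iff _ (IsFractionRing.injective (MvPolynomial (Fin n) K) F)).mp h1.symm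
  simp only [h2, map_zero] at hs
  exact (IsUnit.mul_left_eq_zero (IsLocalization.map_units (Localization.Away h) s)).mp hs

private theorem c4b_range (h : MvPolynomial (Fin n) K) (hh : h ≠ 0) (a : F)
    (c : MvPolynomial (Fin n) K) (hc : algebraMap (MvPolynomial (Fin n) K) F h * a
      = algebraMap (MvPolynomial (Fin n) K) F c) :
    ∃ y : Localization.Away h, (c4bθ h hh : Localization.Away h →ₐ[K] F) y = a := by
  refine ⟨IsLocalization.mk' (Localization.Away h) c ⟨h, Submonoid.mem_powers h⟩, ?_⟩
  have h1 := IsLocalization.mk'_spec (Localization.Away h) c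
    (⟨h, Submonoid.mem_powers h⟩ : Submonoid.powers h)
  have h2 := congrArg (c4bθ h hh : Localization.Away h →ₐ[K] F) h1
  rw [map_mul, c4bθ_algebraMap, c4bθ_algebraMap] at h2
  have h3 : algebraMap (MvPolynomial (Fin n) K) F h ≠ 0 := by
    intro h0
    exact hh ((map_eq_zero_iff _ (IsFractionRing.injective (MvPolynomial (Fin n) K) F)).mp h0)
  apply mul_left_cancel₀ h3
  rw [hc, ← h2, mul_comm]

/-- A finite family of polynomials has a common denominator. -/
private theorem c4b_common {ι : Type*} [Finite ι] (f : ι → F[X]) :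
    ∃ (h : MvPolynomial (Fin n) K) (hh : h ≠ 0), ∀ i, ∃ f' : (Localization.Away h)[X],
      f'.map (c4bθ h hh : Localization.Away h →ₐ[K] F).toRingHom = f i := by
  classical
  have := Fintype.ofFinite ι
  let S : Finset F := Finset.univ.biUnion fun i => (f i).support.image (f i).coeff
  obtain ⟨b, hb⟩ := IsLocalization.exist_integer_multiples_of_finset
    (nonZeroDivisors (MvPolynomial (Fin n) K)) S
  refine ⟨b, nonZeroDivisors.coe_ne_zero b, fun i => ?_⟩
  have key : f i ∈ Polynomial.lifts
      (c4bθ (b : MvPolynomial (Fin n) K) (nonZeroDivisors.coe_ne_zero b) :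
        Localization.Away (b : MvPolynomial (Fin n) K) →ₐ[K] F).toRingHom := by
    rw [Polynomial.lifts_iff_coeff_lifts]
    intro j
    by_cases hj : (f i).coeff j = 0
    · exact ⟨0, by rw [map_zero, hj]⟩
    · have hmem : (f i).coeff j ∈ S := by
        rw [Finset.mem_biUnion]
        exact ⟨i, Finset.mem_univ i, Finset.mem_image.mpr ⟨j, by
          rw [Polynomial.mem_support_iff]
          exact hj, rfl⟩⟩
      obtain ⟨c, hc⟩ := hb _ hmem
      obtain ⟨y, hy⟩ := c4b_range (b : MvPolynomial (Fin n) K) (nonZeroDivisors.coe_ne_zero b)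
        ((f i).coeff j) c (by
          rw [hc, Algebra.smul_def])
      exact ⟨y, hy⟩
  rw [Polynomial.mem_lifts] at key
  exact key

end C4baux

/-- **Denominators.**  Data over the field `F` of fractions of a polynomial ring come from data
over a localization at one element.
Proof: let `M` have the finite basis `b` over `K`; finitely many polynomials over `F`, namely `P`,
`q g`, `r (b j)`, the polynomials `s` of `q_unit` and the cofactors in the divisibilities
`comp_q`, `q_one`, `q_mul`, `q_unit`, `r_one`, `r_mul` (for `m`, `m'` in the basis), `r_smul` (for `m`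
in the basis), have a common denominator `h` (`IsLocalization.exist_integer_multiples` applied to
their coefficients), so they are images of polynomials over `Localization.Away h`, and the identities
hold there as the map to `F` is injective.  The divisibilities for general `m`, `m'` follow by
`K`-linearity. -/
theorem exists_gdata_away {K M F G : Type u} [Field K] [Field M] [Algebra K M]
    [FiniteDimensional K M] [Field F] [Algebra K F] [Group G] [Finite G] [MulSemiringAction G M]
    [SMulCommClass G K M] {n : ℕ} [Algebra (MvPolynomial (Fin n) K) F]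
    [IsScalarTower K (MvPolynomial (Fin n) K) F] [IsFractionRing (MvPolynomial (Fin n) K) F]
    (D : GData K M F G) :
    ∃ (h : MvPolynomial (Fin n) K) (_ : h ≠ 0) (D' : GData K M (Localization.Away h) G)
      (θ : Localization.Away h →ₐ[K] F),
      (∀ p, θ (algebraMap _ _ p) = algebraMap (MvPolynomial (Fin n) K) F p) ∧
      D'.P.map θ.toRingHom = D.P ∧ (∀ g, (D'.q g).map θ.toRingHom = D.q g) ∧
      ∀ m, (D'.r m).map θ.toRingHom = D.r m := by
  classical
  let b := Module.finBasis K M
  let ι := Unit ⊕ (G ⊕ (G ⊕ Fin (Module.finrank K M)))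
  let s : G → F[X] := fun g => if hg : g ≠ 1 then (D.q_unit g hg).choose else 0
  have hs : ∀ g, g ≠ 1 → D.P ∣ (D.q g - X) * s g - 1 := by
    intro g hg
    have e : s g = (D.q_unit g hg).choose := dif_pos hg
    rw [e]
    exact (D.q_unit g hg).choose_spec
  let fam : ι → F[X] := Sum.elim (fun _ => D.P) (Sum.elim D.q (Sum.elim s fun j => D.r (b j)))
  obtain ⟨h, hh, hfam⟩ := c4b_common (K := K) (n := n) fam
  let θ : Localization.Away h →ₐ[K] F := c4bθ h hh
  have hθ : Function.Injective θ.toRingHom := c4bθ_injective h hh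
  obtain ⟨P', hP'⟩ := hfam (Sum.inl ())
  have hq0 : ∀ g, ∃ f' : (Localization.Away h)[X], f'.map θ.toRingHom = D.q g :=
    fun g => hfam (Sum.inr (Sum.inl g))
  choose q' hq' using hq0
  have hs0 : ∀ g, ∃ f' : (Localization.Away h)[X], f'.map θ.toRingHom = s g :=
    fun g => hfam (Sum.inr (Sum.inr (Sum.inl g)))
  choose s' hs' using hs0
  have hr0 : ∀ j, ∃ f' : (Localization.Away h)[X], f'.map θ.toRingHom = D.r (b j) :=
    fun j => hfam (Sum.inr (Sum.inr (Sum.inr j)))
  choose r0 hr0' using hr0
  have hP : P'.map θ.toRingHom = D.P := hP'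
  let r' : M →ₗ[K] (Localization.Away h)[X] := b.constr K r0
  have hr' : ∀ m, (r' m).map θ.toRingHom = D.r m := by
    have e : (Polynomial.mapAlgHom θ).toLinearMap ∘ₗ r' = D.r := by
      apply b.ext
      intro j
      simp only [LinearMap.comp_apply, r', Module.Basis.constr_basis]
      exact hr0' j
    intro m
    exact LinearMap.congr_fun e m
  have hmon : P'.Monic := Polynomial.monic_of_injective hθ (by rw [hP]; exact D.monic)
  have hdvd : ∀ A : (Localization.Away h)[X], D.P ∣ A.map θ.toRingHom → P' ∣ A := by
    intro A hA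
    rw [← hP] at hA
    exact (Polynomial.map_dvd_map θ.toRingHom hθ hmon).mp hA
  refine ⟨h, hh, ⟨P', q', r', hmon, ?_, ?_, ?_, ?_, ?_, ?_, ?_, ?_⟩, θ, ?_, hP, hq', hr'⟩
  · rw [← D.natDegree_P, ← hP, Polynomial.natDegree_map_eq_of_injective hθ]
  · intro g
    apply hdvd
    rw [Polynomial.map_comp, hP, hq']
    exact D.comp_q g
  · apply hdvd
    rw [Polynomial.map_sub, hq', Polynomial.map_X]
    exact D.q_one
  · intro g g'
    apply hdvd
    rw [Polynomial.map_sub, Polynomial.map_comp, hq', hq', hq']
    exact D.q_mul g g'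
  · intro g hg
    refine ⟨s' g, ?_⟩
    apply hdvd
    rw [Polynomial.map_sub, Polynomial.map_mul, Polynomial.map_sub, hq', hs', Polynomial.map_X,
      Polynomial.map_one]
    exact hs g hg
  · apply hdvd
    rw [Polynomial.map_sub, hr', Polynomial.map_one]
    exact D.r_one
  · intro m m'
    apply hdvd
    rw [Polynomial.map_sub, Polynomial.map_mul, hr', hr', hr']
    exact D.r_mul m m'
  · intro g m
    apply hdvd
    rw [Polynomial.map_sub, Polynomial.map_comp, hr', hr', hq']
    exact D.r_smul g m
  · intro p
    exact c4bθ_algebraMap h hh p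

end Pool.Agent.Lib.MP_12adaf_nt.NS
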