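import Pool.Agent.Lib.MP_12adaf_ntNS.C0

/-!
# Galois algebras: generic points
-/

namespace Pool.Agent.Lib.MP_12adaf_nt.NS

universe u

/-- The dual relation for two group elements. -/
private lemma c5a_dual {A G : Type*} [CommRing A] [Group G] [MulSemiringAction G A] {n : ℕ}
    {x y : Fin n → A} (h1 : ∑ i, x i * y i = 1)
    (h2 : ∀ g : G, g ≠ 1 → ∑ i, x i * g • y i = 0) [DecidableEq G] (g h : G) :
    ∑ i, (g • x i) * (h • y i) = if h = g then 1 else 0 := by
  have e : ∑ i, (g • x i) * (h • y i) = g • ∑ i, x i * (g⁻¹ * h) • y i := by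
    rw [Finset.smul_sum]
    refine Finset.sum_congr rfl fun i _ => ?_
    rw [smul_mul', smul_smul, mul_inv_cancel_left]
  rw [e]
  by_cases hgh : h = g
  · subst hgh
    rw [if_pos rfl, inv_mul_cancel]
    simp only [one_smul]
    rw [h1, smul_one]
  · rw [if_neg hgh, h2, smul_zero]
    intro h0
    apply hgh
    rw [inv_mul_eq_one] at h0
    exact h0.symm

/-- Step (1): a point with nonzero value. -/
private lemma c5a_nonzero {M L A G : Type u} [Field M] [Field L]
    [Infinite L] [CommRing A] [Algebra L A] [Group G] [Finite G]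
    [MulSemiringAction G A] (hA : IsGaloisAlgebra L A G) (φ : M →+* A)
    {m : ℕ} {f : MvPolynomial (G ⊕ Fin m) M} (hf : f ≠ 0) :
    ∃ (z : A) (y : Fin m → L), MvPolynomial.eval₂ φ
      (Sum.elim (fun g : G => g • z) (fun i => algebraMap L A (y i))) f ≠ 0 := by
  classical
  have := hA.nontrivial
  have := Fintype.ofFinite G
  obtain ⟨n, x, y, h1, h2⟩ := hA.dual
  -- the substituted polynomial
  let s : G ⊕ Fin m → MvPolynomial (Fin n ⊕ Fin m) A :=
    Sum.elim (fun g => ∑ i, MvPolynomial.C (g • x i) * MvPolynomial.X (Sum.inl i))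
      (fun j => MvPolynomial.X (Sum.inr j))
  let F : MvPolynomial (Fin n ⊕ Fin m) A := MvPolynomial.eval₂ (MvPolynomial.C.comp φ) s f
  let t : Fin n ⊕ Fin m → MvPolynomial (G ⊕ Fin m) A :=
    Sum.elim (fun i => ∑ h, MvPolynomial.C (h • y i) * MvPolynomial.X (Sum.inl h))
      (fun j => MvPolynomial.X (Sum.inr j))
  let ψ : MvPolynomial (Fin n ⊕ Fin m) A →+* MvPolynomial (G ⊕ Fin m) A :=
    MvPolynomial.eval₂Hom MvPolynomial.C t
  have hψs : ∀ a, ψ (s a) = MvPolynomial.X a := by
    intro a
    rcases a with g | j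
    · have e1 : ψ (s (Sum.inl g))
          = ∑ h, (∑ i, MvPolynomial.C (σ := G ⊕ Fin m) ((g • x i) * (h • y i)))
            * MvPolynomial.X (Sum.inl h) := by
        simp only [s, Sum.elim_inl, map_sum, map_mul, ψ, MvPolynomial.coe_eval₂Hom,
          MvPolynomial.eval₂_C, MvPolynomial.eval₂_X, t]
        simp only [Finset.mul_sum, Finset.sum_mul]
        rw [Finset.sum_comm]
        refine Finset.sum_congr rfl fun h _ => Finset.sum_congr rfl fun i _ => ?_
        ring
      rw [e1]
      have e2 : ∀ h : G, (∑ i, MvPolynomial.C (σ := G ⊕ Fin m) ((g • x i) * (h • y i)))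
          = if h = g then 1 else 0 := by
        intro h
        rw [← map_sum, c5a_dual h1 h2 g h]
        split_ifs
        · exact map_one _
        · exact map_zero _
      simp only [e2, ite_mul, one_mul, zero_mul]
      rw [Finset.sum_ite_eq' Finset.univ g]
      simp
    · simp [s, ψ, t]
  have hψF : ψ F = MvPolynomial.map φ f := by
    have e1 : ψ F = MvPolynomial.eval₂ (ψ.comp (MvPolynomial.C.comp φ)) (fun a => ψ (s a)) f := by
      simp only [F]
      exact MvPolynomial.hom_eval₂ f (MvPolynomial.C.comp φ) ψ s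
    rw [e1]
    have e2 : ψ.comp (MvPolynomial.C.comp φ)
        = (MvPolynomial.C (σ := G ⊕ Fin m)).comp φ := by
      ext a
      simp [ψ]
    rw [e2]
    have e3 : (fun a => ψ (s a)) = (MvPolynomial.X : G ⊕ Fin m → MvPolynomial (G ⊕ Fin m) A) :=
      funext hψs
    rw [e3]
    have e4 := MvPolynomial.eval₂_map (φ := MvPolynomial.C) (f := φ)
      (g := (MvPolynomial.X : G ⊕ Fin m → MvPolynomial (G ⊕ Fin m) A)) f
    rw [← e4, MvPolynomial.eval₂_eta]
  have hF : F ≠ 0 := by
    intro h0
    rw [h0, map_zero] at hψF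
    apply hf
    apply MvPolynomial.map_injective φ φ.injective
    rw [← hψF, map_zero]
  obtain ⟨d, hd⟩ := MvPolynomial.ne_zero_iff.mp hF
  have hlam : ∃ lam : Module.Dual L A, lam (MvPolynomial.coeff d F) ≠ 0 := by
    by_contra hcon
    push Not at hcon
    exact hd ((Module.forall_dual_apply_eq_zero_iff L _).mp hcon)
  obtain ⟨lam, hlam⟩ := hlam
  let Fl : MvPolynomial (Fin n ⊕ Fin m) L :=
    ∑ e ∈ F.support, MvPolynomial.monomial e (lam (MvPolynomial.coeff e F))
  have hFl : Fl ≠ 0 := by
    intro h0
    have h3 : MvPolynomial.coeff d Fl = lam (MvPolynomial.coeff d F) := by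
      simp only [Fl, MvPolynomial.coeff_sum, MvPolynomial.coeff_monomial]
      rw [Finset.sum_ite_eq' F.support d]
      rw [if_pos (MvPolynomial.mem_support_iff.mpr hd)]
    rw [h0, MvPolynomial.coeff_zero] at h3
    exact hlam h3.symm
  have hpt : ∃ c : Fin n ⊕ Fin m → L, MvPolynomial.eval c Fl ≠ 0 := by
    by_contra hcon
    push Not at hcon
    apply hFl
    apply MvPolynomial.funext
    intro c
    rw [hcon c, map_zero]
  obtain ⟨c, hc⟩ := hpt
  have hval : MvPolynomial.eval c Fl = lam (MvPolynomial.eval (fun a => algebraMap L A (c a)) F) := by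
    simp only [Fl, map_sum, MvPolynomial.eval_monomial]
    rw [MvPolynomial.eval_eq]
    rw [map_sum]
    refine Finset.sum_congr rfl fun e _ => ?_
    have e3 : MvPolynomial.coeff e F * ∏ i ∈ e.support, (algebraMap L A (c i)) ^ e i
        = (e.prod fun i k => c i ^ k) • MvPolynomial.coeff e F := by
      rw [Algebra.smul_def, mul_comm]
      congr 1
      rw [Finsupp.prod, map_prod]
      simp only [map_pow]
    rw [e3, map_smul, smul_eq_mul, mul_comm]
  refine ⟨∑ i, algebraMap L A (c (Sum.inl i)) * x i, fun j => c (Sum.inr j), ?_⟩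
  have hfin : MvPolynomial.eval (fun a => algebraMap L A (c a)) F
      = MvPolynomial.eval₂ φ (Sum.elim
        (fun g : G => g • ∑ i, algebraMap L A (c (Sum.inl i)) * x i)
        (fun i => algebraMap L A (c (Sum.inr i)))) f := by
    simp only [F]
    rw [MvPolynomial.hom_eval₂]
    congr 1
    · ext a
      simp
    · funext a
      rcases a with g | j
      · simp only [s, Sum.elim_inl, map_sum, map_mul, MvPolynomial.eval_C, MvPolynomial.eval_X,
          Finset.smul_sum, smul_mul', hA.smul_algebraMap]
        refine Finset.sum_congr rfl fun i _ => ?_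
        rw [mul_comm]
      · simp [s]
  intro h0
  apply hc
  rw [hval, hfin, h0, map_zero]

/-- The action of `u` on the polynomials. -/
private noncomputable def c5a_act {M G : Type u} [Field M] [Group G] [MulSemiringAction G M] {m : ℕ}
    (u : G) (f : MvPolynomial (G ⊕ Fin m) M) : MvPolynomial (G ⊕ Fin m) M :=
  MvPolynomial.rename (Sum.map (fun g => u * g) id)
    (MvPolynomial.map (MulSemiringAction.toRingHom G M u) f)

private lemma c5a_act_ne {M G : Type u} [Field M] [Group G] [MulSemiringAction G M] {m : ℕ}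
    (u : G) {f : MvPolynomial (G ⊕ Fin m) M} (hf : f ≠ 0) : c5a_act u f ≠ 0 := by
  unfold c5a_act
  intro h0
  have hinj : Function.Injective (Sum.map (fun g : G => u * g) (id : Fin m → Fin m)) :=
    Function.Injective.sumMap (mul_right_injective u) Function.injective_id
  have h1 := MvPolynomial.rename_injective _ hinj (h0.trans (map_zero _).symm)
  have h2 := MvPolynomial.map_injective _ (MulSemiringAction.toRingHom G M u).injective
    (h1.trans (map_zero _).symm)
  exact hf h2

private lemma c5a_act_eval {M L A G : Type u} [Field M] [Field L]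
    [CommRing A] [Algebra L A] [Group G] [MulSemiringAction G M]
    [MulSemiringAction G A] (hA : IsGaloisAlgebra L A G) (φ : M →+* A)
    (hφ : ∀ (g : G) (a : M), φ (g • a) = g • φ a) {m : ℕ} (u : G)
    (f : MvPolynomial (G ⊕ Fin m) M) (z : A) (y : Fin m → L) :
    MvPolynomial.eval₂ φ (Sum.elim (fun g : G => g • z) (fun i => algebraMap L A (y i)))
      (c5a_act u f)
      = u • MvPolynomial.eval₂ φ
        (Sum.elim (fun g : G => g • z) (fun i => algebraMap L A (y i))) f := by
  unfold c5a_act
  rw [MvPolynomial.eval₂_rename, MvPolynomial.eval₂_map]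
  have e1 := MvPolynomial.hom_eval₂ f φ (MulSemiringAction.toRingHom G A u)
    (Sum.elim (fun g : G => g • z) (fun i => algebraMap L A (y i)))
  have e2 : u • MvPolynomial.eval₂ φ
        (Sum.elim (fun g : G => g • z) (fun i => algebraMap L A (y i))) f
      = (MulSemiringAction.toRingHom G A u) (MvPolynomial.eval₂ φ
        (Sum.elim (fun g : G => g • z) (fun i => algebraMap L A (y i))) f) := rfl
  rw [e2, e1]
  congr 1
  · ext a
    exact hφ u a
  · funext a
    rcases a with g | j
    · simp [mul_smul]
    · simp only [Function.comp_apply, Sum.map_inr, Sum.elim_inr, id_eq]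
      exact (hA.smul_algebraMap u (y j)).symm

/-- **Generic points of Galois algebras.**  Let `f ≠ 0` be a polynomial over `M` in variables
indexed by `G ⊕ Fin m`.  There are `z : A` and `y : Fin m → L` at which `f` is a unit of `A`, the
variable `g : G` being evaluated at `g • z`.
Proof.  (1) If `f ≠ 0` there are `z`, `y` with nonzero value: with `hA.dual`, put `z = ∑ i, c i * x i`,
`c i : L`.  The substitution `X_g ↦ ∑ i, g • x i * X_i` from `A[X_g, Y]` to `A[X_i, Y]` is
injective, as `X_i ↦ ∑ h, h • y i * X_h` is a left inverse (`∑ i, g • x i * h • y i = 0` for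
`g ≠ h`, `1` for `g = h`).  So the image of `f` in `A[X_i, Y]` is nonzero (`M → A` is injective), an
`L`-linear functional `A → L` which is nonzero at one of its coefficients gives a nonzero polynomial
over the infinite field `L`, which does not vanish somewhere (`MvPolynomial.funext`).
(2) Apply (1) to the norm `∏ u, u f`, where `u : G` acts on the coefficients and by `X_g ↦ X_{u g}`:
its value `∏ u, u • (value of f)` is an invariant element of `A`, so it is in `L`, and it is
nonzero. -/
theorem exists_generic_point {K M L A G : Type u} [Field K] [Field M] [Algebra K M] [Field L]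
    [Infinite L] [CommRing A] [Algebra L A] [Group G] [Finite G] [MulSemiringAction G M]
    [MulSemiringAction G A] (hA : IsGaloisAlgebra L A G) (φ : M →+* A)
    (hφ : ∀ (g : G) (a : M), φ (g • a) = g • φ a) {m : ℕ} {f : MvPolynomial (G ⊕ Fin m) M}
    (hf : f ≠ 0) :
    ∃ (z : A) (y : Fin m → L), IsUnit (MvPolynomial.eval₂ φ
      (Sum.elim (fun g : G => g • z) (fun i => algebraMap L A (y i))) f) := by
  classical
  have := Fintype.ofFinite G
  have hN : ∏ u : G, c5a_act u f ≠ 0 :=
    Finset.prod_ne_zero_iff.mpr fun u _ => c5a_act_ne u hf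
  obtain ⟨z, y, hz⟩ := c5a_nonzero hA φ hN
  refine ⟨z, y, ?_⟩
  set v := MvPolynomial.eval₂ φ
      (Sum.elim (fun g : G => g • z) (fun i => algebraMap L A (y i))) f with hv
  have e1 : MvPolynomial.eval₂ φ
      (Sum.elim (fun g : G => g • z) (fun i => algebraMap L A (y i))) (∏ u : G, c5a_act u f)
      = ∏ u : G, u • v := by
    rw [← MvPolynomial.coe_eval₂Hom, map_prod]
    refine Finset.prod_congr rfl fun u _ => ?_
    rw [MvPolynomial.coe_eval₂Hom]
    exact c5a_act_eval hA φ hφ u f z y
  rw [e1] at hz
  have hinv : ∀ g : G, g • (∏ u : G, u • v) = ∏ u : G, u • v := by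
    intro g
    rw [Finset.smul_prod']
    simp only [smul_smul]
    exact Fintype.prod_equiv (Equiv.mulLeft g) _ _ (fun u => rfl)
  obtain ⟨c, hc⟩ := hA.invariant _ hinv
  have hc0 : c ≠ 0 := by
    intro h0
    rw [h0, map_zero] at hc
    exact hz hc.symm
  have hu : IsUnit (∏ u : G, u • v) := by
    rw [← hc]
    exact (isUnit_iff_ne_zero.mpr hc0).map (algebraMap L A)
  have hdvd : v ∣ ∏ u : G, u • v := by
    have := Finset.dvd_prod_of_mem (fun u : G => u • v) (Finset.mem_univ (1 : G))
    simpa using this
  exact isUnit_of_dvd_unit hdvd hu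

end Pool.Agent.Lib.MP_12adaf_nt.NS
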