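import Pool.Agent.Lib.MP_12adaf_ntNS.C5a

/-!
# Specialization of the parameters at generic points of Galois algebras
-/

namespace Pool.Agent.Lib.MP_12adaf_nt.NS

open Polynomial

universe u

private lemma C5b_frac {M E ι : Type*} [Field M] [Field E] [Algebra M E] {v : ι → E}
    (hgen : IntermediateField.adjoin M (Set.range v) = ⊤) (e : E) :
    ∃ a b : MvPolynomial ι M, MvPolynomial.aeval v b ≠ 0 ∧
      e * MvPolynomial.aeval v b = MvPolynomial.aeval v a := by
  have he : e ∈ IntermediateField.adjoin M (Set.range v) := by rw [hgen]; trivial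
  rw [IntermediateField.mem_adjoin_range_iff] at he
  obtain ⟨r, s, rfl⟩ := he
  by_cases hs : MvPolynomial.aeval v s = 0
  · refine ⟨0, 1, by simp, by simp [hs]⟩
  · exact ⟨r, s, hs, by field_simp⟩

/-- the action on polynomials -/
private noncomputable def C5b_sigma {M G : Type*} [Field M] [Group G] [MulSemiringAction G M]
    {m : ℕ} (g : G) : MvPolynomial (G ⊕ Fin m) M →+* MvPolynomial (G ⊕ Fin m) M :=
  MvPolynomial.eval₂Hom (MvPolynomial.C.comp (MulSemiringAction.toRingHom G M g))
    (Sum.elim (fun h => MvPolynomial.X (Sum.inl (g * h))) (fun i => MvPolynomial.X (Sum.inr i)))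

private lemma C5b_aeval_sigma {M E G : Type*} [Field M] [Field E] [Algebra M E] [Group G]
    [MulSemiringAction G M] [MulSemiringAction G E] {m : ℕ} {x : G → E} {y : Fin m → E}
    (hact : ∀ (g : G) (a : M), g • algebraMap M E a = algebraMap M E (g • a))
    (hgx : ∀ g h : G, g • x h = x (g * h)) (hgy : ∀ (g : G) (i : Fin m), g • y i = y i)
    (g : G) (a : MvPolynomial (G ⊕ Fin m) M) :
    MvPolynomial.aeval (Sum.elim x y) (C5b_sigma g a) =
      g • MvPolynomial.aeval (Sum.elim x y) a := by
  have h : ((MvPolynomial.aeval (Sum.elim x y) : MvPolynomial (G ⊕ Fin m) M →ₐ[M] E) :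
      MvPolynomial (G ⊕ Fin m) M →+* E).comp (C5b_sigma g) =
      (MulSemiringAction.toRingHom G E g).comp
        ((MvPolynomial.aeval (Sum.elim x y) : MvPolynomial (G ⊕ Fin m) M →ₐ[M] E) :
          MvPolynomial (G ⊕ Fin m) M →+* E) := by
    apply MvPolynomial.ringHom_ext
    · intro r
      simp [C5b_sigma, hact]
    · rintro (h | i)
      · simp [C5b_sigma, hgx]
      · simp [C5b_sigma, hgy]
  exact congrArg (fun F : MvPolynomial (G ⊕ Fin m) M →+* E => F a) h

private lemma C5b_eval_sigma {M A G : Type*} [Field M] [CommRing A] [Group G]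
    [MulSemiringAction G M] [MulSemiringAction G A] {m : ℕ} {φ : M →+* A} {z : A}
    {w : Fin m → A}
    (hφ : ∀ (g : G) (a : M), φ (g • a) = g • φ a) (hw : ∀ (g : G) (i : Fin m), g • w i = w i)
    (g : G) (a : MvPolynomial (G ⊕ Fin m) M) :
    MvPolynomial.eval₂Hom φ (Sum.elim (fun g : G => g • z) w) (C5b_sigma g a) =
      g • MvPolynomial.eval₂Hom φ (Sum.elim (fun g : G => g • z) w) a := by
  have h : (MvPolynomial.eval₂Hom φ (Sum.elim (fun g : G => g • z) w)).comp (C5b_sigma g) =
      (MulSemiringAction.toRingHom G A g).comp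
        (MvPolynomial.eval₂Hom φ (Sum.elim (fun g : G => g • z) w)) := by
    apply MvPolynomial.ringHom_ext
    · intro r
      simp [C5b_sigma, hφ]
    · rintro (h | i)
      · simp [C5b_sigma, mul_smul]
      · simp [C5b_sigma, hw]
  exact congrArg (fun F : MvPolynomial (G ⊕ Fin m) M →+* A => F a) h

/-- **Specialization.**  `E = M (x_g, y_i)`, `K(t)` the field of invariants, `h ≠ 0` a polynomial
in `t`.  Let `A` be a Galois algebra over an extension `L` of `K` with an equivariant homomorphism
`φ : M → A`.  There are a point `t₀` over `L` with `h (t₀) ≠ 0` and `z : A` such that identities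
`p (x_1) = ξ` in `E`, `p` a polynomial over `K[t, 1/h]` and `ξ` one of `x_g` or an element of `M`,
specialize to `p_{t₀} (z) = g • z`, resp. `φ m`.
Proof.  Write `t i = a i / b i` with polynomials `a i`, `b i ≠ 0` over `M` in the variables `x`,
`y`, and `h (t) = c / d`.  `exists_generic_point` for `f = (∏ b i) * c * d` gives `z`, `y₀`, an
evaluation homomorphism `ev` to `A` which commutes with `G`; `ev (a i) / ev (b i)` is invariant, so
it is `t₀ i` in `L`, and `h (t₀) ≠ 0`.  The homomorphism `ev` extends to the localization `S` at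
`f`, which is a subring of `E`, `θ` has its image in `S`, and `ev ∘ θ = algebraMap L A ∘ spec t₀`
on `Localization.Away h`; apply `ev` to `p (x_1)`. -/
theorem exists_specialization {K M E L A G : Type u} [Field K] [Field M] [Algebra K M] [Field E]
    [Algebra M E] [Algebra K E] [IsScalarTower K M E] [Field L] [Algebra K L] [Infinite L]
    [CommRing A] [Algebra L A] [Group G] [Finite G] [MulSemiringAction G M]
    [MulSemiringAction G E] [MulSemiringAction G A] (hA : IsGaloisAlgebra L A G) (φ : M →+* A)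
    (hφK : ∀ a : K, φ (algebraMap K M a) = algebraMap L A (algebraMap K L a))
    (hφ : ∀ (g : G) (a : M), φ (g • a) = g • φ a) {m n : ℕ} {x : G → E} {y : Fin m → E}
    {t : Fin n → E} (hind : AlgebraicIndependent M (Sum.elim x y))
    (hgen : IntermediateField.adjoin M (Set.range (Sum.elim x y)) = ⊤)
    (hact : ∀ (g : G) (a : M), g • algebraMap M E a = algebraMap M E (g • a))
    (hgx : ∀ g h : G, g • x h = x (g * h)) (hgy : ∀ (g : G) (i : Fin m), g • y i = y i)
    (hgt : ∀ (g : G) (i : Fin n), g • t i = t i) (ht : AlgebraicIndependent K t)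
    {h : MvPolynomial (Fin n) K} (hh : h ≠ 0) (θ : Localization.Away h →ₐ[K] E)
    (hθ : ∀ i, θ (algebraMap (MvPolynomial (Fin n) K) _ (MvPolynomial.X i)) = t i) :
    ∃ (t₀ : Fin n → L) (h₀ : MvPolynomial.aeval t₀ h ≠ 0) (z : A),
      ∀ p : (Localization.Away h)[X],
        ((p.map θ.toRingHom).eval (x 1) = 0 → aeval z (p.map (spec t₀ h₀).toRingHom) = 0) ∧
        (∀ g, (p.map θ.toRingHom).eval (x 1) = x g →
          aeval z (p.map (spec t₀ h₀).toRingHom) = g • z) ∧
        ∀ a : M, (p.map θ.toRingHom).eval (x 1) = algebraMap M E a →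
          aeval z (p.map (spec t₀ h₀).toRingHom) = φ a := by
  classical
  have : Nontrivial A := hA.nontrivial
  -- fractions
  have hfr := fun i => C5b_frac hgen (t i)
  choose a b hb hab using hfr
  obtain ⟨d, c, hc, hcd⟩ := C5b_frac hgen (MvPolynomial.aeval t h)
  set ι : MvPolynomial (G ⊕ Fin m) M →+* E :=
    ((MvPolynomial.aeval (Sum.elim x y) : MvPolynomial (G ⊕ Fin m) M →ₐ[M] E) :
      MvPolynomial (G ⊕ Fin m) M →+* E) with hι
  have hιinj : Function.Injective ι := hind
  have hht : MvPolynomial.aeval t h ≠ 0 := by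
    intro h0
    exact hh (ht (by rw [h0, map_zero]))
  have hd : ι d ≠ 0 := by
    change MvPolynomial.aeval (Sum.elim x y) d ≠ 0
    rw [← hcd]
    exact mul_ne_zero hht hc
  have hb' : ∀ i, ι (b i) ≠ 0 := hb
  have hc' : ι c ≠ 0 := hc
  set f : MvPolynomial (G ⊕ Fin m) M := (∏ i, b i) * c * d with hf
  have hιf : ι f ≠ 0 := by
    rw [hf, map_mul, map_mul, map_prod]
    exact mul_ne_zero (mul_ne_zero (Finset.prod_ne_zero_iff.mpr fun i _ => hb' i) hc') hd
  have hf0 : f ≠ 0 := fun h0 => hιf (by rw [h0, map_zero])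
  obtain ⟨z, y₀, hu⟩ := exists_generic_point (K := K) hA φ hφ (m := m) hf0
  set ev : MvPolynomial (G ⊕ Fin m) M →+* A := MvPolynomial.eval₂Hom φ
      (Sum.elim (fun g : G => g • z) (fun i => algebraMap L A (y₀ i))) with hev
  have huf : IsUnit (ev f) := hu
  have hevσ : ∀ (g : G) (r : MvPolynomial (G ⊕ Fin m) M), ev (C5b_sigma g r) = g • ev r :=
    fun g r => C5b_eval_sigma hφ (fun g i => hA.smul_algebraMap g _) g r
  have hισ : ∀ (g : G) (r : MvPolynomial (G ⊕ Fin m) M), ι (C5b_sigma g r) = g • ι r :=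
    fun g r => C5b_aeval_sigma hact hgx hgy g r
  have hub : ∀ i, IsUnit (ev (b i)) := by
    intro i
    refine isUnit_of_dvd_unit (map_dvd ev ?_) huf
    exact ((Finset.dvd_prod_of_mem b (Finset.mem_univ i)).mul_right c).mul_right d
  have huc : IsUnit (ev c) := isUnit_of_dvd_unit (map_dvd ev ⟨(∏ i, b i) * d, by rw [hf]; ring⟩) huf
  have hud : IsUnit (ev d) := isUnit_of_dvd_unit (map_dvd ev ⟨(∏ i, b i) * c, by rw [hf]; ring⟩) huf
  -- the values of t
  have hinv : ∀ i, ∃ c : L, algebraMap L A c = ev (a i) * ↑((hub i).unit⁻¹) := by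
    intro i
    apply hA.invariant
    intro g
    have h1 : C5b_sigma g (a i) * b i = a i * C5b_sigma g (b i) := by
      apply hιinj
      have h2 : t i * ι (b i) = ι (a i) := hab i
      have h3 : t i * (g • ι (b i)) = g • ι (a i) := by
        rw [← h2, smul_mul', hgt]
      rw [map_mul, map_mul, hισ, hισ, ← h3, ← h2]
      ring
    have h4 : g • ev (a i) * ev (b i) = ev (a i) * g • ev (b i) := by
      rw [← hevσ, ← hevσ, ← map_mul, ← map_mul, h1]
    have h5 : ev (b i) * ↑((hub i).unit⁻¹) = 1 := (hub i).mul_val_inv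
    have h6 : g • ev (b i) * g • (↑((hub i).unit⁻¹) : A) = 1 := by
      rw [← smul_mul', h5, smul_one]
    rw [smul_mul']
    calc g • ev (a i) * g • (↑((hub i).unit⁻¹) : A)
        = (g • ev (a i) * ev (b i)) * g • (↑((hub i).unit⁻¹) : A) * ↑((hub i).unit⁻¹) := by
          linear_combination (-(g • ev (a i) * g • (↑((hub i).unit⁻¹) : A))) * h5
      _ = (ev (a i) * g • ev (b i)) * g • (↑((hub i).unit⁻¹) : A) * ↑((hub i).unit⁻¹) := by
          rw [h4]
      _ = ev (a i) * ↑((hub i).unit⁻¹) := by
          linear_combination (ev (a i) * ↑((hub i).unit⁻¹)) * h6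
  choose t₀ ht₀ using hinv
  have ht₀' : ∀ i, algebraMap L A (t₀ i) * ev (b i) = ev (a i) := by
    intro i
    have h5 : ev (b i) * ↑((hub i).unit⁻¹) = 1 := (hub i).mul_val_inv
    rw [ht₀]
    linear_combination (ev (a i)) * h5
  -- the localization
  let S := Localization.Away f
  let j : S →+* E := IsLocalization.Away.lift f (g := ι) (isUnit_iff_ne_zero.mpr hιf)
  let ev' : S →+* A := IsLocalization.Away.lift f (g := ev) huf
  have hj : ∀ r, j (algebraMap _ S r) = ι r := fun r => IsLocalization.Away.lift_eq f _ r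
  have hev' : ∀ r, ev' (algebraMap _ S r) = ev r := fun r => IsLocalization.Away.lift_eq f _ r
  have hjinj : Function.Injective j := by
    rw [injective_iff_map_eq_zero]
    intro s hs
    obtain ⟨⟨r, q⟩, hrq⟩ := IsLocalization.surj (Submonoid.powers f) s
    have h1 : ι r = 0 := by
      rw [← hj, ← hrq, map_mul, hs, zero_mul]
    have h2 : r = 0 := hιinj (by rw [h1, map_zero])
    simp only [h2, map_zero] at hrq
    exact (IsLocalization.map_units S q).mul_left_eq_zero.mp hrq
  have hSf : IsUnit (algebraMap (MvPolynomial (G ⊕ Fin m) M) S f) :=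
    IsLocalization.Away.algebraMap_isUnit f
  have hSb : ∀ i, IsUnit (algebraMap (MvPolynomial (G ⊕ Fin m) M) S (b i)) := by
    intro i
    refine isUnit_of_dvd_unit (map_dvd _ ?_) hSf
    exact ((Finset.dvd_prod_of_mem b (Finset.mem_univ i)).mul_right c).mul_right d
  have hSc : IsUnit (algebraMap (MvPolynomial (G ⊕ Fin m) M) S c) :=
    isUnit_of_dvd_unit (map_dvd _ ⟨(∏ i, b i) * d, by rw [hf]; ring⟩) hSf
  have hSd : IsUnit (algebraMap (MvPolynomial (G ⊕ Fin m) M) S d) :=
    isUnit_of_dvd_unit (map_dvd _ ⟨(∏ i, b i) * c, by rw [hf]; ring⟩) hSf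
  let τ : Fin n → S := fun i => algebraMap _ S (a i) * ↑((hSb i).unit⁻¹)
  have hτ : ∀ i, τ i * algebraMap _ S (b i) = algebraMap _ S (a i) := by
    intro i
    have h5 : algebraMap _ S (b i) * ↑((hSb i).unit⁻¹) = 1 := (hSb i).mul_val_inv
    change algebraMap _ S (a i) * ↑((hSb i).unit⁻¹) * algebraMap _ S (b i) = _
    linear_combination (algebraMap _ S (a i)) * h5
  have hjτ : ∀ i, j (τ i) = t i := by
    intro i
    have h1 := congrArg j (hτ i)
    rw [map_mul, hj, hj] at h1
    have h2 : t i * ι (b i) = ι (a i) := hab i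
    exact mul_right_cancel₀ (hb' i) (h1.trans h2.symm)
  have hevτ : ∀ i, ev' (τ i) = algebraMap L A (t₀ i) := by
    intro i
    have h1 := congrArg ev' (hτ i)
    rw [map_mul, hev', hev'] at h1
    exact (hub i).mul_left_injective (h1.trans (ht₀' i).symm)
  let κ : K →+* S := (algebraMap (MvPolynomial (G ⊕ Fin m) M) S).comp
    (MvPolynomial.C.comp (algebraMap K M))
  let β : MvPolynomial (Fin n) K →+* S := MvPolynomial.eval₂Hom κ τ
  have hjβ : ∀ q, j (β q) = MvPolynomial.aeval t q := by
    intro q
    have h1 : j.comp β = ((MvPolynomial.aeval t : MvPolynomial (Fin n) K →ₐ[K] E) :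
        MvPolynomial (Fin n) K →+* E) := by
      apply MvPolynomial.ringHom_ext
      · intro r
        simp only [RingHom.comp_apply, β, κ, MvPolynomial.coe_eval₂Hom, MvPolynomial.eval₂_C, hj]
        simp [hι, ← IsScalarTower.algebraMap_apply]
      · intro i
        simp only [RingHom.comp_apply, β, MvPolynomial.coe_eval₂Hom, MvPolynomial.eval₂_X, hjτ]
        simp
    exact congrArg (fun F : MvPolynomial (Fin n) K →+* E => F q) h1
  have hevβ : ∀ q, ev' (β q) = algebraMap L A (MvPolynomial.aeval t₀ q) := by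
    intro q
    have h1 : ev'.comp β = (algebraMap L A).comp
        ((MvPolynomial.aeval t₀ : MvPolynomial (Fin n) K →ₐ[K] L) :
        MvPolynomial (Fin n) K →+* L) := by
      apply MvPolynomial.ringHom_ext
      · intro r
        simp only [RingHom.comp_apply, β, κ, MvPolynomial.coe_eval₂Hom, MvPolynomial.eval₂_C, hev']
        simp [hev, hφK]
      · intro i
        simp only [RingHom.comp_apply, β, MvPolynomial.coe_eval₂Hom, MvPolynomial.eval₂_X, hevτ]
        simp
    exact congrArg (fun F : MvPolynomial (Fin n) K →+* A => F q) h1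
  have hβh : β h * algebraMap _ S c = algebraMap _ S d := by
    apply hjinj
    rw [map_mul, hjβ, hj, hj]
    exact hcd
  have hβu : IsUnit (β h) := isUnit_of_mul_isUnit_left (hβh ▸ hSd)
  have h₀ : MvPolynomial.aeval t₀ h ≠ 0 := by
    intro h0
    have h1 := hevβ h
    rw [h0, map_zero] at h1
    exact (hβu.map ev').ne_zero h1
  let β' : Localization.Away h →+* S := IsLocalization.Away.lift h (g := β) hβu
  have hβ' : ∀ q, β' (algebraMap _ _ q) = β q := fun q => IsLocalization.Away.lift_eq h _ q
  have hjβ' : j.comp β' = θ.toRingHom := by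
    apply IsLocalization.ringHom_ext (Submonoid.powers h)
    apply MvPolynomial.ringHom_ext
    · intro r
      simp only [RingHom.comp_apply, hβ', hjβ, MvPolynomial.aeval_C]
      have h1 : algebraMap (MvPolynomial (Fin n) K) (Localization.Away h) (MvPolynomial.C r) =
          algebraMap K (Localization.Away h) r := by
        rw [IsScalarTower.algebraMap_apply K (MvPolynomial (Fin n) K) (Localization.Away h)]
        rfl
      rw [h1]
      exact (θ.commutes r).symm
    · intro i
      simp only [RingHom.comp_apply, hβ', hjβ, MvPolynomial.aeval_X]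
      exact (hθ i).symm
  have hevβ' : ev'.comp β' = (algebraMap L A).comp (spec t₀ h₀).toRingHom := by
    apply IsLocalization.ringHom_ext (Submonoid.powers h)
    apply RingHom.ext
    intro q
    simp only [RingHom.comp_apply, hβ', hevβ]
    congr 1
    exact (spec_algebraMap t₀ h₀ q).symm
  have hξ : ∀ g, ι (MvPolynomial.X (Sum.inl g)) = x g := by
    intro g; simp [hι]
  have hevξ : ∀ g, ev (MvPolynomial.X (Sum.inl g)) = g • z := by
    intro g; simp [hev]
  have key : ∀ (p : (Localization.Away h)[X]) (r : MvPolynomial (G ⊕ Fin m) M),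
      (p.map θ.toRingHom).eval (x 1) = ι r →
        aeval z (p.map (spec t₀ h₀).toRingHom) = ev r := by
    intro p r hp
    set w : S := (p.map β').eval (algebraMap (MvPolynomial (G ⊕ Fin m) M) S
      (MvPolynomial.X (Sum.inl 1))) with hw
    have h1 : j w = (p.map θ.toRingHom).eval (x 1) := by
      rw [hw, ← Polynomial.eval_map_apply, Polynomial.map_map, hjβ', hj, hξ]
    have h2 : ev' w = aeval z (p.map (spec t₀ h₀).toRingHom) := by
      rw [hw, ← Polynomial.eval_map_apply, Polynomial.map_map, hevβ', hev', hevξ, one_smul,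
        Polynomial.aeval_def, Polynomial.eval₂_eq_eval_map, Polynomial.map_map]
    have h3 : w = algebraMap _ S r := hjinj (by rw [h1, hp, hj])
    rw [← h2, h3, hev']
  refine ⟨t₀, h₀, z, fun p => ⟨fun hp => ?_, fun g hp => ?_, fun r hp => ?_⟩⟩
  · have h1 := key p 0 (by rw [hp, map_zero])
    rw [h1, map_zero]
  · rw [key p _ (hp.trans (hξ g).symm), hevξ]
  · rw [key p (MvPolynomial.C r) (hp.trans (by simp [hι]))]
    simp [hev]

end Pool.Agent.Lib.MP_12adaf_nt.NS
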