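import Pool.Agent.Lib.MP_12adaf_ntNS.C0

/-!
# Roots of polynomials in Banach algebras
-/

namespace Pool.Agent.Lib.MP_12adaf_nt.NS

open Polynomial Filter Topology

universe u

/-- The divided difference of a polynomial of degree `≤ N`. -/
private noncomputable def c6aQ {A : Type*} [CommRing A] (N : ℕ) (p : A[X]) (w w' : A) : A :=
  ∑ k ∈ Finset.range (N + 1), p.coeff k * ∑ i ∈ Finset.range k, w ^ i * w' ^ (k - 1 - i)

private lemma c6aQ_spec {A : Type*} [CommRing A] {N : ℕ} {p : A[X]} (hp : p.natDegree ≤ N)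
    (w w' : A) : p.eval w - p.eval w' = (w - w') * c6aQ N p w w' := by
  rw [Polynomial.eval_eq_sum_range' (Nat.lt_succ_of_le hp) w,
    Polynomial.eval_eq_sum_range' (Nat.lt_succ_of_le hp) w', ← Finset.sum_sub_distrib, c6aQ,
    Finset.mul_sum]
  refine Finset.sum_congr rfl fun k _ => ?_
  have h := (Commute.all w w').mul_geom_sum₂ k
  linear_combination (- p.coeff k) * h

private lemma c6aQ_self {A : Type*} [CommRing A] {N : ℕ} {p : A[X]} (hp : p.natDegree ≤ N)
    (z : A) : c6aQ N p z z = p.derivative.eval z := by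
  rw [Polynomial.derivative_eval, Polynomial.sum_over_range' p _ (N + 1) (Nat.lt_succ_of_le hp),
    c6aQ]
  · refine Finset.sum_congr rfl fun k _ => ?_
    have h : ∑ i ∈ Finset.range k, z ^ i * z ^ (k - 1 - i) = (k : A) * z ^ (k - 1) := by
      rw [Finset.sum_congr rfl (g := fun _ => z ^ (k - 1))]
      · simp
      · intro i hi
        rw [← pow_add]
        congr 1
        have := Finset.mem_range.1 hi
        omega
    rw [h, mul_assoc]
  · intro n
    simp

private lemma c6aQ_tendsto {A α : Type*} [NormedCommRing A] {l : Filter α} {N : ℕ}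
    {P : α → A[X]} {P₀ : A[X]}
    (hP : ∀ k, Tendsto (fun a => (P a).coeff k) l (𝓝 (P₀.coeff k))) (z : A) :
    Tendsto (fun q : α × A × A => c6aQ N (P q.1) q.2.1 q.2.2) (l ×ˢ (𝓝 z ×ˢ 𝓝 z))
      (𝓝 (c6aQ N P₀ z z)) := by
  unfold c6aQ
  refine tendsto_finsetSum _ fun k _ => ?_
  refine Tendsto.mul ((hP k).comp tendsto_fst) ?_
  refine tendsto_finsetSum _ fun i _ => ?_
  have h1 : Tendsto (fun q : α × A × A => q.2.1) (l ×ˢ (𝓝 z ×ˢ 𝓝 z)) (𝓝 z) :=
    tendsto_fst.comp tendsto_snd
  have h2 : Tendsto (fun q : α × A × A => q.2.2) (l ×ˢ (𝓝 z ×ˢ 𝓝 z)) (𝓝 z) :=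
    tendsto_snd.comp tendsto_snd
  exact (h1.pow _).mul (h2.pow _)

/-- **Roots of nearby polynomials in a commutative Banach algebra.**  `A` is a complete commutative
normed ring, `α` a type with a filter `l`, `P a` (`a : α`) polynomials over `A` of degree `≤ N` whose
coefficients tend to those of `P₀`, and `z` a root of `P₀` at which the derivative is a unit `u`.
Then for `a` near the limit `P a` has a root near `z`, and only one.
Proof.  `T w = w - u⁻¹ * (P a) (w)` is a contraction of the closed ball of radius `δ` about `z` for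
small `δ` and `a` near the limit: `T w - T w' = (w - w') * (1 - u⁻¹ * Q (w, w'))`, where
`P a (w) - P a (w') = (w - w') * Q (w, w')` and `Q (w, w')` is near `P₀' (z) = u`
(`Q (w, w') = ∑ k, coeff k * ∑ i + j = k - 1, w ^ i * w' ^ j`), and `T z - z = - u⁻¹ * (P a) (z)` tends
to zero.  Uniqueness: `Q (w, w')` is a unit. -/
theorem exists_near_root {A α : Type*} [NormedCommRing A] [CompleteSpace A] {l : Filter α} {N : ℕ}
    {P : α → A[X]} {P₀ : A[X]} (hN : ∀ a, (P a).natDegree ≤ N) (hN₀ : P₀.natDegree ≤ N)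
    (hP : ∀ k, Tendsto (fun a => (P a).coeff k) l (𝓝 (P₀.coeff k))) {z : A}
    (hz : P₀.eval z = 0) (hu : IsUnit (P₀.derivative.eval z)) :
    ∃ δ : ℝ, 0 < δ ∧ (∀ ε : ℝ, 0 < ε → ∀ᶠ a in l, ∃ w : A, ‖w - z‖ < ε ∧ (P a).eval w = 0) ∧
      ∀ᶠ a in l, ∀ w w' : A, ‖w - z‖ < δ → ‖w' - z‖ < δ → (P a).eval w = 0 → (P a).eval w' = 0 →
        w = w' := by
  obtain ⟨u, hu⟩ := hu
  set v : A := ((u⁻¹ : Aˣ) : A) with hv
  have hvu : v * (u : A) = 1 := by rw [hv]; exact u.inv_mul
  -- the estimate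
  have hlim : Tendsto (fun q : α × A × A => ‖1 - v * c6aQ N (P q.1) q.2.1 q.2.2‖)
      (l ×ˢ (𝓝 z ×ˢ 𝓝 z)) (𝓝 0) := by
    have h := ((tendsto_const_nhds (x := v)).mul (c6aQ_tendsto (N := N) hP z)).const_sub (1 : A)
    have h2 := h.norm
    have h3 : ‖1 - v * c6aQ N P₀ z z‖ = 0 := by
      rw [c6aQ_self hN₀ z, ← hu, hvu, sub_self, norm_zero]
    rw [h3] at h2
    exact h2
  have hev : ∀ᶠ q : α × A × A in l ×ˢ (𝓝 z ×ˢ 𝓝 z),
      ‖1 - v * c6aQ N (P q.1) q.2.1 q.2.2‖ < 1 / 2 :=
    hlim.eventually (gt_mem_nhds (by norm_num))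
  have hkey : ∃ δ : ℝ, 0 < δ ∧ ∀ᶠ a in l, ∀ w w' : A, ‖w - z‖ < δ → ‖w' - z‖ < δ →
      ‖1 - v * c6aQ N (P a) w w'‖ < 1 / 2 := by
    rw [eventually_prod_iff] at hev
    obtain ⟨pa, hpa, pb, hpb, h⟩ := hev
    rw [eventually_prod_iff] at hpb
    obtain ⟨pc, hpc, pd, hpd, h'⟩ := hpb
    obtain ⟨δ₁, hδ₁, h₁⟩ := Metric.eventually_nhds_iff.1 hpc
    obtain ⟨δ₂, hδ₂, h₂⟩ := Metric.eventually_nhds_iff.1 hpd
    refine ⟨min δ₁ δ₂, lt_min hδ₁ hδ₂, hpa.mono fun a ha w w' hw hw' => ?_⟩
    have e1 : pc w := h₁ (by rw [dist_eq_norm]; exact lt_of_lt_of_le hw (min_le_left _ _))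
    have e2 : pd w' := h₂ (by rw [dist_eq_norm]; exact lt_of_lt_of_le hw' (min_le_right _ _))
    have e3 : pb (w, w') := h' e1 e2
    have e4 := h ha e3
    dsimp only at e4
    exact e4
  obtain ⟨δ, hδ, hka⟩ := hkey
  refine ⟨δ, hδ, ?_, ?_⟩
  · intro ε hε
    set ρ : ℝ := min ε δ / 2 with hρ
    have hmin : 0 < min ε δ := lt_min hε hδ
    have hρ0 : 0 < ρ := by rw [hρ]; positivity
    have hρε : ρ < ε := by
      have := min_le_left ε δ
      rw [hρ]; linarith
    have hρδ : ρ < δ := by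
      have := min_le_right ε δ
      rw [hρ]; linarith
    -- the value at `z` is small
    have hval : Tendsto (fun a => ‖v * (P a).eval z‖) l (𝓝 0) := by
      have h1 : Tendsto (fun a => (P a).eval z) l (𝓝 (P₀.eval z)) := by
        have e : ∀ a, (P a).eval z = ∑ k ∈ Finset.range (N + 1), (P a).coeff k * z ^ k := fun a =>
          Polynomial.eval_eq_sum_range' (Nat.lt_succ_of_le (hN a)) z
        have e₀ : P₀.eval z = ∑ k ∈ Finset.range (N + 1), P₀.coeff k * z ^ k :=
          Polynomial.eval_eq_sum_range' (Nat.lt_succ_of_le hN₀) z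
        rw [e₀]
        simp_rw [e]
        exact tendsto_finsetSum _ fun k _ => (hP k).mul tendsto_const_nhds
      have h2 := ((tendsto_const_nhds (x := v)).mul h1).norm
      rw [hz, mul_zero, norm_zero] at h2
      exact h2
    have hsmall : ∀ᶠ a in l, ‖v * (P a).eval z‖ < ρ / 2 :=
      hval.eventually (gt_mem_nhds (by positivity))
    filter_upwards [hka, hsmall] with a ha hs
    -- the contraction
    let T : A → A := fun w => w - v * (P a).eval w
    have hT : ∀ w w' : A, T w - T w' = (w - w') * (1 - v * c6aQ N (P a) w w') := by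
      intro w w'
      have h := c6aQ_spec (hN a) w w'
      change (w - v * (P a).eval w) - (w' - v * (P a).eval w') = _
      linear_combination (-v) * h
    have hTn : ∀ w w' : A, ‖w - z‖ < δ → ‖w' - z‖ < δ → ‖T w - T w'‖ ≤ 1 / 2 * ‖w - w'‖ := by
      intro w w' hw hw'
      rw [hT]
      have h1 := ha w w' hw hw'
      have h2 := norm_mul_le (w - w') (1 - v * c6aQ N (P a) w w')
      have h3 : ‖w - w'‖ * ‖1 - v * c6aQ N (P a) w w'‖ ≤ ‖w - w'‖ * (1 / 2) :=
        mul_le_mul_of_nonneg_left h1.le (norm_nonneg _)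
      linarith
    have hball : ∀ w ∈ Metric.closedBall z ρ, ‖w - z‖ < δ := by
      intro w hw
      rw [Metric.mem_closedBall, dist_eq_norm] at hw
      exact lt_of_le_of_lt hw hρδ
    have hzz : ‖z - z‖ < δ := by rw [sub_self, norm_zero]; exact hδ
    have hmaps : Set.MapsTo T (Metric.closedBall z ρ) (Metric.closedBall z ρ) := by
      intro w hw
      have h1 := hTn w z (hball w hw) hzz
      rw [Metric.mem_closedBall, dist_eq_norm] at hw ⊢
      have h2 : T z - z = - (v * (P a).eval z) := by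
        change (z - v * (P a).eval z) - z = _
        ring
      have h3 : T w - z = (T w - T z) + (T z - z) := by ring
      rw [h3]
      refine (norm_add_le _ _).trans ?_
      rw [h2, norm_neg]
      linarith
    have hcontr : ContractingWith (1 / 2) (hmaps.restrict T _ _) := by
      refine ⟨by
        rw [← NNReal.coe_lt_coe]
        norm_num, LipschitzWith.of_dist_le_mul ?_⟩
      rintro ⟨w, hw⟩ ⟨w', hw'⟩
      rw [Subtype.dist_eq, Subtype.dist_eq, dist_eq_norm, dist_eq_norm]
      have h := hTn w w' (hball w hw) (hball w' hw')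
      simpa using h
    have hzmem : z ∈ Metric.closedBall z ρ := Metric.mem_closedBall_self hρ0.le
    obtain ⟨w, hw, hfix, -⟩ := hcontr.exists_fixedPoint' (Metric.isClosed_closedBall.isComplete)
      hmaps hzmem (edist_ne_top _ _)
    refine ⟨w, ?_, ?_⟩
    · rw [Metric.mem_closedBall, dist_eq_norm] at hw
      exact lt_of_le_of_lt hw hρε
    · have h1 : w - v * (P a).eval w = w := hfix
      have h2 : v * (P a).eval w = 0 := by
        have := sub_eq_self.1 h1
        exact this
      have h3 : (u : A) * v = 1 := by rw [mul_comm]; exact hvu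
      calc (P a).eval w = (u : A) * v * (P a).eval w := by rw [h3, one_mul]
        _ = (u : A) * (v * (P a).eval w) := by ring
        _ = 0 := by rw [h2, mul_zero]
  · filter_upwards [hka] with a ha w w' hw hw' h1 h2
    have h := c6aQ_spec (hN a) w w'
    rw [h1, h2, sub_zero] at h
    have hq := ha w w' hw hw'
    have h3 : w - w' = (w - w') * (1 - v * c6aQ N (P a) w w') := by
      linear_combination (-v) * h
    have h4 : ‖w - w'‖ ≤ ‖w - w'‖ * ‖1 - v * c6aQ N (P a) w w'‖ := by
      conv_lhs => rw [h3]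
      exact norm_mul_le _ _
    have h5 : ‖w - w'‖ * ‖1 - v * c6aQ N (P a) w w'‖ ≤ ‖w - w'‖ * (1 / 2) :=
      mul_le_mul_of_nonneg_left hq.le (norm_nonneg _)
    have h6 : ‖w - w'‖ ≤ 0 := by
      have := norm_nonneg (w - w')
      linarith
    exact sub_eq_zero.1 (norm_le_zero_iff.1 h6)

end Pool.Agent.Lib.MP_12adaf_nt.NS
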