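import Mathlib

/-!
# Finite dimensional algebras over complete fields
-/

namespace Pool.Agent.Lib.MP_12adaf_nt.NS

universe u

/-- The embedding of a finite dimensional algebra into the continuous endomorphisms of
`Fin d → L`. -/
private theorem exists_embed {L A : Type u} [NontriviallyNormedField L] [CompleteSpace L]
    [CommRing A] [Algebra L A] [FiniteDimensional L A] :
    ∃ f : A →ₐ[L] ((Fin (Module.finrank L A) → L) →L[L] (Fin (Module.finrank L A) → L)),
      Function.Injective f := by
  classical
  let e : A ≃ₗ[L] (Fin (Module.finrank L A) → L) := (Module.finBasis L A).equivFun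
  let g : A →ₐ[L] ((Fin (Module.finrank L A) → L) →L[L] (Fin (Module.finrank L A) → L)) :=
    { toFun := fun a => LinearMap.toContinuousLinearMap (e.conj (Algebra.lmul L A a))
      map_one' := by
        ext1 x
        simp
      map_mul' := by
        intro a b
        ext1 x
        simp [LinearEquiv.conj_apply, mul_assoc]
      map_zero' := by
        ext1 x
        simp
      map_add' := by
        intro a b
        ext1 x
        simp
      commutes' := by
        intro r
        ext1 x
        simp [LinearEquiv.conj_apply, Algebra.algebraMap_eq_smul_one] }
  refine ⟨g, ?_⟩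
  intro a b hab
  have h1 : g a (e 1) = g b (e 1) := by rw [hab]
  have h2 : ∀ a : A, g a (e 1) = e a := by
    intro a
    change (e.conj (Algebra.lmul L A a)) (e 1) = e a
    simp [LinearEquiv.conj_apply]
  rw [h2, h2] at h1
  exact e.injective h1

/-- A finite dimensional commutative algebra over a complete field is a Banach algebra.
Proof: `A` embeds, by `Algebra.lmul` and a basis, in the normed ring of continuous linear maps of
`Fin d → L` (`NormedCommRing.induced`, `NormedAlgebra.induced`; complete by
`FiniteDimensional.complete`), or choose the norm of a basis and rescale it. -/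
theorem exists_normedCommRing {L A : Type u} [NontriviallyNormedField L] [CompleteSpace L]
    [CommRing A] [Algebra L A] [FiniteDimensional L A] :
    ∃ (B : Type u) (_ : NormedCommRing B) (_ : NormedAlgebra L B) (_ : CompleteSpace B),
      Nonempty (A ≃ₐ[L] B) := by
  obtain ⟨f, hf⟩ := exists_embed (L := L) (A := A)
  let i1 : NormedCommRing A := NormedCommRing.induced A
    ((Fin (Module.finrank L A) → L) →L[L] (Fin (Module.finrank L A) → L)) f hf
  let i2 : NormedAlgebra L A := NormedAlgebra.induced L A
    ((Fin (Module.finrank L A) → L) →L[L] (Fin (Module.finrank L A) → L)) f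
  have i3 : CompleteSpace A := FiniteDimensional.complete L A
  exact ⟨A, i1, i2, i3, ⟨AlgEquiv.refl⟩⟩

end Pool.Agent.Lib.MP_12adaf_nt.NS
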