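import Pool.Agent.Lib.MP_12adaf_ntNS.C6a
import Pool.Agent.Lib.MP_12adaf_ntNS.C6n

/-!
# Galois algebras over complete fields near a given one
-/

namespace Pool.Agent.Lib.MP_12adaf_nt.NS

open Polynomial Filter Topology

universe u

/-- A Galois algebra is finite dimensional: the `x i` of `hA.dual` generate it as a vector space,
`a = ∑ i, tr (y i * a) * x i`. -/
theorem IsGaloisAlgebra.finiteDimensional {L A G : Type u} [Field L] [CommRing A] [Algebra L A]
    [Group G] [Finite G] [MulSemiringAction G A] (hA : IsGaloisAlgebra L A G) :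
    FiniteDimensional L A := by
  classical
  obtain ⟨n, x, y, h1, h2⟩ := hA.dual
  cases nonempty_fintype G
  refine Module.Finite.of_surjective (Fintype.linearCombination L x) ?_
  intro a
  have hinv : ∀ b : A, ∃ c : L, algebraMap L A c = ∑ g : G, g • b := by
    intro b
    apply hA.invariant
    intro g
    rw [Finset.smul_sum]
    simp_rw [← mul_smul]
    exact Fintype.sum_equiv (Equiv.mulLeft g) _ _ (fun _ => rfl)
  choose c hc using fun i => hinv (y i * a)
  refine ⟨c, ?_⟩
  rw [Fintype.linearCombination_apply]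
  simp_rw [Algebra.smul_def, hc, smul_mul', Finset.sum_mul]
  rw [Finset.sum_comm]
  have : ∀ g : G, ∑ i, g • y i * g • a * x i = (∑ i, x i * g • y i) * g • a := by
    intro g
    rw [Finset.sum_mul]
    exact Finset.sum_congr rfl fun i _ => by ring
  simp_rw [this]
  rw [Finset.sum_eq_single (1 : G)]
  · simp [h1]
  · intro g _ hg
    rw [h2 g hg, zero_mul]
  · simp

/-- Specialization as a total function. -/
private noncomputable def C6bF {K L : Type*} [Field K] [Field L] [Algebra K L] {n : ℕ}
    {h : MvPolynomial (Fin n) K} (c : Localization.Away h) (t : Fin n → L) : L :=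
  open Classical in
  if ht : MvPolynomial.aeval t h ≠ 0 then spec t ht c else 0

private lemma C6bF_tendsto {K L : Type*} [Field K] [NontriviallyNormedField L] [Algebra K L] {n : ℕ}
    {h : MvPolynomial (Fin n) K} (c : Localization.Away h) {t₀ : Fin n → L}
    (h₀ : MvPolynomial.aeval t₀ h ≠ 0) :
    Tendsto (C6bF c) (𝓝 t₀) (𝓝 (C6bF c t₀)) := by
  classical
  have hcont : ∀ p : MvPolynomial (Fin n) K,
      Continuous fun t : Fin n → L => MvPolynomial.aeval t p := by
    intro p
    have := MvPolynomial.continuous_eval (p.map (algebraMap K L))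
    simpa [MvPolynomial.eval_map, ← MvPolynomial.aeval_def] using this
  obtain ⟨⟨p, s⟩, hps⟩ := IsLocalization.surj (Submonoid.powers h) c
  obtain ⟨s, k, rfl⟩ := s
  simp only at hps
  have key : ∀ t : Fin n → L, ∀ ht : MvPolynomial.aeval t h ≠ 0,
      C6bF c t = MvPolynomial.aeval t p / MvPolynomial.aeval t h ^ k := by
    intro t ht
    have h1 := congrArg (spec t ht) hps
    rw [map_mul, spec_algebraMap, spec_algebraMap, map_pow] at h1
    rw [C6bF, dif_pos ht, ← h1]
    field_simp
  have hev : ∀ᶠ t in 𝓝 t₀, MvPolynomial.aeval t h ≠ 0 :=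
    (hcont h).continuousAt.eventually_ne h₀
  rw [key t₀ h₀]
  have hlim : Tendsto (fun t : Fin n → L => MvPolynomial.aeval t p / MvPolynomial.aeval t h ^ k)
      (𝓝 t₀) (𝓝 (MvPolynomial.aeval t₀ p / MvPolynomial.aeval t₀ h ^ k)) :=
    Tendsto.div ((hcont p).tendsto t₀) (((hcont h).pow k).tendsto t₀) (pow_ne_zero _ h₀)
  exact hlim.congr' (hev.mono fun t ht => (key t ht).symm)

/-- The specialized polynomial over an algebra, as a total function. -/
private noncomputable def C6bP {K L : Type*} (B : Type*) [Field K] [Field L] [Algebra K L] [CommRing B]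
    [Algebra L B] {n : ℕ} {h : MvPolynomial (Fin n) K} (p : (Localization.Away h)[X])
    (t : Fin n → L) : B[X] :=
  open Classical in
  if ht : MvPolynomial.aeval t h ≠ 0 then (p.map (spec t ht).toRingHom).map (algebraMap L B) else 0

private lemma C6bP_coeff {K L B : Type*} [Field K] [Field L] [Algebra K L] [CommRing B]
    [Algebra L B] {n : ℕ} {h : MvPolynomial (Fin n) K} (p : (Localization.Away h)[X])
    (t : Fin n → L) (k : ℕ) : (C6bP B p t).coeff k = algebraMap L B (C6bF (p.coeff k) t) := by
  classical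
  rw [C6bP, C6bF]
  split_ifs with ht
  · simp only [coeff_map]
    rfl
  · simp

private lemma C6bP_natDegree {K L B : Type*} [Field K] [Field L] [Algebra K L] [CommRing B]
    [Algebra L B] {n : ℕ} {h : MvPolynomial (Fin n) K} (p : (Localization.Away h)[X])
    (t : Fin n → L) : (C6bP B p t).natDegree ≤ p.natDegree := by
  classical
  rw [C6bP]
  split_ifs with ht
  · exact natDegree_map_le.trans natDegree_map_le
  · simp

private lemma C6bP_eval {K L B : Type*} [Field K] [Field L] [Algebra K L] [CommRing B]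
    [Algebra L B] {n : ℕ} {h : MvPolynomial (Fin n) K} (p : (Localization.Away h)[X])
    (t : Fin n → L) (ht : MvPolynomial.aeval t h ≠ 0) (w : B) :
    (C6bP B p t).eval w = aeval w (p.map (spec t ht).toRingHom) := by
  classical
  rw [C6bP, dif_pos ht, aeval_def, eval_map]

private lemma C6bP_coeff_tendsto {K L B : Type*} [Field K] [NontriviallyNormedField L] [Algebra K L]
    [NormedCommRing B] [NormedAlgebra L B] {n : ℕ} {h : MvPolynomial (Fin n) K}
    (p : (Localization.Away h)[X]) {t₀ : Fin n → L} (h₀ : MvPolynomial.aeval t₀ h ≠ 0) (k : ℕ) :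
    Tendsto (fun t => (C6bP B p t).coeff k) (𝓝 t₀) (𝓝 ((C6bP B p t₀).coeff k)) := by
  simp_rw [C6bP_coeff]
  exact ((continuous_algebraMap L B).tendsto _).comp (C6bF_tendsto _ h₀)

private lemma C6bP_eval_tendsto {K L B : Type*} [Field K] [NontriviallyNormedField L] [Algebra K L]
    [NormedCommRing B] [NormedAlgebra L B] {n : ℕ} {h : MvPolynomial (Fin n) K}
    (p : (Localization.Away h)[X]) {t₀ : Fin n → L} (h₀ : MvPolynomial.aeval t₀ h ≠ 0) (z : B) :
    Tendsto (fun x : (Fin n → L) × B => (C6bP B p x.1).eval x.2) (𝓝 t₀ ×ˢ 𝓝 z)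
      (𝓝 ((C6bP B p t₀).eval z)) := by
  have hd : ∀ t : Fin n → L, (C6bP B p t).natDegree < p.natDegree + 1 := fun t =>
    Nat.lt_succ_of_le (C6bP_natDegree p t)
  simp_rw [eval_eq_sum_range' (hd _)]
  apply tendsto_finsetSum
  intro i _
  exact ((C6bP_coeff_tendsto p h₀ i).comp tendsto_fst).mul (tendsto_snd.pow i)

private lemma C6b_eq_prod {A ι : Type*} [CommRing A] [Nontrivial A] [Fintype ι] {P : A[X]}
    (hP : P.Monic) (hd : P.natDegree = Fintype.card ι) (f : ι → A) (hf : ∀ i, P.eval (f i) = 0)
    (hu : ∀ i j, i ≠ j → IsUnit (f i - f j)) (j : ι) : IsUnit (P.derivative.eval (f j)) := by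
  classical
  have hdvd : Lagrange.nodal Finset.univ f ∣ P := by
    rw [Lagrange.nodal_eq]
    refine Finset.prod_dvd_of_coprime ?_ ?_
    · intro a _ b _ hab
      exact isCoprime_X_sub_C_of_isUnit_sub (hu a b hab)
    · intro i _
      exact dvd_iff_isRoot.mpr (hf i)
  have hmon : (Lagrange.nodal Finset.univ f).Monic := Lagrange.nodal_monic
  have heq : P = Lagrange.nodal Finset.univ f := by
    refine eq_of_monic_of_dvd_of_natDegree_le hmon hP hdvd ?_
    rw [hd, Lagrange.natDegree_nodal]
    simp
  rw [heq, Lagrange.eval_nodal_derivative_eval_node_eq (Finset.mem_univ j), Lagrange.eval_nodal]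
  apply IsUnit.prod_iff.mpr
  intro i hi
  exact hu j i (Finset.ne_of_mem_erase hi).symm

/-- **Local constancy.**  Data over `K[t, 1/h]`, a Galois algebra `A` over a complete field `L ⊇ K`
and a root `z` in `A` of the data at the point `t₀`: at all points `t'` near `t₀` the data have
a root in `A`.
Proof.  Let `B ≃ A` be the normed algebra of `exists_normedCommRing`, with the action of `G`
transported (by continuous maps, `LinearMap.continuous_of_finiteDimensional`).  The coefficients of
the specialized polynomials are continuous functions of `t'`.  Put `P' = D.P` at `t'`.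
`P₀' (z)` is a unit: `P₀ = ∏ g, (Y - g • z)` in `B[Y]`, as `P₀` is monic of degree `Nat.card G` and
vanishes at the `g • z = (q g) (z)`, whose differences are units (`q_unit`; `comp_q`).
By `exists_near_root` the polynomial `P'` has a root `z'` near `z`.  For each `g`, `(q g)' (z')` and
`g • z'` are roots of `P'` near `g • z` (the first by `comp_q`), so they are equal (`exists_near_root` at
`g • z`).  Finally `m ↦ (r m)' (z')` is a ring homomorphism `M → B` over `K` (`r_one`, `r_mul`) which is
near `φ` at a primitive element `m₀` of `M` over `K` (`Field.exists_primitive_element`); both values at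
`m₀` are roots of the minimal polynomial of `m₀`, which is separable, so they are equal by
`exists_near_root` for the constant family, and the two homomorphisms are equal. -/
theorem exists_root_near {K M L A G : Type u} [Field K] [CharZero K] [Field M] [Algebra K M]
    [FiniteDimensional K M] [NontriviallyNormedField L] [CompleteSpace L] [Algebra K L]
    [CommRing A] [Algebra L A] [Group G] [Finite G] [MulSemiringAction G M]
    [MulSemiringAction G A] (hA : IsGaloisAlgebra L A G) (φ : M →+* A)
    (hφK : ∀ a : K, φ (algebraMap K M a) = algebraMap L A (algebraMap K L a))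
    {n : ℕ} {h : MvPolynomial (Fin n) K} (D : GData K M (Localization.Away h) G)
    {t₀ : Fin n → L} (h₀ : MvPolynomial.aeval t₀ h ≠ 0) {z : A}
    (hz : (D.map (spec t₀ h₀)).IsRoot φ z) :
    ∃ ε : ℝ, 0 < ε ∧ ∀ t' : Fin n → L, (∀ i, ‖t' i - t₀ i‖ < ε) →
      ∃ (h' : MvPolynomial.aeval t' h ≠ 0) (z' : A), (D.map (spec t' h')).IsRoot φ z' := by
  classical
  cases nonempty_fintype G
  have := hA.finiteDimensional
  obtain ⟨B, _, _, _, ⟨e⟩⟩ := exists_normedCommRing (L := L) (A := A)
  have hAn : Nontrivial A := hA.nontrivial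
  have : Nontrivial B := e.injective.nontrivial
  have : FiniteDimensional L B := e.toLinearEquiv.finiteDimensional
  -- the action on `B`
  let σ : G → B →ₐ[L] B := fun g =>
    { toFun := fun b => e (g • e.symm b)
      map_one' := by simp
      map_mul' := by intro a b; simp [smul_mul']
      map_zero' := by simp
      map_add' := by intro a b; simp
      commutes' := fun c => by simp [hA.smul_algebraMap] }
  have hσ : ∀ g (a : A), σ g (e a) = e (g • a) := fun g a => by
    change e (g • e.symm (e a)) = _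
    simp
  have hσ1 : ∀ b, σ 1 b = b := fun b => by
    change e ((1 : G) • e.symm b) = _
    simp
  have hσmul : ∀ g k b, σ (g * k) b = σ g (σ k b) := fun g k b => by
    change e ((g * k) • e.symm b) = e (g • e.symm (e (k • e.symm b)))
    simp [mul_smul]
  have hσc : ∀ g, Continuous (σ g) := fun g =>
    (σ g).toLinearMap.continuous_of_finiteDimensional
  -- evaluations
  have hev : ∀ (p : L[X]) (a : A), aeval (e a) p = e (aeval a p) := fun p a =>
    (aeval_algHom_apply e.toAlgHom a p)
  have hevσ : ∀ g (p : L[X]) (b : B), aeval (σ g b) p = σ g (aeval b p) := fun g p b =>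
    (aeval_algHom_apply (σ g) b p)
  set zB : B := e z with hzB
  obtain ⟨hz1, hz2, hz3⟩ := hz
  have hz1' : aeval zB (D.map (spec t₀ h₀)).P = 0 := by rw [hzB, hev, hz1, map_zero]
  have hz2' : ∀ g, aeval zB ((D.map (spec t₀ h₀)).q g) = σ g zB := fun g => by
    rw [hzB, hev, hz2, hσ]
  have hz3' : ∀ m, aeval zB ((D.map (spec t₀ h₀)).r m) = e (φ m) := fun m => by
    rw [hzB, hev, hz3]
  have hunit1 : ∀ g : G, g ≠ 1 → IsUnit (σ g zB - zB) := by
    intro g hg
    obtain ⟨s, c, hc⟩ := (D.map (spec t₀ h₀)).q_unit g hg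
    have h1 := congrArg (aeval zB) hc
    rw [map_sub, map_mul, map_sub, map_mul, hz1', hz2', aeval_X, map_one, zero_mul,
      sub_eq_zero] at h1
    exact IsUnit.of_mul_eq_one _ h1
  have hunit : ∀ g k : G, g ≠ k → IsUnit (σ g zB - σ k zB) := by
    intro g k hgk
    have h1 : σ g zB - σ k zB = σ k (σ (k⁻¹ * g) zB - zB) := by
      rw [map_sub, ← hσmul]
      simp
    rw [h1]
    apply (hunit1 (k⁻¹ * g) ?_).map
    intro hk
    apply hgk
    rw [inv_mul_eq_one] at hk
    exact hk.symm
  have hPt : ∀ (t : Fin n → L) (ht : MvPolynomial.aeval t h ≠ 0) (w : B),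
      (C6bP B D.P t).eval w = aeval w (D.map (spec t ht)).P := fun t ht w =>
    C6bP_eval _ t ht w
  have hQt : ∀ (t : Fin n → L) (ht : MvPolynomial.aeval t h ≠ 0) (g : G) (w : B),
      (C6bP B (D.q g) t).eval w = aeval w ((D.map (spec t ht)).q g) := fun t ht g w =>
    C6bP_eval _ t ht w
  have hRt : ∀ (t : Fin n → L) (ht : MvPolynomial.aeval t h ≠ 0) (m : M) (w : B),
      (C6bP B (D.r m) t).eval w = aeval w ((D.map (spec t ht)).r m) := fun t ht m w =>
    C6bP_eval _ t ht w
  have hroot0 : ∀ g, (C6bP B D.P t₀).eval (σ g zB) = 0 := fun g => by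
    rw [hPt t₀ h₀, hevσ, hz1', map_zero]
  have hP0 : C6bP B D.P t₀ = (D.map (spec t₀ h₀)).P.map (algebraMap L B) := by
    rw [C6bP, dif_pos h₀]
    rfl
  have hder : ∀ g, IsUnit ((C6bP B D.P t₀).derivative.eval (σ g zB)) := by
    intro g
    have hmon : (C6bP B D.P t₀).Monic := by
      rw [hP0]
      exact (D.map (spec t₀ h₀)).monic.map _
    have hdeg : (C6bP B D.P t₀).natDegree = Fintype.card G := by
      rw [hP0, (D.map (spec t₀ h₀)).monic.natDegree_map, (D.map (spec t₀ h₀)).natDegree_P,
        Nat.card_eq_fintype_card]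
    exact C6b_eq_prod hmon hdeg (fun g => σ g zB) hroot0 hunit g
  choose δ hδ hex huniq using fun g => exists_near_root (l := 𝓝 t₀) (N := D.P.natDegree)
    (P := fun t => C6bP B D.P t) (P₀ := C6bP B D.P t₀) (fun t => C6bP_natDegree _ t)
    (C6bP_natDegree _ t₀) (fun k => C6bP_coeff_tendsto _ h₀ k) (hroot0 g) (hder g)
  -- the primitive element
  obtain ⟨m₀, hm₀⟩ := Field.exists_primitive_element K M
  have hsurj : ∀ m : M, ∃ p : K[X], aeval m₀ p = m := by
    intro m
    have h1 : m ∈ IntermediateField.adjoin K {m₀} := by rw [hm₀]; trivial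
    have h2 : m ∈ (IntermediateField.adjoin K {m₀}).toSubalgebra := h1
    rw [IntermediateField.adjoin_simple_toSubalgebra_of_isAlgebraic
      (Algebra.IsAlgebraic.isAlgebraic m₀), Algebra.adjoin_singleton_eq_range_aeval] at h2
    obtain ⟨p, hp⟩ := h2
    exact ⟨p, hp⟩
  set κ : K →+* B := (algebraMap L B).comp (algebraMap K L) with hκ
  set f : K[X] := minpoly K m₀ with hf
  have hsep : f.Separable := (Algebra.IsSeparable.isSeparable K m₀)
  -- ring homomorphisms over `K` and `f`
  have hhom : ∀ ψ : M →+* B, (∀ a, ψ (algebraMap K M a) = κ a) → ∀ p : K[X],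
      (p.map κ).eval (ψ m₀) = ψ (aeval m₀ p) := by
    intro ψ hψ p
    have : κ = ψ.comp (algebraMap K M) := RingHom.ext fun a => (hψ a).symm
    rw [eval_map, this, ← hom_eval₂, aeval_def]
  set φB : M →+* B := (e : A →+* B).comp φ with hφB
  have hφBK : ∀ a, φB (algebraMap K M a) = κ a := by
    intro a
    change e (φ (algebraMap K M a)) = algebraMap L B (algebraMap K L a)
    rw [hφK]
    exact e.commutes _
  obtain ⟨δ', hδ', -, huniq'⟩ := exists_near_root (l := 𝓝 t₀) (N := f.natDegree)
    (P := fun _ => f.map κ) (P₀ := f.map κ) (fun _ => natDegree_map_le) natDegree_map_le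
    (fun k => tendsto_const_nhds) (z := φB m₀)
    (by rw [hhom φB hφBK, hf, minpoly.aeval, map_zero])
    (by
      rw [derivative_map, hhom φB hφBK]
      exact (isUnit_iff_ne_zero.mpr (hsep.aeval_derivative_ne_zero (minpoly.aeval K m₀))).map φB)
  obtain ⟨-, huniq'⟩ := huniq'.exists
  -- the neighbourhoods
  have E1 : ∀ᶠ x in 𝓝 t₀ ×ˢ 𝓝 zB, ∀ g, ‖(C6bP B (D.q g) x.1).eval x.2 - σ g zB‖ < δ g := by
    rw [eventually_all]
    intro g
    have h1 := C6bP_eval_tendsto (B := B) (D.q g) h₀ zB
    rw [hQt t₀ h₀, hz2'] at h1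
    have h2 := (Metric.tendsto_nhds.mp h1) (δ g) (hδ g)
    simpa only [dist_eq_norm] using h2
  have E2 : ∀ᶠ x in 𝓝 t₀ ×ˢ 𝓝 zB, ∀ g, ‖σ g x.2 - σ g zB‖ < δ g := by
    rw [eventually_all]
    intro g
    have h1 : Tendsto (fun x : (Fin n → L) × B => σ g x.2) (𝓝 t₀ ×ˢ 𝓝 zB) (𝓝 (σ g zB)) :=
      ((hσc g).tendsto zB).comp tendsto_snd
    have h2 := (Metric.tendsto_nhds.mp h1) (δ g) (hδ g)
    simpa only [dist_eq_norm] using h2
  have E3 : ∀ᶠ x in 𝓝 t₀ ×ˢ 𝓝 zB, ‖(C6bP B (D.r m₀) x.1).eval x.2 - φB m₀‖ < δ' := by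
    have h1 := C6bP_eval_tendsto (B := B) (D.r m₀) h₀ zB
    rw [hRt t₀ h₀, hz3'] at h1
    have h2 := (Metric.tendsto_nhds.mp h1) δ' hδ'
    simp only [dist_eq_norm] at h2
    exact h2
  obtain ⟨pa, hpa, pb, hpb, hpab⟩ := eventually_prod_iff.mp (E1.and (E2.and E3))
  obtain ⟨ε₁, hε₁, hpb⟩ := Metric.eventually_nhds_iff.mp hpb
  have E4 : ∀ᶠ t in 𝓝 t₀, ∃ w : B, ‖w - zB‖ < ε₁ ∧ (C6bP B D.P t).eval w = 0 := by
    have := hex 1 ε₁ hε₁
    simpa only [hσ1] using this
  have E5 : ∀ᶠ t : Fin n → L in 𝓝 t₀, MvPolynomial.aeval t h ≠ 0 := by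
    have h1 := MvPolynomial.continuous_eval (h.map (algebraMap K L))
    have h2 : Continuous fun t : Fin n → L => MvPolynomial.aeval t h := by
      simpa [MvPolynomial.eval_map, ← MvPolynomial.aeval_def] using h1
    exact h2.continuousAt.eventually_ne h₀
  have E6 := eventually_all.mpr huniq
  obtain ⟨ε, hε, hfin⟩ := Metric.eventually_nhds_iff.mp (hpa.and (E4.and (E5.and E6)))
  refine ⟨ε, hε, fun t ht => ?_⟩
  obtain ⟨hat, ⟨w, hw1, hw2⟩, h', hun⟩ := hfin (y := t) (by
    rw [dist_pi_lt_iff hε]
    intro i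
    rw [dist_eq_norm]
    exact ht i)
  obtain ⟨F1, F2, F3⟩ := hpab hat (hpb (y := w) (by rwa [dist_eq_norm]))
  simp only at F1 F2 F3
  have hw : aeval w (D.map (spec t h')).P = 0 := by rw [← hPt t h', hw2]
  -- equivariance
  have hq : ∀ g, aeval w ((D.map (spec t h')).q g) = σ g w := by
    intro g
    rw [← hQt t h']
    refine hun g _ _ (F1 g) (F2 g) ?_ ?_
    · rw [hPt t h', hQt t h']
      have h1 := (D.map (spec t h')).comp_q g
      obtain ⟨c, hc⟩ := h1
      have h2 := congrArg (aeval w) hc
      rw [map_mul, hw, zero_mul, aeval_comp] at h2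
      exact h2
    · rw [hPt t h', hevσ, hw, map_zero]
  -- the map from `M`
  set D' := D.map (spec t h') with hD'
  let ψ : M →+* B :=
    { toFun := fun m => aeval w (D'.r m)
      map_one' := by
        obtain ⟨c, hc⟩ := D'.r_one
        have h2 := congrArg (aeval w) hc
        rw [map_mul, hw, zero_mul, map_sub, map_one (aeval w : L[X] →ₐ[L] B),
          sub_eq_zero] at h2
        exact h2
      map_mul' := by
        intro m m'
        obtain ⟨c, hc⟩ := D'.r_mul m m'
        have h2 := congrArg (aeval w) hc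
        rw [map_mul (aeval w : L[X] →ₐ[L] B) D'.P, hw, zero_mul, map_sub,
          map_mul (aeval w : L[X] →ₐ[L] B), sub_eq_zero] at h2
        exact h2
      map_zero' := by simp
      map_add' := by
        intro m m'
        simp }
  have hψK : ∀ a, ψ (algebraMap K M a) = κ a := by
    intro a
    have h1 : ψ 1 = 1 := map_one ψ
    change aeval w (D'.r (algebraMap K M a)) = _
    change aeval w (D'.r 1) = 1 at h1
    rw [Algebra.algebraMap_eq_smul_one, map_smul, ← algebraMap_smul L a (D'.r 1), map_smul, h1,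
      ← Algebra.algebraMap_eq_smul_one]
    rfl
  have hψ0 : ψ m₀ = φB m₀ := by
    apply huniq'
    · have := F3
      rw [hRt t h'] at this
      exact this
    · simpa using hδ'
    · rw [hhom ψ hψK, hf, minpoly.aeval, map_zero]
    · rw [hhom φB hφBK, hf, minpoly.aeval, map_zero]
  have hψ : ∀ m, ψ m = φB m := by
    intro m
    obtain ⟨p, rfl⟩ := hsurj m
    rw [← hhom ψ hψK, ← hhom φB hφBK, hψ0]
  refine ⟨h', e.symm w, ?_, ?_, ?_⟩
  · apply e.injective
    rw [← hev, e.apply_symm_apply, map_zero, hw]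
  · intro g
    apply e.injective
    rw [← hev, ← hσ, e.apply_symm_apply, hq]
  · intro m
    apply e.injective
    rw [← hev, e.apply_symm_apply]
    exact hψ m

end Pool.Agent.Lib.MP_12adaf_nt.NS
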