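import Pool.Agent.Lib.MP_12adaf_ntNS.C1
import Pool.Agent.Lib.MP_12adaf_ntNS.C2
import Pool.Agent.Lib.MP_12adaf_ntNS.C3
import Pool.Agent.Lib.MP_12adaf_ntNS.C4a
import Pool.Agent.Lib.MP_12adaf_ntNS.C4b
import Pool.Agent.Lib.MP_12adaf_ntNS.C5b
import Pool.Agent.Lib.MP_12adaf_ntNS.C6b

/-!
# Generic data from stable rationality
-/

namespace Pool.Agent.Lib.MP_12adaf_nt.NS

open Polynomial

universe u

/-- `M` is finite dimensional over the field of invariants of a finite group. -/
theorem finiteDimensional_of_invariant (K M G : Type u) [Field K] [Field M] [Algebra K M]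
    [Group G] [Finite G] [MulSemiringAction G M] [SMulCommClass G K M]
    [Algebra.IsInvariant K M G] : FiniteDimensional K M := by
  cases nonempty_fintype G
  let F := FixedPoints.subfield G M
  let f : K →+* F := (algebraMap K M).codRestrict F fun a g => smul_algebraMap g a
  let := f.toAlgebra
  have h1 : IsScalarTower K F M := IsScalarTower.of_algebraMap_eq fun a => rfl
  have h2 : Function.Surjective (Algebra.linearMap K F) := by
    intro z
    obtain ⟨a, ha⟩ := Algebra.IsInvariant.isInvariant (A := K) (G := G) (z : M) z.2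
    exact ⟨a, Subtype.ext ha⟩
  have h3 : Module.Finite K F := Module.Finite.of_surjective _ h2
  have h4 : Module.Finite F M := inferInstance
  exact Module.Finite.trans F M

/-- **Generic data.**  If the fields of invariants of the semilinear extensions of `M` are stably
rational over `K`, there are generic data for the Galois algebras with an equivariant homomorphism
from `M`. -/
theorem exists_generic_data {K M G : Type u} [Field K] [Field M] [CharZero M] [Algebra K M]
    [Group G] [Finite G] [MulSemiringAction G M] [SMulCommClass G K M]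
    [Algebra.IsInvariant K M G] (hgoal : Goal K M G) :
    ∃ (n : ℕ) (h : MvPolynomial (Fin n) K) (_ : h ≠ 0) (D : GData K M (Localization.Away h) G),
      ∀ (L A : Type u) [Field L] [Algebra K L] [CommRing A] [Algebra L A] [MulSemiringAction G A],
        IsGaloisAlgebra L A G → ∀ φ : M →+* A,
        (∀ a : K, φ (algebraMap K M a) = algebraMap L A (algebraMap K L a)) →
        (∀ (g : G) (a : M), φ (g • a) = g • φ a) →
        ∃ (t₀ : Fin n → L) (h₀ : MvPolynomial.aeval t₀ h ≠ 0) (z : A),
          (D.map (spec t₀ h₀)).IsRoot φ z := by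
  obtain ⟨E, _, _, _, _, _, m, n, x, y, t, hind, hgen, hact, hgx, hgy, hgt, ht, hfix⟩ :=
    exists_param hgoal
  have : CharZero K := by
    have h1 : Function.Injective (algebraMap K M) := (algebraMap K M).injective
    exact (RingHom.charZero_iff h1).2 inferInstance
  have hfin := finiteDimensional_of_invariant K M G
  have hxinj : Function.Injective x := by
    intro g h hgh
    have h1 := hind.injective (a₁ := Sum.inl g) (a₂ := Sum.inl h) hgh
    exact Sum.inl.inj h1
  let F := IntermediateField.adjoin K (Set.range t)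
  have hF : ∀ z, z ∈ F ↔ ∀ g : G, g • z = z := by
    intro z
    refine ⟨fun hz g => ?_, hfix z⟩
    induction hz using IntermediateField.adjoin_induction with
    | mem z hz => obtain ⟨i, rfl⟩ := hz; exact hgt g i
    | algebraMap a =>
      rw [IsScalarTower.algebraMap_apply K M E, hact, smul_algebraMap]
    | add a b _ _ ha hb => rw [smul_add, ha, hb]
    | inv a _ ha =>
      have : g • a⁻¹ = (g • a)⁻¹ := map_inv₀ (MulSemiringAction.toRingHom G E g) a
      rw [this, ha]
    | mul a b _ _ ha hb => rw [smul_mul', ha, hb]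
  obtain ⟨D0, hP0, hq0, hr0⟩ := exists_gdata_field (K := K) hact hxinj hgx F hF
  let algF : Algebra (MvPolynomial (Fin n) K) F :=
    (ht.aevalEquivField.toAlgHom.toRingHom.comp (algebraMap (MvPolynomial (Fin n) K)
      (FractionRing (MvPolynomial (Fin n) K)))).toAlgebra
  have halgF : ∀ p : MvPolynomial (Fin n) K, algebraMap (MvPolynomial (Fin n) K) F p =
      ht.aevalEquivField (algebraMap _ _ p) := fun p => rfl
  have htow : IsScalarTower K (MvPolynomial (Fin n) K) F :=
    IsScalarTower.of_algebraMap_eq fun a => by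
      rw [halgF, ← IsScalarTower.algebraMap_apply K (MvPolynomial (Fin n) K)
        (FractionRing (MvPolynomial (Fin n) K)), AlgEquiv.commutes]
  have hfrac : IsFractionRing (MvPolynomial (Fin n) K) F :=
    IsLocalization.isLocalization_of_algEquiv (nonZeroDivisors (MvPolynomial (Fin n) K))
      (AlgEquiv.ofRingEquiv (f := ht.aevalEquivField.toRingEquiv) fun p => rfl)
  obtain ⟨h, hh, D, θ, hθ, hP, hq, hr⟩ := exists_gdata_away (n := n) D0
  refine ⟨n, h, hh, D, ?_⟩
  intro L A _ _ _ _ _ hA φ hφK hφ
  have : CharZero L := charZero_of_injective_algebraMap (algebraMap K L).injective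
  let θ' : Localization.Away h →ₐ[K] E := F.val.comp θ
  have hθ' : ∀ i, θ' (algebraMap (MvPolynomial (Fin n) K) _ (MvPolynomial.X i)) = t i := by
    intro i
    change ((θ (algebraMap (MvPolynomial (Fin n) K) _ (MvPolynomial.X i)) : F) : E) = t i
    rw [hθ, halgF, ht.aevalEquivField_algebraMap_apply_coe, MvPolynomial.aeval_X]
  obtain ⟨t₀, h₀, z, hz⟩ := exists_specialization hA φ hφK hφ hind hgen hact hgx hgy hgt ht hh
    θ' hθ'
  have hev : ∀ (p : (Localization.Away h)[X]),
      (p.map θ'.toRingHom).eval (x 1) = aeval (x 1) (p.map θ.toRingHom) := by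
    intro p
    have h1 : θ'.toRingHom = (algebraMap F E).comp θ.toRingHom := rfl
    rw [h1, ← Polynomial.map_map, Polynomial.eval_map, Polynomial.aeval_def]
  refine ⟨t₀, h₀, z, (hz D.P).1 ?_, fun g => (hz (D.q g)).2.1 g ?_, fun a => (hz (D.r a)).2.2 a ?_⟩
  · rw [hev, hP, hP0]
  · rw [hev, hq, hq0]
  · rw [hev, hr, hr0]

end Pool.Agent.Lib.MP_12adaf_nt.NS
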