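import Pool.Agent.Lib.MP_12adaf_ntNS.C7
import Pool.Agent.Lib.MP_12adaf_nt.NFPlaces

/-!
# Weak approximation for Galois algebras over number fields
-/

namespace Pool.Agent.Lib.MP_12adaf_nt.NS

open Polynomial NumberField IsDedekindDomain
open scoped TensorProduct

universe u

noncomputable instance algPlC {k : Type u} [Field k] [NumberField k] :
    ∀ i : Pl k, Algebra k (PlC k i)
  | .inl v => inferInstanceAs (Algebra k v.Completion)
  | .inr w => inferInstanceAs (Algebra k (w.adicCompletion k))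

lemma algebraMap_plC {k : Type u} [Field k] [NumberField k] (i : Pl k) (a : k) :
    algebraMap k (PlC k i) a = plEmb k i a := by
  rcases i with v | w <;> rfl

instance completePlC {k : Type u} [Field k] [NumberField k] (i : Pl k) :
    CompleteSpace (PlC k i) := by
  rcases i with v | w
  · exact inferInstanceAs (CompleteSpace v.Completion)
  · exact inferInstanceAs (CompleteSpace (w.adicCompletion k))

lemma exists_norm_plC {k : Type u} [Field k] [NumberField k] (i : Pl k) :
    ∃ x : PlC k i, 1 < ‖x‖ := by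
  obtain ⟨a, ha0, ha⟩ := plAbv_isNontrivial k i
  rcases lt_or_gt_of_ne ha with h | h
  · refine ⟨plEmb k i a⁻¹, ?_⟩
    rw [norm_plEmb, map_inv₀]
    exact (one_lt_inv₀ ((plAbv k i).pos ha0)).2 h
  · exact ⟨plEmb k i a, by rwa [norm_plEmb]⟩

/-- The completions as nontrivially normed fields. -/
noncomputable abbrev nontriviallyNormedPlC {k : Type u} [Field k] [NumberField k] (i : Pl k) :
    NontriviallyNormedField (PlC k i) :=
  { plNormedField k i with non_trivial := exists_norm_plC i }

/-- Specialization and base change. -/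
lemma aeval_map_spec {k L A : Type u} [Field k] [Field L] [Algebra k L] [CommRing A] [Algebra L A]
    [Algebra k A] [IsScalarTower k L A] {n : ℕ} {h : MvPolynomial (Fin n) k} {t : Fin n → k}
    (ht : MvPolynomial.aeval t h ≠ 0)
    (ht' : MvPolynomial.aeval (fun i => algebraMap k L (t i)) h ≠ 0) (z : A)
    (p : (Localization.Away h)[X]) :
    aeval z (p.map (spec (L := L) (fun i => algebraMap k L (t i)) ht').toRingHom) =
      aeval z (p.map (spec t ht).toRingHom) := by
  have h1 : (spec (L := L) (fun i => algebraMap k L (t i)) ht').toRingHom =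
      (algebraMap k L).comp (spec t ht).toRingHom := by
    refine IsLocalization.ringHom_ext (Submonoid.powers h) ?_
    refine RingHom.ext fun q => ?_
    change spec (L := L) (fun i => algebraMap k L (t i)) ht'
      (algebraMap _ (Localization.Away h) q) =
      algebraMap k L (spec t ht (algebraMap _ (Localization.Away h) q))
    rw [spec_algebraMap, spec_algebraMap]
    exact (MvPolynomial.aeval_algebraMap_apply L t q)
  rw [h1, ← Polynomial.map_map, aeval_map_algebraMap]

/-- **Weak approximation for Galois algebras**: Grunwald's problem for embedding problems. -/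
theorem exists_global {k M G : Type u} [Field k] [NumberField k] [Field M] [Algebra k M]
    [Group G] [Finite G] [MulSemiringAction G M] [SMulCommClass G k M]
    [Algebra.IsInvariant k M G] (hgoal : Goal k M G) {ι : Type u} [Finite ι] (f : ι → Pl k)
    (hf : Function.Injective f) (A : ι → Type u) [∀ i, CommRing (A i)]
    [∀ i, Algebra (PlC k (f i)) (A i)] [∀ i, MulSemiringAction G (A i)]
    (hA : ∀ i, IsGaloisAlgebra (PlC k (f i)) (A i) G) (φ : ∀ i, M →+* A i)
    (hφk : ∀ i (a : k), φ i (algebraMap k M a) =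
      algebraMap (PlC k (f i)) (A i) (algebraMap k (PlC k (f i)) a))
    (hφ : ∀ i (g : G) (a : M), φ i (g • a) = g • φ i a) :
    ∃ (A₀ : Type u) (_ : CommRing A₀) (_ : Algebra k A₀) (_ : MulSemiringAction G A₀)
      (ψ : M →+* A₀), IsGaloisAlgebra k A₀ G ∧
      (∀ a : k, ψ (algebraMap k M a) = algebraMap k A₀ a) ∧
      (∀ (g : G) (m : M), ψ (g • m) = g • ψ m) ∧
      ∀ i, ∃ e : (PlC k (f i)) ⊗[k] A₀ ≃ₐ[PlC k (f i)] A i,
        (∀ (g : G) (a : A₀), e (1 ⊗ₜ (g • a)) = g • e (1 ⊗ₜ a)) ∧
        ∀ m : M, e (1 ⊗ₜ ψ m) = φ i m := by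
  classical
  cases nonempty_fintype ι
  have : CharZero M := charZero_of_injective_algebraMap (algebraMap k M).injective
  have hfin := finiteDimensional_of_invariant k M G
  obtain ⟨n, h, hh, D, hD⟩ := exists_generic_data hgoal
  -- the local points
  have h1 : ∀ i, ∃ (t₀ : Fin n → PlC k (f i)) (ε : ℝ), 0 < ε ∧
      ∀ t' : Fin n → PlC k (f i), (∀ j, ‖t' j - t₀ j‖ < ε) →
      ∃ (h' : MvPolynomial.aeval t' h ≠ 0) (z' : A i), (D.map (spec t' h')).IsRoot (φ i) z' := by
    intro i
    obtain ⟨t₀, h₀, z, hz⟩ := hD (PlC k (f i)) (A i) (hA i) (φ i) (hφk i) (hφ i)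
    let := nontriviallyNormedPlC (f i)
    obtain ⟨ε, hε, hε'⟩ := exists_root_near (K := k) (L := PlC k (f i)) (hA i) (φ i) (hφk i) D
      h₀ hz
    exact ⟨t₀, ε, hε, hε'⟩
  choose t₀ ε hε hloc using h1
  -- the global point
  obtain ⟨t, ht, htε⟩ : ∃ t : Fin n → k, MvPolynomial.aeval t h ≠ 0 ∧
      ∀ i j, ‖algebraMap k (PlC k (f i)) (t j) - t₀ i j‖ < ε i := by
    rcases isEmpty_or_nonempty ι with hι | ⟨⟨i₀⟩⟩
    · by_contra! hcon
      apply hh
      refine MvPolynomial.funext fun t => ?_
      by_contra h2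
      have h3 := hcon t (by
        rw [MvPolynomial.aeval_eq_eval]
        simpa using h2)
      obtain ⟨i, -⟩ := h3
      exact hι.elim i
    · let δ : ℝ := Finset.univ.inf' ⟨i₀, Finset.mem_univ _⟩ ε
      have hδ : 0 < δ := (Finset.lt_inf'_iff _).2 fun i _ => hε i
      have h2 : ∀ j, ∃ q : k, ∀ i, ‖algebraMap k (PlC k (f i)) q - t₀ i j‖ < δ := by
        intro j
        obtain ⟨q, hq⟩ := (denseRange_places k f hf).exists_dist_lt (fun i => t₀ i j) hδ
        rw [dist_pi_lt_iff hδ] at hq
        refine ⟨q, fun i => ?_⟩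
        rw [← dist_eq_norm, dist_comm, algebraMap_plC]
        exact hq i
      choose t ht using h2
      have hlt : ∀ i j, ‖algebraMap k (PlC k (f i)) (t j) - t₀ i j‖ < ε i := fun i j =>
        (ht j i).trans_le (Finset.inf'_le _ (Finset.mem_univ i))
      refine ⟨t, fun h3 => ?_, hlt⟩
      obtain ⟨h4, -⟩ := hloc i₀ (fun j => algebraMap k (PlC k (f i₀)) (t j)) (hlt i₀)
      apply h4
      have h5 := MvPolynomial.aeval_algebraMap_apply (PlC k (f i₀)) t h
      exact h5.trans (by rw [h3, map_zero])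
  obtain ⟨A₀, _, _, _, ψ, hA₀, hψk, hψ, huniv⟩ := (D.map (spec t ht)).exists_algebra
  refine ⟨A₀, _, _, _, ψ, hA₀, hψk, hψ, fun i => ?_⟩
  let algi : Algebra k (A i) :=
    ((algebraMap (PlC k (f i)) (A i)).comp (algebraMap k (PlC k (f i)))).toAlgebra
  have towi : IsScalarTower k (PlC k (f i)) (A i) := IsScalarTower.of_algebraMap_eq fun _ => rfl
  obtain ⟨h', z', hz'⟩ := hloc i (fun j => algebraMap k (PlC k (f i)) (t j)) (htε i)
  have hz'' : (D.map (spec t ht)).IsRoot (φ i) z' := by
    refine ⟨?_, fun g => ?_, fun m => ?_⟩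
    · exact (aeval_map_spec ht h' z' D.P).symm.trans hz'.1
    · exact (aeval_map_spec ht h' z' (D.q g)).symm.trans (hz'.2.1 g)
    · exact (aeval_map_spec ht h' z' (D.r m)).symm.trans (hz'.2.2 m)
  obtain ⟨F, hF, hFψ⟩ := huniv (A i) (φ i) z' (fun g c => (hA i).smul_algebraMap g _) hz''
  obtain ⟨e, he⟩ := exists_tensor_equiv hA₀ (hA i) F hF
  exact ⟨e, fun g a => by rw [he, he, hF], fun m => by rw [he, hFψ]⟩

end Pool.Agent.Lib.MP_12adaf_nt.NS
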