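import Pool.Agent.Lib.MP_12adaf_ntNS.C8

/-!
# Solutions of embedding problems over completions of a number field
-/

namespace Pool.Agent.Lib.MP_12adaf_nt.NS

open NumberField IsDedekindDomain
open scoped TensorProduct

universe u

/-- The `G`-equivariant homomorphism `φ` from the `G`-field `M` over `k` to a Galois algebra `A`
with group `G` over the extension `K` of `k`: a solution over `K` of the embedding problem given
by `M` and `G`. -/
structure IsSolution (k K : Type*) {M A : Type*} (G : Type*) [Field k] [Field K] [Algebra k K]
    [Field M] [Algebra k M] [CommRing A] [Algebra K A] [Group G] [MulSemiringAction G M]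
    [MulSemiringAction G A] (φ : M →+* A) : Prop where
  galois : IsGaloisAlgebra K A G
  map_base : ∀ a : k, φ (algebraMap k M a) = algebraMap K A (algebraMap k K a)
  equivariant : ∀ (g : G) (m : M), φ (g • m) = g • φ m

/-- The solution `φ` over the extension `K` of `k` is induced by the solution `ψ` over `k`: there
is a `G`-equivariant isomorphism of `K`-algebras from `K ⊗ L` to `A`, compatible with the
homomorphisms from `M`. -/
def Induces (k K G : Type*) {M L A : Type*} [Field k] [Field K] [Algebra k K] [Field M]
    [CommRing L] [Algebra k L] [CommRing A] [Algebra K A] [Group G] [MulSemiringAction G L]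
    [MulSemiringAction G A] (ψ : M →+* L) (φ : M →+* A) : Prop :=
  ∃ e : K ⊗[k] L ≃ₐ[K] A, (∀ (g : G) (a : L), e (1 ⊗ₜ (g • a)) = g • e (1 ⊗ₜ a)) ∧
    ∀ m : M, e (1 ⊗ₜ ψ m) = φ m

/-- Weak approximation for solutions of embedding problems. -/
theorem exists_solution {k M G : Type u} [Field k] [NumberField k] [Field M] [Algebra k M]
    [Group G] [Finite G] [MulSemiringAction G M] [SMulCommClass G k M]
    [Algebra.IsInvariant k M G] (hgoal : Goal k M G)
    (S : Finset (InfinitePlace k)) (T : Finset (HeightOneSpectrum (𝓞 k)))
    (A : S → Type u) [∀ v, CommRing (A v)] [∀ v, Algebra v.1.Completion (A v)]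
    [∀ v, MulSemiringAction G (A v)] (φ : ∀ v, M →+* A v)
    (hφ : ∀ v : S, IsSolution k v.1.Completion G (φ v))
    (B : T → Type u) [∀ w, CommRing (B w)] [∀ w, Algebra (w.1.adicCompletion k) (B w)]
    [∀ w, MulSemiringAction G (B w)] (χ : ∀ w, M →+* B w)
    (hχ : ∀ w : T, IsSolution k (w.1.adicCompletion k) G (χ w)) :
    ∃ (L : Type u) (_ : CommRing L) (_ : Algebra k L) (_ : MulSemiringAction G L) (ψ : M →+* L),
      IsSolution k k G ψ ∧ (∀ v : S, Induces k v.1.Completion G ψ (φ v)) ∧
      ∀ w : T, Induces k (w.1.adicCompletion k) G ψ (χ w) := by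
  classical
  have : CharZero M := charZero_of_injective_algebraMap (algebraMap k M).injective
  let f : S ⊕ T → Pl k := Sum.map Subtype.val Subtype.val
  have hf : Function.Injective f := Sum.map_injective.2
    ⟨Subtype.val_injective, Subtype.val_injective⟩
  let A' : S ⊕ T → Type u := fun i =>
    match i with
    | Sum.inl v => A v
    | Sum.inr w => B w
  let i1 : ∀ i, CommRing (A' i) := fun i =>
    match i with
    | Sum.inl v => (inferInstance : CommRing (A v))
    | Sum.inr w => (inferInstance : CommRing (B w))
  let i2 : ∀ i, Algebra (PlC k (f i)) (A' i) := fun i =>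
    match i with
    | Sum.inl v => (inferInstance : Algebra v.1.Completion (A v))
    | Sum.inr w => (inferInstance : Algebra (w.1.adicCompletion k) (B w))
  let i3 : ∀ i, MulSemiringAction G (A' i) := fun i =>
    match i with
    | Sum.inl v => (inferInstance : MulSemiringAction G (A v))
    | Sum.inr w => (inferInstance : MulSemiringAction G (B w))
  let φ' : ∀ i, M →+* A' i := fun i =>
    match i with
    | Sum.inl v => φ v
    | Sum.inr w => χ w
  obtain ⟨L, _, _, _, ψ, h1, h2, h3, h4⟩ := exists_global hgoal f hf A'
    (by
      rintro (v | w)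
      · exact (hφ v).galois
      · exact (hχ w).galois) φ'
    (by
      rintro (v | w) a
      · exact (hφ v).map_base a
      · exact (hχ w).map_base a)
    (by
      rintro (v | w) g m
      · exact (hφ v).equivariant g m
      · exact (hχ w).equivariant g m)
  exact ⟨L, _, _, _, ψ, ⟨h1, h2, h3⟩, fun v => h4 (Sum.inl v), fun w => h4 (Sum.inr w)⟩

end Pool.Agent.Lib.MP_12adaf_nt.NS
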