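import Mathlib

/-!
# Stable Noether problem and composition factors: definitions
-/

namespace Pool.Agent.Lib.MP_12adaf_nt.NS

universe u

/-- The extension `F` of `K` is stably rational: for some `m`, `n` the fields of rational
functions `F(y_1, …, y_m)` and `K(t_1, …, t_n)` are `K`-isomorphic. -/
def IsStablyRational (K F : Type*) [Field K] [Field F] [Algebra K F] : Prop :=
  ∃ m n : ℕ, Nonempty (FractionRing (MvPolynomial (Fin m) F) ≃ₐ[K]
    FractionRing (MvPolynomial (Fin n) K))

/-- `HasFactors C H`: the group `H` has a composition series all of whose factors are in the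
class `C`. -/
inductive HasFactors (C : (S : Type u) → [Group S] → Prop) : (H : Type u) → [Group H] → Prop
  | triv {H : Type u} [Group H] [Subsingleton H] : HasFactors C H
  | ext {H : Type u} [Group H] (N : Subgroup H) [N.Normal] :
      HasFactors C N → C (H ⧸ N) → HasFactors C H

/-- The rationality property of a pair `S ≤ W` with a rational representation `ρ` of `W`:
fields of invariants of finite groups `G` acting on a field `M` and linearly, in blocks, through
`W`, on `M(x_{b,i})` are purely transcendental over `K = M ^ G` if the kernel of the action on `M`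
acts as the product of the copies of `S`. -/
def GV {W : Type} [Group W] (S : Subgroup W) {d : ℕ} (ρ : W →* Matrix (Fin d) (Fin d) ℚ) :
    Prop :=
  ∀ {K M E G B : Type u} [Field K] [Field M] [CharZero M] [Field E] [CharZero E]
    [Algebra K M] [Algebra M E] [Algebra K E] [IsScalarTower K M E] [Group G] [Finite G]
    [MulSemiringAction G M] [MulSemiringAction G E] [SMulCommClass G K M]
    [Algebra.IsInvariant K M G] [Finite B] [MulAction G B] {x : B → Fin d → E} {κ : G → B → W},
    (∀ (g : G) (m : M), g • algebraMap M E m = algebraMap M E (g • m)) →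
    AlgebraicIndependent M (fun p : B × Fin d => x p.1 p.2) →
    IntermediateField.adjoin M (Set.range fun p : B × Fin d => x p.1 p.2) = ⊤ →
    (∀ (g : G) (b : B) (i : Fin d), g • x b i = ∑ j, ((ρ (κ g b) j i : ℚ) : E) * x (g • b) j) →
    (∀ g : G, (∀ m : M, g • m = m) → ∀ b, g • b = b ∧ κ g b ∈ S) →
    (∀ τ : B → W, (∀ b, τ b ∈ S) → ∃ g : G, (∀ m : M, g • m = m) ∧ ∀ b, κ g b = τ b) →
    ∃ t : B × Fin d → E, (∀ (g : G) (p : B × Fin d), g • t p = t p) ∧
      AlgebraicIndependent K t ∧
      ∀ z : E, (∀ g : G, g • z = z) → z ∈ IntermediateField.adjoin K (Set.range t)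

/-- The groups `S` for which the method works: `S` is a nonabelian simple group contained in a
finite group `W` which acts on it through all its automorphisms, and `W` has a faithful rational
representation with the property `GV`. -/
structure IsGood (S : Type u) [Group S] : Prop where
  simple : IsSimpleGroup S
  noncomm : ∃ a b : S, a * b ≠ b * a
  exists_data : ∃ (W : Type) (_ : Group W) (_ : Finite W) (j : S →* W) (d : ℕ)
    (ρ : W →* Matrix (Fin d) (Fin d) ℚ), Function.Injective j ∧ Function.Injective ρ ∧
      (∀ φ : S ≃* S, ∃ w : W, ∀ s, j (φ s) = w * j s * w⁻¹) ∧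
      (∀ w : W, (∀ s, w * j s = j s * w) → w = 1) ∧ GV.{u} j.range ρ

end Pool.Agent.Lib.MP_12adaf_nt.NS
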