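import Mathlib

namespace Pool.Agent.Lib.MP_12adaf_nt.NS.AutAlt

open Equiv Equiv.Perm
open scoped Nat

set_option linter.unusedSectionVars false

variable {α : Type*} [Fintype α] [DecidableEq α]

/-- the cycle `a ↦ b ↦ c ↦ a` -/
def cyc (a b c : α) : Perm α := swap a b * swap b c

theorem cyc_a {a b c : α} (hab : a ≠ b) (hac : a ≠ c) : cyc a b c a = b := by
  simp [cyc, swap_apply_of_ne_of_ne hab hac]

theorem cyc_b {a b c : α} (hac : a ≠ c) (hbc : b ≠ c) : cyc a b c b = c := by
  simp [cyc, swap_apply_of_ne_of_ne hac.symm hbc.symm]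

theorem cyc_c {a b c : α} : cyc a b c c = a := by
  simp [cyc]

theorem cyc_o {a b c x : α} (hxa : x ≠ a) (hxb : x ≠ b) (hxc : x ≠ c) : cyc a b c x = x := by
  simp [cyc, swap_apply_of_ne_of_ne hxb hxc, swap_apply_of_ne_of_ne hxa hxb]

theorem conj_cyc (g : Perm α) (a b c : α) : g * cyc a b c * g⁻¹ = cyc (g a) (g b) (g c) := by
  simp only [cyc, swap_apply_apply]
  group

theorem cyc_three {a b c : α} (hab : a ≠ b) (hac : a ≠ c) (hbc : b ≠ c) :
    IsThreeCycle (cyc a b c) := by
  rw [cyc, swap_comm a b]
  exact isThreeCycle_swap_mul_swap_same hab.symm hbc hac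

theorem three_apply {d : Perm α} (hd : d.IsThreeCycle) (x : α) : d (d (d x)) = x := by
  have h : d ^ 3 = 1 := by rw [← hd.orderOf, pow_orderOf_eq_one]
  have := congrArg (fun g : Perm α => g x) h
  simpa [pow_succ] using this

theorem eq_cyc {d : Perm α} (hd : d.IsThreeCycle) {x : α} (hx : d x ≠ x) :
    d = cyc x (d x) (d (d x)) :=
  hd.eq_swap_mul_swap_iff_mem_support.mpr (mem_support.mpr hx)

theorem moved_cases {d : Perm α} (hd : d.IsThreeCycle) {x y : α} (hx : d x ≠ x) (hy : d y ≠ y) :
    y = x ∨ y = d x ∨ y = d (d x) := by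
  have h := hd.support_eq_iff_mem_support.mpr (mem_support.mpr hx)
  have hy' := mem_support.mpr hy
  rw [h] at hy'
  simpa using hy'

theorem dd_ne {d : Perm α} (hd : d.IsThreeCycle) {x : α} (hx : d x ≠ x) : d (d x) ≠ x := by
  intro h
  have := three_apply hd x
  rw [h] at this
  exact hx this

/-- Two 3-cycles with a product of order two share exactly one directed edge. -/
theorem rel {d e : Perm α} (hd : d.IsThreeCycle) (he : e.IsThreeCycle)
    (h2 : (d * e) * (d * e) = 1) (hne : d * e ≠ 1) :
    ∃ x, d x ≠ x ∧ e x = d x ∧ d (d x) ≠ e (d x) := by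
  have h2' : ∀ x, d (e (d (e x))) = x := by
    intro x
    have := congrArg (fun g : Perm α => g x) h2
    simpa using this
  by_cases hS : ∃ u, d u ≠ u ∧ e u = u
  · obtain ⟨u, hu, heu⟩ := hS
    have h1 := h2' u
    rw [heu] at h1
    have h3 := three_apply hd u
    -- e (d u) = d (d u)
    have h4 : e (d u) = d (d u) := by
      apply d.injective
      rw [h1, h3]
    refine ⟨d u, fun h => hu (d.injective h), h4, ?_⟩
    rw [h3]
    intro h
    have h5 : e (d (d u)) = e u := by rw [← h, heu]
    exact dd_ne hd hu (e.injective h5)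
  · push Not at hS
    exfalso
    obtain ⟨u, hu⟩ : ∃ u, (d * e) u ≠ u := by
      by_contra hcon
      push Not at hcon
      exact hne (Equiv.ext hcon)
    have hu' : d (e u) ≠ u := hu
    -- supports agree
    have hsub : d.support ⊆ e.support := by
      intro x hx
      rw [mem_support] at hx ⊢
      exact hS x hx
    have heq : d.support = e.support :=
      Finset.eq_of_subset_of_card_le hsub (by rw [hd.card_support, he.card_support])
    have hiff : ∀ x, d x ≠ x ↔ e x ≠ x := by
      intro x
      rw [← mem_support, ← mem_support, heq]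
    have hdu : d u ≠ u := by
      intro h
      have : e u = u := by
        by_contra hc
        exact ((hiff u).mpr hc) h
      exact hu' (by rw [this, h])
    have heu : e u ≠ u := (hiff u).mp hdu
    have h3 := three_apply hd u
    have h3e := three_apply he u
    have heum : d (e u) ≠ e u := (hiff _).mpr (fun h => heu (e.injective h))
    have c1 : e u = d u := by
      rcases moved_cases hd hdu heum with h | h | h
      · exact absurd h heu
      · exact h
      · exfalso
        apply hu'
        rw [h, h3]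
    have hdd : d (e (e u)) ≠ e (e u) := (hiff _).mpr (fun h => heu (e.injective (e.injective h)))
    have c2 : e (e u) = d (d u) := by
      rcases moved_cases hd hdu hdd with h | h | h
      · exact absurd h (dd_ne he heu)
      · exfalso
        rw [← c1] at h
        exact heu (e.injective h)
      · exact h
    have h4 := h2' u
    rw [c1, ← c2, h3e] at h4
    exact hdu h4

/-- Four distinct moved points are too many for a 3-cycle. -/
theorem no_four {d : Perm α} (hd : d.IsThreeCycle) {x y z w : α} (hx : d x ≠ x) (hy : d y ≠ y)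
    (hz : d z ≠ z) (hw : d w ≠ w) (hxy : x ≠ y) (hxz : x ≠ z) (hxw : x ≠ w) (hyz : y ≠ z)
    (hyw : y ≠ w) (hzw : z ≠ w) : False := by
  have h1 := moved_cases hd hx hy
  have h2 := moved_cases hd hx hz
  have h3 := moved_cases hd hx hw
  rcases h1 with h1 | h1 | h1 <;> rcases h2 with h2 | h2 | h2 <;>
    rcases h3 with h3 | h3 | h3 <;> simp_all

/-- A family of 3-cycles, any two with exactly one common directed edge, has a common edge if
there are two distinct members `i0`, `j0`. -/
theorem common_edge {ι : Type*} (D : ι → Perm α) (hD : ∀ i, (D i).IsThreeCycle)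
    (hrel : ∀ i j, i ≠ j → ∃ x, D i x ≠ x ∧ D j x = D i x ∧ D i (D i x) ≠ D j (D i x))
    {i0 j0 : ι} (hij : i0 ≠ j0) : ∃ x y, x ≠ y ∧ ∀ i, D i x = y := by
  obtain ⟨x, hx, hjx, hne⟩ := hrel i0 j0 hij
  refine ⟨x, D i0 x, Ne.symm hx, fun i => ?_⟩
  by_cases hi0 : i = i0
  · rw [hi0]
  by_cases hj0 : i = j0
  · rw [hj0, hjx]
  set y := D i0 x with hy
  set z := D i0 y with hz
  set z' := D j0 y with hz'
  have hi0x := three_apply (hD i0) x
  have hj0x := three_apply (hD j0) x
  rw [← hy, ← hz] at hi0x
  rw [hjx, ← hz'] at hj0x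
  have hjxx : D j0 x ≠ x := by rw [hjx]; exact hx
  have hyz : y ≠ z := fun h => hx ((D i0).injective (by rw [← hy, ← hz]; exact h.symm))
  have hyz' : y ≠ z' := by
    intro h
    apply hx
    apply (D j0).injective
    rw [← hz', hjx]
    exact h.symm
  have hzx : z ≠ x := dd_ne (hD i0) hx
  have hzx' : z' ≠ x := by
    have := dd_ne (hD j0) hjxx
    rwa [hjx] at this
  obtain ⟨x1, hx1, hx1', hx1''⟩ := hrel i i0 hi0
  obtain ⟨x2, hx2, hx2', hx2''⟩ := hrel i j0 hj0
  have hx1m : D i0 x1 ≠ x1 := by rw [hx1']; exact hx1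
  have hx2m : D j0 x2 ≠ x2 := by rw [hx2']; exact hx2
  have m1 := moved_cases (hD i0) hx hx1m
  have m2 := moved_cases (hD j0) hjxx hx2m
  rw [← hy, ← hz] at m1
  rw [hjx, ← hz'] at m2
  rcases m1 with m1 | m1 | m1
  · rw [← m1, ← hx1', m1]
  · rcases m2 with m2 | m2 | m2
    · rw [← m2, ← hx2', m2, hjx]
    · exfalso
      apply hne
      rw [m1] at hx1'
      rw [m2] at hx2'
      exact hz.trans (hx1'.trans (hx2'.symm.trans hz'.symm))
    · exfalso
      rw [m1, ← hz] at hx1'
      rw [m2, hj0x] at hx2'
      have a1 : D i y ≠ y := by rw [← hx1']; exact hyz.symm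
      have a2 : D i z' ≠ z' := by rw [← hx2']; exact hzx'.symm
      have a3 : D i x ≠ x := by rw [hx2']; exact fun h => a2 ((D i).injective h)
      have a4 : D i z ≠ z := by rw [hx1']; exact fun h => a1 ((D i).injective h)
      exact no_four (hD i) a3 a1 a4 a2 (Ne.symm hx) hzx.symm hzx'.symm hyz hyz' hne
  · rcases m2 with m2 | m2 | m2
    · rw [← m2, ← hx2', m2, hjx]
    · exfalso
      rw [m1, hi0x] at hx1'
      rw [m2, ← hz'] at hx2'
      have a1 : D i y ≠ y := by rw [← hx2']; exact hyz'.symm
      have a2 : D i z ≠ z := by rw [← hx1']; exact hzx.symm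
      have a3 : D i x ≠ x := by rw [hx1']; exact fun h => a2 ((D i).injective h)
      have a4 : D i z' ≠ z' := by rw [hx2']; exact fun h => a1 ((D i).injective h)
      exact no_four (hD i) a3 a1 a2 a4 (Ne.symm hx) hzx.symm hzx'.symm hyz hyz' hne
    · exfalso
      rw [m1, hi0x] at hx1'
      rw [m2, hj0x] at hx2'
      exact hne ((D i).injective (by rw [← hx1', ← hx2']))

/-- Generation by the cycles `(p q i)`. -/
theorem mem_of_cyc {p q : α} (hpq : p ≠ q) (hcard : 4 ≤ Fintype.card α) (H : Subgroup (Perm α))
    (hH : ∀ i, i ≠ p → i ≠ q → cyc p q i ∈ H) {σ : Perm α} (hσ : σ.IsThreeCycle) : σ ∈ H := by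
  -- step 1
  have s0 : ∃ i, i ≠ p ∧ i ≠ q := by
    by_contra hcon
    push Not at hcon
    have : (Finset.univ : Finset α) ⊆ {p, q} := by
      intro i _
      by_cases hi : i = p
      · simp [hi]
      · simp [hcon i hi]
    have := Finset.card_le_card this
    rw [Finset.card_univ] at this
    have h2 : Finset.card ({p, q} : Finset α) ≤ 2 := Finset.card_le_two
    omega
  have s0' : ∀ j, ∃ i, i ≠ p ∧ i ≠ q ∧ i ≠ j := by
    intro j
    by_contra hcon
    push Not at hcon
    have : (Finset.univ : Finset α) ⊆ {p, q, j} := by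
      intro i _
      by_cases hi : i = p
      · simp [hi]
      · by_cases hi' : i = q
        · simp [hi']
        · simp [hcon i hi hi']
    have := Finset.card_le_card this
    rw [Finset.card_univ] at this
    have h2 : Finset.card ({p, q, j} : Finset α) ≤ 3 := Finset.card_le_three
    omega
  have s1 : ∀ a, ∃ g ∈ H, g a = p := by
    intro a
    by_cases hap : a = p
    · exact ⟨1, H.one_mem, by simp [hap]⟩
    by_cases haq : a = q
    · obtain ⟨i, hip, hiq⟩ := s0
      refine ⟨(cyc p q i)⁻¹, H.inv_mem (hH i hip hiq), ?_⟩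
      rw [haq, inv_eq_iff_eq, cyc_a hpq hip.symm]
    · exact ⟨cyc p q a, hH a hap haq, cyc_c⟩
  have s2 : ∀ b, b ≠ p → ∃ g ∈ H, g p = p ∧ g b = q := by
    intro b hbp
    by_cases hbq : b = q
    · exact ⟨1, H.one_mem, by simp, by simp [hbq]⟩
    obtain ⟨i, hip, hiq, hib⟩ := s0' b
    have hmem : cyc q b i ∈ H := by
      have h1 := H.mul_mem (H.mul_mem (hH b hbp hbq) (hH i hip hiq)) (H.inv_mem (hH b hbp hbq))
      rw [conj_cyc, cyc_a hpq hbp.symm, cyc_b hbp.symm (Ne.symm hbq), cyc_o hip hiq hib] at h1
      exact h1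
    refine ⟨(cyc q b i)⁻¹, H.inv_mem hmem, ?_, ?_⟩
    · rw [inv_eq_iff_eq, cyc_o hpq hbp.symm hip.symm]
    · rw [inv_eq_iff_eq, cyc_a (Ne.symm hbq) hiq.symm]
  obtain ⟨a, ha⟩ : ∃ a, σ a ≠ a := by
    by_contra hcon
    push Not at hcon
    exact hσ.ne_one (Equiv.ext hcon)
  obtain ⟨g1, hg1, hg1a⟩ := s1 a
  have hb : g1 (σ a) ≠ p := by
    intro h
    rw [← hg1a] at h
    exact ha (g1.injective h)
  obtain ⟨g2, hg2, hg2p, hg2b⟩ := s2 _ hb
  have hg : g2 * g1 ∈ H := H.mul_mem hg2 hg1
  have e1 : (g2 * g1) a = p := by simp [hg1a, hg2p]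
  have e2 : (g2 * g1) (σ a) = q := by simpa using hg2b
  have e3 : (g2 * g1) (σ (σ a)) ≠ p := by
    rw [← e1]
    intro h
    exact dd_ne hσ ha ((g2 * g1).injective h)
  have e4 : (g2 * g1) (σ (σ a)) ≠ q := by
    rw [← e2]
    intro h
    exact ha (σ.injective ((g2 * g1).injective h))
  have key : (g2 * g1) * σ * (g2 * g1)⁻¹ ∈ H := by
    rw [eq_cyc hσ ha, conj_cyc, e1, e2]
    exact hH _ e3 e4
  have := H.mul_mem (H.mul_mem (H.inv_mem hg) key) hg
  have e5 : (g2 * g1)⁻¹ * ((g2 * g1) * σ * (g2 * g1)⁻¹) * (g2 * g1) = σ := by group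
  rwa [e5] at this

/-- A numerical inequality for centralizer orders. -/
theorem num (m r : ℕ) (hr : 1 ≤ r) (h : ¬ (m = 0 ∧ r = 1)) :
    2 * (m ! * 3 ^ (r + 1) * (r + 1)!) < 3 * (m + 3 * r)! := by
  have step : ∀ r, 1 ≤ r → 2 * (m ! * 3 ^ (r + 1) * (r + 1)!) < 3 * (m + 3 * r)! →
      2 * (m ! * 3 ^ (r + 1 + 1) * (r + 1 + 1)!) < 3 * (m + 3 * (r + 1))! := by
    intro r hr ih
    have e1 : (m + 3 * (r + 1))! =
        (m + 3 * r + 3) * ((m + 3 * r + 2) * ((m + 3 * r + 1) * (m + 3 * r)!)) := by
      rw [show m + 3 * (r + 1) = m + 3 * r + 2 + 1 by ring, Nat.factorial_succ,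
        Nat.factorial_succ, Nat.factorial_succ]
    have e2 : 2 * (m ! * 3 ^ (r + 1 + 1) * (r + 1 + 1)!) =
        (3 * (r + 2)) * (2 * (m ! * 3 ^ (r + 1) * (r + 1)!)) := by
      rw [Nat.factorial_succ (r + 1), pow_succ]
      ring
    rw [e1, e2]
    calc (3 * (r + 2)) * (2 * (m ! * 3 ^ (r + 1) * (r + 1)!))
        < (3 * (r + 2)) * (3 * (m + 3 * r)!) := by
          apply Nat.mul_lt_mul_of_pos_left ih
          positivity
      _ ≤ 3 * ((m + 3 * r + 3) * ((m + 3 * r + 2) * ((m + 3 * r + 1) * (m + 3 * r)!))) := by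
          have hc : 3 * (r + 2) ≤ (m + 3 * r + 3) * ((m + 3 * r + 2) * (m + 3 * r + 1)) := by
            have h1 : 3 * r + 3 ≤ m + 3 * r + 3 := by omega
            have h2 : 2 * 1 ≤ (m + 3 * r + 2) * (m + 3 * r + 1) :=
              Nat.mul_le_mul (by omega) (by omega)
            have := Nat.mul_le_mul h1 h2
            omega
          have := Nat.mul_le_mul_right (3 * (m + 3 * r)!) hc
          calc (3 * (r + 2)) * (3 * (m + 3 * r)!)
              ≤ (m + 3 * r + 3) * ((m + 3 * r + 2) * (m + 3 * r + 1)) * (3 * (m + 3 * r)!) := this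
            _ = _ := by ring
  by_cases hm : m = 0
  · have hr2 : 2 ≤ r := by
      by_contra hcon
      exact h ⟨hm, by omega⟩
    induction r, hr2 using Nat.le_induction with
    | base => subst hm; decide
    | succ r hr2 ih => exact step r (by omega) (ih (by omega) (by omega))
  · clear h
    induction r, hr using Nat.le_induction with
    | base =>
      have e1 : (m + 3 * 1)! = (m + 3) * ((m + 2) * ((m + 1) * m !)) := by
        rw [show m + 3 * 1 = m + 2 + 1 by ring, Nat.factorial_succ, Nat.factorial_succ,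
          Nat.factorial_succ]
      rw [e1]
      have hpos : 0 < m ! := Nat.factorial_pos m
      have h1 : 12 < (m + 3) * ((m + 2) * (m + 1)) := by
        have h1 : 4 ≤ m + 3 := by omega
        have h2 : 3 * 2 ≤ (m + 2) * (m + 1) := Nat.mul_le_mul (by omega) (by omega)
        have := Nat.mul_le_mul h1 h2
        omega
      have := Nat.mul_lt_mul_of_pos_right h1 hpos
      have e3 : (1 + 1)! = 2 := rfl
      rw [e3]
      calc 2 * (m ! * 3 ^ (1 + 1) * 2) = 3 * (12 * m !) := by ring
        _ < 3 * ((m + 3) * ((m + 2) * (m + 1)) * m !) := by omega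
        _ = _ := by ring
    | succ r hr ih => exact step r hr ih

theorem card_centralizer_three {σ : Perm α} (hσ : σ.IsThreeCycle) :
    Nat.card (Subgroup.centralizer {σ}) = 3 * (Fintype.card α - 3)! := by
  rw [nat_card_centralizer, hσ.cycleType]
  simp
  ring

theorem card_centralizer_rep {σ : Perm α} {t : ℕ} (hσ : σ.cycleType = Multiset.replicate (t + 1) 3) :
    Nat.card (Subgroup.centralizer {σ}) =
      (Fintype.card α - 3 * (t + 1))! * 3 ^ (t + 1) * (t + 1)! := by
  rw [nat_card_centralizer, hσ]
  have h : (Multiset.replicate (t + 1) 3).toFinset = {3} := by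
    ext x
    rw [Multiset.mem_toFinset, Multiset.mem_replicate]
    simp
  rw [h, Finset.prod_singleton, Multiset.count_replicate_self, Multiset.sum_replicate,
    Multiset.prod_replicate, smul_eq_mul, mul_comm (t + 1) 3]

/-- An automorphism of the alternating group preserves 3-cycles (degree at least five, not six). -/
theorem map_three (h6 : Fintype.card α ≠ 6)
    (F : alternatingGroup α ≃* alternatingGroup α) {σ : alternatingGroup α}
    (hσ : (σ : Perm α).IsThreeCycle) : (F σ : Perm α).IsThreeCycle := by
  classical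
  have hord : orderOf (F σ : Perm α) = 3 := by
    rw [Subgroup.orderOf_coe, MulEquiv.orderOf_eq, ← Subgroup.orderOf_coe, hσ.orderOf]
  obtain ⟨t, ht⟩ := cycleType_prime_order (σ := (F σ : Perm α)) (by rw [hord]; exact Nat.prime_three)
  rw [hord] at ht
  have hle : 3 * (t + 1) ≤ Fintype.card α := by
    have := (F σ : Perm α).sum_cycleType
    have h2 := Finset.card_le_univ (F σ : Perm α).support
    rw [← this, ht, Multiset.sum_replicate, smul_eq_mul] at h2
    omega
  by_cases ht0 : t = 0
  · rw [ht0] at ht
    exact ht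
  exfalso
  -- centralizers in the alternating group
  have c1 : Nat.card (Subgroup.centralizer {σ}) = Nat.card (Subgroup.centralizer {F σ}) := by
    refine Nat.card_congr (F.toEquiv.subtypeEquiv fun a => ?_)
    rw [Subgroup.mem_centralizer_singleton_iff, Subgroup.mem_centralizer_singleton_iff]
    constructor
    · intro h
      have := congrArg F h
      simpa using this
    · intro h
      apply F.injective
      simpa using h
  have c2 : Nat.card (Subgroup.centralizer {F σ}) ≤
      Nat.card (Subgroup.centralizer {(F σ : Perm α)}) := by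
    refine Nat.card_le_card_of_injective
      (fun a => (⟨(a.1 : Perm α), ?_⟩ : Subgroup.centralizer {(F σ : Perm α)})) ?_
    · have := a.2
      rw [Subgroup.mem_centralizer_singleton_iff] at this ⊢
      have h := congrArg (fun g : alternatingGroup α => (g : Perm α)) this
      simpa using h
    · intro a b hab
      simpa using hab
  have c3 : Nat.card (Subgroup.centralizer {(σ : Perm α)}) ≤
      2 * Nat.card (Subgroup.centralizer {σ}) := by
    have h1 := Subgroup.card_mul_index
      ((alternatingGroup α).subgroupOf (Subgroup.centralizer {(σ : Perm α)}))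
    have h2 : ((alternatingGroup α).subgroupOf (Subgroup.centralizer {(σ : Perm α)})).index ≤ 2 := by
      have h3 : (alternatingGroup α).index ≤ 2 := by
        by_cases hn : Nontrivial α
        · rw [alternatingGroup.index_eq_two]
        · rw [not_nontrivial_iff_subsingleton] at hn
          rw [alternatingGroup.index_eq_one]
          norm_num
      have h4 : (alternatingGroup α).relIndex (Subgroup.centralizer {(σ : Perm α)}) ≤
          (alternatingGroup α).index := by
        rw [← Subgroup.relIndex_top_right]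
        exact Subgroup.relIndex_le_of_le_right le_top
          (by rw [Subgroup.relIndex_top_right]; exact Subgroup.FiniteIndex.index_ne_zero)
      exact h4.trans h3
    have h5 : Nat.card ((alternatingGroup α).subgroupOf (Subgroup.centralizer {(σ : Perm α)})) ≤
        Nat.card (Subgroup.centralizer {σ}) := by
      refine Nat.card_le_card_of_injective
        (fun a => (⟨⟨(a.1 : Perm α), Subgroup.mem_subgroupOf.mp a.2⟩, ?_⟩ :
          Subgroup.centralizer {σ})) ?_
      · have := a.1.2
        rw [Subgroup.mem_centralizer_singleton_iff] at this ⊢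
        exact Subtype.ext this
      · intro a b hab
        have h6 := congrArg
          (fun z : Subgroup.centralizer {σ} => ((z : alternatingGroup α) : Perm α)) hab
        exact Subtype.ext (Subtype.ext h6)
    rw [← h1, mul_comm]
    exact Nat.mul_le_mul h2 h5
  rw [card_centralizer_three hσ, c1] at c3
  rw [card_centralizer_rep ht] at c2
  obtain ⟨m, hm⟩ := Nat.exists_eq_add_of_le hle
  have hnum := num m t (by omega) (by rintro ⟨h1, h2⟩; apply h6; rw [hm, h1, h2])
  rw [hm] at c2 c3
  rw [show 3 * (t + 1) + m - 3 * (t + 1) = m by omega] at c2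
  rw [show 3 * (t + 1) + m - 3 = m + 3 * t by omega] at c3
  omega

/-- Automorphisms of alternating groups, general form. -/
theorem aut_eq (h5 : 5 ≤ Fintype.card α) (h6 : Fintype.card α ≠ 6)
    (F : alternatingGroup α ≃* alternatingGroup α) :
    ∃ P : Perm α, ∀ a, (F a : Perm α) = P * a * P⁻¹ := by
  classical
  -- two base points and two further points
  obtain ⟨e⟩ : Nonempty (Fin 4 ↪ α) := by
    apply Function.Embedding.nonempty_of_card_le
    rw [Fintype.card_fin]
    omega
  set p := e 0
  set q := e 1
  have hpq : p ≠ q := fun h => by simpa using e.injective h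
  let ι := {i : α // i ≠ p ∧ i ≠ q}
  let i0 : ι := ⟨e 2, fun h => by simpa using e.injective h, fun h => by simpa using e.injective h⟩
  let j0 : ι := ⟨e 3, fun h => by simpa using e.injective h, fun h => by simpa using e.injective h⟩
  have hij : i0 ≠ j0 := by
    intro h
    have := e.injective (congrArg Subtype.val h)
    simp at this
  have hthree : ∀ i : ι, (cyc p q i.1).IsThreeCycle := fun i =>
    cyc_three hpq i.2.1.symm i.2.2.symm
  let c : ι → alternatingGroup α := fun i => ⟨cyc p q i.1, (hthree i).mem_alternatingGroup⟩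
  let D : ι → Perm α := fun i => (F (c i) : Perm α)
  have hD : ∀ i, (D i).IsThreeCycle := fun i => map_three h6 F (hthree i)
  have hcinj : Function.Injective c := by
    intro i j h
    have h1 : cyc p q i.1 = cyc p q j.1 := congrArg Subtype.val h
    have h2 : cyc p q i.1 q = cyc p q j.1 q := by rw [h1]
    rw [cyc_b i.2.1.symm i.2.2.symm, cyc_b j.2.1.symm j.2.2.symm] at h2
    exact Subtype.ext h2
  have hrel : ∀ i j, i ≠ j →
      ∃ x, D i x ≠ x ∧ D j x = D i x ∧ D i (D i x) ≠ D j (D i x) := by
    intro i j hne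
    have hne' : i.1 ≠ j.1 := fun h => hne (Subtype.ext h)
    apply rel (hD i) (hD j)
    · have h1 : (c i * c j) * (c i * c j) = 1 := by
        apply Subtype.ext
        ext x
        change (cyc p q i.1 (cyc p q j.1 (cyc p q i.1 (cyc p q j.1 x)))) = x
        have a1 := cyc_a hpq (Ne.symm i.2.1)
        have a2 := cyc_a hpq (Ne.symm j.2.1)
        have b1 := cyc_b (Ne.symm i.2.1) (Ne.symm i.2.2)
        have b2 := cyc_b (Ne.symm j.2.1) (Ne.symm j.2.2)
        have c1 := cyc_c (a := p) (b := q) (c := i.1)
        have c2 := cyc_c (a := p) (b := q) (c := j.1)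
        have d1 := cyc_o i.2.1 i.2.2 hne'
        have d2 := cyc_o j.2.1 j.2.2 hne'.symm
        by_cases x1 : x = p
        · rw [x1, a2, b1, d1, c1]
        by_cases x2 : x = q
        · rw [x2, b2, d2, c2, a1]
        by_cases x3 : x = i.1
        · rw [x3, d1, c1, a2, b1]
        by_cases x4 : x = j.1
        · rw [x4, c2, a1, b2, d2]
        · rw [cyc_o x1 x2 x4, cyc_o x1 x2 x3, cyc_o x1 x2 x4, cyc_o x1 x2 x3]
      have h2 := congrArg F h1
      rw [map_mul, map_mul, map_one] at h2
      exact congrArg Subtype.val h2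
    · intro h
      have h1 : F (c i * c j) = F 1 := by
        rw [map_mul, map_one]
        exact Subtype.ext h
      have h2 : c i * c j = 1 := F.injective h1
      have h3 : cyc p q i.1 (cyc p q j.1 p) = p := by
        have := congrArg (fun g : alternatingGroup α => (g : Perm α) p) h2
        exact this
      rw [cyc_a hpq (Ne.symm j.2.1), cyc_b (Ne.symm i.2.1) (Ne.symm i.2.2)] at h3
      exact i.2.1 h3
  obtain ⟨x, y, hxy, hcom⟩ := common_edge D hD hrel hij
  have hmx : ∀ i, D i x ≠ x := fun i => by rw [hcom]; exact hxy.symm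
  have hDeq : ∀ i, D i = cyc x y (D i y) := by
    intro i
    have := eq_cyc (hD i) (hmx i)
    rwa [hcom i] at this
  have hyx : ∀ i, D i y ≠ x := by
    intro i
    have := dd_ne (hD i) (hmx i)
    rwa [hcom i] at this
  have hyy : ∀ i, D i y ≠ y := by
    intro i h
    apply hxy
    apply (D i).injective
    rw [hcom i, h]
  have hinj : ∀ i j, D i y = D j y → i = j := by
    intro i j h
    have h1 : D i = D j := by rw [hDeq i, hDeq j, h]
    exact hcinj (F.injective (Subtype.ext h1))
  let f : α → α := fun a => if ha : a ≠ p ∧ a ≠ q then D ⟨a, ha⟩ y else if a = p then x else y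
  have fp : f p = x := by simp [f]
  have fq : f q = y := by simp [f, hpq.symm]
  have fi : ∀ i : ι, f i.1 = D i y := by
    intro i
    have : i.1 ≠ p ∧ i.1 ≠ q := i.2
    simp only [f]
    rw [dif_pos this]
  have finj : Function.Injective f := by
    intro a b hab
    by_cases ha : a ≠ p ∧ a ≠ q
    · by_cases hb : b ≠ p ∧ b ≠ q
      · have h1 := fi ⟨a, ha⟩
        have h2 := fi ⟨b, hb⟩
        have h3 := hinj ⟨a, ha⟩ ⟨b, hb⟩ (by rw [← h1, ← h2]; exact hab)
        exact congrArg Subtype.val h3
      · exfalso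
        have h1 := fi ⟨a, ha⟩
        by_cases hbp : b = p
        · rw [hbp, fp] at hab
          exact hyx ⟨a, ha⟩ (by rw [← h1]; exact hab)
        · have hbq : b = q := by
            by_contra hc
            exact hb ⟨hbp, hc⟩
          rw [hbq, fq] at hab
          exact hyy ⟨a, ha⟩ (by rw [← h1]; exact hab)
    · by_cases hb : b ≠ p ∧ b ≠ q
      · exfalso
        have h1 := fi ⟨b, hb⟩
        by_cases hap : a = p
        · rw [hap, fp] at hab
          exact hyx ⟨b, hb⟩ (by rw [← h1]; exact hab.symm)
        · have haq : a = q := by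
            by_contra hc
            exact ha ⟨hap, hc⟩
          rw [haq, fq] at hab
          exact hyy ⟨b, hb⟩ (by rw [← h1]; exact hab.symm)
      · have ha' : a = p ∨ a = q := by
          by_contra hc
          push Not at hc
          exact ha hc
        have hb' : b = p ∨ b = q := by
          by_contra hc
          push Not at hc
          exact hb hc
        rcases ha' with ha' | ha' <;> rcases hb' with hb' | hb' <;> rw [ha', hb'] at hab ⊢
        · rw [fp, fq] at hab
          exact absurd hab hxy
        · rw [fp, fq] at hab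
          exact absurd hab.symm hxy
  let P : Perm α := Equiv.ofBijective f (Finite.injective_iff_bijective.mp finj)
  have hP : ∀ a, P a = f a := fun a => rfl
  refine ⟨P, ?_⟩
  -- the subgroup on which the two homomorphisms agree
  let T : Subgroup (alternatingGroup α) :=
    MonoidHom.eqLocus ((alternatingGroup α).subtype.comp F.toMonoidHom)
      ((MulAut.conj P).toMonoidHom.comp (alternatingGroup α).subtype)
  have hT : ∀ a, a ∈ T ↔ (F a : Perm α) = P * a * P⁻¹ := fun a => Iff.rfl
  have hcT : ∀ i : ι, c i ∈ T := by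
    intro i
    rw [hT]
    change D i = P * cyc p q i.1 * P⁻¹
    rw [conj_cyc, hP, hP, hP, fp, fq, fi, ← hDeq]
  have htop : T = ⊤ := by
    rw [eq_top_iff, ← alternatingGroup.closure_isThreeCycles_eq_top, Subgroup.closure_le]
    intro g hg
    have hg' : (g : Perm α).IsThreeCycle := hg
    have hmem : (g : Perm α) ∈ T.map (alternatingGroup α).subtype := by
      apply mem_of_cyc hpq (by omega) _ _ hg'
      intro i hip hiq
      exact ⟨c ⟨i, hip, hiq⟩, hcT _, rfl⟩
    obtain ⟨g', hg'T, hgg⟩ := hmem
    have : g' = g := Subtype.ext hgg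
    rwa [← this]
  intro a
  rw [← hT, htop]
  exact Subgroup.mem_top a

end Pool.Agent.Lib.MP_12adaf_nt.NS.AutAlt
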