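import Pool.Agent.Lib.MP_12adaf_ntNS.N0
import Pool.Agent.Lib.MP_12adaf_ntNS.N1a

/-!
# Automorphisms of alternating groups
-/

namespace Pool.Agent.Lib.MP_12adaf_nt.NS

open Equiv

/-- **Automorphisms of `Aₙ`, `n ≥ 5`, `n ≠ 6`, are conjugations by permutations.**
Proof: `φ` maps the conjugacy class of the 3-cycles of `Aₙ` (a single class with
`n (n - 1) (n - 2) / 3` elements, `n ≥ 5`) to a conjugacy class of elements of order 3, of cycle type
`3 ^ t`; for `t ≥ 2` this class is not split in `Aₙ` and has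
`n! / ((n - 3 t)! 3 ^ t t!)` elements, which is different (for `t = 2` the ratio is
`(n - 3) (n - 4) (n - 5) / 6 ≠ 1` as `n ≠ 6`; for `t ≥ 3` it is `> 1`).  So `φ` maps 3-cycles to
3-cycles.  Two 3-cycles `(1 2 i)`, `(1 2 j)` have a product of order 2, and two 3-cycles with a
product of order 2 share exactly two points, in the same cyclic direction; so the images of
`(1 2 i)`, `i ≥ 3`, are `(x y z_i)` with the same `x, y` and different `z_i`
(`n ≥ 5`; check triples), which defines the permutation `π`; the `(1 2 i)` generate `Aₙ`.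
(`Equiv.Perm.closure_three_cycles_eq_alternating`, `Equiv.Perm.card_of_cycleType`,
`AlternatingGroup.card_of_cycleType` may help.) -/
theorem aut_alternating {n : ℕ} (hn : 5 ≤ n) (hn6 : n ≠ 6)
    (φ : alternatingGroup (Fin n) ≃* alternatingGroup (Fin n)) :
    ∃ π : Perm (Fin n), ∀ a, (φ a : Perm (Fin n)) = π * a * π⁻¹ :=
  AutAlt.aut_eq (by rw [Fintype.card_fin]; exact hn) (by rw [Fintype.card_fin]; exact hn6) φ

/-- The centralizer of `Aₙ` in `Sₙ` is trivial (`n ≥ 4`). -/
theorem centralizer_alternating {n : ℕ} (hn : 4 ≤ n) (π : Perm (Fin n))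
    (h : ∀ a : alternatingGroup (Fin n), π * a = a * π) : π = 1 := by
  by_contra hne
  obtain ⟨x, hx⟩ : ∃ x, π x ≠ x := by
    by_contra hcon
    push Not at hcon
    exact hne (Equiv.ext hcon)
  have hex : ∀ s : Finset (Fin n), s.card ≤ 3 → ∃ z, z ∉ s := by
    intro s hs
    by_contra hcon
    push Not at hcon
    have h1 : (Finset.univ : Finset (Fin n)) ⊆ s := fun z _ => hcon z
    have h2 := Finset.card_le_card h1
    rw [Finset.card_univ, Fintype.card_fin] at h2
    omega
  obtain ⟨z, hz⟩ := hex {x, π x} (le_trans Finset.card_le_two (by norm_num))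
  obtain ⟨w, hw⟩ := hex {x, π x, z} Finset.card_le_three
  simp only [Finset.mem_insert, Finset.mem_singleton, not_or] at hz hw
  have ha : (AutAlt.cyc (π x) z w).IsThreeCycle :=
    AutAlt.cyc_three (Ne.symm hz.2) (Ne.symm hw.2.1) (Ne.symm hw.2.2)
  have h1 := h ⟨AutAlt.cyc (π x) z w, ha.mem_alternatingGroup⟩
  have h2 := congrArg (fun g : Perm (Fin n) => g x) h1
  have h3 : π (AutAlt.cyc (π x) z w x) = AutAlt.cyc (π x) z w (π x) := h2
  rw [AutAlt.cyc_o (Ne.symm hx) (Ne.symm hz.1) (Ne.symm hw.1),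
    AutAlt.cyc_a (Ne.symm hz.2) (Ne.symm hw.2.1)] at h3
  exact hz.2 h3.symm

end Pool.Agent.Lib.MP_12adaf_nt.NS
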