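import Pool.Agent.Lib.MP_12adaf_ntNS.N0

/-!
# Normal subgroups which are powers of a simple group: the cocycle
-/

namespace Pool.Agent.Lib.MP_12adaf_nt.NS

private theorem coc_conj_mulSingle {S : Type*} [Group S] {r : ℕ} (x : Fin r → S) (b : Fin r)
    (s : S) : x * Pi.mulSingle b s * x⁻¹ = Pi.mulSingle b (x b * s * (x b)⁻¹) := by
  funext i
  by_cases h : i = b
  · subst h
    simp
  · simp [h]

private theorem coc_center {S : Type*} [Group S] [IsSimpleGroup S]
    (hnc : ∃ a b : S, a * b ≠ b * a) (v : S) (hv : ∀ u, v * u = u * v) : v = 1 := by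
  have hn : (Subgroup.center S).Normal := inferInstance
  rcases hn.eq_bot_or_eq_top with h | h
  · have h1 : v ∈ Subgroup.center S := Subgroup.mem_center_iff.2 fun g => (hv g).symm
    rw [h] at h1
    exact Subgroup.mem_bot.1 h1
  · obtain ⟨x, y, hxy⟩ := hnc
    have h1 : y ∈ Subgroup.center S := by rw [h]; trivial
    exact absurd (Subgroup.mem_center_iff.1 h1 x) hxy

/-- An automorphism of `S ^ r` maps every factor into a factor. -/
private theorem coc_exists_index {S : Type*} [Group S] [IsSimpleGroup S]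
    (hnc : ∃ a b : S, a * b ≠ b * a) {r : ℕ} (α : (Fin r → S) ≃* (Fin r → S)) (b : Fin r) :
    ∃ c : Fin r, ∀ s : S, ∃ s' : S, α (Pi.mulSingle b s) = Pi.mulSingle c s' := by
  classical
  let f : S →* (Fin r → S) := α.toMonoidHom.comp (MonoidHom.mulSingle (fun _ => S) b)
  have hf : ∀ s, f s = α (Pi.mulSingle b s) := fun s => rfl
  obtain ⟨s0, hs0⟩ := exists_ne (1 : S)
  have h1 : f s0 ≠ 1 := by
    intro h
    apply hs0
    have h2 : α (Pi.mulSingle b s0) = α 1 := by rw [map_one]; exact h
    have h3 := congrFun (α.injective h2) b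
    simpa using h3
  obtain ⟨c, hc⟩ : ∃ c, f s0 c ≠ 1 := by
    by_contra hcon
    push Not at hcon
    exact h1 (funext hcon)
  refine ⟨c, ?_⟩
  let R : Subgroup (Fin r → S) := (MonoidHom.mulSingle (fun _ : Fin r => S) c).range
  have hR : R.Normal := by
    refine ⟨?_⟩
    rintro _ ⟨u, rfl⟩ g
    exact ⟨g c * u * (g c)⁻¹, (coc_conj_mulSingle g c u).symm⟩
  have hK : (R.comap f).Normal := hR.comap f
  rcases hK.eq_bot_or_eq_top with h | h
  · exfalso
    apply hc
    apply coc_center hnc
    intro u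
    have hx : α (α.symm (Pi.mulSingle c u)) = Pi.mulSingle c u := α.apply_symm_apply _
    have h2 : Pi.mulSingle c u * f s0 * (Pi.mulSingle c u)⁻¹ =
        f ((α.symm (Pi.mulSingle c u)) b * s0 * ((α.symm (Pi.mulSingle c u)) b)⁻¹) := by
      rw [hf, hf, ← coc_conj_mulSingle, map_mul, map_mul, map_inv, hx]
    set t : S := (α.symm (Pi.mulSingle c u)) b * s0 * ((α.symm (Pi.mulSingle c u)) b)⁻¹ with ht
    have h3 : t * s0⁻¹ ∈ R.comap f := by
      rw [Subgroup.mem_comap, map_mul, map_inv, ← h2]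
      refine ⟨u * (f s0 c * u⁻¹ * (f s0 c)⁻¹), ?_⟩
      rw [map_mul]
      show (Pi.mulSingle c u : Fin r → S) * Pi.mulSingle c (f s0 c * u⁻¹ * (f s0 c)⁻¹) = _
      rw [← coc_conj_mulSingle, Pi.mulSingle_inv]
      group
    rw [h, Subgroup.mem_bot, mul_inv_eq_one] at h3
    rw [h3, mul_inv_eq_iff_eq_mul] at h2
    have h4 := congrFun h2 c
    simp only [Pi.mul_apply, Pi.mulSingle_eq_same] at h4
    exact h4.symm
  · intro s
    have h2 : s ∈ R.comap f := by rw [h]; trivial
    obtain ⟨s', hs'⟩ := h2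
    exact ⟨s', hs'.symm⟩

private theorem coc_mulSingle_eq {S : Type*} [Group S] {r : ℕ} {c c' : Fin r} {s s' : S}
    (hs : s ≠ 1) (h : (Pi.mulSingle c s : Fin r → S) = Pi.mulSingle c' s') : c = c' := by
  by_contra hne
  have h1 := congrFun h c
  rw [Pi.mulSingle_eq_same, Pi.mulSingle_eq_of_ne hne] at h1
  exact hs h1

/-- The automorphism `α` of `S ^ r` maps the factor `b` to the factor `c` and acts there as
conjugation by `w`. -/
private def CocQ {S W : Type*} [Group S] [Group W] (j : S →* W) {r : ℕ}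
    (α : (Fin r → S) ≃* (Fin r → S)) (b c : Fin r) (w : W) : Prop :=
  ∀ s : S, ∃ s' : S, α (Pi.mulSingle b s) = Pi.mulSingle c s' ∧ j s' = w * j s * w⁻¹

private theorem cocQ_exists {S : Type*} [Group S] [IsSimpleGroup S]
    (hnc : ∃ a b : S, a * b ≠ b * a) {W : Type*} [Group W] (j : S →* W)
    (haut : ∀ φ : S ≃* S, ∃ w : W, ∀ s, j (φ s) = w * j s * w⁻¹)
    {r : ℕ} (α : (Fin r → S) ≃* (Fin r → S)) (b : Fin r) :
    ∃ (c : Fin r) (w : W), CocQ j α b c w := by
  obtain ⟨c, hc⟩ := coc_exists_index hnc α b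
  obtain ⟨b', hb'⟩ := coc_exists_index hnc α.symm c
  obtain ⟨s0, hs0⟩ := exists_ne (1 : S)
  have hbb : b = b' := by
    obtain ⟨s', hs'⟩ := hc s0
    obtain ⟨s'', hs''⟩ := hb' s'
    rw [← hs', α.symm_apply_apply] at hs''
    exact coc_mulSingle_eq hs0 hs''
  subst hbb
  choose φ hφ using hc
  choose ψ hψ using hb'
  have hinj : Function.Injective (fun s : S => (Pi.mulSingle c s : Fin r → S)) :=
    Pi.mulSingle_injective (M := fun _ : Fin r => S) c
  have hinj' : Function.Injective (fun s : S => (Pi.mulSingle b s : Fin r → S)) :=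
    Pi.mulSingle_injective (M := fun _ : Fin r => S) b
  let Φ : S ≃* S :=
    { toFun := φ
      invFun := ψ
      left_inv := by
        intro s
        apply hinj'
        show (Pi.mulSingle b (ψ (φ s)) : Fin r → S) = Pi.mulSingle b s
        rw [← hψ, ← hφ, α.symm_apply_apply]
      right_inv := by
        intro s
        apply hinj
        show (Pi.mulSingle c (φ (ψ s)) : Fin r → S) = Pi.mulSingle c s
        rw [← hφ, ← hψ, α.apply_symm_apply]
      map_mul' := by
        intro s t
        apply hinj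
        show (Pi.mulSingle c (φ (s * t)) : Fin r → S) = Pi.mulSingle c (φ s * φ t)
        rw [Pi.mulSingle_mul, ← hφ, ← hφ, ← hφ, ← map_mul, Pi.mulSingle_mul] }
  obtain ⟨w, hw⟩ := haut Φ
  exact ⟨c, w, fun s => ⟨φ s, hφ s, hw s⟩⟩

private theorem cocQ_unique {S : Type*} [Group S] [IsSimpleGroup S]
    {W : Type*} [Group W] {j : S →* W}
    (hcent : ∀ w : W, (∀ s, w * j s = j s * w) → w = 1)
    {r : ℕ} {α : (Fin r → S) ≃* (Fin r → S)} {b c c' : Fin r} {w w' : W}
    (h : CocQ j α b c w) (h' : CocQ j α b c' w') : c = c' ∧ w = w' := by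
  have hcc : c = c' := by
    obtain ⟨s0, hs0⟩ := exists_ne (1 : S)
    obtain ⟨t, ht, -⟩ := h s0
    obtain ⟨t', ht', -⟩ := h' s0
    refine coc_mulSingle_eq (s := t) (s' := t') ?_ (ht.symm.trans ht')
    rintro rfl
    rw [Pi.mulSingle_one] at ht
    have h3 := congrFun (α.injective (ht.trans (map_one α).symm)) b
    apply hs0
    simpa using h3
  subst hcc
  refine ⟨rfl, ?_⟩
  have h1 : w⁻¹ * w' = 1 := by
    apply hcent
    intro s
    obtain ⟨t, ht, htw⟩ := h s
    obtain ⟨t', ht', htw'⟩ := h' s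
    have htt : t = t' := Pi.mulSingle_injective (M := fun _ : Fin r => S) c (ht.symm.trans ht')
    subst htt
    have h2 : w * j s * w⁻¹ = w' * j s * w'⁻¹ := htw.symm.trans htw'
    calc w⁻¹ * w' * j s = w⁻¹ * (w' * j s * w'⁻¹) * w' := by group
      _ = w⁻¹ * (w * j s * w⁻¹) * w' := by rw [h2]
      _ = j s * (w⁻¹ * w') := by group
  exact (inv_mul_eq_one.1 h1)

private theorem cocQ_comp {S W : Type*} [Group S] [Group W] {j : S →* W} {r : ℕ}
    {α β : (Fin r → S) ≃* (Fin r → S)} {b c d : Fin r} {v w : W}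
    (hβ : CocQ j β c d v) (hα : CocQ j α b c w) : CocQ j (α.trans β) b d (v * w) := by
  intro s
  obtain ⟨t, ht, htw⟩ := hα s
  obtain ⟨u, hu, huv⟩ := hβ t
  refine ⟨u, ?_, ?_⟩
  · rw [MulEquiv.trans_apply, ht, hu]
  · rw [huv, htw]
    group

/-- **The cocycle.**  Let `N` be a normal subgroup of `G` isomorphic to `S ^ r`, `S` nonabelian
simple, and let `S` be contained, through `j`, in a group `W` which induces all automorphisms of
`S` and in which `S` has trivial centralizer.  Then `G` acts on the set of the `r` factors and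
there is a cocycle `κ` with values in `W` which extends `j` on `N`.
Proof: let `S_b ≤ N` be the factors (`Pi.mulSingle`).  A nontrivial normal subgroup of `S ^ r`
contains some `S_b` (commutators) and a simple one is one of them; conjugation by `g` maps the
normal simple subgroup `S_b` of `N` to a normal simple subgroup of `N`, so `g S_b g⁻¹ = S_{g b}`;
this is an action.  In terms of `e`: `e (g (e⁻¹ (single b s)) g⁻¹) = single (g b) (φ_{g,b} s)` with
an automorphism `φ_{g,b}` of `S`; `κ g b` is the unique `w : W` with `j (φ_{g,b} s) = w j(s) w⁻¹`.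
Uniqueness gives the cocycle identity and the value on `N`. -/
theorem exists_cocycle {S : Type*} [Group S] [IsSimpleGroup S] (hnc : ∃ a b : S, a * b ≠ b * a)
    {W : Type*} [Group W] (j : S →* W) (hj : Function.Injective j)
    (haut : ∀ φ : S ≃* S, ∃ w : W, ∀ s, j (φ s) = w * j s * w⁻¹)
    (hcent : ∀ w : W, (∀ s, w * j s = j s * w) → w = 1)
    {G : Type*} [Group G] (N : Subgroup G) [N.Normal] {r : ℕ} (e : N ≃* (Fin r → S)) :
    ∃ (_ : MulAction G (Fin r)) (κ : G → Fin r → W),
      (∀ g h b, κ (g * h) b = κ g (h • b) * κ h b) ∧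
      ∀ (ν : N) (b : Fin r), (ν : G) • b = b ∧ κ ν b = j (e ν b) := by
  have _ := hj
  let α : G → ((Fin r → S) ≃* (Fin r → S)) := fun g =>
    e.symm.trans ((MulAut.conjNormal g : MulAut N).trans e)
  have hα : ∀ g x, α g x = e (MulAut.conjNormal g (e.symm x)) := fun g x => rfl
  have hmul : ∀ g h, α (g * h) = (α h).trans (α g) := by
    intro g h
    refine MulEquiv.ext fun x => ?_
    show α (g * h) x = α g (α h x)
    rw [hα, hα, hα, e.symm_apply_apply, map_mul]
    rfl
  choose σ κ hκ using fun g b => cocQ_exists hnc j haut (α g) b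
  have hN : ∀ (ν : N) (b : Fin r), CocQ j (α ν) b b (j (e ν b)) := by
    intro ν b s
    refine ⟨e ν b * s * (e ν b)⁻¹, ?_, by simp⟩
    rw [← coc_conj_mulSingle, hα]
    have h1 : (MulAut.conjNormal (ν : G) : MulAut N) (e.symm (Pi.mulSingle b s)) =
        ν * e.symm (Pi.mulSingle b s) * ν⁻¹ := by
      apply Subtype.ext
      simp
    rw [h1, map_mul, map_mul, map_inv, e.apply_symm_apply]
  have hone : ∀ b, σ 1 b = b := by
    intro b
    have h1 := hN 1 b
    rw [OneMemClass.coe_one] at h1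
    exact (cocQ_unique hcent (hκ 1 b) h1).1
  have hcomp : ∀ g h b, σ (g * h) b = σ g (σ h b) ∧ κ (g * h) b = κ g (σ h b) * κ h b := by
    intro g h b
    have h1 := cocQ_comp (hκ g (σ h b)) (hκ h b)
    rw [← hmul] at h1
    exact cocQ_unique hcent (hκ (g * h) b) h1
  let act : MulAction G (Fin r) :=
    { smul := σ
      one_smul := hone
      mul_smul := fun g h b => (hcomp g h b).1 }
  refine ⟨act, κ, fun g h b => (hcomp g h b).2, fun ν b => ?_⟩
  exact cocQ_unique hcent (hκ ν b) (hN ν b)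

end Pool.Agent.Lib.MP_12adaf_nt.NS
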