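import Pool.Agent.Lib.MP_12adaf_ntNS.N0

/-!
# Composition factors and minimal normal subgroups
-/

namespace Pool.Agent.Lib.MP_12adaf_nt.NS

universe u

variable {C : (S : Type u) → [Group S] → Prop}

private theorem n3_of_equiv
    (hiso : ∀ (S T : Type u) [Group S] [Group T], (S ≃* T) → C S → C T)
    {H : Type u} [Group H] (h : HasFactors C H) :
    ∀ (H' : Type u) [Group H'], (H ≃* H') → HasFactors C H' := by
  induction h with
  | triv =>
    intro H' _ e
    haveI : Subsingleton H' := e.symm.toEquiv.subsingleton
    exact HasFactors.triv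
  | @ext H _ N hN h1 h2 ih =>
    intro H' _ e
    haveI : (N.map e.toMonoidHom).Normal := hN.map _ e.surjective
    refine HasFactors.ext (N.map e.toMonoidHom) (ih _ (e.subgroupMap N)) ?_
    exact hiso _ _ (QuotientGroup.congr N (N.map e.toMonoidHom) e rfl) h2

/-- `HasFactors` is invariant under isomorphisms. -/
theorem HasFactors.of_equiv
    (hiso : ∀ (S T : Type u) [Group S] [Group T], (S ≃* T) → C S → C T)
    {H H' : Type u} [Group H] [Group H'] (e : H ≃* H') (h : HasFactors C H) :
    HasFactors C H' := n3_of_equiv hiso h H' e

/-- For a normal subgroup `M` of `H`, the quotient `M / (N ∩ M)` is the image of `M` in `H / N`. -/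
private noncomputable def n3_quot {H : Type u} [Group H] (N M : Subgroup H) [N.Normal] :
    (M ⧸ N.subgroupOf M) ≃* M.map (QuotientGroup.mk' N) :=
  (QuotientGroup.quotientMulEquivOfEq (by
    ext x
    simp [Subgroup.mem_subgroupOf, MonoidHom.mem_ker])).trans
    ((QuotientGroup.quotientKerEquivRange ((QuotientGroup.mk' N).comp M.subtype)).trans
      (MulEquiv.subgroupCongr (by rw [MonoidHom.range_comp, Subgroup.range_subtype])))

private def n3_inf {H : Type u} [Group H] (N M : Subgroup H) :
    M.subgroupOf N ≃* N.subgroupOf M where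
  toFun x := ⟨⟨(x : N), x.2⟩, (x : N).2⟩
  invFun x := ⟨⟨(x : M), x.2⟩, (x : M).2⟩
  left_inv x := rfl
  right_inv x := rfl
  map_mul' x y := rfl

private theorem n3_subgroup
    (hiso : ∀ (S T : Type u) [Group S] [Group T], (S ≃* T) → C S → C T)
    (hsimple : ∀ (S : Type u) [Group S], C S → IsSimpleGroup S)
    {H : Type u} [Group H] (h : HasFactors C H) :
    ∀ (M : Subgroup H), M.Normal → HasFactors C M := by
  induction h with
  | triv =>
    intro M _
    exact HasFactors.triv
  | @ext H _ N hN h1 h2 ih =>
    intro M hM
    have h3 : HasFactors C (M.subgroupOf N) := ih (M.subgroupOf N) inferInstance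
    have h4 : HasFactors C (N.subgroupOf M) := HasFactors.of_equiv hiso (n3_inf N M) h3
    haveI := hsimple _ h2
    have hmn : (M.map (QuotientGroup.mk' N)).Normal := hM.map _ (QuotientGroup.mk'_surjective N)
    rcases hmn.eq_bot_or_eq_top with hb | ht
    · have hle : M ≤ N := by
        rw [Subgroup.map_eq_bot_iff, QuotientGroup.ker_mk'] at hb
        exact hb
      have htop : N.subgroupOf M = ⊤ := Subgroup.subgroupOf_eq_top.mpr hle
      exact HasFactors.of_equiv hiso
        ((MulEquiv.subgroupCongr htop).trans Subgroup.topEquiv) h4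
    · refine HasFactors.ext (N.subgroupOf M) h4 ?_
      exact hiso _ _ ((n3_quot N M).trans
        ((MulEquiv.subgroupCongr ht).trans Subgroup.topEquiv)).symm h2

/-- Normal subgroups inherit the composition factors (`N' ∩ N` and `N' / (N' ∩ N)` is isomorphic
to a normal subgroup of the simple group `H / N`). -/
theorem HasFactors.subgroup
    (hiso : ∀ (S T : Type u) [Group S] [Group T], (S ≃* T) → C S → C T)
    (hsimple : ∀ (S : Type u) [Group S], C S → IsSimpleGroup S)
    {H : Type u} [Group H] (h : HasFactors C H) (N : Subgroup H) [N.Normal] :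
    HasFactors C N := n3_subgroup hiso hsimple h N inferInstance

private theorem n3_quotient
    (hiso : ∀ (S T : Type u) [Group S] [Group T], (S ≃* T) → C S → C T)
    (hsimple : ∀ (S : Type u) [Group S], C S → IsSimpleGroup S)
    {H : Type u} [Group H] (h : HasFactors C H) :
    ∀ (M : Subgroup H) [M.Normal], HasFactors C (H ⧸ M) := by
  induction h with
  | triv =>
    intro M _
    exact HasFactors.triv
  | @ext H _ N hN h1 h2 ih =>
    intro M hM
    have h3 : HasFactors C (N ⧸ M.subgroupOf N) := ih (M.subgroupOf N)
    have h4 : HasFactors C (N.map (QuotientGroup.mk' M)) :=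
      HasFactors.of_equiv hiso (n3_quot M N) h3
    haveI := hsimple _ h2
    have hmn : (M.map (QuotientGroup.mk' N)).Normal := hM.map _ (QuotientGroup.mk'_surjective N)
    rcases hmn.eq_bot_or_eq_top with hb | ht
    · have hle : M ≤ N := by
        rw [Subgroup.map_eq_bot_iff, QuotientGroup.ker_mk'] at hb
        exact hb
      haveI : (N.map (QuotientGroup.mk' M)).Normal := hN.map _ (QuotientGroup.mk'_surjective M)
      refine HasFactors.ext (N.map (QuotientGroup.mk' M)) h4 ?_
      exact hiso _ _ (QuotientGroup.quotientQuotientEquivQuotient M N hle).symm h2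
    · have htop : N.map (QuotientGroup.mk' M) = ⊤ := by
        rw [eq_top_iff]
        intro y _
        obtain ⟨x, rfl⟩ := QuotientGroup.mk'_surjective M y
        have hx : (QuotientGroup.mk' N) x ∈ M.map (QuotientGroup.mk' N) := by
          rw [ht]; trivial
        obtain ⟨m, hm, hmx⟩ := hx
        have hmem : m⁻¹ * x ∈ N := by
          rw [← QuotientGroup.eq]
          exact hmx
        refine ⟨x * m⁻¹, ?_, ?_⟩
        · have := hN.conj_mem _ hmem m
          simpa [mul_assoc] using this
        · rw [map_mul, map_inv]
          have : (QuotientGroup.mk' M) m = 1 := by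
            rw [QuotientGroup.mk'_apply, QuotientGroup.eq_one_iff]
            exact hm
          rw [this, inv_one, mul_one]
      exact HasFactors.of_equiv hiso
        ((MulEquiv.subgroupCongr htop).trans Subgroup.topEquiv) h4

/-- Quotients inherit the composition factors. -/
theorem HasFactors.quotient
    (hiso : ∀ (S T : Type u) [Group S] [Group T], (S ≃* T) → C S → C T)
    (hsimple : ∀ (S : Type u) [Group S], C S → IsSimpleGroup S)
    {H : Type u} [Group H] (h : HasFactors C H) (N : Subgroup H) [N.Normal] :
    HasFactors C (H ⧸ N) := n3_quotient hiso hsimple h N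

/-- A simple group with composition factors in `C` is in `C`. -/
private theorem n3_simple
    (hiso : ∀ (S T : Type u) [Group S] [Group T], (S ≃* T) → C S → C T)
    (hsimple : ∀ (S : Type u) [Group S], C S → IsSimpleGroup S)
    {H : Type u} [Group H] (h : HasFactors C H) (hs : IsSimpleGroup H) : C H := by
  cases h with
  | triv => exact absurd (inferInstance : Subsingleton H) (not_subsingleton H)
  | ext N h1 h2 =>
    haveI := hsimple _ h2
    rcases (inferInstance : N.Normal).eq_bot_or_eq_top with hb | ht
    · exact hiso _ _ ((QuotientGroup.quotientMulEquivOfEq hb).trans QuotientGroup.quotientBot) h2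
    · exfalso
      subst ht
      exact not_subsingleton (H ⧸ (⊤ : Subgroup H)) QuotientGroup.subsingleton_quotient_top

/-- Products of normal subgroups which intersect trivially. -/
private noncomputable def n3_prod {G : Type u} [Group G] (A B : Subgroup G) (hA : A.Normal)
    (hB : B.Normal) (h : Disjoint A B) : A × B ≃* (A ⊔ B : Subgroup G) :=
  have hc : ∀ (a : A) (b : B), Commute (A.subtype a) (B.subtype b) := fun a b =>
    Subgroup.commute_of_normal_of_disjoint A B hA hB h a b a.2 b.2
  (MonoidHom.ofInjective (f := MonoidHom.noncommCoprod A.subtype B.subtype hc)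
    ((MonoidHom.noncommCoprod_injective _ _ hc).mpr
      ⟨A.subtype_injective, B.subtype_injective, by
        rw [Subgroup.range_subtype, Subgroup.range_subtype]; exact h⟩)).trans
    (MulEquiv.subgroupCongr (by
      rw [MonoidHom.noncommCoprod_range, Subgroup.range_subtype, Subgroup.range_subtype]))

private def n3_snoc (r : ℕ) (S : Type u) [Group S] : ((Fin r → S) × S) ≃* (Fin (r + 1) → S) where
  toFun p := Fin.snoc p.1 p.2
  invFun f := (fun i => f i.castSucc, f (Fin.last r))
  left_inv p := by
    ext i
    · simp
    · simp
  right_inv f := by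
    funext i
    refine Fin.lastCases ?_ (fun j => ?_) i
    · simp
    · simp
  map_mul' p q := by
    funext i
    refine Fin.lastCases ?_ (fun j => ?_) i
    · simp
    · simp

/-- The join of finitely many minimal normal subgroups, all isomorphic to `S`, is a power of `S`. -/
private theorem n3_sup {G : Type u} [Group G] {S : Type u} [Group S] {ι : Type*}
    (T : ι → Subgroup G) (hT : ∀ i, (T i).Normal) (e : ∀ i, Nonempty (T i ≃* S))
    (hmin : ∀ i (K : Subgroup G), K.Normal → K ≤ T i → K = ⊥ ∨ K = T i) (A : Finset ι) :
    (A.sup T).Normal ∧ ∃ r : ℕ, Nonempty ((A.sup T : Subgroup G) ≃* (Fin r → S)) := by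
  classical
  induction A using Finset.induction_on with
  | empty =>
    refine ⟨by rw [Finset.sup_empty]; infer_instance, 0, ⟨?_⟩⟩
    rw [Finset.sup_empty]
    exact MulEquiv.ofUnique
  | insert i A hi ih =>
    obtain ⟨hN, r, ⟨f⟩⟩ := ih
    rw [Finset.sup_insert]
    haveI := hN
    haveI := hT i
    refine ⟨inferInstance, ?_⟩
    rcases hmin i (T i ⊓ A.sup T) inferInstance inf_le_left with h | h
    · obtain ⟨g⟩ := e i
      refine ⟨r + 1, ⟨?_⟩⟩
      have hd : Disjoint (A.sup T) (T i) := by
        rw [disjoint_iff, inf_comm]; exact h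
      exact ((MulEquiv.subgroupCongr (sup_comm _ _)).trans
        (n3_prod (A.sup T) (T i) hN (hT i) hd).symm).trans
          ((MulEquiv.prodCongr f g).trans (n3_snoc r S))
    · have hle : T i ≤ A.sup T := inf_eq_left.mp h
      refine ⟨r, ⟨?_⟩⟩
      exact (MulEquiv.subgroupCongr (sup_eq_right.mpr hle)).trans f

/-- A nontrivial finite group has a minimal normal subgroup inside every nontrivial normal
subgroup. -/
private theorem n3_min {G : Type u} [Group G] [Finite G] (P : Subgroup G → Prop)
    (A : Subgroup G) (hA : P A) :
    ∃ N : Subgroup G, P N ∧ N ≤ A ∧ ∀ K : Subgroup G, P K → K ≤ N → K = N := by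
  obtain ⟨N, hN, hmin⟩ := (Set.toFinite {K : Subgroup G | P K ∧ K ≤ A}).exists_minimal
    ⟨A, hA, le_refl A⟩
  refine ⟨N, hN.1, hN.2, fun K hK hKN => le_antisymm hKN ?_⟩
  exact hmin ⟨hK, hKN.trans hN.2⟩ hKN

/-- **Minimal normal subgroups.**  Proof: take `N ≠ ⊥` minimal among the nontrivial normal subgroups
of `G` contained in `G0`, and `T ≠ ⊥` minimal among the nontrivial normal subgroups of `N`.  The
conjugates `g T g⁻¹` are minimal normal subgroups of `N`; two different ones intersect trivially,
so they commute.  Take a maximal family of conjugates which is independent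
(`iSupIndep`; the product map `Subgroup.noncommPiCoprod` is injective): the product is a normal
subgroup of `N` containing all the conjugates (a conjugate not contained in it would meet it
trivially), so it is normal in `G` and equal to `N`.  A normal subgroup of `T` is normal in `N`, so
`T` is simple; by `HasFactors.subgroup`, `T` (a normal subgroup of the normal subgroup `N` of `G0`)
has its composition factors in `C`, so `C T`. -/
theorem exists_minimal_normal
    (hiso : ∀ (S T : Type u) [Group S] [Group T], (S ≃* T) → C S → C T)
    (hsimple : ∀ (S : Type u) [Group S], C S → IsSimpleGroup S)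
    {G : Type u} [Group G] [Finite G] (G0 : Subgroup G) [G0.Normal] (h : HasFactors C G0)
    (h0 : G0 ≠ ⊥) :
    ∃ (N : Subgroup G) (S : Type u) (_ : Group S) (r : ℕ), N.Normal ∧ N ≤ G0 ∧ C S ∧ 0 < r ∧
      Nonempty (N ≃* (Fin r → S)) := by
  classical
  obtain ⟨N, ⟨hNn, hN0⟩, hNG0, hNmin⟩ := n3_min (fun K : Subgroup G => K.Normal ∧ K ≠ ⊥) G0
    ⟨inferInstance, h0⟩
  haveI := hNn
  haveI : Nontrivial N := (Subgroup.nontrivial_iff_ne_bot N).mpr hN0
  obtain ⟨T, ⟨hTn, hT0⟩, -, hTmin⟩ := n3_min (fun K : Subgroup N => K.Normal ∧ K ≠ ⊥) ⊤
    ⟨inferInstance, top_ne_bot⟩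
  haveI := hTn
  -- the conjugates
  let Tg : G → Subgroup N := fun g => T.map (MulAut.conjNormal g : MulAut N).toMonoidHom
  have hTg : ∀ g, (Tg g).Normal := fun g => hTn.map _ (MulAut.conjNormal g : MulAut N).surjective
  have hTgmin : ∀ g (K : Subgroup N), K.Normal → K ≤ Tg g → K = ⊥ ∨ K = Tg g := by
    intro g K hK hKT
    by_cases hK0 : K = ⊥
    · exact Or.inl hK0
    · right
      have h1 : K.comap (MulAut.conjNormal g : MulAut N).toMonoidHom ≤ T := by
        have h2 := Subgroup.comap_mono (f := (MulAut.conjNormal g : MulAut N).toMonoidHom) hKT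
        have h3 : (Tg g).comap (MulAut.conjNormal g : MulAut N).toMonoidHom = T :=
          Subgroup.comap_map_eq_self_of_injective
            (f := (MulAut.conjNormal g : MulAut N).toMonoidHom)
            (MulAut.conjNormal g : MulAut N).injective T
        rwa [h3] at h2
      have h3 : K.comap (MulAut.conjNormal g : MulAut N).toMonoidHom ≠ ⊥ := by
        intro h4
        apply hK0
        have h5 := Subgroup.map_comap_eq_self_of_surjective
          (f := (MulAut.conjNormal g : MulAut N).toMonoidHom)
          (MulAut.conjNormal g : MulAut N).surjective K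
        rw [h4, Subgroup.map_bot] at h5
        exact h5.symm
      have h6 := hTmin _ ⟨hK.comap _, h3⟩ h1
      have h5 := Subgroup.map_comap_eq_self_of_surjective
          (f := (MulAut.conjNormal g : MulAut N).toMonoidHom)
          (MulAut.conjNormal g : MulAut N).surjective K
      rw [h6] at h5
      exact h5.symm
  have hTge : ∀ g, Nonempty (Tg g ≃* T) := fun g =>
    ⟨((MulAut.conjNormal g : MulAut N).subgroupMap T).symm⟩
  have hTg1 : Tg 1 = T := by
    change T.map _ = T
    ext x
    simp
  haveI : Fintype G := Fintype.ofFinite G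
  obtain ⟨hMn, r, ⟨f⟩⟩ := n3_sup Tg hTg hTge hTgmin Finset.univ
  -- the join is everything
  have htop : Finset.univ.sup Tg = ⊤ := by
    have h1 : ((Finset.univ.sup Tg).map N.subtype).Normal := by
      constructor
      rintro _ ⟨y, hy, rfl⟩ g
      refine ⟨MulAut.conjNormal g y, ?_, ?_⟩
      · have h2 : (Finset.univ.sup Tg).map (MulAut.conjNormal g : MulAut N).toMonoidHom
            ≤ Finset.univ.sup Tg := by
          rw [Finset.sup_eq_iSup, Subgroup.map_iSup]
          refine iSup_le fun a => ?_
          rw [Subgroup.map_iSup]
          refine iSup_le fun _ => ?_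
          have h3 : (Tg a).map (MulAut.conjNormal g : MulAut N).toMonoidHom = Tg (g * a) := by
            change (T.map _).map _ = T.map _
            rw [Subgroup.map_map]
            congr 1
            ext x
            simp [mul_assoc]
          rw [h3]
          exact le_iSup₂_of_le (g * a) (Finset.mem_univ _) le_rfl
        exact h2 ⟨y, hy, rfl⟩
      · simp
    have h2 : (Finset.univ.sup Tg).map N.subtype ≠ ⊥ := by
      intro h3
      rw [(Subgroup.map_eq_bot_iff_of_injective _ N.subtype_injective)] at h3
      apply hT0
      rw [← hTg1, ← le_bot_iff, ← h3]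
      exact Finset.le_sup (Finset.mem_univ 1)
    have h3 := hNmin _ ⟨h1, h2⟩ (Subgroup.map_subtype_le _)
    have h4 : (Finset.univ.sup Tg).map N.subtype = (⊤ : Subgroup N).map N.subtype := by
      rw [h3, ← MonoidHom.range_eq_map, Subgroup.range_subtype]
    exact Subgroup.map_injective N.subtype_injective h4
  -- `T` is simple
  have hTs : IsSimpleGroup T := by
    haveI : Nontrivial T := (Subgroup.nontrivial_iff_ne_bot T).mpr hT0
    refine ⟨fun K hK => ?_⟩
    have hKn : (K.map T.subtype).Normal := by
      rw [← Subgroup.normalizer_eq_top_iff, eq_top_iff, ← htop]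
      refine Finset.sup_le fun g _ => ?_
      by_cases hg : Tg g = T
      · rw [hg]
        intro x hx
        rw [Subgroup.mem_normalizer_iff]
        intro y
        constructor
        · rintro ⟨k, hk, rfl⟩
          exact ⟨⟨x, hx⟩ * k * ⟨x, hx⟩⁻¹, hK.conj_mem k hk ⟨x, hx⟩, by simp⟩
        · rintro ⟨k, hk, hky⟩
          refine ⟨⟨x, hx⟩⁻¹ * k * (⟨x, hx⟩⁻¹)⁻¹, hK.conj_mem k hk ⟨x, hx⟩⁻¹, ?_⟩
          have hky' : (k : N) = x * y * x⁻¹ := hky
          simp [hky', mul_assoc]
      · have hd : Disjoint (Tg g) T := by
          rw [disjoint_iff]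
          rcases hTgmin g (Tg g ⊓ T) (by haveI := hTg g; infer_instance) inf_le_left with h1 | h1
          · exact h1
          · exfalso
            apply hg
            have h2 : Tg g ≤ T := inf_eq_left.mp h1
            have h3 : Tg g ≠ ⊥ := by
              intro h4
              apply hT0
              have h5 : T.map (MulAut.conjNormal g : MulAut N).toMonoidHom = ⊥ := h4
              exact (Subgroup.map_eq_bot_iff_of_injective
                (f := (MulAut.conjNormal g : MulAut N).toMonoidHom) T
                (MulAut.conjNormal g : MulAut N).injective).mp h5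
            exact hTmin _ ⟨hTg g, h3⟩ h2
        intro x hx
        rw [Subgroup.mem_normalizer_iff]
        intro y
        have hcomm : ∀ y ∈ T, x * y * x⁻¹ = y := by
          intro y hy
          have := Subgroup.commute_of_normal_of_disjoint (Tg g) T (hTg g) hTn hd x y hx hy
          rw [this.eq, mul_inv_cancel_right]
        constructor
        · intro hy
          have hyT : y ∈ T := Subgroup.map_subtype_le K hy
          rw [hcomm y hyT]
          exact hy
        · intro hy
          have hyT : x * y * x⁻¹ ∈ T := Subgroup.map_subtype_le K hy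
          have h1 := hcomm _ hyT
          have h2 : x * y * x⁻¹ = y := by
            have h3 : x * (x * y * x⁻¹) * x⁻¹ = x * y * x⁻¹ := h1
            have h4 : x * y * x⁻¹ = y := by
              have h5 := mul_right_cancel h3
              exact mul_left_cancel h5
            exact h4
          rw [h2] at hy
          exact hy
    by_cases hK0 : K.map T.subtype = ⊥
    · left
      exact (Subgroup.map_eq_bot_iff_of_injective _ T.subtype_injective).mp hK0
    · right
      have h1 := hTmin _ ⟨hKn, hK0⟩ (Subgroup.map_subtype_le K)
      have h4 : K.map T.subtype = (⊤ : Subgroup T).map T.subtype := by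
        rw [h1, ← MonoidHom.range_eq_map, Subgroup.range_subtype]
      exact Subgroup.map_injective T.subtype_injective h4
  -- composition factors
  have hCN : HasFactors C N :=
    HasFactors.of_equiv hiso (Subgroup.subgroupOfEquivOfLe hNG0)
      (HasFactors.subgroup hiso hsimple h (N.subgroupOf G0))
  have hCT : HasFactors C T := HasFactors.subgroup hiso hsimple hCN T
  refine ⟨N, T, inferInstance, r, hNn, hNG0, n3_simple hiso hsimple hCT hTs, ?_, ⟨?_⟩⟩
  · rcases Nat.eq_zero_or_pos r with hr | hr
    · exfalso
      subst hr
      have hsub : Subsingleton (Finset.univ.sup Tg : Subgroup N) := f.toEquiv.subsingleton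
      rw [htop] at hsub
      have : Subsingleton N := (Subgroup.topEquiv (G := N)).symm.toEquiv.subsingleton
      exact not_subsingleton N this
    · exact hr
  · exact (Subgroup.topEquiv (G := N)).symm.trans ((MulEquiv.subgroupCongr htop.symm).trans f)

end Pool.Agent.Lib.MP_12adaf_nt.NS
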