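import Pool.Agent.Lib.MP_12adaf_ntNS.N0
import Pool.Agent.Lib.MP_12adaf_nt.CM.GVe

/-!
# The no-name lemma
-/

namespace Pool.Agent.Lib.MP_12adaf_nt.NS

open Finset

/-- The span of the variables is stable under the semilinear action. -/
private lemma smul_mem_span {G E E' ι : Type*} [Group G] [Field E] [Field E']
    [Algebra E E'] [MulSemiringAction G E] [MulSemiringAction G E']
    (hact : ∀ (g : G) (a : E), g • algebraMap E E' a = algebraMap E E' (g • a))
    {x : ι → E'}
    (hlin : ∀ (g : G) (i : ι), g • x i ∈ Submodule.span E (Set.range x)) (g : G) {v : E'}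
    (hv : v ∈ Submodule.span E (Set.range x)) : g • v ∈ Submodule.span E (Set.range x) := by
  induction hv using Submodule.span_induction with
  | mem v hv => obtain ⟨i, rfl⟩ := hv; exact hlin g i
  | zero => rw [smul_zero]; exact zero_mem _
  | add a b _ _ ha hb => rw [smul_add]; exact add_mem ha hb
  | smul a v _ hv =>
    rw [Algebra.smul_def, smul_mul', hact, ← Algebra.smul_def]
    exact Submodule.smul_mem _ _ hv

/-- The invariant vectors span. -/
private lemma span_invariants {G E E' ι : Type*} [Group G] [Finite G] [Field E] [CharZero E]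
    [Field E'] [Algebra E E'] [MulSemiringAction G E] [MulSemiringAction G E']
    (hact : ∀ (g : G) (a : E), g • algebraMap E E' a = algebraMap E E' (g • a))
    (hfaith : ∀ g : G, (∀ a : E, g • a = a) → g = 1) {x : ι → E'}
    (hlin : ∀ (g : G) (i : ι), g • x i ∈ Submodule.span E (Set.range x)) :
    Submodule.span E {v : E' | v ∈ Submodule.span E (Set.range x) ∧ ∀ g : G, g • v = v} =
      Submodule.span E (Set.range x) := by
  classical
  have : Fintype G := Fintype.ofFinite G
  apply le_antisymm
  · rw [Submodule.span_le]
    exact fun v hv => hv.1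
  · intro v hv
    by_contra hcon
    obtain ⟨f, hfv, hf⟩ := Submodule.exists_dual_map_eq_bot_of_notMem hcon inferInstance
    apply hfv
    have hf' : ∀ s : E', s ∈ Submodule.span E (Set.range x) → (∀ g : G, g • s = s) → f s = 0 := by
      intro s hs hgs
      have h1 : f s ∈ Submodule.map f (Submodule.span E
          {v : E' | v ∈ Submodule.span E (Set.range x) ∧ ∀ g : G, g • v = v}) :=
        Submodule.mem_map_of_mem (Submodule.subset_span ⟨hs, hgs⟩)
      rw [hf] at h1
      exact (Submodule.mem_bot E).mp h1
    have key : ∀ m : E, ∑ g : G, f (g • v) * (g • m) = 0 := by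
      intro m
      have h1 := hf' (∑ g : G, g • (algebraMap E E' m * v)) (by
        refine Submodule.sum_mem _ fun g _ => smul_mem_span hact hlin g ?_
        rw [← Algebra.smul_def]
        exact Submodule.smul_mem _ _ hv) (by
        intro h
        rw [smul_sum]
        refine Fintype.sum_bijective (fun g => h * g) (Group.mulLeft_bijective h) _ _ fun g => ?_
        rw [mul_smul])
      rw [map_sum] at h1
      rw [← h1]
      refine sum_congr rfl fun g _ => ?_
      rw [smul_mul', hact, ← Algebra.smul_def, LinearMap.map_smul f (g • m) (g • v),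
        smul_eq_mul, mul_comm]
    let Φ : G → (E →* E) := fun g => (MulSemiringAction.toRingHom G E g : E →* E)
    have hΦ : ∀ g m, Φ g m = g • m := fun g m => rfl
    have hΦinj : Function.Injective Φ := by
      intro g h hgh
      have h1 : ∀ a : E, (h⁻¹ * g) • a = a := by
        intro a
        have h2 := DFunLike.congr_fun hgh a
        rw [hΦ, hΦ] at h2
        rw [mul_smul, h2, inv_smul_smul]
      have h2 := hfaith _ h1
      rwa [inv_mul_eq_one, eq_comm] at h2
    have hli : LinearIndependent E (fun g : G => (Φ g : E → E)) :=
      (linearIndependent_monoidHom E E).comp Φ hΦinj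
    rw [Fintype.linearIndependent_iff] at hli
    have h3 := hli (fun g => f (g • v)) (by
      funext m
      rw [Finset.sum_apply, Pi.zero_apply, ← key m]
      refine sum_congr rfl fun g _ => ?_
      rw [Pi.smul_apply, smul_eq_mul, hΦ]) 1
    simpa using h3

/-- **Speiser's lemma, no-name lemma.**  A finite group `G` acts faithfully on a field `E` and
semilinearly on the variables of `E' = E (x_i)`: then `E'` is generated over `E` by algebraically
independent invariant elements.
Proof: let `V` be the span of the `x_i` over `E`.  For `m : E`, `v ∈ V` the element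
`∑ g, g • (m v)` of `V` is invariant; a linear form `f` on `V` which vanishes on all these has
`∑ g, (g • m) f (g • v) = 0` for all `m`, so `f (g • v) = 0` by the independence of the
automorphisms `g` of `E` (`linearIndependent_monoidHom`), so `f = 0`.  Hence the invariants of
`V` span `V` over `E`; choose a basis of `V` among them (compare `speiser_functional`,
`exists_invariant_basis` in `Pool/Agent/Lib/MP_12adaf_nt/CM/GVa.lean`), and use `algInd_of_card`
(GVd.lean) for the algebraic independence. -/
theorem no_name {G E E' ι : Type*} [Group G] [Finite G] [Field E] [CharZero E] [Field E']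
    [Algebra E E'] [MulSemiringAction G E] [MulSemiringAction G E'] [Finite ι]
    (hact : ∀ (g : G) (a : E), g • algebraMap E E' a = algebraMap E E' (g • a))
    (hfaith : ∀ g : G, (∀ a : E, g • a = a) → g = 1) {x : ι → E'}
    (hx : AlgebraicIndependent E x) (hgen : IntermediateField.adjoin E (Set.range x) = ⊤)
    (hlin : ∀ (g : G) (i : ι), g • x i ∈ Submodule.span E (Set.range x)) :
    ∃ t : ι → E', (∀ (g : G) (i : ι), g • t i = t i) ∧ AlgebraicIndependent E t ∧
      IntermediateField.adjoin E (Set.range t) = ⊤ := by
  classical
  have hspan := span_invariants hact hfaith hlin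
  obtain ⟨b, hbS, hbspan, hbli⟩ := exists_linearIndependent E
    {v : E' | v ∈ Submodule.span E (Set.range x) ∧ ∀ g : G, g • v = v}
  rw [hspan] at hbspan
  let b1 : Module.Basis ι E (Submodule.span E (Set.range x)) :=
    Module.Basis.span hx.linearIndependent
  let b2 : Module.Basis b E (Submodule.span E (Set.range ((↑) : b → E'))) :=
    Module.Basis.span hbli
  have hrange : Submodule.span E (Set.range ((↑) : b → E')) =
      Submodule.span E (Set.range x) := by
    rw [Subtype.range_coe]; exact hbspan
  let e : ι ≃ b := b1.indexEquiv (b2.map (LinearEquiv.ofEq _ _ hrange))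
  have htr : Set.range (fun i : ι => ((e i : b) : E')) = b := by
    have h1 : Set.range (fun i : ι => ((e i : b) : E')) =
        Set.range (((↑) : b → E') ∘ e) := rfl
    rw [h1, Set.range_comp, e.surjective.range_eq, Set.image_univ, Subtype.range_coe]
  have hadj : IntermediateField.adjoin E (Set.range (fun i : ι => ((e i : b) : E'))) = ⊤ := by
    rw [eq_top_iff, ← hgen, IntermediateField.adjoin_le_iff]
    rintro _ ⟨i, rfl⟩
    have h1 : x i ∈ Submodule.span E b := by
      rw [hbspan]; exact Submodule.subset_span ⟨i, rfl⟩
    rw [← htr] at h1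
    have h2 : Submodule.span E (Set.range (fun i : ι => ((e i : b) : E'))) ≤
        (IntermediateField.adjoin E
          (Set.range (fun i : ι => ((e i : b) : E')))).toSubalgebra.toSubmodule := by
      rw [Submodule.span_le]
      exact IntermediateField.subset_adjoin E _
    exact h2 h1
  refine ⟨fun i => ((e i : b) : E'), fun g i => (hbS (e i).2).2 g, ?_, hadj⟩
  refine algInd_of_card hx hgen ?_
  rw [hadj]
  refine ⟨fun z => ?_⟩
  exact isAlgebraic_algebraMap (A := E')
    (⟨z, IntermediateField.mem_top⟩ : (⊤ : IntermediateField E E'))

/-- The invariants in the situation of the no-name lemma: `fixed_mem_adjoin` (GVd.lean) with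
`M = E`. -/
theorem no_name_fixed {G K E E' ι : Type*} [Group G] [Finite G] [Field K] [Field E] [CharZero E]
    [Field E'] [Algebra K E] [Algebra E E'] [Algebra K E'] [IsScalarTower K E E']
    [MulSemiringAction G E] [MulSemiringAction G E'] [SMulCommClass G K E]
    [Algebra.IsInvariant K E G] [Finite ι]
    (hact : ∀ (g : G) (a : E), g • algebraMap E E' a = algebraMap E E' (g • a))
    (hfaith : ∀ g : G, (∀ a : E, g • a = a) → g = 1) {x : ι → E'}
    (hx : AlgebraicIndependent E x) (hgen : IntermediateField.adjoin E (Set.range x) = ⊤)
    (hlin : ∀ (g : G) (i : ι), g • x i ∈ Submodule.span E (Set.range x)) :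
    ∃ t : ι → E', (∀ (g : G) (i : ι), g • t i = t i) ∧ AlgebraicIndependent K t ∧
      ∀ z : E', (∀ g : G, g • z = z) → z ∈ IntermediateField.adjoin K (Set.range t) := by
  have : Fintype G := Fintype.ofFinite G
  obtain ⟨t, hgt, hind, hadj⟩ := no_name hact hfaith hx hgen hlin
  refine ⟨t, hgt, hind.restrictScalars (algebraMap K E).injective, fun z hz => ?_⟩
  exact fixed_mem_adjoin hact hgt (by rw [hadj]; exact IntermediateField.mem_top) hz

end Pool.Agent.Lib.MP_12adaf_nt.NS
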