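import Pool.Agent.Lib.MP_12adaf_ntNS.N0

/-!
# Stable rationality: algebra
-/

namespace Pool.Agent.Lib.MP_12adaf_nt.NS

/-- Isomorphic fields have isomorphic rational function fields. -/
private noncomputable def frMap {K F F' : Type*} [Field K] [Field F] [Field F'] [Algebra K F]
    [Algebra K F'] (σ : Type*) (e : F ≃ₐ[K] F') :
    FractionRing (MvPolynomial σ F) ≃ₐ[K] FractionRing (MvPolynomial σ F') :=
  IsFractionRing.algEquivOfAlgEquiv (MvPolynomial.mapAlgEquiv σ e)

/-- Renaming the variables. -/
private noncomputable def frReindex {K F σ τ : Type*} [Field K] [Field F] [Algebra K F]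
    (e : σ ≃ τ) : FractionRing (MvPolynomial σ F) ≃ₐ[K] FractionRing (MvPolynomial τ F) :=
  IsFractionRing.algEquivOfAlgEquiv ((MvPolynomial.renameEquiv F e).restrictScalars K)

/-- Iterated rational function fields. -/
private theorem frSum (K : Type*) {F : Type*} (σ τ : Type*) [Field K] [Field F] [Algebra K F] :
    Nonempty (FractionRing (MvPolynomial (σ ⊕ τ) F) ≃ₐ[K]
      FractionRing (MvPolynomial σ (FractionRing (MvPolynomial τ F)))) := by
  set A := FractionRing (MvPolynomial τ F) with hA
  set M := FractionRing (MvPolynomial σ A) with hM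
  let x : τ → A := fun i => algebraMap (MvPolynomial τ F) A (MvPolynomial.X i)
  let y : σ → M := fun i => algebraMap (MvPolynomial σ A) M (MvPolynomial.X i)
  have hx : AlgebraicIndependent F x := by
    have h := (MvPolynomial.algebraicIndependent_X τ F).map'
      (f := IsScalarTower.toAlgHom F (MvPolynomial τ F) A)
      (IsFractionRing.injective (MvPolynomial τ F) A)
    exact h
  have hy : AlgebraicIndependent A y := by
    have h := (MvPolynomial.algebraicIndependent_X σ A).map'
      (f := IsScalarTower.toAlgHom A (MvPolynomial σ A) M)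
      (IsFractionRing.injective (MvPolynomial σ A) M)
    exact h
  have hxy : AlgebraicIndependent F (Sum.elim y (algebraMap A M ∘ x)) := hx.sumElim_comp hy
  set S := IntermediateField.adjoin F (Set.range (Sum.elim y (algebraMap A M ∘ x))) with hS
  have hXy : ∀ i, y i ∈ S := fun i =>
    IntermediateField.subset_adjoin F _ ⟨Sum.inl i, rfl⟩
  have hXx : ∀ i, algebraMap A M (x i) ∈ S := fun i =>
    IntermediateField.subset_adjoin F _ ⟨Sum.inr i, rfl⟩
  have h1 : ∀ P : MvPolynomial τ F, algebraMap A M (algebraMap (MvPolynomial τ F) A P) ∈ S := by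
    intro P
    induction P using MvPolynomial.induction_on with
    | C a =>
      have : algebraMap A M (algebraMap (MvPolynomial τ F) A (MvPolynomial.C a)) =
          algebraMap F M a := by
        rw [← MvPolynomial.algebraMap_eq, ← IsScalarTower.algebraMap_apply F (MvPolynomial τ F) A,
          ← IsScalarTower.algebraMap_apply F A M]
      rw [this]
      exact S.algebraMap_mem a
    | add p q hp hq => rw [map_add, map_add]; exact S.add_mem hp hq
    | mul_X p i hp => rw [map_mul, map_mul]; exact S.mul_mem hp (hXx i)
  have h2 : ∀ c : A, algebraMap A M c ∈ S := by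
    intro c
    obtain ⟨p, q, -, rfl⟩ := IsFractionRing.div_surjective (MvPolynomial τ F) c
    rw [map_div₀]
    exact S.div_mem (h1 p) (h1 q)
  have h3 : ∀ P : MvPolynomial σ A, algebraMap (MvPolynomial σ A) M P ∈ S := by
    intro P
    induction P using MvPolynomial.induction_on with
    | C a =>
      have : algebraMap (MvPolynomial σ A) M (MvPolynomial.C a) = algebraMap A M a := by
        rw [← MvPolynomial.algebraMap_eq, ← IsScalarTower.algebraMap_apply A (MvPolynomial σ A) M]
      rw [this]
      exact h2 a
    | add p q hp hq => rw [map_add]; exact S.add_mem hp hq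
    | mul_X p i hp => rw [map_mul]; exact S.mul_mem hp (hXy i)
  have h4 : S = ⊤ := by
    rw [eq_top_iff]
    intro z _
    obtain ⟨p, q, -, rfl⟩ := IsFractionRing.div_surjective (MvPolynomial σ A) z
    exact S.div_mem (h3 p) (h3 q)
  have e := hxy.aevalEquivField.trans ((IntermediateField.equivOfEq h4).trans
    IntermediateField.topEquiv)
  exact ⟨e.restrictScalars K⟩

/-- Stable rationality is invariant under isomorphisms. -/
theorem IsStablyRational.of_equiv {K F F' : Type*} [Field K] [Field F] [Field F'] [Algebra K F]
    [Algebra K F'] (e : F ≃ₐ[K] F') (h : IsStablyRational K F) : IsStablyRational K F' := by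
  obtain ⟨m, n, ⟨f⟩⟩ := h
  exact ⟨m, n, ⟨(frMap (Fin m) e).symm.trans f⟩⟩

private theorem stablyRational_fr_iff {K F ι : Type*} [Field K] [Field F] [Algebra K F]
    [Finite ι] : IsStablyRational K F ↔
      IsStablyRational K (FractionRing (MvPolynomial ι F)) := by
  obtain ⟨r, ⟨ei⟩⟩ := Finite.exists_equiv_fin ι
  constructor
  · rintro ⟨m, n, ⟨f⟩⟩
    refine ⟨m, r + n, ?_⟩
    obtain ⟨a⟩ := frSum K (F := F) (Fin m) ι
    obtain ⟨b⟩ := frSum K (F := F) ι (Fin m)
    obtain ⟨c⟩ := frSum K (F := K) ι (Fin n)
    exact ⟨a.symm.trans ((frReindex (Equiv.sumComm (Fin m) ι)).trans (b.trans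
      ((frMap ι f).trans (c.symm.trans (frReindex
        ((Equiv.sumCongr ei (Equiv.refl _)).trans finSumFinEquiv))))))⟩
  · rintro ⟨m, n, ⟨f⟩⟩
    refine ⟨m + r, n, ?_⟩
    obtain ⟨a⟩ := frSum K (F := F) (Fin m) ι
    exact ⟨(frReindex ((Equiv.sumCongr (Equiv.refl _) ei).trans finSumFinEquiv)).symm.trans
      (a.trans f)⟩

/-- **Stable rationality and purely transcendental extensions.**  `L / K` is a field extension,
`F` and `F'` are intermediate fields such that `F'` is generated over `F` by algebraically
independent elements. -/
theorem stablyRational_iff {K L ι : Type*} [Field K] [Field L] [Algebra K L] [Finite ι]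
    (F F' : IntermediateField K L) {t : ι → L} (hF : F ≤ F') (ht : ∀ i, t i ∈ F')
    (hind : AlgebraicIndependent F t)
    (hgen : ∀ z ∈ F', z ∈ IntermediateField.adjoin F (Set.range t)) :
    IsStablyRational K F ↔ IsStablyRational K F' := by
  have hEq : (IntermediateField.adjoin F (Set.range t)).restrictScalars K = F' := by
    apply le_antisymm
    · intro z hz
      have hle : IntermediateField.adjoin F (Set.range t) ≤ IntermediateField.extendScalars hF :=
        IntermediateField.adjoin_le_iff.mpr (by rintro _ ⟨i, rfl⟩; exact ht i)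
      exact hle hz
    · intro z hz
      exact hgen z hz
  have e : FractionRing (MvPolynomial ι F) ≃ₐ[K] F' :=
    (hind.aevalEquivField.restrictScalars K).trans
      (IntermediateField.equivOfEq hEq)
  rw [stablyRational_fr_iff (K := K) (F := F) (ι := ι)]
  exact ⟨fun h => h.of_equiv e, fun h => h.of_equiv e.symm⟩

/-- **Stable rationality and purely transcendental extensions**, for towers of fields. -/
theorem stablyRational_iff' {K F F' ι : Type*} [Field K] [Field F] [Field F'] [Algebra K F]
    [Algebra F F'] [Algebra K F'] [IsScalarTower K F F'] [Finite ι] {t : ι → F'}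
    (hind : AlgebraicIndependent F t) (hgen : IntermediateField.adjoin F (Set.range t) = ⊤) :
    IsStablyRational K F ↔ IsStablyRational K F' := by
  have e : FractionRing (MvPolynomial ι F) ≃ₐ[K] F' :=
    (hind.aevalEquivField.trans ((IntermediateField.equivOfEq hgen).trans
      IntermediateField.topEquiv)).restrictScalars K
  rw [stablyRational_fr_iff (K := K) (F := F) (ι := ι)]
  exact ⟨fun h => h.of_equiv e, fun h => h.of_equiv e.symm⟩

/-- The base field is stably rational. -/
theorem isStablyRational_self (K : Type*) [Field K] : IsStablyRational K K :=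
  ⟨0, 0, ⟨AlgEquiv.refl⟩⟩

theorem isStablyRational_bot {K L : Type*} [Field K] [Field L] [Algebra K L] :
    IsStablyRational K (⊥ : IntermediateField K L) :=
  (isStablyRational_self K).of_equiv (IntermediateField.botEquiv K L).symm

end Pool.Agent.Lib.MP_12adaf_nt.NS
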