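import Pool.Agent.Lib.MP_12adaf_ntNS.N2
import Pool.Agent.Lib.MP_12adaf_ntNS.N3
import Pool.Agent.Lib.MP_12adaf_ntNS.N4
import Pool.Agent.Lib.MP_12adaf_ntNS.N5
import Pool.Agent.Lib.MP_12adaf_ntNS.N6

/-!
# The stable Noether problem for groups with good composition factors
-/

namespace Pool.Agent.Lib.MP_12adaf_nt.NS

universe u

set_option linter.unusedSectionVars false

open Finset

/-- A faithful semilinear extension. -/
structure SemExt (K M G E ι : Type u) [Field K] [Field M] [Algebra K M] [Group G]
    [MulSemiringAction G M] [Field E] [Algebra M E] [Algebra K E] [MulSemiringAction G E]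
    (x : ι → E) : Prop where
  tower : IsScalarTower K M E
  act : ∀ (g : G) (m : M), g • algebraMap M E m = algebraMap M E (g • m)
  ind : AlgebraicIndependent M x
  gen : IntermediateField.adjoin M (Set.range x) = ⊤
  lin : ∀ (g : G) (i : ι), g • x i ∈ Submodule.span M (Set.range x)
  faith : ∀ g : G, (∀ z : E, g • z = z) → g = 1

/-- The statement for the group `G` acting on `M`: the fields of invariants of all faithful
semilinear extensions are stably rational. -/
def Goal (K M G : Type u) [Field K] [Field M] [Algebra K M] [Group G]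
    [MulSemiringAction G M] : Prop :=
  ∀ (E ι : Type u) [Field E] [Algebra M E] [Algebra K E] [MulSemiringAction G E] [Finite ι]
    (x : ι → E), SemExt K M G E ι x →
    ∀ F : IntermediateField K E, (∀ z, z ∈ F ↔ ∀ g : G, g • z = z) → IsStablyRational K F

section fixed

variable {K M G E : Type u} [Field K] [Field M] [Algebra K M] [Group G]
    [MulSemiringAction G M] [Field E] [Algebra M E] [Algebra K E] [MulSemiringAction G E]

/-- The intermediate field of invariants. -/
def fixF (K G : Type u) {E : Type u} [Field K] [Group G] [Field E] [Algebra K E]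
    [MulSemiringAction G E] (h : ∀ (g : G) (a : K), g • algebraMap K E a = algebraMap K E a) :
    IntermediateField K E where
  carrier := {z | ∀ g : G, g • z = z}
  mul_mem' := fun {a b} ha hb g => by rw [smul_mul', ha g, hb g]
  one_mem' := fun g => smul_one g
  add_mem' := fun {a b} ha hb g => by rw [smul_add, ha g, hb g]
  zero_mem' := fun g => smul_zero g
  algebraMap_mem' := fun a g => h g a
  inv_mem' := fun a ha g => by
    have : g • a⁻¹ = (g • a)⁻¹ := map_inv₀ (MulSemiringAction.toRingHom G E g) a
    rw [this, ha g]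

lemma mem_fixF {h : ∀ (g : G) (a : K), g • algebraMap K E a = algebraMap K E a} {z : E} :
    z ∈ fixF K G h ↔ ∀ g : G, g • z = z := Iff.rfl

lemma SemExt.smul_K {ι : Type u} {x : ι → E} [SMulCommClass G K M] (H : SemExt K M G E ι x)
    (g : G) (a : K) : g • algebraMap K E a = algebraMap K E a := by
  have := H.tower
  rw [IsScalarTower.algebraMap_apply K M E, H.act, smul_algebraMap]

end fixed

/-- The no-name lemma for stable rationality of fields of invariants. -/
theorem noName_iff {K G E E' ι : Type u} [Field K] [Group G] [Finite G] [Field E] [CharZero E]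
    [Field E'] [Algebra K E] [Algebra E E'] [Algebra K E'] [IsScalarTower K E E']
    [MulSemiringAction G E] [MulSemiringAction G E'] [Finite ι]
    (hact : ∀ (g : G) (a : E), g • algebraMap E E' a = algebraMap E E' (g • a))
    (hfaith : ∀ g : G, (∀ a : E, g • a = a) → g = 1) {x : ι → E'}
    (hx : AlgebraicIndependent E x) (hgen : IntermediateField.adjoin E (Set.range x) = ⊤)
    (hlin : ∀ (g : G) (i : ι), g • x i ∈ Submodule.span E (Set.range x))
    (F : IntermediateField K E) (hF : ∀ z, z ∈ F ↔ ∀ g : G, g • z = z)
    (F' : IntermediateField K E') (hF' : ∀ z, z ∈ F' ↔ ∀ g : G, g • z = z) :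
    IsStablyRational K F ↔ IsStablyRational K F' := by
  have h1 : SMulCommClass G F E := ⟨fun g f e => by
    change g • ((f : E) * e) = (f : E) * g • e
    rw [smul_mul', (hF f).1 f.2 g]⟩
  have h2 : Algebra.IsInvariant F E G := ⟨fun b hb => ⟨⟨b, (hF b).2 hb⟩, rfl⟩⟩
  obtain ⟨t, ht1, ht2, ht3⟩ := no_name_fixed (K := F) hact hfaith hx hgen hlin
  let f : F →+* F' := ((algebraMap E E').comp (algebraMap F E)).codRestrict F' fun a =>
    (hF' _).2 fun g => by
      change g • algebraMap E E' (a : E) = algebraMap E E' (a : E)
      rw [hact, (hF a).1 a.2 g]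
  let := f.toAlgebra
  have h3 : IsScalarTower K F F' := IsScalarTower.of_algebraMap_eq fun a => by
    apply Subtype.ext
    exact IsScalarTower.algebraMap_apply K E E' a
  have h4 : IsScalarTower F F' E' := IsScalarTower.of_algebraMap_eq fun a => rfl
  let t' : ι → F' := fun i => ⟨t i, (hF' _).2 fun g => ht1 g i⟩
  have h5 : AlgebraicIndependent F t' :=
    AlgebraicIndependent.of_comp (IsScalarTower.toAlgHom F F' E') ht2
  have h6 : IntermediateField.adjoin F (Set.range t') = ⊤ := by
    rw [eq_top_iff]
    intro z _
    have h7 : (z : E') ∈ IntermediateField.adjoin F (Set.range t) := ht3 z ((hF' _).1 z.2)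
    have h8 : Set.range t = (IsScalarTower.toAlgHom F F' E') '' Set.range t' := by
      rw [← Set.range_comp]
      rfl
    rw [h8, ← IntermediateField.adjoin_map] at h7
    obtain ⟨y, hy, hyz⟩ := h7
    have h9 : y = z := Subtype.ext hyz
    rw [← h9]
    exact hy
  exact stablyRational_iff' h5 h6

/-- The embedding of `M(x)` in an extension in which there are algebraically independent elements
on which the group acts in the same way. -/
theorem exists_embedding {M G E E' ι : Type u} [Field M] [Group G] [Field E] [Field E']
    [Algebra M E] [Algebra M E'] [MulSemiringAction G M] [MulSemiringAction G E]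
    [MulSemiringAction G E'] {x : ι → E} {X : ι → E'}
    (hact : ∀ (g : G) (m : M), g • algebraMap M E m = algebraMap M E (g • m))
    (hact' : ∀ (g : G) (m : M), g • algebraMap M E' m = algebraMap M E' (g • m))
    (hx : AlgebraicIndependent M x) (hgen : IntermediateField.adjoin M (Set.range x) = ⊤)
    (hX : AlgebraicIndependent M X) [Fintype ι] {A : G → Matrix ι ι M}
    (hgx : ∀ (g : G) (s : ι), g • x s = ∑ t, algebraMap M E (A g t s) * x t)
    (hgX : ∀ (g : G) (s : ι), g • X s = ∑ t, algebraMap M E' (A g t s) * X t) :
    ∃ φ : E →ₐ[M] E', (∀ s, φ (x s) = X s) ∧ ∀ (g : G) (z : E), g • φ z = φ (g • z) := by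
  let e1 : E ≃ₐ[M] IntermediateField.adjoin M (Set.range x) :=
    (IntermediateField.topEquiv.symm).trans (IntermediateField.equivOfEq hgen.symm)
  let φ : E →ₐ[M] E' := (IntermediateField.val _).comp
    ((hX.aevalEquivField.toAlgHom.comp hx.aevalEquivField.symm.toAlgHom).comp e1.toAlgHom)
  have h1 : ∀ s, φ (x s) = X s := by
    intro s
    have h2 : e1 (x s) = hx.aevalEquivField (algebraMap (MvPolynomial ι M)
        (FractionRing (MvPolynomial ι M)) (MvPolynomial.X s)) := by
      apply Subtype.ext
      rw [hx.aevalEquivField_algebraMap_apply_coe, MvPolynomial.aeval_X]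
      rfl
    have h3 : φ (x s) = ((hX.aevalEquivField (hx.aevalEquivField.symm (e1 (x s))) :
      IntermediateField.adjoin M (Set.range X)) : E') := rfl
    rw [h3, h2, AlgEquiv.symm_apply_apply, hX.aevalEquivField_algebraMap_apply_coe,
      MvPolynomial.aeval_X]
  refine ⟨φ, h1, fun g z => ?_⟩
  have hz : z ∈ IntermediateField.adjoin M (Set.range x) := by rw [hgen]; trivial
  induction hz using IntermediateField.adjoin_induction with
  | mem z hz =>
    obtain ⟨s, rfl⟩ := hz
    rw [h1, hgX, hgx, map_sum]
    refine sum_congr rfl fun t _ => ?_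
    rw [map_mul, AlgHom.commutes, h1]
  | algebraMap m => rw [AlgHom.commutes, hact', hact, AlgHom.commutes]
  | add a b _ _ ha hb => rw [map_add, smul_add, smul_add, map_add, ha, hb]
  | inv a _ ha =>
    have h2 : g • a⁻¹ = (g • a)⁻¹ := map_inv₀ (MulSemiringAction.toRingHom G E g) a
    have h3 : g • (φ a)⁻¹ = (g • φ a)⁻¹ := map_inv₀ (MulSemiringAction.toRingHom G E' g) _
    rw [map_inv₀, h3, ha, h2, map_inv₀]
  | mul a b _ _ ha hb => rw [map_mul, smul_mul', smul_mul', map_mul, ha, hb]

/-- The matrices of a semilinear action. -/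
theorem exists_matrices {K M G E ι : Type u} [Field K] [Field M] [Algebra K M] [Group G]
    [MulSemiringAction G M] [Field E] [Algebra M E] [Algebra K E] [MulSemiringAction G E]
    [Fintype ι] [DecidableEq ι] {x : ι → E} (H : SemExt K M G E ι x) :
    ∃ A : G → Matrix ι ι M, A 1 = 1 ∧ (∀ g h, A (g * h) = A g * (A h).map fun a => g • a) ∧
      ∀ (g : G) (s : ι), g • x s = ∑ t, algebraMap M E (A g t s) * x t := by
  have h1 : ∀ (g : G) (s : ι), ∃ c : ι → M, ∑ t, c t • x t = g • x s := fun g s =>
    (Submodule.mem_span_range_iff_exists_fun M).mp (H.lin g s)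
  choose c hc using h1
  have hli : LinearIndependent M x := H.ind.linearIndependent
  have huniq : ∀ c d : ι → M, ∑ t, c t • x t = ∑ t, d t • x t → c = d := by
    intro c d h
    funext t
    have h2 := (Fintype.linearIndependent_iff.mp hli) (fun t => c t - d t) (by
      simp only [sub_smul, sum_sub_distrib, h, sub_self]) t
    exact sub_eq_zero.mp h2
  refine ⟨fun g => Matrix.of fun t s => c g s t, ?_, fun g h => ?_, fun g s => ?_⟩
  · ext t s
    change c 1 s t = _
    have h2 := huniq (c 1 s) (fun t => (1 : Matrix ι ι M) t s) (by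
      rw [hc, one_smul]
      simp [Matrix.one_apply])
    exact congrFun h2 t
  · ext t s
    rw [Matrix.mul_apply]
    change c (g * h) s t = ∑ u, c g u t * (g • c h s u)
    have h2 := huniq (c (g * h) s) (fun t => ∑ u, c g u t * g • c h s u) (by
      rw [hc, mul_smul, ← hc h s, smul_sum]
      have h3 : ∀ u, g • (c h s u • x u) = ∑ t, (c g u t * g • c h s u) • x t := by
        intro u
        rw [Algebra.smul_def, smul_mul', H.act, ← hc g u, mul_sum]
        refine sum_congr rfl fun t _ => ?_
        rw [Algebra.smul_def, Algebra.smul_def, map_mul]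
        ring
      simp_rw [h3]
      rw [sum_comm]
      exact sum_congr rfl fun t _ => (sum_smul).symm)
    exact congrFun h2 t
  · rw [← hc]
    exact sum_congr rfl fun t _ => Algebra.smul_def _ _

open scoped IntermediateField.algebraAdjoinAdjoin in
lemma algInd_of_trdeg {E E' ι : Type u} [Field E] [Field E'] [Algebra E E'] [Finite ι]
    {y : ι → E'} (hgen : IntermediateField.adjoin E (Set.range y) = ⊤)
    (hcard : Cardinal.mk ι ≤ Algebra.trdeg E E') : AlgebraicIndependent E y := by
  have h2 : Algebra.IsAlgebraic (Algebra.adjoin E (Set.range y)) E' := by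
    constructor
    intro z
    have hz : z ∈ IntermediateField.adjoin E (Set.range y) := by rw [hgen]; trivial
    have h1 := (Algebra.IsAlgebraic.isAlgebraic (R := Algebra.adjoin E (Set.range y))
      (⟨z, hz⟩ : IntermediateField.adjoin E (Set.range y)))
    exact h1.algebraMap (A := E')
  exact (Algebra.IsAlgebraic.isTranscendenceBasis_of_lift_le_trdeg_of_finite E y
    (by rw [Cardinal.lift_id, Cardinal.lift_id]; exact hcard)).1

end Pool.Agent.Lib.MP_12adaf_nt.NS
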