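import Pool.Agent.Lib.MP_12adaf_ntNS.N7

/-!
# Independence of the faithful representation
-/

namespace Pool.Agent.Lib.MP_12adaf_nt.NS

universe u

open Finset

open scoped IntermediateField.algebraAdjoinAdjoin in
lemma trdeg_of_gen {E E' ι : Type u} [Field E] [Field E'] [Algebra E E']
    {y : ι → E'} (hy : AlgebraicIndependent E y)
    (hgen : IntermediateField.adjoin E (Set.range y) = ⊤) :
    Algebra.trdeg E E' = Cardinal.mk ι := by
  have h2 : Algebra.IsAlgebraic (Algebra.adjoin E (Set.range y)) E' := by
    constructor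
    intro z
    have hz : z ∈ IntermediateField.adjoin E (Set.range y) := by rw [hgen]; trivial
    have h1 := (Algebra.IsAlgebraic.isAlgebraic (R := Algebra.adjoin E (Set.range y))
      (⟨z, hz⟩ : IntermediateField.adjoin E (Set.range y)))
    exact h1.algebraMap (A := E')
  exact (hy.isTranscendenceBasis_iff_isAlgebraic.mpr h2).cardinalMk_eq_trdeg.symm

/-- The stable rationality of the field of invariants does not depend on the faithful semilinear
extension. -/
theorem change_rep {K M G Ea ιa Eb ιb : Type u} [Field K] [Field M] [CharZero M] [Algebra K M]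
    [Group G] [Finite G] [MulSemiringAction G M] [SMulCommClass G K M]
    [Field Ea] [Algebra M Ea] [Algebra K Ea] [MulSemiringAction G Ea] [Finite ιa]
    [Field Eb] [Algebra M Eb] [Algebra K Eb] [MulSemiringAction G Eb] [Finite ιb]
    {xa : ιa → Ea} {xb : ιb → Eb} (Ha : SemExt K M G Ea ιa xa) (Hb : SemExt K M G Eb ιb xb)
    (Fa : IntermediateField K Ea) (hFa : ∀ z, z ∈ Fa ↔ ∀ g : G, g • z = z)
    (Fb : IntermediateField K Eb) (hFb : ∀ z, z ∈ Fb ↔ ∀ g : G, g • z = z)
    (h : IsStablyRational K Fa) : IsStablyRational K Fb := by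
  classical
  cases nonempty_fintype ιa
  cases nonempty_fintype ιb
  have _ := Ha.tower
  have _ := Hb.tower
  have : CharZero Ea := charZero_of_injective_algebraMap (algebraMap M Ea).injective
  have : CharZero Eb := charZero_of_injective_algebraMap (algebraMap M Eb).injective
  obtain ⟨A, hA1, hAm, hAx⟩ := exists_matrices Hb
  obtain ⟨E2, _, _, _, X, hXi, hXg, hact2, hX⟩ := exists_matrix_ext (E := Ea) (G := G)
    (fun g => (A g).map (algebraMap M Ea)) (by simp [hA1]) (fun g h => by
      ext s t
      simp only [hAm, Matrix.map_apply, Matrix.mul_apply, map_sum, map_mul, Ha.act])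
  let algM : Algebra M E2 := ((algebraMap Ea E2).comp (algebraMap M Ea)).toAlgebra
  let algK : Algebra K E2 := ((algebraMap Ea E2).comp (algebraMap K Ea)).toAlgebra
  have tMa : IsScalarTower M Ea E2 := IsScalarTower.of_algebraMap_eq fun a => rfl
  have tKa : IsScalarTower K Ea E2 := IsScalarTower.of_algebraMap_eq fun a => rfl
  have hM2 : ∀ m : M, algebraMap M E2 m = algebraMap Ea E2 (algebraMap M Ea m) := fun _ => rfl
  have hK2 : ∀ m : K, algebraMap K E2 m = algebraMap Ea E2 (algebraMap K Ea m) := fun _ => rfl
  have hactM : ∀ (g : G) (m : M), g • algebraMap M E2 m = algebraMap M E2 (g • m) := by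
    intro g m
    rw [hM2, hM2, hact2, Ha.act]
  have hactK : ∀ (g : G) (a : K), g • algebraMap K E2 a = algebraMap K E2 a := by
    intro g a
    rw [hK2, hact2, Ha.smul_K]
  let F2 := fixF K G hactK
  -- the first extension
  have h1 : IsStablyRational K Fa ↔ IsStablyRational K F2 := by
    refine noName_iff hact2 Ha.faith hXi hXg (fun g s => ?_) Fa hFa F2 (fun z => mem_fixF)
    rw [hX]
    exact Submodule.sum_mem _ fun t _ => by
      rw [← Algebra.smul_def]
      exact Submodule.smul_mem _ _ (Submodule.subset_span ⟨t, rfl⟩)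
  -- the embedding
  have hXM : AlgebraicIndependent M X :=
    hXi.restrictScalars (algebraMap M Ea).injective
  obtain ⟨φ, hφx, hφg⟩ := exists_embedding (E := Eb) (E' := E2) Hb.act hactM Hb.ind Hb.gen hXM
    (A := A) hAx (fun g s => by rw [hX]; rfl)
  let algb : Algebra Eb E2 := φ.toRingHom.toAlgebra
  have hb2 : ∀ z : Eb, algebraMap Eb E2 z = φ z := fun _ => rfl
  have tMb : IsScalarTower M Eb E2 := IsScalarTower.of_algebraMap_eq fun a => by
    rw [hb2, AlgHom.commutes]
  have tKb : IsScalarTower K Eb E2 := IsScalarTower.of_algebraMap_eq fun a => by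
    rw [hb2, IsScalarTower.algebraMap_apply K M Eb, AlgHom.commutes, hM2, hK2,
      IsScalarTower.algebraMap_apply K M Ea]
  let y : ιa → E2 := fun i => algebraMap Ea E2 (xa i)
  have hgen : IntermediateField.adjoin Eb (Set.range y) = ⊤ := by
    rw [eq_top_iff]
    rintro z -
    have hM' : ∀ m : M, algebraMap M E2 m ∈ IntermediateField.adjoin Eb (Set.range y) := by
      intro m
      rw [IsScalarTower.algebraMap_apply M Eb E2]
      exact IntermediateField.algebraMap_mem _ _
    have ha' : ∀ a : Ea, algebraMap Ea E2 a ∈ IntermediateField.adjoin Eb (Set.range y) := by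
      intro a
      have ha : a ∈ IntermediateField.adjoin M (Set.range xa) := by rw [Ha.gen]; trivial
      induction ha using IntermediateField.adjoin_induction with
      | mem z hz =>
        obtain ⟨s, rfl⟩ := hz
        exact IntermediateField.subset_adjoin _ _ ⟨s, rfl⟩
      | algebraMap m => exact hM' m
      | add a b _ _ ha hb => rw [map_add]; exact add_mem ha hb
      | inv a _ ha => rw [map_inv₀]; exact inv_mem ha
      | mul a b _ _ ha hb => rw [map_mul]; exact mul_mem ha hb
    have hz : z ∈ IntermediateField.adjoin Ea (Set.range X) := by rw [hXg]; trivial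
    induction hz using IntermediateField.adjoin_induction with
    | mem z hz =>
      obtain ⟨s, rfl⟩ := hz
      rw [← hφx, ← hb2]
      exact IntermediateField.algebraMap_mem _ _
    | algebraMap m => exact ha' m
    | add a b _ _ ha hb => exact add_mem ha hb
    | inv a _ ha => exact inv_mem ha
    | mul a b _ _ ha hb => exact mul_mem ha hb
  have hcard : Cardinal.mk ιa ≤ Algebra.trdeg Eb E2 := by
    have e1 := trdeg_of_gen Ha.ind Ha.gen
    have e2 := trdeg_of_gen Hb.ind Hb.gen
    have e3 := trdeg_of_gen hXi hXg
    have e4 := trdeg_add_eq M Ea (A := E2)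
    have e5 := trdeg_add_eq M Eb (A := E2)
    rw [e1, e3] at e4
    rw [e2, ← e4] at e5
    exact (Cardinal.eq_of_add_eq_add_left (e5.trans (add_comm _ _))
      (Cardinal.mk_lt_aleph0 (α := ιb))).ge
  have hind : AlgebraicIndependent Eb y := algInd_of_trdeg hgen hcard
  have hacte : ∀ (g : G) (a : Eb), g • algebraMap Eb E2 a = algebraMap Eb E2 (g • a) := by
    intro g a
    rw [hb2, hb2, hφg]
  have h2 : IsStablyRational K Fb ↔ IsStablyRational K F2 := by
    refine noName_iff hacte Hb.faith hind hgen (fun g s => ?_) Fb hFb F2 (fun z => mem_fixF)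
    have h3 : ∀ v ∈ Submodule.span M (Set.range xa),
        algebraMap Ea E2 v ∈ Submodule.span Eb (Set.range y) := by
      intro v hv
      induction hv using Submodule.span_induction with
      | mem v hv =>
        obtain ⟨i, rfl⟩ := hv
        exact Submodule.subset_span ⟨i, rfl⟩
      | zero => rw [map_zero]; exact zero_mem _
      | add v w _ _ hv hw => rw [map_add]; exact add_mem hv hw
      | smul m v _ hv =>
        rw [Algebra.smul_def, map_mul, ← hM2, IsScalarTower.algebraMap_apply M Eb E2,
          ← Algebra.smul_def]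
        exact Submodule.smul_mem _ _ hv
    change g • algebraMap Ea E2 (xa s) ∈ _
    rw [hact2]
    exact h3 _ (Ha.lin g s)
  exact h2.2 (h1.1 h)

end Pool.Agent.Lib.MP_12adaf_nt.NS
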