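import Pool.Agent.Lib.MP_12adaf_ntNS.N7b

/-!
# The induction step: auxiliary extensions
-/

namespace Pool.Agent.Lib.MP_12adaf_nt.NS

universe u

open Finset

/-- Fields of invariants that are purely transcendental over a smaller field of invariants. -/
theorem sr_fixed_iff {K G E E' ι : Type u} [Field K] [Group G] [Field E]
    [Field E'] [Algebra K E] [Algebra E E'] [Algebra K E'] [IsScalarTower K E E']
    [MulSemiringAction G E] [MulSemiringAction G E'] [Finite ι]
    (hact : ∀ (g : G) (a : E), g • algebraMap E E' a = algebraMap E E' (g • a))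
    (F : IntermediateField K E) (hF : ∀ z, z ∈ F ↔ ∀ g : G, g • z = z)
    (F' : IntermediateField K E') (hF' : ∀ z, z ∈ F' ↔ ∀ g : G, g • z = z) {t : ι → E'}
    (ht1 : ∀ (g : G) (i : ι), g • t i = t i) (ht2 : AlgebraicIndependent F t)
    (ht3 : ∀ z : E', (∀ g : G, g • z = z) → z ∈ IntermediateField.adjoin F (Set.range t)) :
    IsStablyRational K F ↔ IsStablyRational K F' := by
  let f : F →+* F' := ((algebraMap E E').comp (algebraMap F E)).codRestrict F' fun a =>
    (hF' _).2 fun g => by
      change g • algebraMap E E' (a : E) = algebraMap E E' (a : E)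
      rw [hact, (hF a).1 a.2 g]
  let := f.toAlgebra
  have h3 : IsScalarTower K F F' := IsScalarTower.of_algebraMap_eq fun a => by
    apply Subtype.ext
    exact IsScalarTower.algebraMap_apply K E E' a
  have h4 : IsScalarTower F F' E' := IsScalarTower.of_algebraMap_eq fun a => rfl
  let t' : ι → F' := fun i => ⟨t i, (hF' _).2 fun g => ht1 g i⟩
  have h5 : AlgebraicIndependent F t' :=
    AlgebraicIndependent.of_comp (IsScalarTower.toAlgHom F F' E') ht2
  have h6 : IntermediateField.adjoin F (Set.range t') = ⊤ := by
    rw [eq_top_iff]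
    intro z _
    have h7 : (z : E') ∈ IntermediateField.adjoin F (Set.range t) := ht3 z ((hF' _).1 z.2)
    have h8 : Set.range t = (IsScalarTower.toAlgHom F F' E') '' Set.range t' := by
      rw [← Set.range_comp]
      rfl
    rw [h8, ← IntermediateField.adjoin_map] at h7
    obtain ⟨y, hy, hyz⟩ := h7
    have h9 : y = z := Subtype.ext hyz
    rw [← h9]
    exact hy
  exact stablyRational_iff' h5 h6

/-- The regular extension of a field with an action of a finite group. -/
theorem exists_regular_ext {K M G : Type u} [Field K] [Field M] [Algebra K M]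
    [Group G] [Finite G] [MulSemiringAction G M] :
    ∃ (E : Type u) (_ : Field E) (_ : Algebra M E) (_ : Algebra K E) (_ : MulSemiringAction G E)
      (X : G → E), SemExt K M G E G X := by
  classical
  cases nonempty_fintype G
  obtain ⟨E, _, _, _, X, hX1, hX2, hact, hX⟩ := exists_matrix_ext (E := M) (G := G) (σ := G)
    (fun g => Matrix.of fun t s => if t = g * s then 1 else 0) (by
      ext t s
      simp [Matrix.one_apply]) (fun g h => by
      ext t s
      simp only [Matrix.of_apply, Matrix.mul_apply, Matrix.map_apply, apply_ite, smul_one,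
        smul_zero, mul_one, mul_zero]
      rw [Finset.sum_ite_eq' univ (h * s)]
      simp [mul_assoc])
  have hX' : ∀ g s : G, g • X s = X (g * s) := by
    intro g s
    rw [hX]
    simp
  let algK : Algebra K E := ((algebraMap M E).comp (algebraMap K M)).toAlgebra
  refine ⟨E, _, _, algK, _, X, ⟨IsScalarTower.of_algebraMap_eq fun _ => rfl, hact, hX1, hX2,
    fun g s => ?_, fun g hg => ?_⟩⟩
  · rw [hX']
    exact Submodule.subset_span ⟨_, rfl⟩
  · have h1 := hg (X 1)
    rw [hX', mul_one] at h1
    exact hX1.injective h1

/-- The block extension. -/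
theorem exists_block_ext {M G B : Type u} {W : Type} [Field M] [CharZero M] [Group G]
    [MulSemiringAction G M] [Finite B] [MulAction G B] [Group W] {d : ℕ}
    (ρ : W →* Matrix (Fin d) (Fin d) ℚ) (κ : G → B → W)
    (hκ : ∀ g h b, κ (g * h) b = κ g (h • b) * κ h b) :
    ∃ (E : Type u) (_ : Field E) (_ : Algebra M E) (_ : MulSemiringAction G E)
      (X : B → Fin d → E),
      AlgebraicIndependent M (fun p : B × Fin d => X p.1 p.2) ∧
      IntermediateField.adjoin M (Set.range fun p : B × Fin d => X p.1 p.2) = ⊤ ∧
      (∀ (g : G) (a : M), g • algebraMap M E a = algebraMap M E (g • a)) ∧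
      ∀ (g : G) (b : B) (i : Fin d),
        g • X b i = ∑ j, algebraMap M E ((ρ (κ g b) j i : ℚ) : M) * X (g • b) j := by
  classical
  cases nonempty_fintype B
  have hκ1 : ∀ b, κ 1 b = 1 := by
    intro b
    have h := hκ 1 1 b
    rw [one_smul, mul_one] at h
    exact (mul_eq_left.1 h.symm)
  have hrat : ∀ (g : G) (q : ℚ), g • (q : M) = q := fun g q =>
    map_ratCast (MulSemiringAction.toRingHom G M g) q
  obtain ⟨E, _, _, _, X, hX1, hX2, hact, hX⟩ := exists_matrix_ext (E := M) (G := G)
    (σ := B × Fin d)
    (fun g => Matrix.of fun t s => if t.1 = g • s.1 then ((ρ (κ g s.1) t.2 s.2 : ℚ) : M) else 0)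
    (by
      ext ⟨c, j⟩ ⟨b, i⟩
      simp only [Matrix.of_apply, one_smul, hκ1, map_one, Matrix.one_apply, Prod.mk.injEq]
      by_cases h1 : c = b <;> by_cases h2 : j = i <;> simp [h1, h2])
    (fun g h => by
      ext ⟨c, j⟩ ⟨b, i⟩
      simp only [Matrix.of_apply, Matrix.mul_apply, Matrix.map_apply, Fintype.sum_prod_type]
      rw [Finset.sum_eq_single (h • b)]
      · simp only [if_true, hrat, mul_smul]
        by_cases h1 : c = g • h • b
        · simp only [h1, if_true]
          rw [hκ, map_mul, Matrix.mul_apply]
          push_cast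
          rfl
        · simp [h1]
      · intro c' _ hc'
        refine sum_eq_zero fun j' _ => ?_
        simp [hc']
      · intro h
        exact absurd (mem_univ _) h)
  refine ⟨E, _, _, _, fun b i => X (b, i), hX1, hX2, hact, fun g b i => ?_⟩
  rw [hX, Fintype.sum_prod_type, Finset.sum_eq_single (g • b)]
  · simp
  · intro c _ hc
    refine sum_eq_zero fun j' _ => ?_
    simp [hc]
  · intro h
    exact absurd (mem_univ _) h

/-- Towers of semilinear extensions. -/
theorem SemExt.tower' {K M M1 G E ι1 ι2 : Type u} [Field K] [Field M] [Algebra K M] [Group G]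
    [MulSemiringAction G M] [Field M1] [Algebra M M1] [MulSemiringAction G M1]
    [Field E] [Algebra M1 E] [Algebra M E] [Algebra K E] [IsScalarTower M M1 E]
    [IsScalarTower K M E] [MulSemiringAction G E] {X1 : ι1 → M1} {X : ι2 → E}
    (hact1 : ∀ (g : G) (m : M), g • algebraMap M M1 m = algebraMap M M1 (g • m))
    (hact2 : ∀ (g : G) (m : M1), g • algebraMap M1 E m = algebraMap M1 E (g • m))
    (hind1 : AlgebraicIndependent M X1) (hind2 : AlgebraicIndependent M1 X)
    (hgen1 : IntermediateField.adjoin M (Set.range X1) = ⊤)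
    (hgen2 : IntermediateField.adjoin M1 (Set.range X) = ⊤)
    (hlin1 : ∀ (g : G) i, g • X1 i ∈ Submodule.span M (Set.range X1))
    (hlin2 : ∀ (g : G) i, g • X i ∈ Submodule.span M (Set.range X))
    (hfaith : ∀ g : G, (∀ z : E, g • z = z) → g = 1) :
    SemExt K M G E (ι2 ⊕ ι1) (Sum.elim X (algebraMap M1 E ∘ X1)) where
  tower := inferInstance
  act g m := by
    rw [IsScalarTower.algebraMap_apply M M1 E, hact2, hact1,
      ← IsScalarTower.algebraMap_apply M M1 E]
  ind := hind1.sumElim_comp hind2
  gen := by
    set R := Set.range (Sum.elim X (algebraMap M1 E ∘ X1)) with hR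
    have h1 : ∀ a : M1, algebraMap M1 E a ∈ IntermediateField.adjoin M R := by
      intro a
      have ha : a ∈ IntermediateField.adjoin M (Set.range X1) := by rw [hgen1]; trivial
      induction ha using IntermediateField.adjoin_induction with
      | mem z hz =>
        obtain ⟨s, rfl⟩ := hz
        exact IntermediateField.subset_adjoin _ _ ⟨Sum.inr s, rfl⟩
      | algebraMap m =>
        rw [← IsScalarTower.algebraMap_apply M M1 E]
        exact IntermediateField.algebraMap_mem _ _
      | add a b _ _ ha hb => rw [map_add]; exact add_mem ha hb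
      | inv a _ ha => rw [map_inv₀]; exact inv_mem ha
      | mul a b _ _ ha hb => rw [map_mul]; exact mul_mem ha hb
    rw [eq_top_iff]
    rintro z -
    have hz : z ∈ IntermediateField.adjoin M1 (Set.range X) := by rw [hgen2]; trivial
    induction hz using IntermediateField.adjoin_induction with
    | mem z hz =>
      obtain ⟨s, rfl⟩ := hz
      exact IntermediateField.subset_adjoin _ _ ⟨Sum.inl s, rfl⟩
    | algebraMap m => exact h1 m
    | add a b _ _ ha hb => exact add_mem ha hb
    | inv a _ ha => exact inv_mem ha
    | mul a b _ _ ha hb => exact mul_mem ha hb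
  lin g := by
    have h2 : ∀ v ∈ Submodule.span M (Set.range X),
        v ∈ Submodule.span M (Set.range (Sum.elim X (algebraMap M1 E ∘ X1))) := fun v hv =>
      Submodule.span_mono (by rintro _ ⟨i, rfl⟩; exact ⟨Sum.inl i, rfl⟩) hv
    have h3 : ∀ v ∈ Submodule.span M (Set.range X1),
        algebraMap M1 E v ∈ Submodule.span M (Set.range (Sum.elim X (algebraMap M1 E ∘ X1))) := by
      intro v hv
      induction hv using Submodule.span_induction with
      | mem v hv =>
        obtain ⟨i, rfl⟩ := hv
        exact Submodule.subset_span ⟨Sum.inr i, rfl⟩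
      | zero => rw [map_zero]; exact zero_mem _
      | add v w _ _ hv hw => rw [map_add]; exact add_mem hv hw
      | smul m v _ hv =>
        rw [Algebra.smul_def, map_mul, ← IsScalarTower.algebraMap_apply M M1 E,
          ← Algebra.smul_def]
        exact Submodule.smul_mem _ _ hv
    rintro (i | i)
    · exact h2 _ (hlin2 g i)
    · change g • algebraMap M1 E (X1 i) ∈ _
      rw [hact2]
      exact h3 _ (hlin1 g i)
  faith := hfaith

end Pool.Agent.Lib.MP_12adaf_nt.NS
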