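import Pool.Agent.Lib.MP_12adaf_ntNS.N7c

/-!
# The stable Noether problem and composition factors: the induction
-/

namespace Pool.Agent.Lib.MP_12adaf_nt.NS

universe u

open Finset

/-- The kernel of the action of a group on a field. -/
def kerSub (M G : Type u) [Field M] [Group G] [MulSemiringAction G M] : Subgroup G :=
  (MulSemiringAction.toRingAut G M).ker

instance {M G : Type u} [Field M] [Group G] [MulSemiringAction G M] : (kerSub M G).Normal := by
  unfold kerSub
  infer_instance

lemma mem_kerSub {M G : Type u} [Field M] [Group G] [MulSemiringAction G M] {g : G} :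
    g ∈ kerSub M G ↔ ∀ m : M, g • m = m := by
  rw [kerSub, MonoidHom.mem_ker]
  constructor
  · intro h m
    exact DFunLike.congr_fun h m
  · intro h
    exact RingEquiv.ext h

/-- The action of the quotient. -/
theorem exists_quotient_action {M G : Type u} [Field M] [Group G] [MulSemiringAction G M]
    (N : Subgroup G) [N.Normal] (h : N ≤ kerSub M G) :
    ∃ _ : MulSemiringAction (G ⧸ N) M, ∀ (g : G) (m : M), (g : G ⧸ N) • m = g • m := by
  let f : G ⧸ N →* RingAut M := QuotientGroup.lift N (MulSemiringAction.toRingAut G M) h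
  refine ⟨MulSemiringAction.compHom M f, fun g m => rfl⟩

/-- The kernel of the action of the quotient. -/
theorem kerSub_quotient {C : (S : Type u) → [Group S] → Prop}
    (hiso : ∀ (S T : Type u) [Group S] [Group T], (S ≃* T) → C S → C T)
    (hsimple : ∀ (S : Type u) [Group S], C S → IsSimpleGroup S)
    {M G : Type u} [Field M] [Group G] [MulSemiringAction G M]
    (hG : HasFactors C (kerSub M G)) (N : Subgroup G) [N.Normal] [MulSemiringAction (G ⧸ N) M]
    (hN : ∀ (g : G) (m : M), (g : G ⧸ N) • m = g • m) : HasFactors C (kerSub M (G ⧸ N)) := by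
  -- the projection of the kernel
  let f : kerSub M G →* kerSub M (G ⧸ N) :=
    ((QuotientGroup.mk' N).comp (kerSub M G).subtype).codRestrict _ fun g =>
      mem_kerSub.2 fun m => by
        change ((g : G) : G ⧸ N) • m = m
        rw [hN]
        exact mem_kerSub.1 g.2 m
  have hf : Function.Surjective f := by
    rintro ⟨q, hq⟩
    obtain ⟨g, rfl⟩ := QuotientGroup.mk_surjective q
    refine ⟨⟨g, mem_kerSub.2 fun m => ?_⟩, Subtype.ext rfl⟩
    rw [← hN]
    exact mem_kerSub.1 hq m
  exact (hG.quotient hiso hsimple f.ker).of_equiv hiso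
    (QuotientGroup.quotientKerEquivOfSurjective f hf)

/-- The base case: the group acts faithfully on `M`. -/
theorem goal_of_faithful {K M G : Type u} [Field K] [Field M] [CharZero M] [Algebra K M]
    [Group G] [Finite G] [MulSemiringAction G M] [SMulCommClass G K M]
    [Algebra.IsInvariant K M G] (h : ∀ g : G, (∀ m : M, g • m = m) → g = 1) : Goal K M G := by
  intro E ι _ _ _ _ _ x H F hF
  have _ := H.tower
  refine (noName_iff (G := G) H.act h H.ind H.gen H.lin ⊥ (fun z => ?_) F hF).1
    isStablyRational_bot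
  rw [IntermediateField.mem_bot]
  constructor
  · rintro ⟨k, rfl⟩ g
    exact smul_algebraMap g k
  · intro hz
    exact Algebra.IsInvariant.isInvariant (A := K) (G := G) z hz

/-- **The induction.** -/
theorem goal_of_factors {C : (S : Type u) → [Group S] → Prop}
    (hiso : ∀ (S T : Type u) [Group S] [Group T], (S ≃* T) → C S → C T)
    (hgood : ∀ (S : Type u) [Group S], C S → IsGood S) (n : ℕ) :
    ∀ (K M G : Type u) [Field K] [Field M] [CharZero M] [Algebra K M]
    [Group G] [Finite G] [MulSemiringAction G M] [SMulCommClass G K M]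
    [Algebra.IsInvariant K M G], Nat.card G = n → HasFactors C (kerSub M G) → Goal K M G := by
  have hsimple : ∀ (S : Type u) [Group S], C S → IsSimpleGroup S := fun S _ h =>
    (hgood S h).simple
  induction n using Nat.strong_induction_on with
  | _ n ih =>
  intro K M G _ _ _ _ _ _ _ _ _ hn hG
  by_cases hker : kerSub M G = ⊥
  · refine goal_of_faithful fun g hg => ?_
    have h1 : g ∈ kerSub M G := mem_kerSub.2 hg
    rwa [hker, Subgroup.mem_bot] at h1
  intro E0 ι0 _ _ _ _ _ x0 H0 F0 hF0
  obtain ⟨N, S, _, r, hNn, hNle, hCS, hr, ⟨e⟩⟩ :=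
    exists_minimal_normal hiso hsimple (kerSub M G) hG hker
  have hS := hgood S hCS
  have _ := hS.simple
  obtain ⟨W, _, _, j, d, ρ, hj, hρ, haut, hcent, hGV⟩ := hS.exists_data
  obtain ⟨act, κ, hκ, hκN⟩ := exists_cocycle hS.noncomm j hj haut hcent N e
  -- the quotient
  obtain ⟨actQ, hQ⟩ := exists_quotient_action N hNle
  have hcomm : SMulCommClass (G ⧸ N) K M := ⟨fun q k m => by
    obtain ⟨g, rfl⟩ := QuotientGroup.mk_surjective q
    rw [hQ, hQ, smul_comm]⟩
  have hinv : Algebra.IsInvariant K M (G ⧸ N) := ⟨fun m hm =>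
    Algebra.IsInvariant.isInvariant (A := K) (G := G) m fun g => by rw [← hQ]; exact hm _⟩
  have hcard : Nat.card (G ⧸ N) < n := by
    rw [← hn]
    have h1 := N.card_mul_index
    have h2 : 1 < Nat.card N := by
      obtain ⟨s, hs⟩ := exists_ne (1 : S)
      have h3 : Nontrivial N := ⟨⟨e.symm fun _ => s, 1, fun h => hs (by
        have h4 := congrArg e h
        rw [e.apply_symm_apply, map_one] at h4
        exact congrFun h4 ⟨0, hr⟩)⟩⟩
      exact Finite.one_lt_card
    have h3 : 0 < Nat.card (G ⧸ N) := Nat.card_pos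
    rw [← Subgroup.index_eq_card] at h3
    rw [← h1, ← Subgroup.index_eq_card]
    nlinarith
  have hGoal : Goal K M (G ⧸ N) :=
    ih _ hcard K M (G ⧸ N) rfl (kerSub_quotient hiso hsimple hG N hQ)
  -- the regular extension of the quotient
  obtain ⟨M1, _, algM1, algK1, actM1, X1, H1⟩ := exists_regular_ext (K := K) (M := M) (G := G ⧸ N)
  have tow1 := H1.tower
  have : CharZero M1 := charZero_of_injective_algebraMap (algebraMap M M1).injective
  let actG1 : MulSemiringAction G M1 := MulSemiringAction.compHom M1 (QuotientGroup.mk' N)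
  have hG1 : ∀ (g : G) (m : M1), g • m = (g : G ⧸ N) • m := fun g m => rfl
  have hKg : ∀ (g : G ⧸ N) (a : K), g • algebraMap K M1 a = algebraMap K M1 a := H1.smul_K
  have hK1 : ∀ (g : G) (a : K), g • algebraMap K M1 a = algebraMap K M1 a := fun g a => by
    rw [hG1, hKg]
  let K' : IntermediateField K M1 := fixF K G hK1
  have hK' : ∀ z, z ∈ K' ↔ ∀ g : G, g • z = z := fun z => mem_fixF
  have hSR1 : IsStablyRational K K' := hGoal M1 (G ⧸ N) X1 H1 K' (fun z => by
    rw [hK']
    constructor
    · intro h q
      obtain ⟨g, rfl⟩ := QuotientGroup.mk_surjective q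
      rw [← hG1, h]
    · intro h g
      rw [hG1, h])
  -- the block extension
  let B := ULift.{u} (Fin r)
  let actB : MulAction G B :=
    { smul := fun g b => ULift.up (g • b.down)
      one_smul := fun b => by
        change ULift.up ((1 : G) • b.down) = b
        rw [one_smul]
      mul_smul := fun g h b => by
        change ULift.up ((g * h) • b.down) = ULift.up (g • h • b.down)
        rw [mul_smul] }
  have hB : ∀ (g : G) (b : B), g • b = ULift.up (g • b.down) := fun _ _ => rfl
  obtain ⟨E, _, algE, actE, X, hX1, hX2, hact, hX⟩ := exists_block_ext (M := M1) (G := G) (B := B)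
    ρ (fun g b => κ g b.down) (fun g h b => hκ g h b.down)
  let algME : Algebra M E := ((algebraMap M1 E).comp (algebraMap M M1)).toAlgebra
  let algKE : Algebra K E := ((algebraMap M1 E).comp (algebraMap K M1)).toAlgebra
  have tMM : IsScalarTower M M1 E := IsScalarTower.of_algebraMap_eq fun _ => rfl
  have tKM : IsScalarTower K M1 E := IsScalarTower.of_algebraMap_eq fun _ => rfl
  have tKM' : IsScalarTower K M E := IsScalarTower.of_algebraMap_eq fun a => by
    change algebraMap M1 E (algebraMap K M1 a) = algebraMap M1 E (algebraMap M M1 _)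
    rw [← IsScalarTower.algebraMap_apply K M M1]
  have : CharZero E := charZero_of_injective_algebraMap (algebraMap M1 E).injective
  have hXE : ∀ (g : G) (b : B) (i : Fin d),
      g • X b i = ∑ j, ((ρ (κ g b.down) j i : ℚ) : E) * X (g • b) j := fun g b i => by
    rw [hX]
    exact sum_congr rfl fun j _ => by rw [map_ratCast]
  have hker1 : ∀ g : G, (∀ m : M1, g • m = m) → g ∈ N := by
    intro g hg
    rw [← QuotientGroup.eq_one_iff]
    refine H1.faith _ fun z => ?_
    rw [← hG1, hg]
  have hker2 : ∀ g : G, g ∈ N → ∀ m : M1, g • m = m := by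
    intro g hg m
    rw [hG1, (QuotientGroup.eq_one_iff g).2 hg, one_smul]
  have hcomm' : SMulCommClass G K' M1 := ⟨fun g f e => by
    change g • ((f : M1) * e) = (f : M1) * g • e
    rw [smul_mul', (hK' f).1 f.2 g]⟩
  have hinv' : Algebra.IsInvariant K' M1 G := ⟨fun b hb => ⟨⟨b, (hK' b).2 hb⟩, rfl⟩⟩
  obtain ⟨t, ht1, ht2, ht3⟩ := hGV (K := K') (M := M1) (E := E) (G := G) (B := B) (x := X)
    (κ := fun g b => κ g b.down) hact hX1 hX2 hXE
    (fun g hg b => by
      have h1 := hκN ⟨g, hker1 g hg⟩ b.down
      refine ⟨?_, ⟨_, h1.2.symm⟩⟩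
      rw [hB]
      exact congrArg ULift.up h1.1)
    (fun τ hτ => by
      choose s hs using hτ
      let ν : N := e.symm fun b => s (ULift.up b)
      refine ⟨ν, hker2 _ ν.2, fun b => ?_⟩
      rw [(hκN ν b.down).2, ← hs b]
      exact congrArg j (congrFun (e.apply_symm_apply _) b.down))
  have hactK : ∀ (g : G) (a : K), g • algebraMap K E a = algebraMap K E a := by
    intro g a
    rw [IsScalarTower.algebraMap_apply K M1 E, hact, hK1]
  let F1 : IntermediateField K E := fixF K G hactK
  have hF1 : ∀ z, z ∈ F1 ↔ ∀ g : G, g • z = z := fun z => mem_fixF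
  have hSR2 : IsStablyRational K F1 :=
    (sr_fixed_iff hact K' hK' F1 hF1 ht1 ht2 ht3).1 hSR1
  -- the extension of `M`
  have hfaith : ∀ g : G, (∀ z : E, g • z = z) → g = 1 := by
    intro g hg
    have h1 : g ∈ N := hker1 g fun m => (algebraMap M1 E).injective (by rw [← hact, hg])
    have h2 : e ⟨g, h1⟩ = 1 := by
      funext b
      apply hj
      rw [← (hκN ⟨g, h1⟩ b).2]
      change κ g b = j 1
      rw [map_one]
      apply hρ
      rw [map_one]
      ext k i
      have h3 := hXE g (ULift.up b) i
      rw [hg, hB, (show g • b = b from (hκN ⟨g, h1⟩ b).1)] at h3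
      have h4 := (Fintype.linearIndependent_iff.1 (hX1.linearIndependent.comp
        (fun i : Fin d => ((ULift.up b : B), i)) (fun _ _ h => (Prod.mk.inj h).2)))
        (fun k => ((ρ (κ g b) k i : ℚ) : M1) - if k = i then 1 else 0) (by
          simp only [sub_smul, sum_sub_distrib, ite_smul, one_smul, zero_smul, sum_ite_eq',
            mem_univ, if_true, Function.comp]
          rw [sub_eq_zero]
          refine Eq.trans ?_ h3.symm
          exact sum_congr rfl fun j _ => by rw [Algebra.smul_def, map_ratCast]) k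
      rw [sub_eq_zero] at h4
      rw [Matrix.one_apply]
      split_ifs at h4 ⊢ with h5
      · exact_mod_cast h4
      · exact_mod_cast h4
    have h3 : (⟨g, h1⟩ : N) = 1 := e.injective (h2.trans (map_one e).symm)
    exact congrArg Subtype.val h3
  have HE : SemExt K M G E ((B × Fin d) ⊕ (G ⧸ N))
      (Sum.elim (fun p : B × Fin d => X p.1 p.2) (algebraMap M1 E ∘ X1)) := by
    refine SemExt.tower' (fun g m => ?_) hact H1.ind hX1 H1.gen hX2 (fun g i => H1.lin _ i)
      (fun g p => ?_) hfaith
    · rw [hG1, H1.act, hQ]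
    · rw [hXE]
      refine Submodule.sum_mem _ fun k _ => ?_
      have h1 : ((ρ (κ g p.1.down) k p.2 : ℚ) : E) * X (g • p.1) k =
          ((ρ (κ g p.1.down) k p.2 : ℚ) : M) • X (g • p.1) k := by
        rw [Algebra.smul_def, map_ratCast]
      rw [h1]
      exact Submodule.smul_mem _ _ (Submodule.subset_span ⟨(g • p.1, k), rfl⟩)
  exact change_rep HE H0 F1 hF1 F0 hF0 hSR2

end Pool.Agent.Lib.MP_12adaf_nt.NS
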