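import Pool.Agent.Lib.MP_12adaf_ntNS.P0t

/-!
# The rotation subgroup of the Weyl group of type `E₆`
-/

namespace Pool.Agent.Lib.MP_12adaf_nt.E6

/-- The rotation subgroup of the Weyl group. -/
def WP : Subgroup W where
  carrier := {w | eZ w = 1}
  mul_mem' := by
    intro u v hu hv
    change eZ (u * v) = 1
    rw [eZ_mul, hu, hv, one_mul]
  one_mem' := eZ_one
  inv_mem' := by
    intro u hu
    change eZ u⁻¹ = 1
    rw [eZ_inv, hu]

lemma mem_WP {w : W} : w ∈ WP ↔ eZ w = 1 := Iff.rfl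

/-- The three weights sum to zero (the three lines form a tritangent trio). -/
def IsTri (a b c : Fin 27) : Prop := ∀ j, wt a j + wt b j + wt c j = 0

instance (a b c : Fin 27) : Decidable (IsTri a b c) := by unfold IsTri; infer_instance

lemma IsTri.unique {a b c d : Fin 27} (h : IsTri a b c) (h' : IsTri a b d) : c = d :=
  wt_inj c d fun j => by have h1 := h j; have h2 := h' j; omega

/-- The Weyl group preserves the relation `IsTri` (it acts linearly). -/
theorem IsTri.smul {a b c : Fin 27} (h : IsTri a b c) (w : W) :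
    IsTri (w • a) (w • b) (w • c) := by
  intro j
  obtain ⟨A, hA⟩ := exists_mat w
  have h3 : ((wt (w • a) j + wt (w • b) j + wt (w • c) j : ℤ) : ℚ) = 0 := by
    push_cast
    rw [← hA, ← hA, ← hA, ← Finset.sum_add_distrib, ← Finset.sum_add_distrib]
    refine Finset.sum_eq_zero fun l _ => ?_
    have h4 : ((wt a l + wt b l + wt c l : ℤ) : ℚ) = 0 := by rw [h]; norm_num
    push_cast at h4
    linear_combination A l j * h4
  exact_mod_cast h3

private lemma IsTri.comm23 {a b c : Fin 27} (h : IsTri a b c) : IsTri a c b := fun j => by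
  have h1 := h j
  omega

private lemma IsTri.ne12 {a b c : Fin 27} (h : IsTri a b c) : a ≠ b := by
  rintro rfl
  exact p0_tri a c h

private lemma IsTri.ne23 {a b c : Fin 27} (h : IsTri a b c) : b ≠ c := by
  rintro rfl
  refine p0_tri b a fun j => ?_
  have h1 := h j
  omega

private lemma IsTri.gg_eq {a b c : Fin 27} (h : IsTri a b c) : gg a b = 0 :=
  (gg_zero_iff a b h.ne12).mpr ⟨c, h⟩

private lemma exists_tri {a b : Fin 27} (h : gg a b = 0) : ∃ c, IsTri a b c := by
  have hab : a ≠ b := by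
    rintro rfl
    rw [gg_self] at h
    norm_num at h
  exact (gg_zero_iff a b hab).mp h

/-- The elements of the normal subgroup `2⁴` of the stabilizer of `a` in the rotation group: the
rotations which fix `a` and map each weight `b` collinear with `a` to `b` or to the third weight of
the trio of `a` and `b`. -/
def InT (a : Fin 27) (w : W) : Prop :=
  eZ w = 1 ∧ w • a = a ∧ ∀ b, gg a b = 0 → w • b = b ∨ IsTri a b (w • b)

theorem InT.one (a : Fin 27) : InT a 1 :=
  ⟨eZ_one, one_smul _ _, fun _ _ => Or.inl (one_smul _ _)⟩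

/-- On a trio of `a`. -/
private lemma InT.pair {a b c : Fin 27} {u : W} (hu : InT a u) (h : IsTri a b c) :
    (u • b = b ∧ u • c = c) ∨ (u • b = c ∧ u • c = b) := by
  have h1 : IsTri a (u • b) (u • c) := by
    have h2 := h.smul u
    rwa [hu.2.1] at h2
  rcases hu.2.2 b h.gg_eq with h3 | h3
  · rw [h3] at h1
    exact Or.inl ⟨h3, h1.unique h⟩
  · have h4 : u • b = c := h3.unique h
    rw [h4] at h1
    exact Or.inr ⟨h4, h1.unique h.comm23⟩

theorem InT.mul {a : Fin 27} {u v : W} (hu : InT a u) (hv : InT a v) : InT a (u * v) := by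
  refine ⟨by rw [eZ_mul, hu.1, hv.1, one_mul], by rw [mul_smul, hv.2.1, hu.2.1], fun b hb => ?_⟩
  obtain ⟨c, hc⟩ := exists_tri hb
  rw [mul_smul]
  rcases hv.pair hc with ⟨h1, h2⟩ | ⟨h1, h2⟩ <;> rcases hu.pair hc with ⟨h3, h4⟩ | ⟨h3, h4⟩
  · exact Or.inl (by rw [h1, h3])
  · exact Or.inr (by rw [h1, h3]; exact hc)
  · exact Or.inr (by rw [h1, h4]; exact hc)
  · exact Or.inl (by rw [h1, h4])

theorem InT.inv {a : Fin 27} {u : W} (hu : InT a u) : InT a u⁻¹ := by
  refine ⟨by rw [eZ_inv, hu.1], by rw [inv_smul_eq_iff, hu.2.1], fun b hb => ?_⟩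
  obtain ⟨c, hc⟩ := exists_tri hb
  rcases hu.pair hc with ⟨h3, h4⟩ | ⟨h3, h4⟩
  · exact Or.inl (by rw [inv_smul_eq_iff, h3])
  · refine Or.inr ?_
    have h5 : u⁻¹ • b = c := by rw [inv_smul_eq_iff, h4]
    rw [h5]
    exact hc

/-- The normal subgroup `2⁴` of the stabilizer of `a` in the rotation group. -/
def TT (a : Fin 27) : Subgroup W where
  carrier := {w | InT a w}
  mul_mem' := fun hu hv => hu.mul hv
  one_mem' := InT.one a
  inv_mem' := fun hu => hu.inv

lemma mem_TT {a : Fin 27} {w : W} : w ∈ TT a ↔ InT a w := Iff.rfl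

/-- An element of the Weyl group which fixes `a` and the ten weights collinear with `a` is trivial
(these weights span, and the action is linear). -/
theorem eq_one_of_fix10 {a : Fin 27} {w : W} (ha : w • a = a) (h : ∀ b, gg a b = 0 → w • b = b) :
    w = 1 := by
  refine W_ext fun c => ?_
  rw [one_smul]
  rcases gg_cases a c with ⟨hc, _⟩ | ⟨hc, _⟩ | ⟨_, rfl⟩
  · exact h c hc
  · refine p0_sep0 a (w • c) ?_ c hc fun d hd => ?_
    · have h1 := gg_smul w a c
      rwa [ha, hc] at h1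
    · have h1 := gg_smul w d c
      rwa [h d hd] at h1
  · exact ha

theorem TT_comm {a : Fin 27} {u v : W} (hu : u ∈ TT a) (hv : v ∈ TT a) : u * v = v * u := by
  have hu' : InT a u := hu
  have hv' : InT a v := hv
  have h1 : (v * u)⁻¹ * (u * v) = 1 := by
    refine eq_one_of_fix10 (a := a) ?_ fun b hb => ?_
    · rw [mul_smul, inv_smul_eq_iff, mul_smul, mul_smul, hv'.2.1, hu'.2.1, hv'.2.1]
    · obtain ⟨c, hc⟩ := exists_tri hb
      rw [mul_smul, inv_smul_eq_iff, mul_smul, mul_smul]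
      rcases hv'.pair hc with ⟨h1, h2⟩ | ⟨h1, h2⟩ <;>
        rcases hu'.pair hc with ⟨h3, h4⟩ | ⟨h3, h4⟩ <;>
        simp only [h1, h2, h3, h4]
  exact (inv_mul_eq_one.mp h1).symm

theorem TT_sq {a : Fin 27} {u : W} (hu : u ∈ TT a) : u * u = 1 := by
  have hu' : InT a u := hu
  refine eq_one_of_fix10 (a := a) ?_ fun b hb => ?_
  · rw [mul_smul, hu'.2.1, hu'.2.1]
  · obtain ⟨c, hc⟩ := exists_tri hb
    rw [mul_smul]
    rcases hu'.pair hc with ⟨h3, h4⟩ | ⟨h3, h4⟩ <;> simp only [h3, h4]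

theorem TT_conj {a : Fin 27} (w : W) {u : W} (hu : u ∈ TT a) : w * u * w⁻¹ ∈ TT (w • a) := by
  have hu' : InT a u := hu
  refine ⟨?_, ?_, fun b hb => ?_⟩
  · rw [eZ_mul, eZ_mul, hu'.1, eZ_inv, mul_one, eZ_sq]
  · rw [mul_smul, inv_smul_smul, mul_smul, hu'.2.1]
  · have h1 : gg a (w⁻¹ • b) = 0 := by
      have h2 := gg_smul w a (w⁻¹ • b)
      rw [smul_inv_smul, hb] at h2
      exact h2.symm
    rw [mul_smul, mul_smul]
    rcases hu'.2.2 _ h1 with h3 | h3
    · exact Or.inl (by rw [h3, smul_inv_smul])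
    · refine Or.inr ?_
      have h4 := h3.smul w
      rwa [smul_inv_smul] at h4

private lemma mem_TT_oA {i j : Fin 36} (h : cc i j = 0) : sW i * sW j ∈ TT (oA i j) := by
  obtain ⟨h1, h2⟩ := p0_pair i j h
  refine ⟨?_, ?_, fun b hb => ?_⟩
  · rw [eZ_mul, eZ_sW, eZ_sW]
    norm_num
  · rw [mul_smul, sW_smul, sW_smul, h1]
  · rw [mul_smul, sW_smul, sW_smul]
    exact h2 b hb

/-- The product of the reflections in two orthogonal roots is in one of the groups `TT a`
(kernel-checked: `∀ i j, cc i j = 0 → ∃ a, …`). -/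
theorem exists_mem_TT {i j : Fin 36} (h : cc i j = 0) : ∃ a, sW i * sW j ∈ TT a :=
  ⟨_, mem_TT_oA h⟩

private lemma TT_orbit1 {a b c : Fin 27} (hb : gg a b = 1) (hc : gg a c = 1)
    (h : gg b c = 1) : ∃ u ∈ TT a, u • b = c := by
  obtain ⟨h1, h2, h3⟩ := p0_orb1 a b hb c hc h
  refine ⟨sW (ix b c) * sW (oJ a (ix b c)), ?_, ?_⟩
  · have h4 := mem_TT_oA h1
    rwa [h2] at h4
  · rw [mul_smul, sW_smul, sW_smul, h3]

/-- `TT a` is transitive on the sixteen weights `b` with `gg a b = 1` (one or two of the products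
`sW i * sW j`, `cc i j = 0`, which are in `TT a`, move `b` to `c`). -/
theorem TT_orbit {a b c : Fin 27} (hb : gg a b = 1) (hc : gg a c = 1) :
    ∃ u ∈ TT a, u • b = c := by
  rcases gg_cases b c with ⟨h, _⟩ | ⟨h, _⟩ | ⟨_, rfl⟩
  · obtain ⟨d, h1, h2, h3⟩ := p0_orb2 a b hb c hc h
    obtain ⟨u, hu, hu'⟩ := TT_orbit1 hb h1 h2
    obtain ⟨v, hv, hv'⟩ := TT_orbit1 h1 hc h3
    exact ⟨v * u, mul_mem hv hu, by rw [mul_smul, hu', hv']⟩
  · exact TT_orbit1 hb hc h
  · exact ⟨1, one_mem _, one_smul _ _⟩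

/-- `TT a` exchanges the two other weights of each trio of `a`. -/
theorem TT_orbit0 {a b c : Fin 27} (h : IsTri a b c) : ∃ u ∈ TT a, u • b = c := by
  obtain ⟨i, h1, h2, h3⟩ := p0_orb0 a b h.gg_eq
  have h4 := mem_TT_oA h1
  rw [h2] at h4
  have h5 : InT a (sW i * sW (oJ a i)) := h4
  refine ⟨_, h4, ?_⟩
  rcases h5.pair h with ⟨h6, _⟩ | ⟨h6, _⟩
  · rw [mul_smul, sW_smul, sW_smul] at h6
    exact absurd h6 h3
  · exact h6

private lemma TT_free {a b : Fin 27} (hb : gg a b = 1) {u : W} (hu : u ∈ TT a)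
    (h : u • b = b) : u = 1 := by
  have h1 : ∀ c, gg a c = 1 → u • c = c := by
    intro c hc
    obtain ⟨t, ht, ht'⟩ := TT_orbit hb hc
    rw [← ht', ← mul_smul, TT_comm hu ht, mul_smul, h]
  have h0 : u • a = a := hu.2.1
  refine W_ext fun c => ?_
  rw [one_smul]
  rcases gg_cases a c with ⟨hc, _⟩ | ⟨hc, _⟩ | ⟨_, rfl⟩
  · refine p0_sep1 a (u • c) ?_ c hc fun d hd => ?_
    · have h2 := gg_smul u a c
      rwa [h0, hc] at h2
    · have h2 := gg_smul u d c
      rwa [h1 d hd] at h2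
  · exact h1 c hc
  · exact h0

/-- `TT a` has order 16: it acts simply transitively on the sixteen weights `b` with
`gg a b = 1` (if `u` in `TT a` fixes one such `b` it is trivial: it fixes a reflection, or
kernel-checked). -/
theorem card_TT (a : Fin 27) : Nat.card (TT a) = 16 := by
  obtain ⟨b, hb⟩ := p0_some a
  let S : Finset (Fin 27) := Finset.univ.filter fun b => gg a b = 1
  have hS : S.card = 16 := p0_card a
  have hmem : ∀ u : TT a, (u : W) • b ∈ S := by
    intro u
    refine Finset.mem_filter.mpr ⟨Finset.mem_univ _, ?_⟩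
    have h1 := gg_smul (u : W) a b
    have h2 : InT a (u : W) := u.2
    rwa [h2.2.1, hb] at h1
  let f : TT a → S := fun u => ⟨(u : W) • b, hmem u⟩
  have hf : Function.Bijective f := by
    constructor
    · intro u v huv
      have h1 : (u : W) • b = (v : W) • b := Subtype.ext_iff.mp huv
      have h2 : (v : W)⁻¹ * (u : W) = 1 := by
        refine TT_free hb (mul_mem (inv_mem v.2) u.2) ?_
        rw [mul_smul, h1, inv_smul_smul]
      exact Subtype.ext (inv_mul_eq_one.mp h2).symm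
    · rintro ⟨c, hc⟩
      obtain ⟨u, hu, hu'⟩ := TT_orbit hb (Finset.mem_filter.mp hc).2
      exact ⟨⟨u, hu⟩, Subtype.ext hu'⟩
  rw [Nat.card_eq_of_bijective f hf, Nat.card_eq_fintype_card, Fintype.card_coe, hS]

theorem eq_of_fix_TT {a b : Fin 27} (h : ∀ u ∈ TT a, u • b = b) : b = a := by
  rcases gg_cases a b with ⟨h1, _⟩ | ⟨h1, _⟩ | ⟨_, h1⟩
  · obtain ⟨c, hc⟩ := exists_tri h1
    obtain ⟨u, hu, hu'⟩ := TT_orbit0 hc
    rw [h u hu] at hu'
    exact absurd hu' hc.ne23
  · obtain ⟨c, hc, hcb⟩ := p0_other a b h1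
    obtain ⟨u, hu, hu'⟩ := TT_orbit h1 hc
    rw [h u hu] at hu'
    exact absurd hu'.symm hcb
  · exact h1.symm

/-- The products of reflections in orthogonal roots generate the rotation group: by `closure_sW` it
is generated by the products `sW i * sW j`; if `i`, `j` are not orthogonal there is `k`
orthogonal to both (kernel-checked), and `sW i * sW j = (sW i * sW k) * (sW k * sW j)`. -/
theorem closure_orth : Subgroup.closure {w : W | ∃ i j : Fin 36, cc i j = 0 ∧
    w = sW i * sW j} = WP := by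
  set H := Subgroup.closure {w : W | ∃ i j : Fin 36, cc i j = 0 ∧ w = sW i * sW j} with hH
  have hgen : ∀ i j : Fin 36, cc i j = 0 → sW i * sW j ∈ H := fun i j h =>
    Subgroup.subset_closure ⟨i, j, h, rfl⟩
  have hall : ∀ i j : Fin 36, sW i * sW j ∈ H := by
    intro i j
    obtain ⟨k, h1, h2⟩ := p0_orth i j
    have h3 : sW i * sW j = (sW i * sW k) * (sW k * sW j) := by
      rw [mul_assoc, ← mul_assoc (sW k), sW_mul_self, one_mul]
    rw [h3]
    exact mul_mem (hgen i k h1) (hgen k j h2)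
  apply le_antisymm
  · rw [hH, Subgroup.closure_le]
    rintro w ⟨i, j, _, rfl⟩
    change eZ (sW i * sW j) = 1
    rw [eZ_mul, eZ_sW, eZ_sW]
    norm_num
  · have key : ∀ w : W, (eZ w = 1 → w ∈ H) ∧ (eZ w = -1 → ∀ i, sW i * w ∈ H) := by
      intro w
      have hw : w ∈ Subgroup.closure (Set.range sW) := by rw [closure_sW]; trivial
      have step : ∀ (i : Fin 36) (w : W), ((eZ w = 1 → w ∈ H) ∧
          (eZ w = -1 → ∀ i, sW i * w ∈ H)) → ((eZ (sW i * w) = 1 → sW i * w ∈ H) ∧
          (eZ (sW i * w) = -1 → ∀ k, sW k * (sW i * w) ∈ H)) := by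
        intro i w hw
        rw [eZ_mul, eZ_sW]
        refine ⟨fun h => hw.2 (by linarith) i, fun h k => ?_⟩
        rw [← mul_assoc]
        exact mul_mem (hall k i) (hw.1 (by linarith))
      induction hw using Subgroup.closure_induction_left with
      | one =>
        refine ⟨fun _ => one_mem _, fun h => ?_⟩
        rw [eZ_one] at h
        norm_num at h
      | mul_left x hx y _ ih =>
        obtain ⟨i, rfl⟩ := hx
        exact step i y ih
      | inv_mul_cancel x hx y _ ih =>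
        obtain ⟨i, rfl⟩ := hx
        rw [sW_inv]
        exact step i y ih
    intro w hw
    exact (key w).1 hw

/-- The rotation group is transitive on the 27 weights. -/
theorem WP_transitive (a b : Fin 27) : ∃ w ∈ WP, w • a = b := by
  have h0 : ∀ i j : Fin 36, sW i * sW j ∈ WP := by
    intro i j
    change eZ (sW i * sW j) = 1
    rw [eZ_mul, eZ_sW, eZ_sW]
    norm_num
  rcases gg_cases a b with ⟨h, _⟩ | ⟨h, _⟩ | ⟨_, rfl⟩
  · obtain ⟨c, h1, h2⟩ := p0_two a b h
    rw [gg_comm] at h1 h2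
    exact ⟨_, h0 (ix b c) (ix c a), by
      rw [mul_smul, sW_smul, sW_smul, sT_ix c a h1, sT_ix b c h2]⟩
  · obtain ⟨k, hk⟩ := p0_fix a
    rw [gg_comm] at h
    exact ⟨_, h0 (ix b a) k, by rw [mul_smul, sW_smul, sW_smul, hk, sT_ix b a h]⟩
  · exact ⟨1, one_mem _, one_smul _ _⟩

end Pool.Agent.Lib.MP_12adaf_nt.E6
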