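import Pool.Agent.Lib.MP_12adaf_ntE6.E01
import Pool.Agent.Lib.MP_12adaf_ntE6.E06a

/-!
# The ten weights collinear with a weight: tables and kernel checks
-/

namespace Pool.Agent.Lib.MP_12adaf_nt.E6

/-- Table: five weights, one in each of the five trios of `b`. -/
def p2L : List (List ℕ) := [
  [3, 10, 11, 14, 15],
  [2, 10, 11, 12, 13],
  [1, 8, 9, 14, 15],
  [0, 8, 9, 12, 13],
  [7, 9, 11, 13, 15],
  [6, 9, 11, 12, 14],
  [5, 8, 10, 13, 15],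
  [4, 8, 10, 12, 14],
  [2, 3, 6, 7, 11],
  [2, 3, 4, 5, 10],
  [0, 1, 6, 7, 9],
  [0, 1, 4, 5, 8],
  [1, 3, 5, 7, 15],
  [1, 3, 4, 6, 14],
  [0, 2, 5, 7, 13],
  [0, 2, 4, 6, 12],
  [2, 3, 5, 7, 19],
  [2, 3, 4, 6, 18],
  [0, 1, 5, 7, 17],
  [0, 1, 4, 6, 16],
  [1, 3, 6, 7, 23],
  [1, 3, 4, 5, 22],
  [0, 2, 6, 7, 21],
  [0, 2, 4, 5, 20],
  [0, 1, 4, 5, 25],
  [8, 9, 12, 13, 24],
  [16, 17, 20, 21, 24]]

def p2r (b : Fin 27) (i : Fin 5) : Fin 27 := Fin.ofNat 27 ((p2L.getD b []).getD i 0)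

/-- packed `p2r`, five bits per entry -/
private def p2N : ℕ :=
  0x62b48c30d6251929020a1482054e6102c520c373986181881044e50824620c533946261882034e5101c620c2f3946141481024e60814520c4b398627314823daa415cc5a4cf6ad276b12803dc9405ac5a84f72d43

/-- packed `p2r` -/
private def p2p (b i : ℕ) : ℕ :=
  Nat.mod (Nat.shiftRight p2N (Nat.mul 5 (Nat.add (Nat.mul 5 b) i))) 32

private theorem p2p_eq : ∀ (b : Fin 27) (i : Fin 5), (p2r b i : ℕ) = p2p b i := by decide +kernel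

private lemma p2_g0 {a b : Fin 27} : gg a b = 0 ↔ Pk.g a b = 0 := by
  have h := Pk.g_eq a b
  omega

private lemma p2_g1 {a b : Fin 27} : gg a b = 1 ↔ Pk.g a b = 1 := by
  have h := Pk.g_eq a b
  omega

private lemma p2_gg {a b c d : Fin 27} (h : Pk.g a b ≠ Pk.g c d) : gg a b ≠ gg c d := by
  have h1 := Pk.g_eq a b
  have h2 := Pk.g_eq c d
  omega

private lemma p2_nb {x : ℕ} {y : ℕ} (h : x ≠ y) : Nat.beq x y = false := by
  cases h0 : Nat.beq x y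
  · rfl
  · exact absurd (Pk.of_beq h0) h

theorem p2_rep0 : ∀ (b : Fin 27) (i : Fin 5), gg b (p2r b i) = 0 := by decide +kernel

/-- negation -/
private noncomputable def p2n (x : Bool) : Bool := @Bool.rec (fun _ => Bool) true false x

private lemma p2n_spec {m n : ℕ} (h : p2n (Nat.beq m n) = true) : m ≠ n := by
  intro h1
  rw [Pk.beq_of h1] at h
  exact absurd h Bool.false_ne_true

private lemma p2n_of {m n : ℕ} (h : m ≠ n) : p2n (Nat.beq m n) = true := by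
  rw [p2_nb h]
  rfl

/-- the check of `p2_rep` -/
private noncomputable def p2_repC : Bool :=
  Pk.allB (fun b => Pk.allB (fun c => Pk.impB (Nat.beq (Pk.g b c) 0) (Pk.anyB (fun i =>
    p2n (Nat.beq (Pk.g c (p2p b i)) 1)) 5)) 27) 27

private theorem p2_repC_true : p2_repC = true := by decide +kernel

theorem p2_rep : ∀ b c : Fin 27, gg b c = 0 → ∃ i : Fin 5, gg c (p2r b i) ≠ 1 := by
  intro b c h
  obtain ⟨i, hi, h1⟩ := Pk.anyB_spec (Pk.impB_spec (Pk.allB_spec (Pk.allB_spec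
    p2_repC_true b b.2) c c.2) (Pk.beq_of (p2_g0.1 h)))
  have h2 : p2p b i = (p2r b ⟨i, hi⟩ : ℕ) := (p2p_eq b ⟨i, hi⟩).symm
  rw [h2] at h1
  exact ⟨⟨i, hi⟩, fun h3 => p2n_spec h1 (p2_g1.1 h3)⟩

/-- the check of `p2_trans` -/
private noncomputable def p2_transC : Bool :=
  Pk.allB (fun b => Pk.allB (fun x => Pk.impB (Nat.beq (Pk.g b x) 0) (Pk.allB (fun c =>
    Pk.impB (Nat.beq (Pk.g b c) 0) (Pk.impB (p2n (Nat.beq (Pk.g c x) 1)) (Pk.allB (fun d =>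
      Pk.impB (Nat.beq (Pk.g b d) 0) (Pk.impB (p2n (Nat.beq (Pk.g d x) 1))
        (p2n (Nat.beq (Pk.g c d) 1)))) 27))) 27)) 27) 27

private theorem p2_transC_true : p2_transC = true := by decide +kernel

theorem p2_trans : ∀ b x : Fin 27, gg b x = 0 → ∀ c, gg b c = 0 → gg c x ≠ 1 →
    ∀ d, gg b d = 0 → gg d x ≠ 1 → gg c d ≠ 1 := by
  intro b x h1 c h2 h3 d h4 h5 h6
  have g1 := Pk.impB_spec (Pk.allB_spec (Pk.allB_spec p2_transC_true b b.2) x x.2)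
    (Pk.beq_of (p2_g0.1 h1))
  have g2 := Pk.impB_spec (Pk.impB_spec (Pk.allB_spec g1 c c.2) (Pk.beq_of (p2_g0.1 h2)))
    (p2n_of fun h => h3 (p2_g1.2 h))
  have g3 := Pk.impB_spec (Pk.impB_spec (Pk.allB_spec g2 d d.2) (Pk.beq_of (p2_g0.1 h4)))
    (p2n_of fun h => h5 (p2_g1.2 h))
  exact p2n_spec g3 (p2_g1.1 h6)

/-- the check of `p2_unique` -/
private noncomputable def p2_uniqueC : Bool :=
  Pk.allB (fun b => Pk.allB (fun c => Pk.impB (Nat.beq (Pk.g b c) 0) (Pk.allB (fun x =>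
    Pk.impB (Nat.beq (Pk.g b x) 0) (Pk.impB (Nat.beq (Pk.g c x) 0) (Pk.allB (fun y =>
      Pk.impB (Nat.beq (Pk.g b y) 0) (Pk.impB (Nat.beq (Pk.g c y) 0)
        (Nat.beq x y))) 27))) 27)) 27) 27

private theorem p2_uniqueC_true : p2_uniqueC = true := by decide +kernel

theorem p2_unique : ∀ b c : Fin 27, gg b c = 0 → ∀ x, gg b x = 0 → gg c x = 0 →
    ∀ y, gg b y = 0 → gg c y = 0 → x = y := by
  intro b c h1 x h2 h3 y h4 h5
  have g1 := Pk.impB_spec (Pk.allB_spec (Pk.allB_spec p2_uniqueC_true b b.2) c c.2)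
    (Pk.beq_of (p2_g0.1 h1))
  have g2 := Pk.impB_spec (Pk.impB_spec (Pk.allB_spec g1 x x.2) (Pk.beq_of (p2_g0.1 h2)))
    (Pk.beq_of (p2_g0.1 h3))
  have g3 := Pk.impB_spec (Pk.impB_spec (Pk.allB_spec g2 y y.2) (Pk.beq_of (p2_g0.1 h4)))
    (Pk.beq_of (p2_g0.1 h5))
  exact Fin.ext (Pk.of_beq g3)

/-- the check of `p2_half` -/
private noncomputable def p2_halfC : Bool :=
  Pk.allB (fun b => Pk.allB (fun c => Pk.impB (Nat.beq (Pk.g b c) 0) (Pk.allB (fun x =>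
    Pk.impB (Nat.beq (Pk.g b x) 0) (Pk.impB (Nat.beq (Pk.g c x) 0) (Pk.allB (fun s =>
      Pk.impB (Nat.beq (Pk.g b s) 1) (p2n (Nat.beq (Pk.g s c) (Pk.g s x)))) 27))) 27)) 27) 27

private theorem p2_halfC_true : p2_halfC = true := by decide +kernel

theorem p2_half : ∀ b c : Fin 27, gg b c = 0 → ∀ x, gg b x = 0 → gg c x = 0 →
    ∀ s, gg b s = 1 → gg s c ≠ gg s x := by
  intro b c h1 x h2 h3 s h4
  have g1 := Pk.impB_spec (Pk.allB_spec (Pk.allB_spec p2_halfC_true b b.2) c c.2)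
    (Pk.beq_of (p2_g0.1 h1))
  have g2 := Pk.impB_spec (Pk.impB_spec (Pk.allB_spec g1 x x.2) (Pk.beq_of (p2_g0.1 h2)))
    (Pk.beq_of (p2_g0.1 h3))
  exact p2_gg (p2n_spec (Pk.impB_spec (Pk.allB_spec g2 s s.2) (Pk.beq_of (p2_g1.1 h4))))

/-- the check of `p2_two24` -/
private noncomputable def p2_twoC : Bool :=
  Pk.allB (fun s => Pk.impB (Nat.beq (Pk.g 24 s) 1) (Pk.allB (fun t =>
    Pk.impB (Nat.beq (Pk.g 24 t) 1) (Pk.impB (p2n (Nat.beq s t)) (Pk.anyB (fun d =>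
      Pk.conB (Nat.beq (Pk.g 24 d) 0) (Pk.conB (p2n (Nat.beq (Pk.g d s) (Pk.g d t)))
        (Pk.anyB (fun e => Pk.conB (Nat.beq (Pk.g 24 e) 0) (Pk.conB (Nat.beq (Pk.g d e) 1)
          (p2n (Nat.beq (Pk.g e s) (Pk.g e t))))) 27))) 27))) 27)) 27

private theorem p2_twoC_true : p2_twoC = true := by decide +kernel

private theorem p2_two24 : ∀ s : Fin 27, gg 24 s = 1 → ∀ t, gg 24 t = 1 → s ≠ t →
    ∃ d, gg 24 d = 0 ∧ gg d s ≠ gg d t ∧ ∃ e, gg 24 e = 0 ∧ gg d e = 1 ∧ gg e s ≠ gg e t := by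
  intro s h1 t h2 h3
  obtain ⟨d, hd, g⟩ := Pk.anyB_spec (Pk.impB_spec (Pk.impB_spec (Pk.allB_spec (Pk.impB_spec
    (Pk.allB_spec p2_twoC_true s s.2) (Pk.beq_of (p2_g1.1 h1))) t t.2) (Pk.beq_of (p2_g1.1 h2)))
    (p2n_of fun h => h3 (Fin.ext h)))
  obtain ⟨g1, g⟩ := Pk.conB_spec g
  obtain ⟨g2, g⟩ := Pk.conB_spec g
  obtain ⟨e, he, g⟩ := Pk.anyB_spec g
  obtain ⟨g3, g⟩ := Pk.conB_spec g
  obtain ⟨g4, g5⟩ := Pk.conB_spec g
  exact ⟨⟨d, hd⟩, p2_g0.2 (Pk.of_beq g1), p2_gg (p2n_spec g2), ⟨e, he⟩, p2_g0.2 (Pk.of_beq g3),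
    p2_g1.2 (Pk.of_beq g4), p2_gg (p2n_spec g5)⟩

theorem p2_two : ∀ b s : Fin 27, gg b s = 1 → ∀ t, gg b t = 1 → s ≠ t →
    ∃ d, gg b d = 0 ∧ gg d s ≠ gg d t ∧ ∃ e, gg b e = 0 ∧ gg d e = 1 ∧ gg e s ≠ gg e t := by
  intro b s hs t ht hst
  obtain ⟨w, hw⟩ := el_exists b
  have key : ∀ x, gg 24 (w⁻¹ • x) = gg b x := fun x => by
    rw [← gg_smul w, smul_inv_smul, hw]
  have key2 : ∀ x y, gg (w • x) y = gg x (w⁻¹ • y) := fun x y => by
    rw [← gg_smul w x, smul_inv_smul]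
  obtain ⟨d, h1, h2, e, h3, h4, h5⟩ := p2_two24 (w⁻¹ • s) (by rw [key, hs]) (w⁻¹ • t)
    (by rw [key, ht]) (fun h => hst (smul_left_cancel _ h))
  refine ⟨w • d, ?_, ?_, w • e, ?_, ?_, ?_⟩
  · rw [← key, inv_smul_smul, h1]
  · rw [key2, key2]
    exact h2
  · rw [← key, inv_smul_smul, h3]
  · rw [gg_smul, h4]
  · rw [key2, key2]
    exact h5

theorem p2_card : ∀ b : Fin 27, (Finset.univ.filter fun c => gg b c = 0).card = 10 := by
  decide +kernel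

theorem p2_card2 : ∀ b c : Fin 27, gg b c = 0 →
    (Finset.univ.filter fun x => gg b x = 0 ∧ gg c x ≠ 1).card ≤ 2 := by
  intro b c h
  by_cases h1 : ∃ x, gg b x = 0 ∧ gg c x = 0
  · obtain ⟨x, h2, h3⟩ := h1
    refine le_trans (Finset.card_le_card (t := {c, x}) ?_) Finset.card_le_two
    intro y hy
    obtain ⟨_, h4, h5⟩ := Finset.mem_filter.1 hy
    rw [Finset.mem_insert, Finset.mem_singleton]
    rcases gg_cases c y with ⟨h6, _⟩ | ⟨h6, _⟩ | ⟨_, h6⟩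
    · exact Or.inr (p2_unique b c h y h4 h6 x h2 h3)
    · exact absurd h6 h5
    · exact Or.inl h6.symm
  · refine le_trans (Finset.card_le_card (t := {c}) ?_) (by rw [Finset.card_singleton]; omega)
    intro y hy
    obtain ⟨_, h4, h5⟩ := Finset.mem_filter.1 hy
    rw [Finset.mem_singleton]
    rcases gg_cases c y with ⟨h6, _⟩ | ⟨h6, _⟩ | ⟨_, h6⟩
    · exact absurd ⟨y, h4, h6⟩ h1
    · exact absurd h6 h5
    · exact h6.symm

private theorem p2_card24 : ∀ d : Fin 27, gg 24 d = 0 → ∀ e, gg 24 e = 0 → gg d e = 1 →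
    (Finset.univ.filter fun x => gg 24 x = 0 ∧ gg d x = 1 ∧ gg e x = 1).card ≤ 6 := by
  decide +kernel

theorem p2_card6 : ∀ b d : Fin 27, gg b d = 0 → ∀ e, gg b e = 0 → gg d e = 1 →
    (Finset.univ.filter fun x => gg b x = 0 ∧ gg d x = 1 ∧ gg e x = 1).card ≤ 6 := by
  intro b d hd e he hde
  obtain ⟨w, hw⟩ := el_exists b
  have key : ∀ x, gg 24 (w⁻¹ • x) = gg b x := fun x => by
    rw [← gg_smul w, smul_inv_smul, hw]
  refine le_trans (Finset.card_le_card_of_injOn (fun x => w⁻¹ • x) ?_ ?_)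
    (p2_card24 (w⁻¹ • d) (by rw [key, hd]) (w⁻¹ • e) (by rw [key, he]) (by rw [gg_smul, hde]))
  · intro x hx
    rw [Finset.mem_coe, Finset.mem_filter] at hx ⊢
    refine ⟨Finset.mem_univ _, by rw [key]; exact hx.2.1, ?_, ?_⟩
    · rw [gg_smul]
      exact hx.2.2.1
    · rw [gg_smul]
      exact hx.2.2.2
  · intro x _ y _ h
    exact smul_left_cancel _ h

end Pool.Agent.Lib.MP_12adaf_nt.E6
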