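import Pool.Agent.Lib.MP_12adaf_ntNS.P0
import Pool.Agent.Lib.MP_12adaf_ntNS.P2t

/-!
# Elementary abelian subgroups of order 16 in the rotation group of type `E₆`
-/

namespace Pool.Agent.Lib.MP_12adaf_nt.E6

open Finset

private lemma fixg {b : Fin 27} {w : W} (hb : w • b = b) (c : Fin 27) :
    gg b (w • c) = gg b c := by
  have h := gg_smul w b c
  rwa [hb] at h

/-- The group `TT b` consists of all the elements of the Weyl group which fix `b` and its five
trios. -/
private lemma mem_TT_of {b : Fin 27} {w : W} (hb : w • b = b)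
    (h : ∀ c, gg b c = 0 → gg c (w • c) ≠ 1) : w ∈ TT b := by
  obtain ⟨s, hs⟩ := p0_some b
  obtain ⟨t, ht, hts⟩ := TT_orbit hs (show gg b (w • s) = 1 by rw [fixg hb, hs])
  have ht' : InT b t := ht
  have h1 : t⁻¹ * w = 1 := by
    refine eq_one_of_fix10 (a := b) ?_ fun c hc => ?_
    · rw [mul_smul, hb, inv_smul_eq_iff, ht'.2.1]
    · rw [mul_smul]
      set x := t⁻¹ • w • c with hx
      have hxw : t • x = w • c := by rw [hx, smul_inv_smul]
      have hbx : gg b x = 0 := by
        have h2 := gg_smul t b x
        rw [ht'.2.1, hxw, fixg hb, hc] at h2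
        exact h2.symm
      -- `x` is in the trio of `c`
      have hcx : gg c x ≠ 1 := by
        have h3 : gg (t • x) x ≠ 1 := by
          rcases ht'.2.2 x hbx with h4 | h4
          · rw [h4, gg_self]; norm_num
          · intro h5
            rcases gg_cases x (t • x) with ⟨h6, _⟩ | ⟨_, h6⟩ | ⟨h6, _⟩
            · rw [gg_comm] at h6; rw [h6] at h5; norm_num at h5
            · have h7 : gg x (t • x) = 0 := (gg_zero_iff _ _ h6).mpr
                ⟨b, fun j => by have h8 := h4 j; omega⟩
              rw [gg_comm, h5] at h7; norm_num at h7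
            · rw [gg_comm] at h6; rw [h6] at h5; norm_num at h5
        rw [hxw] at h3
        refine p2_trans b (w • c) ?_ c hc (h c hc) x hbx ?_
        · rw [fixg hb, hc]
        · rwa [gg_comm]
      have hs2 : gg s x = gg s c := by
        have h4 := gg_smul w s c
        rw [← hts, ← hxw, gg_smul] at h4
        exact h4
      rcases gg_cases c x with ⟨h5, _⟩ | ⟨h5, _⟩ | ⟨_, h5⟩
      · exact absurd hs2.symm (p2_half b c hc x hbx h5 s hs)
      · exact absurd h5 hcx
      · exact h5.symm
  rw [inv_mul_eq_one] at h1
  rwa [← h1]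

/-- An element which fixes `b` and the weights of four of its trios is trivial. -/
private lemma eq_one_of_fix8 {b x : Fin 27} {w : W} (hb : w • b = b) (hx : gg b x = 0)
    (h : ∀ c, gg b c = 0 → gg c x = 1 → w • c = c) : w = 1 := by
  have h1 : ∀ s, gg b s = 1 → w • s = s := by
    intro s hs
    by_contra hne
    obtain ⟨d, hd, hds, e, he, hde, hes⟩ := p2_two b s hs (w • s) (by rw [fixg hb, hs])
      fun h' => hne h'.symm
    have key : ∀ d, gg b d = 0 → gg d s ≠ gg d (w • s) → gg d x ≠ 1 := by
      intro d hd hds hdx
      have h2 := gg_smul w d s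
      rw [h d hd hdx] at h2
      exact hds h2.symm
    exact p2_trans b x hx d hd (key d hd hds) e he (key e he hes) hde
  refine eq_one_of_fix10 hb fun c hc => ?_
  refine p0_sep1 b (w • c) (by rw [fixg hb, hc]) c hc fun d hd => ?_
  have h2 := gg_smul w d c
  rwa [h1 d hd] at h2

/-- A rotation of order two which fixes `b` and moves a trio moves four of them. -/
private lemma exists_moved {b c : Fin 27} {w : W} (hb : w • b = b) (hw : w * w = 1)
    (he : eZ w = 1) (hc : gg b c = 0) (hcw : gg c (w • c) = 1) :
    ∃ d, gg b d = 0 ∧ gg d c = 1 ∧ gg d (w • c) = 1 ∧ gg d (w • d) = 1 := by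
  by_contra hno
  have hww : ∀ a : Fin 27, w • w • a = a := fun a => by rw [← mul_smul, hw, one_smul]
  set r := sW (ix c (w • c)) with hr
  have r2 : r • w • c = c := by rw [hr, sW_smul, sT_ix _ _ hcw]
  have rr : ∀ a : Fin 27, r • r • a = a := fun a => by
    rw [hr, ← mul_smul, sW_mul_self, one_smul]
  have r1 : r • c = w • c := by
    have h1 := rr (w • c)
    rwa [r2] at h1
  have rfix : ∀ a, gg a c = gg a (w • c) → r • a = a := fun a ha => by
    rw [hr, sW_smul, sT_ix_fix _ _ _ hcw ha]
  have hbw : gg b (w • c) = 0 := by rw [fixg hb, hc]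
  have rb : r • b = b := rfix b (by rw [hc, hbw])
  have hrw : r * w ∈ TT b := by
    refine mem_TT_of (by rw [mul_smul, hb, rb]) fun a ha => ?_
    rw [mul_smul]
    have hbr : gg b (r • w • a) = 0 := by rw [fixg rb, fixg hb, ha]
    rcases gg_cases a c with ⟨h1, _⟩ | ⟨h1, _⟩ | ⟨_, h1⟩
    · -- the partner of `c`
      have h2 : gg c (r • w • a) = 0 := by
        have h3 := gg_smul r (w • c) (w • a)
        rw [r2, gg_smul w, gg_comm c a, h1] at h3
        exact h3
      have h4 : r • w • a = a := p2_unique b c hc _ hbr h2 a ha (by rw [gg_comm, h1])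
      rw [h4, gg_self]
      norm_num
    · rcases gg_cases a (w • c) with ⟨h5, _⟩ | ⟨h5, _⟩ | ⟨_, h5⟩
      · -- the partner of `w • c`
        have h2 : gg (w • c) (r • w • a) = 0 := by
          have h3 := gg_smul r c (w • a)
          have h6 := gg_smul w (w • c) a
          rw [hww, gg_comm (w • c) a, h5] at h6
          rw [h6, r1] at h3
          exact h3
        have h4 : r • w • a = a := p2_unique b (w • c) hbw _ hbr h2 a ha (by rw [gg_comm, h5])
        rw [h4, gg_self]
        norm_num
      · have h6 : r • a = a := rfix a (by rw [h1, h5])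
        have h7 : gg a (r • w • a) = gg a (w • a) := by
          have h8 := gg_smul r a (w • a)
          rwa [h6] at h8
        rw [h7]
        intro h8
        exact hno ⟨a, ha, h1, h5, h8⟩
      · rw [h5, hww, r1, gg_self]
        norm_num
    · rw [h1, r2, gg_self]
      norm_num
  have h1 : InT b (r * w) := hrw
  have h2 := h1.1
  rw [eZ_mul, he, hr, eZ_sW] at h2
  norm_num at h2

/-- There are only five trios. -/
private lemma no_six {b : Fin 27} (x : Fin 6 → Fin 27) (h0 : ∀ i, gg b (x i) = 0)
    (h1 : ∀ i j, i < j → gg (x i) (x j) = 1) : False := by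
  choose f hf using fun i => p2_rep b (x i) (h0 i)
  have key : ∀ i j, i < j → f i ≠ f j := by
    intro i j hij hfe
    refine p2_trans b (p2r b (f i)) (p2_rep0 b _) (x i) (h0 i) (hf i) (x j) (h0 j) ?_
      (h1 i j hij)
    rw [hfe]
    exact hf j
  obtain ⟨i, j, hij, hfe⟩ := Fintype.exists_ne_map_eq_of_card_lt f (by simp)
  rcases lt_or_gt_of_ne hij with h | h
  · exact key i j h hfe
  · exact key j i h hfe.symm

/-- **Uniqueness of `2⁴` in the stabilizer of a weight.**
Proof.  Let `u` be an element of `V` which is not in `TT b`; it moves the trio of a weight `c`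
collinear with `b`, and by `exists_moved` also the trio of a second weight `d`.  The stabilizer of
`c` in `V` fixes `c` and `u • c`, so it fixes the trio of `d` (`exists_moved`, there are only five
trios) and an element of it which fixes `d` is trivial.  So the stabilizer has at most two
elements, the orbit of `c` under `V` has at least eight, and an element of the stabilizer fixes it
pointwise, so it is trivial, and the orbit has sixteen elements: a contradiction. -/
theorem eq_TT {V : Subgroup W} (hV : V ≤ WP) (hcomm : ∀ u ∈ V, ∀ v ∈ V, u * v = v * u)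
    (hsq : ∀ u ∈ V, u * u = 1) (hcard : Nat.card V = 16) {b : Fin 27}
    (hb : ∀ u ∈ V, u • b = b) : V = TT b := by
  classical
  suffices hle : V ≤ TT b by
    refine Subgroup.eq_of_le_of_card_ge hle ?_
    rw [card_TT, hcard]
  intro u hu
  by_contra hnot
  have hex : ∃ c, gg b c = 0 ∧ gg c (u • c) = 1 := by
    by_contra hno
    exact hnot (mem_TT_of (hb u hu) fun c hc h => hno ⟨c, hc, h⟩)
  obtain ⟨c, hc, hcu⟩ := hex
  obtain ⟨d, hd, hdc, hdcu, hdu⟩ := exists_moved (hb u hu) (hsq u hu) (hV hu) hc hcu
  have huu : ∀ a : Fin 27, u • u • a = a := fun a => by rw [← mul_smul, hsq u hu, one_smul]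
  -- two elements of `V` commute
  have hcom : ∀ v ∈ V, ∀ t ∈ V, ∀ a : Fin 27, v • t • a = t • v • a := by
    intro v hv t ht a
    rw [← mul_smul, hcomm v hv t ht, mul_smul]
  have hcu' : gg b (u • c) = 0 := by rw [fixg (hb u hu), hc]
  -- the stabilizer of `c` fixes the trio of `d`
  have h1 : ∀ t ∈ V, t • c = c → gg d (t • d) ≠ 1 := by
    intro t ht htc hdt
    have htt : ∀ a : Fin 27, t • t • a = a := fun a => by rw [← mul_smul, hsq t ht, one_smul]
    have htcu : t • u • c = u • c := by rw [hcom t ht u hu, htc]
    obtain ⟨e, he, hed, hedt, het⟩ := exists_moved (hb t ht) (hsq t ht) (hV ht) hd hdt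
    -- a weight fixed by `t`, and a weight moved by `t` to another trio
    have key : ∀ y, gg b y = 0 → t • y = y → ∀ z, gg b z = 0 → gg z (t • z) = 1 →
        gg y z = 1 ∧ gg y (t • z) = 1 := by
      intro y hy hty z hz hzt
      have h2 : gg y (t • z) = gg y z := by
        have h3 := gg_smul t y z
        rwa [hty] at h3
      rw [h2]
      refine ⟨?_, ?_⟩ <;>
      · rcases gg_cases y z with ⟨h4, _⟩ | ⟨h4, _⟩ | ⟨_, h4⟩
        · have h5 : t • z = z := p2_unique b y hy (t • z) (by rw [fixg (hb t ht), hz])
            (by rw [h2, h4]) z hz h4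
          rw [h5, gg_self] at hzt
          norm_num at hzt
        · exact h4
        · rw [← h4, hty, gg_self] at hzt
          norm_num at hzt
    have k1 := key c hc htc d hd hdt
    have k2 := key c hc htc e he het
    have k3 := key (u • c) hcu' htcu d hd hdt
    have k4 := key (u • c) hcu' htcu e he het
    have k5 : gg (t • d) e = 1 := by rw [gg_comm, hedt]
    have k6 : gg (t • d) (t • e) = 1 := by rw [gg_smul, gg_comm, hed]
    have k7 : gg d (t • e) = 1 := by
      have h3 := gg_smul t d (t • e)
      rw [htt, k5] at h3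
      exact h3.symm
    refine no_six (b := b) ![c, u • c, d, t • d, e, t • e] ?_ ?_
    · intro i
      fin_cases i
      · exact hc
      · exact hcu'
      · exact hd
      · change gg b (t • d) = 0
        rw [fixg (hb t ht), hd]
      · exact he
      · change gg b (t • e) = 0
        rw [fixg (hb t ht), he]
    · intro i j hij
      fin_cases i <;> fin_cases j <;> first
        | exact absurd hij (by decide)
        | exact hcu
        | exact k1.1
        | exact k1.2
        | exact k2.1
        | exact k2.2
        | exact k3.1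
        | exact k3.2
        | exact k4.1
        | exact k4.2
        | exact hdt
        | exact (by rw [gg_comm]; exact hed : gg d e = 1)
        | exact k5
        | exact k6
        | exact k7
        | exact het
  -- fixed trios
  have fixp : ∀ t ∈ V, ∀ y, gg b y = 0 → t • y = y → ∀ z, gg b z = 0 → gg z y ≠ 1 →
      t • z = z := by
    intro t ht y hy hty z hz hzy
    rcases gg_cases z y with ⟨h4, _⟩ | ⟨h4, _⟩ | ⟨_, h4⟩
    · have h3 := gg_smul t y z
      rw [hty, gg_comm y z, h4] at h3
      exact p2_unique b y hy (t • z) (by rw [fixg (hb t ht), hz]) h3 z hz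
        (by rw [gg_comm, h4])
    · exact absurd h4 hzy
    · rw [h4, hty]
  have hdu' : gg b (u • d) = 0 := by rw [fixg (hb u hu), hd]
  -- an element of the stabilizer of `c` which fixes `d` is trivial
  have h2 : ∀ t ∈ V, t • c = c → t • d = d → t = 1 := by
    intro t ht htc htd
    have htcu : t • u • c = u • c := by rw [hcom t ht u hu, htc]
    have htdu : t • u • d = u • d := by rw [hcom t ht u hu, htd]
    by_contra hne
    have hex : ∃ x, gg b x = 0 ∧ t • x ≠ x := by
      by_contra hno
      push Not at hno
      exact hne (eq_one_of_fix10 (hb t ht) hno)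
    obtain ⟨x, hx, htx⟩ := hex
    refine hne (eq_one_of_fix8 (hb t ht) hx fun y hy hyx => ?_)
    by_contra hty
    have m : ∀ a, gg b a = 0 → t • a = a → ∀ z, gg b z = 0 → t • z ≠ z → gg a z = 1 := by
      intro a ha hta z hz htz
      by_contra h3
      rw [gg_comm] at h3
      exact htz (fixp t ht a ha hta z hz h3)
    have k1 : gg (u • c) (u • d) = 1 := by rw [gg_smul, gg_comm, hdc]
    have k2 : gg c (u • d) = 1 := by
      have h3 := gg_smul u c (u • d)
      rw [huu, gg_comm, hdcu] at h3
      exact h3.symm
    refine no_six (b := b) ![c, u • c, d, u • d, x, y] ?_ ?_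
    · intro i
      fin_cases i
      · exact hc
      · exact hcu'
      · exact hd
      · exact hdu'
      · exact hx
      · exact hy
    · intro i j hij
      fin_cases i <;> fin_cases j <;> first
        | exact absurd hij (by decide)
        | exact hcu
        | exact (by rw [gg_comm]; exact hdc : gg c d = 1)
        | exact k2
        | exact m c hc htc x hx htx
        | exact m c hc htc y hy hty
        | exact (by rw [gg_comm]; exact hdcu : gg (u • c) d = 1)
        | exact k1
        | exact m _ hcu' htcu x hx htx
        | exact m _ hcu' htcu y hy hty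
        | exact hdu
        | exact m d hd htd x hx htx
        | exact m d hd htd y hy hty
        | exact m _ hdu' htdu x hx htx
        | exact m _ hdu' htdu y hy hty
        | exact (by rw [gg_comm]; exact hyx : gg x y = 1)
  -- orders
  have hstab : Nat.card (MulAction.stabilizer V c) ≤ 2 := by
    let S : Finset (Fin 27) := univ.filter fun x => gg b x = 0 ∧ gg d x ≠ 1
    let f : MulAction.stabilizer V c → S := fun t => ⟨((t : V) : W) • d, by
      refine mem_filter.mpr ⟨mem_univ _, ?_, ?_⟩
      · rw [fixg (hb _ (t : V).2), hd]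
      · exact h1 _ (t : V).2 t.2⟩
    have hf : Function.Injective f := by
      intro t t' htt
      have h3 : ((t : V) : W) • d = ((t' : V) : W) • d := Subtype.ext_iff.mp htt
      have hc1 : ((t : V) : W) • c = c := t.2
      have hc2 : ((t' : V) : W) • c = c := t'.2
      have h4 : ((t' : V) : W)⁻¹ * ((t : V) : W) = 1 := by
        refine h2 _ (mul_mem (inv_mem (t' : V).2) (t : V).2) ?_ ?_
        · rw [mul_smul, hc1, inv_smul_eq_iff, hc2]
        · rw [mul_smul, h3, inv_smul_smul]
      exact Subtype.ext (Subtype.ext (inv_mul_eq_one.mp h4).symm)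
    calc Nat.card (MulAction.stabilizer V c) ≤ Nat.card S := Nat.card_le_card_of_injective f hf
      _ = S.card := by rw [Nat.card_eq_fintype_card, Fintype.card_coe]
      _ ≤ 2 := p2_card2 b d hd
  have hprod : Nat.card (MulAction.orbit V c) * Nat.card (MulAction.stabilizer V c) = 16 := by
    rw [← hcard, ← Nat.card_prod]
    exact (Nat.card_congr (MulAction.orbitProdStabilizerEquivGroup V c))
  have horb : ∀ S : Finset (Fin 27), (∀ v ∈ V, v • c ∈ S) →
      Nat.card (MulAction.orbit V c) ≤ S.card := by
    intro S hS
    have h3 : Nat.card (MulAction.orbit V c) ≤ Nat.card S := by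
      refine Nat.card_le_card_of_injective (fun a => ⟨(a : Fin 27), ?_⟩) ?_
      · obtain ⟨v, hv⟩ := a.2
        rw [← hv]
        exact hS _ v.2
      · intro a a' haa
        have h4 : (a : Fin 27) = a' := congrArg (fun y : S => (y : Fin 27)) haa
        exact Subtype.ext h4
    rwa [Nat.card_eq_fintype_card (α := S), Fintype.card_coe] at h3
  -- the orbit of `c` contains a weight of the trio of `d` or of `u • d`
  have hv : ∃ v ∈ V, gg d (v • c) ≠ 1 ∨ gg (u • d) (v • c) ≠ 1 := by
    by_contra hno
    push Not at hno
    have h3 := horb (univ.filter fun x => gg b x = 0 ∧ gg d x = 1 ∧ gg (u • d) x = 1)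
      fun v hv => mem_filter.mpr ⟨mem_univ _, by rw [fixg (hb v hv), hc], hno v hv⟩
    have h4 := p2_card6 b d hd (u • d) hdu' hdu
    have h5 : 0 < Nat.card (MulAction.stabilizer V c) := Nat.card_pos
    generalize Nat.card (MulAction.stabilizer V c) = n at *
    generalize Nat.card (MulAction.orbit V c) = m at *
    interval_cases n <;> omega
  obtain ⟨v, hv, hvd⟩ := hv
  have hbv : gg b (v • c) = 0 := by rw [fixg (hb v hv), hc]
  -- so the stabilizer is trivial
  have hone : ∀ t ∈ V, t • c = c → t = 1 := by
    intro t ht htc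
    have htv : t • v • c = v • c := by rw [hcom t ht v hv, htc]
    refine h2 t ht htc ?_
    rcases hvd with h3 | h3
    · exact fixp t ht (v • c) hbv htv d hd h3
    · have h4 := fixp t ht (v • c) hbv htv (u • d) hdu' h3
      rw [hcom t ht u hu] at h4
      exact MulAction.injective u h4
  have hstab1 : Nat.card (MulAction.stabilizer V c) = 1 := by
    rw [Nat.card_eq_one_iff_unique]
    refine ⟨⟨fun t t' => ?_⟩, ⟨1⟩⟩
    have h3 : ∀ t : MulAction.stabilizer V c, t = 1 := fun t =>
      Subtype.ext (Subtype.ext (hone _ (t : V).2 t.2))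
    rw [h3 t, h3 t']
  have h3 := horb (univ.filter fun x => gg b x = 0)
    fun v hv => mem_filter.mpr ⟨mem_univ _, by rw [fixg (hb v hv), hc]⟩
  rw [p2_card] at h3
  rw [hstab1, mul_one] at hprod
  omega

end Pool.Agent.Lib.MP_12adaf_nt.E6
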