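import Pool.Agent.Lib.MP_12adaf_ntNS.P4
import Pool.Agent.Lib.MP_12adaf_ntNS.N9

/-!
# Alternating groups and `PSp₄(3)` as composition factors
-/

namespace Pool.Agent.Lib.MP_12adaf_nt.NS

universe u

/-- The group `S` is isomorphic to an alternating group `Aₙ`, `n ≥ 5`, `n ≠ 6`, or to the rotation
subgroup of the Weyl group of type `E₆`, that is to `PSp₄(3)`. -/
def IsAltOrPSp43 (S : Type u) [Group S] : Prop :=
  (∃ n : ℕ, 5 ≤ n ∧ n ≠ 6 ∧ Nonempty (S ≃* alternatingGroup (Fin n))) ∨ Nonempty (S ≃* rotE6)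

theorem IsAltOrPSp43.of_equiv (S T : Type u) [Group S] [Group T] (e : S ≃* T)
    (h : IsAltOrPSp43 S) : IsAltOrPSp43 T := by
  rcases h with ⟨n, h1, h2, ⟨f⟩⟩ | h
  · exact Or.inl ⟨n, h1, h2, ⟨e.symm.trans f⟩⟩
  · obtain ⟨f⟩ := h
    exact Or.inr ⟨e.symm.trans f⟩

theorem IsAltOrPSp43.isGood (S : Type u) [Group S] (h : IsAltOrPSp43 S) : IsGood S := by
  rcases h with ⟨n, h1, h2, ⟨f⟩⟩ | h
  · exact isGood_alternating h1 h2 f
  · obtain ⟨f⟩ := h
    obtain ⟨e⟩ := nonempty_rotE6_equiv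
    exact isGood_rotE6 (f.trans e)

theorem goal_altOrPSp43 {K M G : Type u} [Field K] [Field M] [CharZero M] [Algebra K M]
    [Group G] [Finite G] [MulSemiringAction G M] [SMulCommClass G K M]
    [Algebra.IsInvariant K M G] (h : HasFactors IsAltOrPSp43 (kerSub M G)) : Goal K M G :=
  goal_of_factors IsAltOrPSp43.of_equiv IsAltOrPSp43.isGood _ K M G rfl h

end Pool.Agent.Lib.MP_12adaf_nt.NS
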